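import Mathlib

/-!
# Almost all generalized quasi-line graphs satisfy Hadwiger's conjecture: definitions and module
statements
-/

namespace Pool.Agent.Lib.MP_534936_co.AQ

open Finset

/-! ### Graphs -/

section graph

variable {V : Type*} [Fintype V] [DecidableEq V]

/-- `A` is a clique -/
def Cl (G : SimpleGraph V) (A : Finset V) : Prop :=
  ∀ a ∈ A, ∀ b ∈ A, a ≠ b → G.Adj a b

/-- `A` is stable -/
def St (G : SimpleGraph V) (A : Finset V) : Prop :=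
  ∀ a ∈ A, ∀ b ∈ A, ¬ G.Adj a b

/-- the neighbourhood of `u` inside `X` is a union of two cliques -/
def Bis (G : SimpleGraph V) (X : Finset V) (u : V) : Prop :=
  ∃ A B : Finset V, Cl G A ∧ Cl G B ∧ ∀ v, (v ∈ A ∨ v ∈ B) ↔ (v ∈ X ∧ G.Adj u v)

/-- generalized quasi-line graphs -/
def GQ (G : SimpleGraph V) : Prop :=
  ∀ X : Finset V, X.Nonempty → ∃ u ∈ X, Bis G X u

/-- a stable set and two cliques -/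
def Tem (G : SimpleGraph V) : Prop :=
  ∃ S A B : Finset V, (∀ v, v ∈ S ∨ v ∈ A ∨ v ∈ B) ∧ St G S ∧ Cl G A ∧ Cl G B

/-- `k` disjoint connected pairwise adjacent sets for `k` the chromatic number -/
def Had (G : SimpleGraph V) : Prop :=
  ∀ k : ℕ, G.chromaticNumber = (k : ℕ∞) →
    ∃ f : Fin k → Set V,
      (∀ i, (G.induce (f i)).Connected) ∧
      (∀ i j, i ≠ j →
        Disjoint (f i) (f j) ∧ ∃ x ∈ f i, ∃ y ∈ f j, G.Adj x y)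

open Classical in
/-- the neighbours of `x` -/
noncomputable def nb (G : SimpleGraph V) (x : V) : Finset V :=
  Finset.univ.filter fun v => G.Adj x v

open Classical in
/-- the common neighbours of `Q` outside `Q` -/
noncomputable def Cm (G : SimpleGraph V) (Q : Finset V) : Finset V :=
  Finset.univ.filter fun v => v ∉ Q ∧ ∀ q ∈ Q, G.Adj q v

open Classical in
/-- the common non-neighbours of `Q` outside `Q` -/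
noncomputable def Dm (G : SimpleGraph V) (Q : Finset V) : Finset V :=
  Finset.univ.filter fun v => v ∉ Q ∧ ∀ q ∈ Q, ¬ G.Adj q v

/-- `J` elements of `K` have few common neighbours and non-neighbours outside `K` -/
def Typ (G : SimpleGraph V) (J : ℕ) (t : ℝ) (K : Finset V) : Prop :=
  ∀ Q ⊆ K, Q.card = J → ((Cm G Q \ K).card : ℝ) < t ∧ ((Dm G Q \ K).card : ℝ) < t

/-- the bound used in the structure lemmas -/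
noncomputable def LL (J : ℕ) (t : ℝ) : ℝ := 40 * J * (t + J)

/-- the bound used in the structure lemmas -/
noncomputable def ff (J : ℕ) (t : ℝ) : ℝ := 8 * t + 8 * J

/-- two disjoint typical large cliques -/
structure Pair (G : SimpleGraph V) (J : ℕ) (t : ℝ) (K₁ K₂ : Finset V) : Prop where
  cl₁ : Cl G K₁
  cl₂ : Cl G K₂
  disj : Disjoint K₁ K₂
  typ₁ : Typ G J t K₁
  typ₂ : Typ G J t K₂
  one_le : 1 ≤ J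
  t_pos : 0 < t
  large₁ : LL J t ≤ K₁.card
  large₂ : LL J t ≤ K₂.card

/-- the vertices outside the two cliques -/
def W (K₁ K₂ : Finset V) : Finset V := Finset.univ \ (K₁ ∪ K₂)

open Classical in
/-- the number of cliques inside `X` -/
noncomputable def ncl (G : SimpleGraph V) (X : Finset V) : ℕ :=
  (X.powerset.filter fun A => Cl G A).card

/-- vertices of type 0: outside the cliques, few neighbours outside the cliques -/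
def T0 (G : SimpleGraph V) (l : ℝ) (K₁ K₂ : Finset V) (w : V) : Prop :=
  w ∉ K₁ ∧ w ∉ K₂ ∧ ((nb G w ∩ W K₁ K₂).card : ℝ) < 3 * l

/-- vertices of type 1: adjacent to almost all of `K₁` -/
def T1 (G : SimpleGraph V) (l : ℝ) (K₁ K₂ : Finset V) (w : V) : Prop :=
  w ∉ K₂ ∧ ((K₁ \ nb G w).card : ℝ) < l

/-- none of the atypical single vertices and pairs -/
structure Generic (G : SimpleGraph V) (l m : ℝ) (K₁ K₂ : Finset V) : Prop where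
  a₁ : ∀ w, T1 G l K₁ K₂ w → m ≤ (K₂ \ nb G w).card ∧ m ≤ (K₂ ∩ nb G w).card
  a₂ : ∀ w, T1 G l K₂ K₁ w → m ≤ (K₁ \ nb G w).card ∧ m ≤ (K₁ ∩ nb G w).card
  b₁ : ∀ s s', s ≠ s' → T0 G l K₁ K₂ s → T0 G l K₁ K₂ s' → m ≤ ((K₁ ∩ nb G s) \ nb G s').card
  b₂ : ∀ s s', s ≠ s' → T0 G l K₁ K₂ s → T0 G l K₁ K₂ s' → m ≤ ((K₂ ∩ nb G s) \ nb G s').card
  e₁ : ∀ w w', w ≠ w' → T1 G l K₁ K₂ w → T1 G l K₁ K₂ w' →
    m ≤ ((nb G w ∩ nb G w') ∩ W K₁ K₂).card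
  e₂ : ∀ w w', w ≠ w' → T1 G l K₂ K₁ w → T1 G l K₂ K₁ w' →
    m ≤ ((nb G w ∩ nb G w') ∩ W K₁ K₂).card

/-- the final structure: a stable set and two cliques around `K₁`, `K₂` -/
structure Fin3 (G : SimpleGraph V) (J : ℕ) (t m t₀ : ℝ) (K₁ K₂ S A B : Finset V) : Prop where
  cover : ∀ v, v ∈ S ∨ v ∈ A ∨ v ∈ B
  st : St G S
  clA : Cl G A
  clB : Cl G B
  disj : Disjoint A B
  sub₁ : K₁ ⊆ A
  sub₂ : K₂ ⊆ B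
  few₁ : ((A \ K₁).card : ℝ) < 2 * t₀
  few₂ : ((B \ K₂).card : ℝ) < 2 * t₀
  a₁ : ∀ w ∈ A, m ≤ (K₂ \ nb G w).card ∧ m ≤ (K₂ ∩ nb G w).card
  a₂ : ∀ w ∈ B, m ≤ (K₁ \ nb G w).card ∧ m ≤ (K₁ ∩ nb G w).card
  typ₁ : Typ G J t K₁
  typ₂ : Typ G J t K₂

end graph

/-! ### Deterministic lemmas (V in `Type`, all finite) -/

/-- L0, few neighbours -/
def L0a : Prop := ∀ (V : Type) [Fintype V] [DecidableEq V] (G : SimpleGraph V) (J : ℕ) (t f : ℝ)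
  (K X : Finset V), Typ G J t K → 1 ≤ J → 0 < t → 0 ≤ f → X ⊆ K → 2 * J * f + J ≤ (X.card : ℝ) →
  ∀ B : Finset V, Disjoint B K → (∀ v ∈ B, ((nb G v ∩ X).card : ℝ) ≤ f) → (B.card : ℝ) < 2 * t

/-- L0, few non-neighbours -/
def L0b : Prop := ∀ (V : Type) [Fintype V] [DecidableEq V] (G : SimpleGraph V) (J : ℕ) (t f : ℝ)
  (K X : Finset V), Typ G J t K → 1 ≤ J → 0 < t → 0 ≤ f → X ⊆ K → 2 * J * f + J ≤ (X.card : ℝ) →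
  ∀ B : Finset V, Disjoint B K → (∀ v ∈ B, ((X \ nb G v).card : ℝ) ≤ f) → (B.card : ℝ) < 2 * t

/-- L1 -/
def L1 : Prop := ∀ (V : Type) [Fintype V] [DecidableEq V] (G : SimpleGraph V) (J : ℕ) (t f : ℝ)
  (K X : Finset V), Typ G J t K → 1 ≤ J → 0 ≤ f → Disjoint X K → J * f + t ≤ (X.card : ℝ) →
  ∀ B ⊆ K, (∀ q ∈ B, ((nb G q ∩ X).card : ℝ) ≤ f) → B.card < J

/-- L2: `A` belongs to `K₁` and `B` belongs to `K₂` -/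
def Good2 {V : Type} [DecidableEq V] (G : SimpleGraph V) (t : ℝ) (K₁ K₂ A B : Finset V) : Prop :=
  Cl G A ∧ Cl G B ∧ ((A \ K₁).card : ℝ) < t ∧ ((B \ K₂).card : ℝ) < t

/-- L2 -/
def L2 : Prop := ∀ (V : Type) [Fintype V] [DecidableEq V] (G : SimpleGraph V) (J : ℕ) (t : ℝ)
  (K₁ K₂ Y A B : Finset V), Pair G J t K₁ K₂ → Cl G A → Cl G B → (∀ v, v ∈ Y ↔ v ∈ A ∨ v ∈ B) →
  2 * t + 2 * J ≤ ((Y ∩ K₁).card : ℝ) → 2 * t + 2 * J ≤ ((Y ∩ K₂).card : ℝ) →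
  Good2 G t K₁ K₂ A B ∨ Good2 G t K₁ K₂ B A

/-- L3 -/
def L3 : Prop := ∀ (V : Type) [Fintype V] [DecidableEq V] (G : SimpleGraph V) (J : ℕ) (t : ℝ)
  (K₁ K₂ : Finset V), GQ G → Pair G J t K₁ K₂ →
  ∀ K₃ : Finset V, K₃ ⊆ W K₁ K₂ → Cl G K₃ → (K₃.card : ℝ) < LL J t

/-- L4 -/
def L4 : Prop := ∀ (V : Type) [Fintype V] [DecidableEq V] (G : SimpleGraph V) (J : ℕ) (t : ℝ)
  (K₁ K₂ : Finset V), GQ G → Pair G J t K₁ K₂ →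
  ∀ w ∈ W K₁ K₂, LL J t ≤ ((K₁ \ nb G w).card : ℝ) → LL J t ≤ ((K₂ \ nb G w).card : ℝ) →
    ((nb G w ∩ W K₁ K₂).card : ℝ) < 3 * LL J t

/-- L5 -/
def L5 : Prop := ∀ (V : Type) [Fintype V] [DecidableEq V] (G : SimpleGraph V) (J : ℕ) (t : ℝ)
  (K₁ K₂ : Finset V), GQ G → Pair G J t K₁ K₂ →
  ∀ s ∈ W K₁ K₂, ∀ s' ∈ W K₁ K₂, s ≠ s' →
    LL J t ≤ (((K₁ ∩ nb G s) \ nb G s').card : ℝ) → LL J t ≤ (((K₁ ∩ nb G s') \ nb G s).card : ℝ) →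
    LL J t ≤ (((K₂ ∩ nb G s) \ nb G s').card : ℝ) → LL J t ≤ (((K₂ ∩ nb G s') \ nb G s).card : ℝ) →
    ¬ G.Adj s s'

/-- L6 -/
def L6 : Prop := ∀ (V : Type) [Fintype V] [DecidableEq V] (G : SimpleGraph V) (J : ℕ) (t : ℝ)
  (K₁ K₂ : Finset V), GQ G → Pair G J t K₁ K₂ →
  ∀ w w' : V, w ≠ w' → w ∉ K₂ → w' ∉ K₂ → ∀ S : Finset V, S ⊆ W K₁ K₂ → St G S →
    LL J t ≤ (S.card : ℝ) → S ⊆ nb G w → S ⊆ nb G w' →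
    LL J t ≤ ((K₂ \ nb G w).card : ℝ) → LL J t ≤ ((K₂ \ nb G w').card : ℝ) → G.Adj w w'

/-- L7 -/
def L7 : Prop := ∀ (V : Type) [Fintype V] [DecidableEq V] (G : SimpleGraph V) (J J₀ : ℕ)
  (t t₀ m : ℝ) (K₁ K₂ : Finset V), GQ G → Pair G J t K₁ K₂ → Typ G J₀ t₀ K₁ → Typ G J₀ t₀ K₂ →
  1 ≤ J₀ → 0 < t₀ → 2 * J₀ * LL J t + J₀ ≤ (K₁.card : ℝ) → 2 * J₀ * LL J t + J₀ ≤ (K₂.card : ℝ) →
  4 * t₀ + LL J t + 2 * t ≤ m → Generic G (LL J t) m K₁ K₂ →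
  ∃ S A B : Finset V, Fin3 G J t m t₀ K₁ K₂ S A B

/-- L8 -/
def L8 : Prop := ∀ (V : Type) [Fintype V] [DecidableEq V] (G : SimpleGraph V) (J : ℕ)
  (t m t₀ : ℝ) (K₁ K₂ S A B : Finset V), Fin3 G J t m t₀ K₁ K₂ S A B → 1 ≤ J → 0 < t → 0 < t₀ →
  (J : ℝ) + 2 * t₀ + t ≤ m → Had G

/-- L9 -/
def L9 : Prop := ∀ (V : Type) [Fintype V] [DecidableEq V] (G : SimpleGraph V) (X : Finset V),
  ∃ Y ⊆ X, Cl G Y ∧ (ncl G X) ^ 2 ≤ 4 ^ Y.card * 3 ^ (X.card - Y.card)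

/-- templates are generalized quasi-line -/
def TemGQ : Prop := ∀ (V : Type) [Fintype V] [DecidableEq V] (G : SimpleGraph V), Tem G → GQ G

/-! ### Counting -/

open Classical in
/-- the number of generalized quasi-line graphs on `Fin n` with a property -/
noncomputable def num (n : ℕ) (P : SimpleGraph (Fin n) → Prop) : ℕ :=
  (Finset.univ.filter fun G : SimpleGraph (Fin n) => GQ G ∧ P G).card

/-- the number of generalized quasi-line graphs on `Fin n` -/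
noncomputable def gg (n : ℕ) : ℕ := num n fun _ => True

/-- The class is small compared with the number of graphs on fewer points. -/
def Rare (P : ∀ n : ℕ, SimpleGraph (Fin n) → Prop) : Prop :=
  ∃ (c : ℝ) (k N : ℕ), 0 < c ∧ 0 < k ∧ ∀ n ≥ N, k ≤ n →
    (num n (P n) : ℝ) ≤ (2 : ℝ) ^ ((2 * (k : ℝ) / 3 - c) * n) * gg (n - k)

/-- a clique with too many common neighbours -/
def R1 (ε : ℝ) (K n : ℕ) (G : SimpleGraph (Fin n)) : Prop :=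
  ∃ Q : Finset (Fin n), Cl G Q ∧ Q.card = K ∧ (1 / 3 + ε) * n ≤ ((Cm G Q).card : ℝ)

/-- a bisimplicial vertex with few choices -/
def R2 (ε : ℝ) (K n : ℕ) (G : SimpleGraph (Fin n)) : Prop :=
  ¬ R1 ε K n G ∧ ∃ x, ∃ A B : Finset (Fin n), Cl G A ∧ Cl G B ∧
    (∀ v, (v ∈ A ∨ v ∈ B) ↔ G.Adj x v) ∧
    (A.card < K ∨ B.card < K ∨ ∃ Q₁ ⊆ A, ∃ Q₂ ⊆ B, Q₁.card = K ∧ Q₂.card = K ∧
      ((ncl G ((Cm G Q₁).erase x) : ℝ) * ncl G ((Cm G Q₂).erase x) ≤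
          (2 : ℝ) ^ ((2 / 3 - ε) * (n : ℝ)) ∨
        ((((Cm G Q₁).erase x) ∪ ((Cm G Q₂).erase x)).card : ℝ) ≤ (2 / 3 - ε) * n))

/-- two disjoint cliques of size about `n / 3` -/
def GP (ε : ℝ) (n : ℕ) (G : SimpleGraph (Fin n)) (K₁ K₂ : Finset (Fin n)) : Prop :=
  Cl G K₁ ∧ Cl G K₂ ∧ Disjoint K₁ K₂ ∧ (1 / 3 - 20 * ε) * n ≤ (K₁.card : ℝ) ∧
    (1 / 3 - 20 * ε) * n ≤ (K₂.card : ℝ)

/-- L10 -/
def L10 : Prop := ∀ (ε : ℝ) (K : ℕ), 0 < ε → ε ≤ 1 / 1000 → 1 ≤ K → ∃ N : ℕ, ∀ n ≥ N,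
  ∀ G : SimpleGraph (Fin n), GQ G → ¬ R1 ε K n G → ¬ R2 ε K n G →
    ∃ K₁ K₂ : Finset (Fin n), GP ε n G K₁ K₂

/-- an untypical `J`-set -/
def R3 (ε τ : ℝ) (K J n : ℕ) (G : SimpleGraph (Fin n)) : Prop :=
  ¬ R1 ε K n G ∧ ∃ K₁ K₂ : Finset (Fin n), GP ε n G K₁ K₂ ∧ ¬ Typ G J (τ * n) K₁

/-- an untypical vertex -/
def R4a (ε κ θ : ℝ) (K n : ℕ) (G : SimpleGraph (Fin n)) : Prop :=
  ¬ R1 ε K n G ∧ ∃ K₁ K₂ : Finset (Fin n), GP ε n G K₁ K₂ ∧ ∃ w, w ∉ K₂ ∧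
    ((K₁ \ nb G w).card : ℝ) ≤ θ * n ∧
    (((K₂ \ nb G w).card : ℝ) < κ * n ∨ ((K₂ ∩ nb G w).card : ℝ) < κ * n)

/-- an untypical pair of type 0 -/
def R4b (ε κ θ : ℝ) (K n : ℕ) (G : SimpleGraph (Fin n)) : Prop :=
  ¬ R1 ε K n G ∧ ∃ K₁ K₂ : Finset (Fin n), GP ε n G K₁ K₂ ∧ ∃ s s', s ≠ s' ∧
    s ∈ W K₁ K₂ ∧ s' ∈ W K₁ K₂ ∧ ((nb G s ∩ W K₁ K₂).card : ℝ) ≤ θ * n ∧
    ((nb G s' ∩ W K₁ K₂).card : ℝ) ≤ θ * n ∧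
    (((K₁ ∩ nb G s) \ nb G s').card : ℝ) < κ * n

/-- an untypical pair of type 1 -/
def R4e (ε κ θ : ℝ) (K n : ℕ) (G : SimpleGraph (Fin n)) : Prop :=
  ¬ R1 ε K n G ∧ ∃ K₁ K₂ : Finset (Fin n), GP ε n G K₁ K₂ ∧ ∃ w w', w ≠ w' ∧
    w ∉ K₂ ∧ w' ∉ K₂ ∧ ((K₁ \ nb G w).card : ℝ) ≤ θ * n ∧
    ((K₁ \ nb G w').card : ℝ) ≤ θ * n ∧
    (((nb G w ∩ nb G w') ∩ W K₁ K₂).card : ℝ) < κ * n

/-- R1 is rare -/
def BR1 : Prop := ∀ (ε : ℝ) (K : ℕ), 0 < ε → 2 ≤ ε * K → Rare (R1 ε K)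

/-- R2 is rare -/
def BR2 : Prop := ∀ (ε : ℝ) (K : ℕ), 0 < ε → ε ≤ 1 / 1000 → 1 ≤ K → Rare (R2 ε K)

/-- R3 is rare: for every `η > 0` there are `τ` as small as we like and `J` with `J τ ≤ η` -/
def BR3 : Prop := ∀ η : ℝ, 0 < η → ∀ τ₁ : ℝ, 0 < τ₁ → ∃ (τ : ℝ) (J : ℕ), 0 < τ ∧ τ ≤ τ₁ ∧ 1 ≤ J ∧
  J * τ ≤ η ∧ ∃ ε₀ : ℝ, 0 < ε₀ ∧ ∀ ε, 0 < ε → ε ≤ ε₀ → ∀ K : ℕ, 1 ≤ K → Rare (R3 ε τ K J)

/-- R4a is rare -/
def BR4a : Prop := ∃ κ₀ : ℝ, 0 < κ₀ ∧ ∀ κ θ ε : ℝ, 0 < κ → κ ≤ κ₀ → 0 < θ → θ ≤ κ₀ → 0 < ε →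
  ε ≤ κ₀ → ∀ K : ℕ, 1 ≤ K → Rare (R4a ε κ θ K)

/-- R4b is rare -/
def BR4b : Prop := ∃ κ₀ : ℝ, 0 < κ₀ ∧ ∀ κ θ ε : ℝ, 0 < κ → κ ≤ κ₀ → 0 < θ → θ ≤ κ₀ → 0 < ε →
  ε ≤ κ₀ → ∀ K : ℕ, 1 ≤ K → Rare (R4b ε κ θ K)

/-- R4e is rare -/
def BR4e : Prop := ∃ κ₀ : ℝ, 0 < κ₀ ∧ ∀ κ θ ε : ℝ, 0 < κ → κ ≤ κ₀ → 0 < θ → θ ≤ κ₀ → 0 < ε →
  ε ≤ κ₀ → ∀ K : ℕ, 1 ≤ K → Rare (R4e ε κ θ K)

/-- the ratio -/
def Ratio : Prop :=
  ∀ n : ℕ, (2 : ℝ) ^ (2 * (n : ℝ) / 3) * (num n Tem : ℝ) ≤ (num (n + 1) Tem : ℝ)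

/-- the theorem -/
def Main : Prop := ∃ c : ℝ, 0 < c ∧ ∃ N : ℕ, ∀ n ≥ N,
  (num n (fun G => ¬ Had G) : ℝ) ≤ (2 : ℝ) ^ (-(c * n)) * gg n

end Pool.Agent.Lib.MP_534936_co.AQ
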