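import Mathlib
import Pool.Agent.Lib.MP_534936_co.AQ.Defs

/-!
# Almost all generalized quasi-line graphs satisfy Hadwiger: assembly of the modules
-/

namespace Pool.Agent.Lib.MP_534936_co.AQ

open Finset

namespace Asm

theorem num_mono {n : ℕ} {P Q : SimpleGraph (Fin n) → Prop}
    (h : ∀ G, GQ G → P G → Q G) : (num n P : ℝ) ≤ num n Q := by
  classical
  have : num n P ≤ num n Q := by
    unfold num
    refine Finset.card_le_card ?_
    intro G hG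
    rw [Finset.mem_filter] at hG ⊢
    exact ⟨hG.1, hG.2.1, h G hG.2.1 hG.2.2⟩
  exact_mod_cast this

theorem num_or {n : ℕ} {P Q R : SimpleGraph (Fin n) → Prop}
    (h : ∀ G, GQ G → P G → Q G ∨ R G) : (num n P : ℝ) ≤ num n Q + num n R := by
  classical
  have : num n P ≤ num n Q + num n R := by
    unfold num
    refine le_trans (Finset.card_le_card ?_) (Finset.card_union_le _ _)
    intro G hG
    rw [Finset.mem_filter] at hG
    rw [Finset.mem_union, Finset.mem_filter, Finset.mem_filter]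
    rcases h G hG.2.1 hG.2.2 with h1 | h1
    · exact Or.inl ⟨hG.1, hG.2.1, h1⟩
    · exact Or.inr ⟨hG.1, hG.2.1, h1⟩
  exact_mod_cast this

theorem num_nonneg (n : ℕ) (P : SimpleGraph (Fin n) → Prop) : (0 : ℝ) ≤ num n P :=
  Nat.cast_nonneg _

/-- `2 ^ (a - c n)` is eventually small. -/
theorem exp_small (c a η : ℝ) (hc : 0 < c) (hη : 0 < η) :
    ∃ N : ℕ, ∀ n ≥ N, (2 : ℝ) ^ (-(c * (n : ℝ)) + a) ≤ η := by
  obtain ⟨N, hN⟩ := exists_nat_ge ((a - Real.logb 2 η) / c)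
  refine ⟨N, fun n hn => ?_⟩
  have h1 : (a - Real.logb 2 η) / c ≤ (n : ℝ) := le_trans hN (by exact_mod_cast hn)
  rw [div_le_iff₀ hc] at h1
  have h2 : -(c * (n : ℝ)) + a ≤ Real.logb 2 η := by nlinarith
  calc (2 : ℝ) ^ (-(c * (n : ℝ)) + a) ≤ (2 : ℝ) ^ (Real.logb 2 η) :=
        Real.rpow_le_rpow_of_exponent_le (by norm_num) h2
    _ = η := Real.rpow_logb (by norm_num) (by norm_num) hη

theorem tem_pos (h : TemGQ) (n : ℕ) : (1 : ℝ) ≤ num n Tem := by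
  classical
  have : 1 ≤ num n Tem := by
    unfold num
    rw [Nat.one_le_iff_ne_zero, Ne, Finset.card_eq_zero]
    intro h1
    have h3 : Tem (⊥ : SimpleGraph (Fin n)) := by
      refine ⟨Finset.univ, ∅, ∅, fun v => Or.inl (Finset.mem_univ v), ?_, ?_, ?_⟩
      · intro a _ b _ hab
        exact hab
      · intro a ha
        simp at ha
      · intro a ha
        simp at ha
    have h2 : (⊥ : SimpleGraph (Fin n)) ∈
        (Finset.univ.filter fun G : SimpleGraph (Fin n) => GQ G ∧ Tem G) := by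
      rw [Finset.mem_filter]
      exact ⟨Finset.mem_univ _, h _ _ h3, h3⟩
    rw [h1] at h2
    simp at h2
  exact_mod_cast this

/-- the ratio, iterated -/
theorem ratio_iter {t : ℕ → ℝ}
    (h : ∀ n : ℕ, (2 : ℝ) ^ (2 * (n : ℝ) / 3) * t n ≤ t (n + 1)) (ht : ∀ n, 0 ≤ t n) (m k : ℕ) :
    (2 : ℝ) ^ (2 * (k : ℝ) * m / 3) * t m ≤ t (m + k) := by
  induction k with
  | zero => simp
  | succ k ih =>
    have h1 := h (m + k)
    have e : (2 : ℝ) ^ (2 * ((k + 1 : ℕ) : ℝ) * m / 3) =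
        (2 : ℝ) ^ (2 * (m : ℝ) / 3) * (2 : ℝ) ^ (2 * (k : ℝ) * m / 3) := by
      rw [← Real.rpow_add (by norm_num)]
      congr 1
      push_cast
      ring
    rw [e, mul_assoc]
    calc (2 : ℝ) ^ (2 * (m : ℝ) / 3) * ((2 : ℝ) ^ (2 * (k : ℝ) * m / 3) * t m)
        ≤ (2 : ℝ) ^ (2 * (m : ℝ) / 3) * t (m + k) :=
          mul_le_mul_of_nonneg_left ih (by positivity)
      _ ≤ (2 : ℝ) ^ (2 * ((m + k : ℕ) : ℝ) / 3) * t (m + k) := by
          refine mul_le_mul_of_nonneg_right ?_ (ht _)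
          refine Real.rpow_le_rpow_of_exponent_le (by norm_num) ?_
          push_cast
          have : (0 : ℝ) ≤ (k : ℝ) := Nat.cast_nonneg _
          linarith
      _ ≤ t (m + (k + 1)) := h1

theorem ratio_sub {t : ℕ → ℝ}
    (h : ∀ n : ℕ, (2 : ℝ) ^ (2 * (n : ℝ) / 3) * t n ≤ t (n + 1)) (ht : ∀ n, 0 ≤ t n) {n k : ℕ}
    (hk : k ≤ n) :
    t (n - k) ≤ (2 : ℝ) ^ (-(2 * (k : ℝ) / 3 * n) + 2 * (k : ℝ) ^ 2 / 3) * t n := by
  have h1 := ratio_iter h ht (n - k) k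
  rw [Nat.sub_add_cancel hk] at h1
  have h2 : t (n - k) = (2 : ℝ) ^ (-(2 * (k : ℝ) / 3 * n) + 2 * (k : ℝ) ^ 2 / 3) *
      ((2 : ℝ) ^ (2 * (k : ℝ) * ((n - k : ℕ) : ℝ) / 3) * t (n - k)) := by
    rw [← mul_assoc, ← Real.rpow_add (by norm_num)]
    have : -(2 * (k : ℝ) / 3 * n) + 2 * (k : ℝ) ^ 2 / 3 + 2 * (k : ℝ) * ((n - k : ℕ) : ℝ) / 3
        = 0 := by
      rw [Nat.cast_sub hk]
      ring
    rw [this, Real.rpow_zero, one_mul]
  rw [h2]
  exact mul_le_mul_of_nonneg_left h1 (by positivity)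

/-- negligible families -/
def Neg (G T r : ℕ → ℝ) : Prop :=
  ∃ c : ℝ, 0 < c ∧ ∃ N : ℕ, ∀ n ≥ N, ∀ C : ℝ, 0 ≤ C → (∀ m < n, G m ≤ C * T m) →
    r n ≤ C * (2 : ℝ) ^ (-(c * (n : ℝ))) * T n

theorem Neg.add {G T r r' : ℕ → ℝ} (hT : ∀ n, 0 ≤ T n) (h : Neg G T r) (h' : Neg G T r') :
    Neg G T (fun n => r n + r' n) := by
  obtain ⟨c, hc, N, hN⟩ := h
  obtain ⟨c', hc', N', hN'⟩ := h'
  have hm : 0 < min c c' := lt_min hc hc'
  obtain ⟨N2, hN2⟩ := exp_small (min c c' / 2) 1 1 (by positivity) one_pos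
  refine ⟨min c c' / 2, by positivity, max (max N N') N2, fun n hn C hC hG => ?_⟩
  have h1 := hN n (le_trans (le_trans (le_max_left _ _) (le_max_left _ _)) hn) C hC hG
  have h2 := hN' n (le_trans (le_trans (le_max_right _ _) (le_max_left _ _)) hn) C hC hG
  have h3 := hN2 n (le_trans (le_max_right _ _) hn)
  have hn0 : (0 : ℝ) ≤ (n : ℝ) := Nat.cast_nonneg _
  have e1 : (2 : ℝ) ^ (-(c * (n : ℝ))) ≤ (2 : ℝ) ^ (-(min c c' * (n : ℝ))) := by
    refine Real.rpow_le_rpow_of_exponent_le (by norm_num) ?_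
    have := mul_le_mul_of_nonneg_right (min_le_left c c') hn0
    linarith
  have e2 : (2 : ℝ) ^ (-(c' * (n : ℝ))) ≤ (2 : ℝ) ^ (-(min c c' * (n : ℝ))) := by
    refine Real.rpow_le_rpow_of_exponent_le (by norm_num) ?_
    have := mul_le_mul_of_nonneg_right (min_le_right c c') hn0
    linarith
  have e3 : (2 : ℝ) ^ (-(min c c' * (n : ℝ))) + (2 : ℝ) ^ (-(min c c' * (n : ℝ))) ≤
      (2 : ℝ) ^ (-(min c c' / 2 * (n : ℝ))) := by
    have e4 : (2 : ℝ) ^ (-(min c c' * (n : ℝ))) + (2 : ℝ) ^ (-(min c c' * (n : ℝ))) =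
        (2 : ℝ) ^ (-(min c c' / 2 * (n : ℝ)) + 1) * (2 : ℝ) ^ (-(min c c' / 2 * (n : ℝ))) := by
      rw [← Real.rpow_add (by norm_num), ← two_mul]
      have : (2 : ℝ) * (2 : ℝ) ^ (-(min c c' * (n : ℝ))) =
          (2 : ℝ) ^ (1 + -(min c c' * (n : ℝ))) := by
        rw [Real.rpow_add (by norm_num), Real.rpow_one]
      rw [this]
      congr 1
      ring
    rw [e4]
    have : (0 : ℝ) ≤ (2 : ℝ) ^ (-(min c c' / 2 * (n : ℝ))) := by positivity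
    nlinarith
  have hCT : 0 ≤ C * T n := mul_nonneg hC (hT n)
  calc r n + r' n ≤ C * (2 : ℝ) ^ (-(c * (n : ℝ))) * T n +
        C * (2 : ℝ) ^ (-(c' * (n : ℝ))) * T n := add_le_add h1 h2
    _ = (C * T n) * ((2 : ℝ) ^ (-(c * (n : ℝ))) + (2 : ℝ) ^ (-(c' * (n : ℝ)))) := by ring
    _ ≤ (C * T n) * (2 : ℝ) ^ (-(min c c' / 2 * (n : ℝ))) := by
        refine mul_le_mul_of_nonneg_left ?_ hCT
        linarith
    _ = C * (2 : ℝ) ^ (-(min c c' / 2 * (n : ℝ))) * T n := by ring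

theorem Neg.of_rare {P : ∀ n : ℕ, SimpleGraph (Fin n) → Prop} (hr : Ratio) (h : Rare P) :
    Neg (fun n => (gg n : ℝ)) (fun n => (num n Tem : ℝ)) (fun n => (num n (P n) : ℝ)) := by
  obtain ⟨c, k, N, hc, hk, hN⟩ := h
  obtain ⟨N2, hN2⟩ := exp_small (c / 2) (2 * (k : ℝ) ^ 2 / 3) 1 (by positivity) one_pos
  refine ⟨c / 2, by positivity, max (max N k) N2, fun n hn C hC hG => ?_⟩
  have hkn : k ≤ n := le_trans (le_trans (le_max_right _ _) (le_max_left _ _)) hn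
  have h1 := hN n (le_trans (le_trans (le_max_left _ _) (le_max_left _ _)) hn) hkn
  have h3 := hN2 n (le_trans (le_max_right _ _) hn)
  have h2 := hG (n - k) (by omega)
  have h4 := ratio_sub (t := fun n => (num n Tem : ℝ)) hr (fun n => num_nonneg n _) hkn
  have hT : (0 : ℝ) ≤ (num n Tem : ℝ) := num_nonneg n _
  calc (num n (P n) : ℝ) ≤ (2 : ℝ) ^ ((2 * (k : ℝ) / 3 - c) * n) * gg (n - k) := h1
    _ ≤ (2 : ℝ) ^ ((2 * (k : ℝ) / 3 - c) * n) * (C *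
        ((2 : ℝ) ^ (-(2 * (k : ℝ) / 3 * n) + 2 * (k : ℝ) ^ 2 / 3) * (num n Tem : ℝ))) := by
        refine mul_le_mul_of_nonneg_left ?_ (by positivity)
        exact le_trans h2 (mul_le_mul_of_nonneg_left h4 hC)
    _ = C * (num n Tem : ℝ) * (2 : ℝ) ^ (-(c / 2 * (n : ℝ)) + 2 * (k : ℝ) ^ 2 / 3) *
        (2 : ℝ) ^ (-(c / 2 * (n : ℝ))) := by
        have e : (2 : ℝ) ^ ((2 * (k : ℝ) / 3 - c) * n) *
            (2 : ℝ) ^ (-(2 * (k : ℝ) / 3 * n) + 2 * (k : ℝ) ^ 2 / 3) =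
            (2 : ℝ) ^ (-(c / 2 * (n : ℝ)) + 2 * (k : ℝ) ^ 2 / 3) *
              (2 : ℝ) ^ (-(c / 2 * (n : ℝ))) := by
          rw [← Real.rpow_add (by norm_num), ← Real.rpow_add (by norm_num)]
          congr 1
          ring
        calc (2 : ℝ) ^ ((2 * (k : ℝ) / 3 - c) * n) * (C *
            ((2 : ℝ) ^ (-(2 * (k : ℝ) / 3 * n) + 2 * (k : ℝ) ^ 2 / 3) * (num n Tem : ℝ)))
            = C * (num n Tem : ℝ) * ((2 : ℝ) ^ ((2 * (k : ℝ) / 3 - c) * n) *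
              (2 : ℝ) ^ (-(2 * (k : ℝ) / 3 * n) + 2 * (k : ℝ) ^ 2 / 3)) := by ring
          _ = _ := by rw [e]; ring
    _ ≤ C * (num n Tem : ℝ) * 1 * (2 : ℝ) ^ (-(c / 2 * (n : ℝ))) := by
        refine mul_le_mul_of_nonneg_right ?_ (by positivity)
        exact mul_le_mul_of_nonneg_left h3 (mul_nonneg hC hT)
    _ = C * (2 : ℝ) ^ (-(c / 2 * (n : ℝ))) * (num n Tem : ℝ) := by ring

/-- the induction -/
theorem neg_bound {G T r : ℕ → ℝ} (hT : ∀ n, 1 ≤ T n) (h : Neg G T r) {N₀ : ℕ}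
    (hG : ∀ n ≥ N₀, G n ≤ T n + r n) : ∃ C : ℝ, 0 ≤ C ∧ ∀ n, G n ≤ C * T n := by
  obtain ⟨c, hc, N, hN⟩ := h
  obtain ⟨N2, hN2⟩ := exp_small c 0 (1 / 2) hc (by norm_num)
  set M := max (max N N₀) N2 with hM
  refine ⟨2 + ∑ n ∈ Finset.range M, |G n|, ?_, ?_⟩
  · have : 0 ≤ ∑ n ∈ Finset.range M, |G n| := Finset.sum_nonneg fun _ _ => abs_nonneg _
    linarith
  · have hS : 0 ≤ ∑ n ∈ Finset.range M, |G n| := Finset.sum_nonneg fun _ _ => abs_nonneg _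
    intro n
    induction n using Nat.strong_induction_on with
    | _ n ih =>
      by_cases hn : n < M
      · have h1 : |G n| ≤ ∑ n ∈ Finset.range M, |G n| :=
          Finset.single_le_sum (f := fun n => |G n|) (fun _ _ => abs_nonneg _)
            (Finset.mem_range.2 hn)
        have h2 : G n ≤ |G n| := le_abs_self _
        have h3 := hT n
        nlinarith
      · rw [not_lt] at hn
        have h1 := hG n (le_trans (le_trans (le_max_right _ _) (le_max_left _ _)) hn)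
        have h2 := hN n (le_trans (le_trans (le_max_left _ _) (le_max_left _ _)) hn)
          (2 + ∑ n ∈ Finset.range M, |G n|) (by linarith) ih
        have h3 := hN2 n (le_trans (le_max_right _ _) hn)
        rw [add_zero] at h3
        have h4 := hT n
        set C := 2 + ∑ n ∈ Finset.range M, |G n| with hC
        have hC2 : 2 ≤ C := by linarith
        have hCT : 0 ≤ C * T n := by nlinarith
        have h5 : C * (2 : ℝ) ^ (-(c * (n : ℝ))) * T n ≤ C * T n * (1 / 2) := by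
          have := mul_le_mul_of_nonneg_left h3 hCT
          calc C * (2 : ℝ) ^ (-(c * (n : ℝ))) * T n = C * T n * (2 : ℝ) ^ (-(c * (n : ℝ))) := by
                ring
            _ ≤ C * T n * (1 / 2) := this
        nlinarith

theorem neg_final {G T r : ℕ → ℝ} (hT : ∀ n, 1 ≤ T n) (hTG : ∀ n, T n ≤ G n) (h : Neg G T r)
    {N₀ : ℕ} (hG : ∀ n ≥ N₀, G n ≤ T n + r n) :
    ∃ c : ℝ, 0 < c ∧ ∃ N : ℕ, ∀ n ≥ N, r n ≤ (2 : ℝ) ^ (-(c * n)) * G n := by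
  obtain ⟨C, hC, hCG⟩ := neg_bound hT h hG
  obtain ⟨c, hc, N, hN⟩ := h
  obtain ⟨N2, hN2⟩ := exp_small (c / 2) 0 (1 / (C + 1)) (by positivity) (by positivity)
  refine ⟨c / 2, by positivity, max N N2, fun n hn => ?_⟩
  have h1 := hN n (le_trans (le_max_left _ _) hn) C hC fun m _ => hCG m
  have h3 := hN2 n (le_trans (le_max_right _ _) hn)
  rw [add_zero] at h3
  have hTn : 0 ≤ T n := le_trans zero_le_one (hT n)
  have e : (2 : ℝ) ^ (-(c * (n : ℝ))) =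
      (2 : ℝ) ^ (-(c / 2 * (n : ℝ))) * (2 : ℝ) ^ (-(c / 2 * (n : ℝ))) := by
    rw [← Real.rpow_add (by norm_num)]
    congr 1
    ring
  have h5 : C * (2 : ℝ) ^ (-(c / 2 * (n : ℝ))) ≤ 1 := by
    have := mul_le_mul_of_nonneg_left h3 hC
    refine le_trans this ?_
    rw [mul_one_div, div_le_one (by positivity)]
    linarith
  calc r n ≤ C * (2 : ℝ) ^ (-(c * (n : ℝ))) * T n := h1
    _ = (C * (2 : ℝ) ^ (-(c / 2 * (n : ℝ)))) * ((2 : ℝ) ^ (-(c / 2 * (n : ℝ))) * T n) := by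
        rw [e]; ring
    _ ≤ 1 * ((2 : ℝ) ^ (-(c / 2 * (n : ℝ))) * T n) :=
        mul_le_mul_of_nonneg_right h5 (by positivity)
    _ ≤ (2 : ℝ) ^ (-(c / 2 * (n : ℝ))) * G n := by
        rw [one_mul]
        exact mul_le_mul_of_nonneg_left (hTG n) (by positivity)

theorem W_comm {V : Type*} [Fintype V] [DecidableEq V] (K₁ K₂ : Finset V) :
    W K₁ K₂ = W K₂ K₁ := by
  unfold W
  rw [Finset.union_comm]

theorem GP.symm {ε : ℝ} {n : ℕ} {G : SimpleGraph (Fin n)} {K₁ K₂ : Finset (Fin n)}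
    (h : GP ε n G K₁ K₂) : GP ε n G K₂ K₁ :=
  ⟨h.2.1, h.1, h.2.2.1.symm, h.2.2.2.2, h.2.2.2.1⟩

/-- a bound for all large `n` -/
theorem ev_le (a b : ℝ) (hb : 0 < b) : ∃ N : ℕ, ∀ n ≥ N, a ≤ b * (n : ℝ) := by
  obtain ⟨N, hN⟩ := exists_nat_ge (a / b)
  refine ⟨N, fun n hn => ?_⟩
  have h1 : a / b ≤ (n : ℝ) := le_trans hN (by exact_mod_cast hn)
  rw [div_le_iff₀ hb] at h1
  linarith

/-- the deterministic part -/
theorem det0 {κ θ ε τ τ₀ : ℝ} {K J J₀ : ℕ} (h10 : L10) (h7 : L7)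
    (hκ : 0 < κ) (hκ1 : κ ≤ 1) (hθ : 0 < θ) (hθκ : θ ≤ κ / 4) (hθJ : θ * (16 * J₀) ≤ 1)
    (hε : 0 < ε) (hε1 : ε ≤ 1 / 1000) (hK : 1 ≤ K)
    (hτ : 0 < τ) (hτκ : τ ≤ κ / 8) (hJ : 1 ≤ J) (hJτ : J * τ ≤ θ / 240)
    (hτ₀ : 0 < τ₀) (hτ₀κ : τ₀ ≤ κ / 16) (hJ₀ : 1 ≤ J₀) :
    ∃ N : ℕ, ∀ n ≥ N, ∀ G : SimpleGraph (Fin n), GQ G → ¬ R1 ε K n G → ¬ R2 ε K n G →
      ¬ R3 ε τ₀ K J₀ n G → ¬ R3 ε τ K J n G → ¬ R4a ε κ θ K n G → ¬ R4b ε κ θ K n G →
      ¬ R4e ε κ θ K n G → ∃ K₁ K₂ S A B : Finset (Fin n),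
        Fin3 G J (τ * n) (κ * n) (τ₀ * n) K₁ K₂ S A B ∧ 0 < τ * n ∧ 0 < τ₀ * n ∧
          (J : ℝ) + 2 * (τ₀ * n) + τ * n ≤ κ * n := by
  obtain ⟨N1, hN1⟩ := h10 ε K hε hε1 hK
  obtain ⟨N2, hN2⟩ := ev_le (120 * (J : ℝ) ^ 2) (θ / 2) (by positivity)
  obtain ⟨N3, hN3⟩ := ev_le ((J₀ : ℝ)) (1 / 8) (by positivity)
  obtain ⟨N4, hN4⟩ := ev_le ((J : ℝ)) (κ / 4) (by positivity)
  refine ⟨max (max N1 N2) (max (max N3 N4) 1), fun n hn G hGQ r1 r2 r30 r3 r4a r4b r4e => ?_⟩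
  have hn1 : N1 ≤ n := le_trans (le_trans (le_max_left _ _) (le_max_left _ _)) hn
  have hn2 : N2 ≤ n := le_trans (le_trans (le_max_right _ _) (le_max_left _ _)) hn
  have hn3 : N3 ≤ n := le_trans (le_trans (le_trans (le_max_left _ _) (le_max_left _ _))
    (le_max_right _ _)) hn
  have hn4 : N4 ≤ n := le_trans (le_trans (le_trans (le_max_right _ _) (le_max_left _ _))
    (le_max_right _ _)) hn
  have hn0 : 1 ≤ n := le_trans (le_trans (le_max_right _ _) (le_max_right _ _)) hn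
  have hnR : (1 : ℝ) ≤ (n : ℝ) := by exact_mod_cast hn0
  have b2 := hN2 n hn2
  have b3 := hN3 n hn3
  have b4 := hN4 n hn4
  have hJR : (1 : ℝ) ≤ (J : ℝ) := by exact_mod_cast hJ
  have hJ₀R : (1 : ℝ) ≤ (J₀ : ℝ) := by exact_mod_cast hJ₀
  obtain ⟨K₁, K₂, hGP⟩ := hN1 n hn1 G hGQ r1 r2
  have typ : ∀ {A B : Finset (Fin n)}, GP ε n G A B → Typ G J (τ * n) A := by
    intro A B hAB
    by_contra hh
    exact r3 ⟨r1, A, B, hAB, hh⟩
  have typ0 : ∀ {A B : Finset (Fin n)}, GP ε n G A B → Typ G J₀ (τ₀ * n) A := by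
    intro A B hAB
    by_contra hh
    exact r30 ⟨r1, A, B, hAB, hh⟩
  -- sizes
  have hL0 : LL J (τ * n) = 40 * (J * τ) * n + 40 * (J : ℝ) ^ 2 := by
    unfold LL
    ring
  have hL : 3 * LL J (τ * n) ≤ θ * n := by
    rw [hL0]
    have : (J : ℝ) * τ * n ≤ θ / 240 * n := mul_le_mul_of_nonneg_right hJτ (by linarith)
    nlinarith
  have hLpos : 0 ≤ LL J (τ * n) := by
    rw [hL0]
    positivity
  have size : ∀ {A B : Finset (Fin n)}, GP ε n G A B → (n : ℝ) / 4 ≤ (A.card : ℝ) := by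
    intro A B hAB
    have := hAB.2.2.2.1
    nlinarith
  have hθn : θ * n ≤ (n : ℝ) / 4 := by nlinarith
  have hlarge : ∀ {A B : Finset (Fin n)}, GP ε n G A B → LL J (τ * n) ≤ (A.card : ℝ) := by
    intro A B hAB
    have := size hAB
    linarith
  have hlarge0 : ∀ {A B : Finset (Fin n)}, GP ε n G A B →
      2 * J₀ * LL J (τ * n) + J₀ ≤ (A.card : ℝ) := by
    intro A B hAB
    have h1 := size hAB
    have h2 : (J₀ : ℝ) * (3 * LL J (τ * n)) ≤ J₀ * (θ * n) :=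
      mul_le_mul_of_nonneg_left hL (by linarith)
    have h3 : (J₀ : ℝ) * (θ * n) ≤ 1 / 16 * n := by
      have := mul_le_mul_of_nonneg_right hθJ (show (0 : ℝ) ≤ n by linarith)
      nlinarith
    nlinarith
  have hP : Pair G J (τ * n) K₁ K₂ :=
    { cl₁ := hGP.1
      cl₂ := hGP.2.1
      disj := hGP.2.2.1
      typ₁ := typ hGP
      typ₂ := typ (GP.symm hGP)
      one_le := hJ
      t_pos := by positivity
      large₁ := hlarge hGP
      large₂ := hlarge (GP.symm hGP) }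
  have hT1 : ∀ {A B : Finset (Fin n)}, GP ε n G A B → ∀ w, T1 G (LL J (τ * n)) A B w →
      w ∉ B ∧ ((A \ nb G w).card : ℝ) ≤ θ * n := by
    intro A B _ w hw
    refine ⟨hw.1, ?_⟩
    have := hw.2
    linarith
  have hT0 : ∀ {A B : Finset (Fin n)}, GP ε n G A B → ∀ w, T0 G (LL J (τ * n)) A B w →
      w ∈ W A B ∧ ((nb G w ∩ W A B).card : ℝ) ≤ θ * n := by
    intro A B _ w hw
    refine ⟨?_, ?_⟩
    · unfold W
      rw [Finset.mem_sdiff, Finset.mem_union]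
      refine ⟨Finset.mem_univ _, ?_⟩
      rintro (h | h)
      · exact hw.1 h
      · exact hw.2.1 h
    · have := hw.2.2
      linarith
  have ga : ∀ {A B : Finset (Fin n)}, GP ε n G A B → ∀ w, T1 G (LL J (τ * n)) A B w →
      κ * n ≤ (B \ nb G w).card ∧ κ * n ≤ (B ∩ nb G w).card := by
    intro A B hAB w hw
    obtain ⟨h1, h2⟩ := hT1 hAB w hw
    by_contra hh
    refine r4a ⟨r1, A, B, hAB, w, h1, h2, ?_⟩
    rw [not_and_or, not_le, not_le] at hh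
    exact hh
  have gb : ∀ {A B : Finset (Fin n)}, GP ε n G A B → ∀ s s', s ≠ s' →
      T0 G (LL J (τ * n)) A B s → T0 G (LL J (τ * n)) A B s' →
      κ * n ≤ ((A ∩ nb G s) \ nb G s').card := by
    intro A B hAB s s' hss hs hs'
    obtain ⟨h1, h2⟩ := hT0 hAB s hs
    obtain ⟨h1', h2'⟩ := hT0 hAB s' hs'
    by_contra hh
    rw [not_le] at hh
    exact r4b ⟨r1, A, B, hAB, s, s', hss, h1, h1', h2, h2', hh⟩
  have ge : ∀ {A B : Finset (Fin n)}, GP ε n G A B → ∀ w w', w ≠ w' →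
      T1 G (LL J (τ * n)) A B w → T1 G (LL J (τ * n)) A B w' →
      κ * n ≤ ((nb G w ∩ nb G w') ∩ W A B).card := by
    intro A B hAB w w' hww hw hw'
    obtain ⟨h1, h2⟩ := hT1 hAB w hw
    obtain ⟨h1', h2'⟩ := hT1 hAB w' hw'
    by_contra hh
    rw [not_le] at hh
    exact r4e ⟨r1, A, B, hAB, w, w', hww, h1, h1', h2, h2', hh⟩
  have hgen : Generic G (LL J (τ * n)) (κ * n) K₁ K₂ :=
    { a₁ := ga hGP
      a₂ := ga (GP.symm hGP)
      b₁ := gb hGP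
      b₂ := by
        intro s s' hss hs hs'
        have sw : ∀ {v}, T0 G (LL J (τ * n)) K₁ K₂ v → T0 G (LL J (τ * n)) K₂ K₁ v := by
          intro v hv
          refine ⟨hv.2.1, hv.1, ?_⟩
          rw [W_comm K₂ K₁]
          exact hv.2.2
        exact gb (GP.symm hGP) s s' hss (sw hs) (sw hs')
      e₁ := ge hGP
      e₂ := by
        intro w w' hww hw hw'
        rw [W_comm K₁ K₂]
        exact ge (GP.symm hGP) w w' hww hw hw' }
  have hm : 4 * (τ₀ * n) + LL J (τ * n) + 2 * (τ * n) ≤ κ * n := by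
    have h1 : τ₀ * n ≤ κ / 16 * n := mul_le_mul_of_nonneg_right hτ₀κ (by linarith)
    have h2 : τ * n ≤ κ / 8 * n := mul_le_mul_of_nonneg_right hτκ (by linarith)
    have h3 : θ * n ≤ κ / 4 * n := mul_le_mul_of_nonneg_right hθκ (by linarith)
    have h4 : 0 < κ * n := by positivity
    nlinarith
  obtain ⟨S, A, B, hF⟩ := h7 (Fin n) G J J₀ (τ * n) (τ₀ * n) (κ * n) K₁ K₂ hGQ hP (typ0 hGP)
    (typ0 (GP.symm hGP)) hJ₀ (by positivity) (hlarge0 hGP) (hlarge0 (GP.symm hGP)) hm hgen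
  refine ⟨K₁, K₂, S, A, B, hF, by positivity, by positivity, ?_⟩
  have h1 : τ₀ * n ≤ κ / 16 * n := mul_le_mul_of_nonneg_right hτ₀κ (by linarith)
  have h2 : τ * n ≤ κ / 8 * n := mul_le_mul_of_nonneg_right hτκ (by linarith)
  have h4 : 0 < κ * n := by positivity
  nlinarith

end Asm

open Asm in
/-- assembly, for any property that follows from the final structure -/
theorem core_of (b1 : BR1) (b2 : BR2) (b3 : BR3) (b4a : BR4a) (b4b : BR4b) (b4e : BR4e)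
    (h10 : L10) (h7 : L7) (ht : TemGQ) (hr : Ratio)
    (H : ∀ n : ℕ, SimpleGraph (Fin n) → Prop)
    (hH : ∀ (n J : ℕ) (G : SimpleGraph (Fin n)) (t m t₀ : ℝ) (K₁ K₂ S A B : Finset (Fin n)),
      Fin3 G J t m t₀ K₁ K₂ S A B → 1 ≤ J → 0 < t → 0 < t₀ → (J : ℝ) + 2 * t₀ + t ≤ m → H n G) :
    ∃ c : ℝ, 0 < c ∧ ∃ N : ℕ, ∀ n ≥ N,
      (num n (fun G => ¬ H n G) : ℝ) ≤ (2 : ℝ) ^ (-(c * n)) * gg n := by
  obtain ⟨κa, hκa, Ha⟩ := b4a
  obtain ⟨κb, hκb, Hb⟩ := b4b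
  obtain ⟨κe, hκe, He⟩ := b4e
  -- `κ`
  obtain ⟨κ, hκ, hκ1, hκa', hκb', hκe'⟩ : ∃ κ : ℝ, 0 < κ ∧ κ ≤ 1 ∧ κ ≤ κa ∧ κ ≤ κb ∧ κ ≤ κe :=
    ⟨min (min κa κb) (min κe 1), by positivity,
      le_trans (min_le_right _ _) (min_le_right _ _),
      le_trans (min_le_left _ _) (min_le_left _ _),
      le_trans (min_le_left _ _) (min_le_right _ _),
      le_trans (min_le_right _ _) (min_le_left _ _)⟩
  obtain ⟨τ₀, J₀, hτ₀, hτ₀κ, hJ₀, -, ε₀, hε₀, H30⟩ := b3 1 one_pos (κ / 16) (by positivity)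
  have hJ₀R : (1 : ℝ) ≤ (J₀ : ℝ) := by exact_mod_cast hJ₀
  -- `θ`
  obtain ⟨θ, hθ, hθκ, hθJ⟩ : ∃ θ : ℝ, 0 < θ ∧ θ ≤ κ / 4 ∧ θ ≤ 1 / (16 * J₀) :=
    ⟨min (κ / 4) (1 / (16 * J₀)), by positivity, min_le_left _ _, min_le_right _ _⟩
  have hθJ' : θ * (16 * J₀) ≤ 1 := by
    rwa [le_div_iff₀ (by positivity)] at hθJ
  obtain ⟨τ, J, hτ, hτκ, hJ, hJτ, ε₁, hε₁, H3⟩ := b3 (θ / 240) (by positivity) (κ / 8)
    (by positivity)
  -- `ε`
  obtain ⟨ε, hε, e1, e2, e3, e4, e5, e6⟩ : ∃ ε : ℝ, 0 < ε ∧ ε ≤ 1 / 1000 ∧ ε ≤ ε₀ ∧ ε ≤ ε₁ ∧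
      ε ≤ κa ∧ ε ≤ κb ∧ ε ≤ κe :=
    ⟨min (min (1 / 1000) (min ε₀ ε₁)) (min κa (min κb κe)), by positivity,
      le_trans (min_le_left _ _) (min_le_left _ _),
      le_trans (min_le_left _ _) (le_trans (min_le_right _ _) (min_le_left _ _)),
      le_trans (min_le_left _ _) (le_trans (min_le_right _ _) (min_le_right _ _)),
      le_trans (min_le_right _ _) (min_le_left _ _),
      le_trans (min_le_right _ _) (le_trans (min_le_right _ _) (min_le_left _ _)),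
      le_trans (min_le_right _ _) (le_trans (min_le_right _ _) (min_le_right _ _))⟩
  obtain ⟨K, hK⟩ := exists_nat_ge (2 / ε)
  have hK2 : 2 ≤ ε * K := by
    rw [div_le_iff₀ hε] at hK
    linarith
  have hK1 : 1 ≤ K := by
    rcases Nat.eq_zero_or_pos K with h | h
    · rw [h] at hK2
      norm_num at hK2
    · exact h
  have hθa : θ ≤ κa := by linarith
  have hθb : θ ≤ κb := by linarith
  have hθe : θ ≤ κe := by linarith
  have q1 := Neg.of_rare hr (b1 ε K hε hK2)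
  have q2 := Neg.of_rare hr (b2 ε K hε e1 hK1)
  have q3 := Neg.of_rare hr (H30 ε hε e2 K hK1)
  have q4 := Neg.of_rare hr (H3 ε hε e3 K hK1)
  have q5 := Neg.of_rare hr (Ha κ θ ε hκ hκa' hθ hθa hε e4 K hK1)
  have q6 := Neg.of_rare hr (Hb κ θ ε hκ hκb' hθ hθb hε e5 K hK1)
  have q7 := Neg.of_rare hr (He κ θ ε hκ hκe' hθ hθe hε e6 K hK1)
  have hT0 : ∀ n, (0 : ℝ) ≤ (num n Tem : ℝ) := fun n => num_nonneg n _
  have q := Neg.add hT0 q1 (Neg.add hT0 q2 (Neg.add hT0 q3 (Neg.add hT0 q4 (Neg.add hT0 q5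
    (Neg.add hT0 q6 q7)))))
  obtain ⟨N, hN0⟩ := det0 h10 h7 hκ hκ1 hθ hθκ hθJ' hε e1 hK1 hτ hτκ hJ hJτ hτ₀ hτ₀κ hJ₀
  have hN : ∀ n ≥ N, ∀ G : SimpleGraph (Fin n), GQ G → ¬ R1 ε K n G → ¬ R2 ε K n G →
      ¬ R3 ε τ₀ K J₀ n G → ¬ R3 ε τ K J n G → ¬ R4a ε κ θ K n G → ¬ R4b ε κ θ K n G →
      ¬ R4e ε κ θ K n G → Tem G ∧ H n G := by
    intro n hn G hG a1 a2 a3 a4 a5 a6 a7
    obtain ⟨K₁, K₂, S, A, B, hF, p1, p2, p3⟩ := hN0 n hn G hG a1 a2 a3 a4 a5 a6 a7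
    exact ⟨⟨S, A, B, hF.cover, hF.st, hF.clA, hF.clB⟩,
      hH n J G _ _ _ K₁ K₂ S A B hF hJ p1 p2 p3⟩
  -- splitting
  have split : ∀ n ≥ N, ∀ P : SimpleGraph (Fin n) → Prop,
      (∀ G, GQ G → P G → ¬ (Tem G ∧ H n G)) → (num n P : ℝ) ≤
      num n (R1 ε K n) + (num n (R2 ε K n) + (num n (R3 ε τ₀ K J₀ n) + (num n (R3 ε τ K J n) +
      (num n (R4a ε κ θ K n) + (num n (R4b ε κ θ K n) + num n (R4e ε κ θ K n)))))) := by
    intro n hn P hP
    have c1 : ∀ G, GQ G → P G → R1 ε K n G ∨ R2 ε K n G ∨ R3 ε τ₀ K J₀ n G ∨ R3 ε τ K J n G ∨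
        R4a ε κ θ K n G ∨ R4b ε κ θ K n G ∨ R4e ε κ θ K n G := by
      intro G hG hPG
      by_contra hh
      simp only [not_or] at hh
      obtain ⟨a1, a2, a3, a4, a5, a6, a7⟩ := hh
      exact hP G hG hPG (hN n hn G hG a1 a2 a3 a4 a5 a6 a7)
    refine le_trans (num_or c1) (add_le_add le_rfl ?_)
    refine le_trans (num_or fun G _ h => h) (add_le_add le_rfl ?_)
    refine le_trans (num_or fun G _ h => h) (add_le_add le_rfl ?_)
    refine le_trans (num_or fun G _ h => h) (add_le_add le_rfl ?_)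
    refine le_trans (num_or fun G _ h => h) (add_le_add le_rfl ?_)
    exact num_or fun G _ h => h
  have hG : ∀ n ≥ N, (gg n : ℝ) ≤ num n Tem +
      (num n (R1 ε K n) + (num n (R2 ε K n) + (num n (R3 ε τ₀ K J₀ n) + (num n (R3 ε τ K J n) +
      (num n (R4a ε κ θ K n) + (num n (R4b ε κ θ K n) + num n (R4e ε κ θ K n))))))) := by
    intro n hn
    have h1 : (gg n : ℝ) ≤ num n Tem + num n (fun G => ¬ Tem G) := by
      unfold gg
      exact num_or fun G _ _ => em _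
    refine le_trans h1 (add_le_add le_rfl ?_)
    exact split n hn _ fun G _ h h' => h h'.1
  have hTG : ∀ n, (num n Tem : ℝ) ≤ gg n := fun n => num_mono fun _ _ _ => trivial
  obtain ⟨c, hc, N', hN'⟩ := neg_final (tem_pos ht) hTG q hG
  refine ⟨c, hc, max N N', fun n hn => ?_⟩
  refine le_trans (split n (le_trans (le_max_left _ _) hn) _ fun G _ h h' => h h'.2) ?_
  exact hN' n (le_trans (le_max_right _ _) hn)

/-- assembly -/
theorem main_of (b1 : BR1) (b2 : BR2) (b3 : BR3) (b4a : BR4a) (b4b : BR4b) (b4e : BR4e)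
    (h10 : L10) (h7 : L7) (h8 : L8) (ht : TemGQ) (hr : Ratio) : Main :=
  core_of b1 b2 b3 b4a b4b b4e h10 h7 ht hr (fun _ G => Had G)
    fun n J G t m t₀ K₁ K₂ S A B hF h1 h2 h3 h4 => h8 (Fin n) G J t m t₀ K₁ K₂ S A B hF h1 h2 h3 h4

/-- almost all generalized quasi-line graphs are a stable set plus two cliques -/
theorem tem_of (b1 : BR1) (b2 : BR2) (b3 : BR3) (b4a : BR4a) (b4b : BR4b) (b4e : BR4e)
    (h10 : L10) (h7 : L7) (ht : TemGQ) (hr : Ratio) :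
    ∃ c : ℝ, 0 < c ∧ ∃ N : ℕ, ∀ n ≥ N,
      (num n (fun G => ¬ Tem G) : ℝ) ≤ (2 : ℝ) ^ (-(c * n)) * gg n :=
  core_of b1 b2 b3 b4a b4b b4e h10 h7 ht hr (fun _ G => Tem G)
    fun _ _ _ _ _ _ _ _ S A B hF _ _ _ _ => ⟨S, A, B, hF.cover, hF.st, hF.clA, hF.clB⟩

end Pool.Agent.Lib.MP_534936_co.AQ
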