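import Pool.Agent.Lib.MP_534936_co.AQ.Defs

/-!
# L9 (the number of cliques of a graph) and L10 (two disjoint cliques of size about `n / 3`)
-/

namespace Pool.Agent.Lib.MP_534936_co.AQ

open Finset

section fam

lemma cliques_mono {V : Type*} {G : SimpleGraph V} {A B : Finset V} (h : A ⊆ B) (hB : Cl G B) : Cl G A :=
  fun a ha b hb hab => hB a (h ha) b (h hb) hab

open Classical in
/-- the cliques inside `X` -/
noncomputable def cliques_fam {V : Type*} (G : SimpleGraph V) (X : Finset V) : Finset (Finset V) :=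
  X.powerset.filter fun A => Cl G A

lemma cliques_ncl_eq {V : Type*} (G : SimpleGraph V) (X : Finset V) : ncl G X = (cliques_fam G X).card := rfl

lemma cliques_mem_fam {V : Type*} {G : SimpleGraph V} {X C : Finset V} :
    C ∈ cliques_fam G X ↔ C ⊆ X ∧ Cl G C := by
  simp [cliques_fam]

lemma cliques_ncl_le {V : Type*} (G : SimpleGraph V) (X : Finset V) : ncl G X ≤ 2 ^ X.card := by
  have h : cliques_fam G X ⊆ X.powerset := fun C hC => mem_powerset.2 (cliques_mem_fam.1 hC).1
  rw [cliques_ncl_eq, ← card_powerset]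
  exact card_le_card h

variable {V : Type*} [DecidableEq V]

lemma cliques_step (G : SimpleGraph V) {X : Finset V} {a b : V} (hab : a ≠ b)
    (h : ¬ G.Adj a b) : ncl G X ≤ 3 * ncl G ((X.erase a).erase b) := by
  set X' := (X.erase a).erase b with hX'
  have key : cliques_fam G X ⊆ cliques_fam G X' ∪
      ((cliques_fam G X').image (insert a) ∪ (cliques_fam G X').image (insert b)) := by
    intro C hC
    rw [cliques_mem_fam] at hC
    obtain ⟨hCX, hCl⟩ := hC
    by_cases ha : a ∈ C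
    · have hb : b ∉ C := fun hb => h (hCl a ha b hb hab)
      rw [mem_union]; right; rw [mem_union]; left
      rw [mem_image]
      refine ⟨C.erase a, ?_, insert_erase ha⟩
      rw [cliques_mem_fam]
      refine ⟨?_, cliques_mono (erase_subset _ _) hCl⟩
      intro v hv
      have hv' := mem_erase.1 hv
      simp only [hX', mem_erase]
      exact ⟨fun e => hb (e ▸ hv'.2), hv'.1, hCX hv'.2⟩
    · by_cases hb : b ∈ C
      · rw [mem_union]; right; rw [mem_union]; right
        rw [mem_image]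
        refine ⟨C.erase b, ?_, insert_erase hb⟩
        rw [cliques_mem_fam]
        refine ⟨?_, cliques_mono (erase_subset _ _) hCl⟩
        intro v hv
        have hv' := mem_erase.1 hv
        simp only [hX', mem_erase]
        exact ⟨hv'.1, fun e => ha (e ▸ hv'.2), hCX hv'.2⟩
      · rw [mem_union]; left
        rw [cliques_mem_fam]
        refine ⟨?_, hCl⟩
        intro v hv
        simp only [hX', mem_erase]
        exact ⟨fun e => hb (e ▸ hv), fun e => ha (e ▸ hv), hCX hv⟩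
  have h1 := card_le_card key
  have h2 := card_union_le (cliques_fam G X')
    ((cliques_fam G X').image (insert a) ∪ (cliques_fam G X').image (insert b))
  have h3 := card_union_le ((cliques_fam G X').image (insert a))
    ((cliques_fam G X').image (insert b))
  have h4 : ((cliques_fam G X').image (insert a)).card ≤ (cliques_fam G X').card := card_image_le
  have h5 : ((cliques_fam G X').image (insert b)).card ≤ (cliques_fam G X').card := card_image_le
  rw [cliques_ncl_eq, cliques_ncl_eq]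
  omega

lemma cliques_l9 (G : SimpleGraph V) : ∀ (k : ℕ) (X : Finset V), X.card = k →
    ∃ Y ⊆ X, Cl G Y ∧ (ncl G X) ^ 2 ≤ 4 ^ Y.card * 3 ^ (X.card - Y.card) := by
  intro k
  induction k using Nat.strong_induction_on with
  | _ k ih =>
    intro X hX
    by_cases hc : Cl G X
    · refine ⟨X, Subset.refl _, hc, ?_⟩
      have h := cliques_ncl_le G X
      rw [Nat.sub_self, pow_zero, mul_one]
      calc ncl G X ^ 2 ≤ (2 ^ X.card) ^ 2 := Nat.pow_le_pow_left h 2
        _ = 4 ^ X.card := by rw [← pow_mul, mul_comm, pow_mul]; norm_num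
    · unfold Cl at hc
      push Not at hc
      obtain ⟨a, ha, b, hb, hab, h⟩ := hc
      have hcard : ((X.erase a).erase b).card = X.card - 2 := by
        rw [card_erase_of_mem (mem_erase.2 ⟨hab.symm, hb⟩), card_erase_of_mem ha]
        omega
      have h2 : 2 ≤ X.card := by
        have : 1 < X.card := one_lt_card.2 ⟨a, ha, b, hb, hab⟩
        omega
      obtain ⟨Y, hY, hYc, hb'⟩ := ih (X.card - 2) (by omega) _ hcard
      have hYX := card_le_card hY
      refine ⟨Y, hY.trans ((erase_subset _ _).trans (erase_subset _ _)), hYc, ?_⟩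
      have hs := cliques_step G (X := X) hab h
      rw [hcard] at hb' hYX
      have he : X.card - Y.card = (X.card - 2 - Y.card) + 2 := by omega
      rw [he, pow_add]
      calc ncl G X ^ 2 ≤ (3 * ncl G ((X.erase a).erase b)) ^ 2 := Nat.pow_le_pow_left hs 2
        _ = 9 * ncl G ((X.erase a).erase b) ^ 2 := by ring
        _ ≤ 9 * (4 ^ Y.card * 3 ^ (X.card - 2 - Y.card)) := Nat.mul_le_mul_left 9 hb'
        _ = 4 ^ Y.card * (3 ^ (X.card - 2 - Y.card) * 3 ^ 2) := by ring

end fam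

/-- L9 -/
theorem l9 : L9 := fun _ _ _ G X => cliques_l9 G X.card X rfl

lemma cliques_log3 : Real.log 3 ≤ 46 / 29 * Real.log 2 := by
  have h : (3 : ℝ) ^ 29 ≤ 2 ^ 46 := by norm_num
  have h2 := Real.log_le_log (by positivity) h
  rw [Real.log_pow, Real.log_pow] at h2
  push_cast at h2
  linarith

lemma cliques_part {n : ℕ} (G : SimpleGraph (Fin n)) {ε : ℝ} (C D : Finset (Fin n))
    (hC : (C.card : ℝ) < (1 / 3 + ε) * n) (hD : (D.card : ℝ) < (1 / 3 + ε) * n)
    (h : (2 : ℝ) ^ ((2 / 3 - ε) * (n : ℝ)) < (ncl G C : ℝ) * ncl G D) :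
    ∃ Y ⊆ C, Cl G Y ∧ (1 / 3 - 27 / 2 * ε) * n < (Y.card : ℝ) := by
  obtain ⟨Y, hYC, hY, hb⟩ := cliques_l9 G C.card C rfl
  refine ⟨Y, hYC, hY, ?_⟩
  have hL : 0 < Real.log 2 := Real.log_pos (by norm_num)
  have hyc : (Y.card : ℝ) ≤ C.card := by exact_mod_cast card_le_card hYC
  have hp : (0 : ℝ) < (ncl G C : ℝ) * ncl G D := lt_trans (by positivity) h
  have hC0 : (0 : ℝ) < ncl G C := by
    rcases (Nat.cast_nonneg (ncl G C) : (0 : ℝ) ≤ _).lt_or_eq with h0 | h0
    · exact h0
    · rw [← h0, zero_mul] at hp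
      exact absurd hp (lt_irrefl _)
  have hD0 : (0 : ℝ) < ncl G D := by
    rcases (Nat.cast_nonneg (ncl G D) : (0 : ℝ) ≤ _).lt_or_eq with h0 | h0
    · exact h0
    · rw [← h0, mul_zero] at hp
      exact absurd hp (lt_irrefl _)
  have e1 : ((2 / 3 - ε) * (n : ℝ)) * Real.log 2 <
      Real.log (ncl G C) + Real.log (ncl G D) := by
    have h1 := Real.log_lt_log (by positivity) h
    rw [Real.log_rpow (by norm_num), Real.log_mul hC0.ne' hD0.ne'] at h1
    exact h1
  have e2 : Real.log (ncl G D) ≤ D.card * Real.log 2 := by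
    have h1 : (ncl G D : ℝ) ≤ 2 ^ D.card := by exact_mod_cast cliques_ncl_le G D
    have h2 := Real.log_le_log hD0 h1
    rwa [Real.log_pow] at h2
  have e3 : 2 * Real.log (ncl G C) ≤
      Y.card * (2 * Real.log 2) + ((C.card : ℝ) - Y.card) * Real.log 3 := by
    have h1 : (ncl G C : ℝ) ^ 2 ≤ 4 ^ Y.card * 3 ^ (C.card - Y.card) := by exact_mod_cast hb
    have h2 := Real.log_le_log (by positivity) h1
    rw [Real.log_pow, Real.log_mul (by positivity) (by positivity), Real.log_pow,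
      Real.log_pow] at h2
    have h4 : Real.log 4 = 2 * Real.log 2 := by
      rw [show (4 : ℝ) = 2 ^ 2 by norm_num, Real.log_pow]
      push_cast
      ring
    rw [h4, Nat.cast_sub (card_le_card hYC)] at h2
    push_cast at h2
    linarith
  have e5 : ((C.card : ℝ) - Y.card) * Real.log 3 ≤
      ((C.card : ℝ) - Y.card) * (46 / 29 * Real.log 2) :=
    mul_le_mul_of_nonneg_left cliques_log3 (by linarith)
  have e6 : (2 * ((2 / 3 - ε) * (n : ℝ)) - 2 * D.card) * Real.log 2 <
      (2 * Y.card + 46 / 29 * ((C.card : ℝ) - Y.card)) * Real.log 2 := by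
    linarith
  have e7 := lt_of_mul_lt_mul_right e6 hL.le
  linarith

/-- L10 -/
theorem l10 : L10 := by
  intro ε K hε _ _
  refine ⟨1, ?_⟩
  intro n hn G hG h1 h2
  have : Nonempty (Fin n) := ⟨⟨0, hn⟩⟩
  obtain ⟨x, -, A, B, hA, hB, hAB⟩ := hG Finset.univ Finset.univ_nonempty
  have hAB' : ∀ v, (v ∈ A ∨ v ∈ B) ↔ G.Adj x v := fun v => by simpa using hAB v
  have hn' : (0 : ℝ) < n := by exact_mod_cast hn
  have hεn : 0 < ε * n := mul_pos hε hn'
  have hAK : K ≤ A.card := by
    by_contra h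
    exact h2 ⟨h1, x, A, B, hA, hB, hAB', Or.inl (not_le.1 h)⟩
  have hBK : K ≤ B.card := by
    by_contra h
    exact h2 ⟨h1, x, A, B, hA, hB, hAB', Or.inr (Or.inl (not_le.1 h))⟩
  obtain ⟨Q₁, hQ₁, hc₁⟩ := Finset.exists_subset_card_eq hAK
  obtain ⟨Q₂, hQ₂, hc₂⟩ := Finset.exists_subset_card_eq hBK
  have h5 : (2 : ℝ) ^ ((2 / 3 - ε) * (n : ℝ)) <
      (ncl G ((Cm G Q₁).erase x) : ℝ) * ncl G ((Cm G Q₂).erase x) := by
    by_contra h
    exact h2 ⟨h1, x, A, B, hA, hB, hAB',
      Or.inr (Or.inr ⟨Q₁, hQ₁, Q₂, hQ₂, hc₁, hc₂, Or.inl (not_lt.1 h)⟩)⟩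
  have h6 : (2 / 3 - ε) * n <
      ((((Cm G Q₁).erase x) ∪ ((Cm G Q₂).erase x)).card : ℝ) := by
    by_contra h
    exact h2 ⟨h1, x, A, B, hA, hB, hAB',
      Or.inr (Or.inr ⟨Q₁, hQ₁, Q₂, hQ₂, hc₁, hc₂, Or.inr (not_lt.1 h)⟩)⟩
  have h7 : ((Cm G Q₁).card : ℝ) < (1 / 3 + ε) * n := by
    by_contra h
    exact h1 ⟨Q₁, cliques_mono hQ₁ hA, hc₁, not_lt.1 h⟩
  have h8 : ((Cm G Q₂).card : ℝ) < (1 / 3 + ε) * n := by
    by_contra h
    exact h1 ⟨Q₂, cliques_mono hQ₂ hB, hc₂, not_lt.1 h⟩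
  set C := (Cm G Q₁).erase x with hCdef
  set D := (Cm G Q₂).erase x with hDdef
  have hC : (C.card : ℝ) < (1 / 3 + ε) * n := by
    have : (C.card : ℝ) ≤ (Cm G Q₁).card := by exact_mod_cast card_erase_le
    linarith
  have hD : (D.card : ℝ) < (1 / 3 + ε) * n := by
    have : (D.card : ℝ) ≤ (Cm G Q₂).card := by exact_mod_cast card_erase_le
    linarith
  obtain ⟨Y₁, hY₁C, hY₁, hy₁⟩ := cliques_part G C D hC hD h5
  obtain ⟨Y₂, hY₂D, hY₂, hy₂⟩ := cliques_part G D C hD hC (by rw [mul_comm (ncl G D : ℝ)]; exact h5)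
  have hint : (((C ∩ D).card : ℕ) : ℝ) < 3 * (ε * n) := by
    have h := card_union_add_card_inter C D
    have h' : ((C ∪ D).card : ℝ) + (C ∩ D).card = C.card + D.card := by exact_mod_cast h
    linarith
  have hle : ((Y₂ ∩ Y₁).card : ℝ) ≤ (C ∩ D).card := by
    have : (Y₂ ∩ Y₁).card ≤ (C ∩ D).card := by
      apply card_le_card
      intro v hv
      rw [mem_inter] at hv ⊢
      exact ⟨hY₁C hv.2, hY₂D hv.1⟩
    exact_mod_cast this
  have hsd : ((Y₂ \ Y₁).card : ℝ) + (Y₂ ∩ Y₁).card = Y₂.card := by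
    exact_mod_cast card_sdiff_add_card_inter Y₂ Y₁
  refine ⟨Y₁, Y₂ \ Y₁, hY₁, cliques_mono sdiff_subset hY₂, disjoint_sdiff, ?_, ?_⟩
  · linarith
  · linarith

end Pool.Agent.Lib.MP_534936_co.AQ
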