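import Pool.Agent.Lib.MP_534936_co.AQ.Defs

/-!
# L6: two vertices with a large common stable neighbourhood are adjacent
-/

namespace Pool.Agent.Lib.MP_534936_co.AQ

open Finset

theorem edgeK_mem_nb {V : Type} [Fintype V] [DecidableEq V] (G : SimpleGraph V) (x v : V) :
    v ∈ nb G x ↔ G.Adj x v := by
  classical
  simp [nb]

/-- a set covered by two sets -/
theorem edgeK_card {V : Type} [DecidableEq V] {P Q D : Finset V} (h : P ⊆ Q ∪ D) :
    (P.card : ℝ) ≤ Q.card + D.card := by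
  have h1 := (card_le_card h).trans (card_union_le Q D)
  exact_mod_cast h1

/-- few vertices of `Y` outside the two cliques -/
theorem edgeK_out {V : Type} [Fintype V] [DecidableEq V] (G : SimpleGraph V) (t : ℝ)
    (K₁ K₂ Y A B P : Finset V) (hY : ∀ v, v ∈ Y ↔ v ∈ A ∨ v ∈ B)
    (h : Good2 G t K₁ K₂ A B ∨ Good2 G t K₁ K₂ B A) (hP : P ⊆ Y)
    (hP1 : Disjoint P K₁) (hP2 : Disjoint P K₂) : (P.card : ℝ) < 2 * t := by
  have key : ∀ A B : Finset V, (∀ v, v ∈ Y → v ∈ A ∨ v ∈ B) → Good2 G t K₁ K₂ A B →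
      (P.card : ℝ) < 2 * t := by
    intro A B hAB hg
    have hsub : P ⊆ (A \ K₁) ∪ (B \ K₂) := by
      intro v hv
      rcases hAB v (hP hv) with h | h
      · exact mem_union_left _ (mem_sdiff.mpr ⟨h, fun h' => disjoint_left.mp hP1 hv h'⟩)
      · exact mem_union_right _ (mem_sdiff.mpr ⟨h, fun h' => disjoint_left.mp hP2 hv h'⟩)
    have h4 := edgeK_card hsub
    linarith [hg.2.2.1, hg.2.2.2]
  rcases h with h | h
  · exact key A B (fun v hv => (hY v).mp hv) h
  · exact key B A (fun v hv => ((hY v).mp hv).symm) h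

/-- a vertex with many non-neighbours in `Y ∩ K₂` is not on the side of `K₂` -/
theorem edgeK_side {V : Type} [Fintype V] [DecidableEq V] (G : SimpleGraph V) (t : ℝ)
    (K₁ K₂ A B P : Finset V) (w : V) (hd : Disjoint K₁ K₂)
    (h : Good2 G t K₁ K₂ A B) (hP : ∀ v ∈ P, v ∈ A ∨ v ∈ B) (hP2 : P ⊆ K₂) (hw : w ∉ K₂)
    (hPw : ∀ v ∈ P, ¬ G.Adj w v) (hPt : t ≤ (P.card : ℝ)) : w ∉ B := by
  intro hwB
  have hsub : P ⊆ A \ K₁ := by
    intro v hv
    have hv2 := hP2 hv
    have hv1 : v ∉ K₁ := fun h' => disjoint_left.mp hd h' hv2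
    rcases hP v hv with h' | h'
    · exact mem_sdiff.mpr ⟨h', hv1⟩
    · exfalso
      have hne : w ≠ v := fun e => hw (e ▸ hv2)
      exact hPw v hv (h.2.1 w hwB v h' hne)
  have h4 : (P.card : ℝ) ≤ (A \ K₁).card := by exact_mod_cast card_le_card hsub
  linarith [h.2.2.1]

theorem l6 (h0 : L0a) (h1 : L1) (h2 : L2) : L6 := by
  classical
  intro V _ _ G J t K₁ K₂ hG hp w w' hne hw hw' S hSW hSt hSL hSw hSw' hLw hLw'
  by_contra hadj
  have hd := hp.disj
  have hJ := hp.one_le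
  have ht := hp.t_pos
  have hL1 := hp.large₁
  have hL2 := hp.large₂
  have hJr : (1 : ℝ) ≤ J := by exact_mod_cast hJ
  set f : ℝ := 8 * t + 8 * J with hf
  have hf0 : 0 ≤ f := by positivity
  have hJJ : (J : ℝ) ≤ (J : ℝ) * J := by nlinarith
  have hJt : t ≤ (J : ℝ) * t := by nlinarith
  have hLL : LL J t = 40 * (J * t) + 40 * (J * J) := by unfold LL; ring
  have nA : 2 * (J : ℝ) * f + J ≤ LL J t := by rw [hLL, hf]; nlinarith
  have nB : (J : ℝ) * f + t ≤ LL J t := by rw [hLL, hf]; nlinarith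
  have nC : 2 * t + 4 * (J : ℝ) + 1 ≤ LL J t := by rw [hLL]; nlinarith
  have nD : 6 * t + 3 ≤ LL J t := by rw [hLL]; nlinarith
  have hS1 : Disjoint S K₁ := by
    rw [disjoint_left]
    intro v hv hv1
    have := hSW hv
    simp only [W, mem_sdiff, mem_union, not_or] at this
    exact this.2.1 hv1
  have hS2 : Disjoint S K₂ := by
    rw [disjoint_left]
    intro v hv hv1
    have := hSW hv
    simp only [W, mem_sdiff, mem_union, not_or] at this
    exact this.2.2 hv1
  -- the bad vertices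
  set DSa := S.filter (fun s => ((nb G s ∩ (K₂ \ nb G w)).card : ℝ) ≤ f) with hDSa
  set DSb := S.filter (fun s => ((nb G s ∩ (K₂ \ nb G w')).card : ℝ) ≤ f) with hDSb
  set DSc := S.filter (fun s => ((nb G s ∩ K₁).card : ℝ) ≤ f) with hDSc
  set D1a := K₁.filter (fun q => ((nb G q ∩ S).card : ℝ) ≤ f) with hD1a
  set D1b := K₁.filter (fun q => ((nb G q ∩ K₂).card : ℝ) ≤ f) with hD1b
  set D2a := K₂.filter (fun q => ((nb G q ∩ S).card : ℝ) ≤ f) with hD2a
  set D2b := K₂.filter (fun q => ((nb G q ∩ K₁).card : ℝ) ≤ f) with hD2b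
  have cSa : (DSa.card : ℝ) < 2 * t :=
    h0 V G J t f K₂ (K₂ \ nb G w) hp.typ₂ hJ ht hf0 sdiff_subset (nA.trans hLw) DSa
      (disjoint_of_subset_left (filter_subset _ _) hS2) (fun v hv => (mem_filter.mp hv).2)
  have cSb : (DSb.card : ℝ) < 2 * t :=
    h0 V G J t f K₂ (K₂ \ nb G w') hp.typ₂ hJ ht hf0 sdiff_subset (nA.trans hLw') DSb
      (disjoint_of_subset_left (filter_subset _ _) hS2) (fun v hv => (mem_filter.mp hv).2)
  have cSc : (DSc.card : ℝ) < 2 * t :=
    h0 V G J t f K₁ K₁ hp.typ₁ hJ ht hf0 (Subset.refl _) (nA.trans hL1) DSc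
      (disjoint_of_subset_left (filter_subset _ _) hS1) (fun v hv => (mem_filter.mp hv).2)
  have c1a : (D1a.card : ℝ) < J := by
    exact_mod_cast h1 V G J t f K₁ S hp.typ₁ hJ hf0 hS1 (nB.trans hSL) D1a
      (filter_subset _ _) (fun v hv => (mem_filter.mp hv).2)
  have c1b : (D1b.card : ℝ) < J := by
    exact_mod_cast h1 V G J t f K₁ K₂ hp.typ₁ hJ hf0 hd.symm (nB.trans hL2) D1b
      (filter_subset _ _) (fun v hv => (mem_filter.mp hv).2)
  have c2a : (D2a.card : ℝ) < J := by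
    exact_mod_cast h1 V G J t f K₂ S hp.typ₂ hJ hf0 hS2 (nB.trans hSL) D2a
      (filter_subset _ _) (fun v hv => (mem_filter.mp hv).2)
  have c2b : (D2b.card : ℝ) < J := by
    exact_mod_cast h1 V G J t f K₂ K₁ hp.typ₂ hJ hf0 hd (nB.trans hL1) D2b
      (filter_subset _ _) (fun v hv => (mem_filter.mp hv).2)
  set S' := S \ (DSa ∪ (DSb ∪ DSc)) with hS'
  set K₁' := K₁ \ (D1a ∪ D1b) with hK1'
  set K₂' := K₂ \ (D2a ∪ D2b) with hK2'
  have fS : ∀ P ⊆ S, (P.card : ℝ) < (P ∩ S').card + 6 * t := by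
    intro P hP
    have hsub : P ⊆ (P ∩ S') ∪ (DSa ∪ (DSb ∪ DSc)) := by
      intro v hv
      by_cases hb : v ∈ DSa ∪ (DSb ∪ DSc)
      · exact mem_union_right _ hb
      · exact mem_union_left _ (mem_inter.mpr ⟨hv, mem_sdiff.mpr ⟨hP hv, hb⟩⟩)
    have e1 := edgeK_card hsub
    have e2 := edgeK_card (Subset.refl (DSa ∪ (DSb ∪ DSc)))
    have e3 := edgeK_card (Subset.refl (DSb ∪ DSc))
    linarith
  have f1 : ∀ P ⊆ K₁, (P.card : ℝ) < (P ∩ K₁').card + 2 * J := by
    intro P hP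
    have hsub : P ⊆ (P ∩ K₁') ∪ (D1a ∪ D1b) := by
      intro v hv
      by_cases hb : v ∈ D1a ∪ D1b
      · exact mem_union_right _ hb
      · exact mem_union_left _ (mem_inter.mpr ⟨hv, mem_sdiff.mpr ⟨hP hv, hb⟩⟩)
    have e1 := edgeK_card hsub
    have e2 := edgeK_card (Subset.refl (D1a ∪ D1b))
    linarith
  have f2 : ∀ P ⊆ K₂, (P.card : ℝ) < (P ∩ K₂').card + 2 * J := by
    intro P hP
    have hsub : P ⊆ (P ∩ K₂') ∪ (D2a ∪ D2b) := by
      intro v hv
      by_cases hb : v ∈ D2a ∪ D2b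
      · exact mem_union_right _ hb
      · exact mem_union_left _ (mem_inter.mpr ⟨hv, mem_sdiff.mpr ⟨hP hv, hb⟩⟩)
    have e1 := edgeK_card hsub
    have e2 := edgeK_card (Subset.refl (D2a ∪ D2b))
    linarith
  set X := insert w (insert w' (S' ∪ (K₁' ∪ K₂'))) with hX
  have hwX : w ∈ X := mem_insert_self _ _
  have hw'X : w' ∈ X := mem_insert_of_mem (mem_insert_self _ _)
  have hSX : S' ⊆ X := fun v hv =>
    mem_insert_of_mem (mem_insert_of_mem (mem_union_left _ hv))
  have h1X : K₁' ⊆ X := fun v hv =>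
    mem_insert_of_mem (mem_insert_of_mem (mem_union_right _ (mem_union_left _ hv)))
  have h2X : K₂' ⊆ X := fun v hv =>
    mem_insert_of_mem (mem_insert_of_mem (mem_union_right _ (mem_union_right _ hv)))
  obtain ⟨u, huX, A, B, hA, hB, hAB⟩ := hG X ⟨w, hwX⟩
  have hY : ∀ v, v ∈ A ∪ B ↔ v ∈ A ∨ v ∈ B := fun v => mem_union
  have hYX : ∀ v, v ∈ A ∪ B ↔ v ∈ X ∧ G.Adj u v := fun v => (hY v).trans (hAB v)
  -- a stable set with three elements is not in the neighbourhood
  have stab : ¬ S' ⊆ A ∪ B := by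
    intro hs
    have hc : ∀ C : Finset V, Cl G C → ((S' ∩ C).card : ℝ) ≤ 1 := by
      intro C hC
      have : (S' ∩ C).card ≤ 1 := by
        rw [card_le_one]
        intro a ha b hb
        by_contra hab
        rw [mem_inter] at ha hb
        exact hSt a (mem_sdiff.mp ha.1).1 b (mem_sdiff.mp hb.1).1 (hC a ha.2 b hb.2 hab)
      exact_mod_cast this
    have hsub : S' ⊆ (S' ∩ A) ∪ (S' ∩ B) := by
      intro v hv
      rcases mem_union.mp (hs hv) with h | h
      · exact mem_union_left _ (mem_inter.mpr ⟨hv, h⟩)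
      · exact mem_union_right _ (mem_inter.mpr ⟨hv, h⟩)
    have e1 := edgeK_card hsub
    have e2 := hc A hA
    have e3 := hc B hB
    have e4 := fS S (Subset.refl _)
    have e5 : ((S ∩ S').card : ℝ) ≤ S'.card := by
      exact_mod_cast card_le_card inter_subset_right
    linarith
  -- many vertices outside the cliques contradict L2
  have outc : ∀ P : Finset V, P ⊆ S' → 2 * t ≤ (P.card : ℝ) → (∀ v ∈ P, G.Adj u v) →
      2 * t + 2 * J ≤ (((A ∪ B) ∩ K₁).card : ℝ) → 2 * t + 2 * J ≤ (((A ∪ B) ∩ K₂).card : ℝ) →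
      False := by
    intro P hP hPt hPu hy1 hy2
    have hg := h2 V G J t K₁ K₂ (A ∪ B) A B hp hA hB hY hy1 hy2
    have hPS : P ⊆ S := fun v hv => (mem_sdiff.mp (hP hv)).1
    have := edgeK_out G t K₁ K₂ (A ∪ B) A B P hY hg
      (fun v hv => (hYX v).mpr ⟨hSX (hP hv), hPu v hv⟩)
      (disjoint_of_subset_left hPS hS1) (disjoint_of_subset_left hPS hS2)
    linarith
  have nbK1 : ∀ P : Finset V, P ⊆ K₁ → (∀ v ∈ P, G.Adj u v) →
      (P.card : ℝ) < ((A ∪ B) ∩ K₁).card + 2 * J := by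
    intro P hP hPu
    have e1 := f1 P hP
    have e2 : ((P ∩ K₁').card : ℝ) ≤ ((A ∪ B) ∩ K₁).card := by
      have : P ∩ K₁' ⊆ (A ∪ B) ∩ K₁ := by
        intro v hv
        rw [mem_inter] at hv
        exact mem_inter.mpr ⟨(hYX v).mpr ⟨h1X hv.2, hPu v hv.1⟩, hP hv.1⟩
      exact_mod_cast card_le_card this
    linarith
  have nbK2 : ∀ P : Finset V, P ⊆ K₂ → (∀ v ∈ P, G.Adj u v) →
      (P.card : ℝ) < ((A ∪ B) ∩ K₂).card + 2 * J := by
    intro P hP hPu
    have e1 := f2 P hP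
    have e2 : ((P ∩ K₂').card : ℝ) ≤ ((A ∪ B) ∩ K₂).card := by
      have : P ∩ K₂' ⊆ (A ∪ B) ∩ K₂ := by
        intro v hv
        rw [mem_inter] at hv
        exact mem_inter.mpr ⟨(hYX v).mpr ⟨h2X hv.2, hPu v hv.1⟩, hP hv.1⟩
      exact_mod_cast card_le_card this
    linarith
  have nbS : f < ((nb G u ∩ S).card : ℝ) →
      2 * t + 2 * J ≤ (((A ∪ B) ∩ K₁).card : ℝ) → 2 * t + 2 * J ≤ (((A ∪ B) ∩ K₂).card : ℝ) →
      False := by
    intro hs hy1 hy2
    have e1 := fS (nb G u ∩ S) inter_subset_right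
    refine outc ((nb G u ∩ S) ∩ S') inter_subset_right ?_ ?_ hy1 hy2
    · linarith
    · intro v hv
      exact (edgeK_mem_nb G u v).mp (mem_inter.mp (mem_inter.mp hv).1).1
  by_cases huw : u = w
  · apply stab
    intro v hv
    refine (hYX v).mpr ⟨hSX hv, ?_⟩
    rw [huw]
    exact (edgeK_mem_nb G w v).mp (hSw (mem_sdiff.mp hv).1)
  by_cases huw' : u = w'
  · apply stab
    intro v hv
    refine (hYX v).mpr ⟨hSX hv, ?_⟩
    rw [huw']
    exact (edgeK_mem_nb G w' v).mp (hSw' (mem_sdiff.mp hv).1)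
  have hu : u ∈ S' ∨ u ∈ K₁' ∨ u ∈ K₂' := by
    rw [hX, mem_insert, mem_insert, mem_union, mem_union] at huX
    rcases huX with h | h | h
    · exact absurd h huw
    · exact absurd h huw'
    · exact h
  rcases hu with hu | hu | hu
  · -- `u` in the stable set
    have huS : u ∈ S := (mem_sdiff.mp hu).1
    have hb := (mem_sdiff.mp hu).2
    rw [mem_union, mem_union, not_or, not_or] at hb
    have ha : f < ((nb G u ∩ (K₂ \ nb G w)).card : ℝ) := by
      by_contra h
      exact hb.1 (mem_filter.mpr ⟨huS, not_lt.mp h⟩)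
    have hb' : f < ((nb G u ∩ (K₂ \ nb G w')).card : ℝ) := by
      by_contra h
      exact hb.2.1 (mem_filter.mpr ⟨huS, not_lt.mp h⟩)
    have hc : f < ((nb G u ∩ K₁).card : ℝ) := by
      by_contra h
      exact hb.2.2 (mem_filter.mpr ⟨huS, not_lt.mp h⟩)
    have hy1 : 2 * t + 2 * J ≤ (((A ∪ B) ∩ K₁).card : ℝ) := by
      have := nbK1 (nb G u ∩ K₁) inter_subset_right
        (fun v hv => (edgeK_mem_nb G u v).mp (mem_inter.mp hv).1)
      linarith
    have hy2 : 2 * t + 2 * J ≤ (((A ∪ B) ∩ K₂).card : ℝ) := by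
      have := nbK2 (nb G u ∩ (K₂ \ nb G w)) (inter_subset_right.trans sdiff_subset)
        (fun v hv => (edgeK_mem_nb G u v).mp (mem_inter.mp hv).1)
      linarith
    have hg := h2 V G J t K₁ K₂ (A ∪ B) A B hp hA hB hY hy1 hy2
    have huw1 : G.Adj u w := ((edgeK_mem_nb G w u).mp (hSw huS)).symm
    have huw2 : G.Adj u w' := ((edgeK_mem_nb G w' u).mp (hSw' huS)).symm
    have hwY : w ∈ A ∪ B := (hYX w).mpr ⟨hwX, huw1⟩
    have hwY' : w' ∈ A ∪ B := (hYX w').mpr ⟨hw'X, huw2⟩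
    -- the two vertices are not on the side of `K₂`
    have side : ∀ (x : V), x ∉ K₂ → f < ((nb G u ∩ (K₂ \ nb G x)).card : ℝ) →
        ∀ A' B' : Finset V, (∀ v ∈ A ∪ B, v ∈ A' ∨ v ∈ B') → Good2 G t K₁ K₂ A' B' → x ∉ B' := by
      intro x hx hfx A' B' hAB' hg'
      have e1 := f2 (nb G u ∩ (K₂ \ nb G x)) (inter_subset_right.trans sdiff_subset)
      refine edgeK_side G t K₁ K₂ A' B' ((nb G u ∩ (K₂ \ nb G x)) ∩ K₂') x hd hg' ?_ ?_ hx ?_ ?_
      · intro v hv
        rw [mem_inter] at hv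
        exact hAB' v ((hYX v).mpr ⟨h2X hv.2, (edgeK_mem_nb G u v).mp (mem_inter.mp hv.1).1⟩)
      · exact (inter_subset_left.trans inter_subset_right).trans sdiff_subset
      · intro v hv hadj'
        exact (mem_sdiff.mp (mem_inter.mp (mem_inter.mp hv).1).2).2 ((edgeK_mem_nb G x v).mpr hadj')
      · linarith
    rcases hg with hg | hg
    · have s1 := side w hw ha A B (fun v hv => (hY v).mp hv) hg
      have s2 := side w' hw' hb' A B (fun v hv => (hY v).mp hv) hg
      have m1 : w ∈ A := (mem_union.mp hwY).resolve_right s1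
      have m2 : w' ∈ A := (mem_union.mp hwY').resolve_right s2
      exact hadj (hA w m1 w' m2 hne)
    · have s1 := side w hw ha B A (fun v hv => ((hY v).mp hv).symm) hg
      have s2 := side w' hw' hb' B A (fun v hv => ((hY v).mp hv).symm) hg
      have m1 : w ∈ B := (mem_union.mp hwY).resolve_left s1
      have m2 : w' ∈ B := (mem_union.mp hwY').resolve_left s2
      exact hadj (hB w m1 w' m2 hne)
  · -- `u` in the first clique
    have huK : u ∈ K₁ := (mem_sdiff.mp hu).1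
    have hb := (mem_sdiff.mp hu).2
    rw [mem_union, not_or] at hb
    have ha : f < ((nb G u ∩ S).card : ℝ) := by
      by_contra h
      exact hb.1 (mem_filter.mpr ⟨huK, not_lt.mp h⟩)
    have hb' : f < ((nb G u ∩ K₂).card : ℝ) := by
      by_contra h
      exact hb.2 (mem_filter.mpr ⟨huK, not_lt.mp h⟩)
    have e1 := nbK1 (K₁.erase u) (erase_subset _ _)
      (fun v hv => hp.cl₁ u huK v (mem_of_mem_erase hv) (ne_of_mem_erase hv).symm)
    have e2 : (((K₁.erase u).card : ℕ) : ℝ) = K₁.card - 1 := by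
      rw [card_erase_of_mem huK, Nat.cast_sub (card_pos.mpr ⟨u, huK⟩), Nat.cast_one]
    have e3 := nbK2 (nb G u ∩ K₂) inter_subset_right
      (fun v hv => (edgeK_mem_nb G u v).mp (mem_inter.mp hv).1)
    exact nbS ha (by linarith) (by linarith)
  · -- `u` in the second clique
    have huK : u ∈ K₂ := (mem_sdiff.mp hu).1
    have hb := (mem_sdiff.mp hu).2
    rw [mem_union, not_or] at hb
    have ha : f < ((nb G u ∩ S).card : ℝ) := by
      by_contra h
      exact hb.1 (mem_filter.mpr ⟨huK, not_lt.mp h⟩)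
    have hb' : f < ((nb G u ∩ K₁).card : ℝ) := by
      by_contra h
      exact hb.2 (mem_filter.mpr ⟨huK, not_lt.mp h⟩)
    have e1 := nbK2 (K₂.erase u) (erase_subset _ _)
      (fun v hv => hp.cl₂ u huK v (mem_of_mem_erase hv) (ne_of_mem_erase hv).symm)
    have e2 : (((K₂.erase u).card : ℕ) : ℝ) = K₂.card - 1 := by
      rw [card_erase_of_mem huK, Nat.cast_sub (card_pos.mpr ⟨u, huK⟩), Nat.cast_one]
    have e3 := nbK1 (nb G u ∩ K₁) inter_subset_right
      (fun v hv => (edgeK_mem_nb G u v).mp (mem_inter.mp hv).1)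
    exact nbS ha (by linarith) (by linarith)

end Pool.Agent.Lib.MP_534936_co.AQ
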