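import Pool.Agent.Lib.MP_534936_co.AQ.Defs

/-!
# Two vertices outside the cliques with incomparable neighbourhoods are not adjacent (L5)
-/

namespace Pool.Agent.Lib.MP_534936_co.AQ

open Finset

section edgeS

variable {V : Type} [Fintype V] [DecidableEq V]

theorem edgeS_symm {G : SimpleGraph V} {J : ℕ} {t : ℝ} {K₁ K₂ : Finset V}
    (P : Pair G J t K₁ K₂) : Pair G J t K₂ K₁ :=
  ⟨P.cl₂, P.cl₁, P.disj.symm, P.typ₂, P.typ₁, P.one_le, P.t_pos, P.large₂, P.large₁⟩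

omit [DecidableEq V] in
theorem edgeS_mem_nb {G : SimpleGraph V} {x v : V} : v ∈ nb G x ↔ G.Adj x v := by
  simp [nb]

theorem edgeS_LL {G : SimpleGraph V} {J : ℕ} {t : ℝ} {K₁ K₂ : Finset V}
    (P : Pair G J t K₁ K₂) : 40 * (t + J) ≤ LL J t ∧ J * ff J t + t ≤ LL J t ∧
      (1 : ℝ) ≤ J ∧ 0 < t := by
  have hJ : (1 : ℝ) ≤ J := by exact_mod_cast P.one_le
  have ht := P.t_pos
  refine ⟨?_, ?_, hJ, ht⟩
  · unfold LL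
    nlinarith [mul_le_mul_of_nonneg_right hJ (by linarith : (0 : ℝ) ≤ t + J)]
  · unfold LL ff
    nlinarith [mul_le_mul_of_nonneg_right hJ (by linarith : (0 : ℝ) ≤ t + J),
      mul_le_mul_of_nonneg_right hJ ht.le]

/-- the contradiction with L2 -/
theorem edgeS_contra (h2 : L2) {G : SimpleGraph V} {J : ℕ} {t : ℝ} {K₁ K₂ : Finset V}
    (P : Pair G J t K₁ K₂) {X : Finset V} {u v : V} (hb : Bis G X u) (hv : v ∈ X)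
    (huv : G.Adj u v) (hv₁ : v ∉ K₁) (hv₂ : v ∉ K₂) (Y₁ Y₂ Z₁ Z₂ : Finset V)
    (hY₁ : ∀ y ∈ Y₁, y ∈ K₁ ∧ y ∈ X ∧ G.Adj u y) (hY₂ : ∀ y ∈ Y₂, y ∈ K₂ ∧ y ∈ X ∧ G.Adj u y)
    (hZ₁ : ∀ y ∈ Z₁, y ∈ K₁ ∧ y ∈ X ∧ G.Adj u y ∧ ¬ G.Adj v y)
    (hZ₂ : ∀ y ∈ Z₂, y ∈ K₂ ∧ y ∈ X ∧ G.Adj u y ∧ ¬ G.Adj v y)
    (c₁ : 2 * t + 2 * J ≤ (Y₁.card : ℝ)) (c₂ : 2 * t + 2 * J ≤ (Y₂.card : ℝ))
    (d₁ : t ≤ (Z₁.card : ℝ)) (d₂ : t ≤ (Z₂.card : ℝ)) : False := by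
  obtain ⟨A, B, hA, hB, hAB⟩ := hb
  have s₁ : Y₁ ⊆ (A ∪ B) ∩ K₁ := fun y hy => by
    obtain ⟨h, h', h''⟩ := hY₁ y hy
    exact mem_inter.2 ⟨mem_union.2 ((hAB y).2 ⟨h', h''⟩), h⟩
  have s₂ : Y₂ ⊆ (A ∪ B) ∩ K₂ := fun y hy => by
    obtain ⟨h, h', h''⟩ := hY₂ y hy
    exact mem_inter.2 ⟨mem_union.2 ((hAB y).2 ⟨h', h''⟩), h⟩
  have e₁ : 2 * t + 2 * J ≤ (((A ∪ B) ∩ K₁).card : ℝ) :=
    c₁.trans (by exact_mod_cast card_le_card s₁)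
  have e₂ : 2 * t + 2 * J ≤ (((A ∪ B) ∩ K₂).card : ℝ) :=
    c₂.trans (by exact_mod_cast card_le_card s₂)
  have key : ∀ A' B' : Finset V, Good2 G t K₁ K₂ A' B' →
      (∀ w, (w ∈ A' ∨ w ∈ B') ↔ (w ∈ X ∧ G.Adj u w)) → False := by
    intro A' B' hg hAB'
    obtain ⟨cA, cB, fA, fB⟩ := hg
    rcases (hAB' v).2 ⟨hv, huv⟩ with hvA | hvB
    · have hsub : Z₁ ⊆ B' \ K₂ := by
        intro z hz
        obtain ⟨z1, z2, z3, z4⟩ := hZ₁ z hz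
        rcases (hAB' z).2 ⟨z2, z3⟩ with h | h
        · exact absurd (cA v hvA z h (by rintro rfl; exact hv₁ z1)) z4
        · exact mem_sdiff.2 ⟨h, fun h' => disjoint_left.1 P.disj z1 h'⟩
      have : (Z₁.card : ℝ) ≤ ((B' \ K₂).card : ℝ) := by exact_mod_cast card_le_card hsub
      linarith
    · have hsub : Z₂ ⊆ A' \ K₁ := by
        intro z hz
        obtain ⟨z1, z2, z3, z4⟩ := hZ₂ z hz
        rcases (hAB' z).2 ⟨z2, z3⟩ with h | h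
        · exact mem_sdiff.2 ⟨h, fun h' => disjoint_left.1 P.disj h' z1⟩
        · exact absurd (cB v hvB z h (by rintro rfl; exact hv₂ z1)) z4
      have : (Z₂.card : ℝ) ≤ ((A' \ K₁).card : ℝ) := by exact_mod_cast card_le_card hsub
      linarith
  rcases h2 V G J t K₁ K₂ (A ∪ B) A B P hA hB (fun w => mem_union) e₁ e₂ with h | h
  · exact key A B h hAB
  · exact key B A h (fun w => or_comm.trans (hAB w))

omit [Fintype V] in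
theorem edgeS_sdiff {J : ℕ} {D B : Finset V} {r : ℝ} (b : B.card ≤ 2 * J)
    (d : r ≤ (D.card : ℝ)) : r - 2 * J ≤ ((D \ B).card : ℝ) := by
  have h := card_le_card_sdiff_add_card (s := D) (t := B)
  have h' : (D.card : ℝ) ≤ ((D \ B).card : ℝ) + B.card := by exact_mod_cast h
  have h'' : (B.card : ℝ) ≤ 2 * J := by exact_mod_cast b
  linarith

/-- no vertex of the first clique is bisimplicial -/
theorem edgeS_k (h2 : L2) {G : SimpleGraph V} {J : ℕ} {t : ℝ} {K₁ K₂ : Finset V}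
    (P : Pair G J t K₁ K₂) {X D₁ D₂ E₁ E₂ B₁ B₂ : Finset V} {v k : V}
    (hb : Bis G X k) (hk : k ∈ K₁) (hv : v ∈ X) (hv₁ : v ∉ K₁) (hv₂ : v ∉ K₂) (hkv : G.Adj k v)
    (hD₁ : ∀ x ∈ D₁, x ∈ K₁ ∧ (x ∉ B₁ → x ∈ X)) (hD₂ : ∀ x ∈ D₂, x ∈ K₂ ∧ (x ∉ B₂ → x ∈ X))
    (hE₁ : ∀ x ∈ E₁, x ∈ K₁ ∧ (x ∉ B₁ → x ∈ X) ∧ ¬ G.Adj v x)
    (hE₂ : ∀ x ∈ E₂, x ∈ K₂ ∧ (x ∉ B₂ → x ∈ X) ∧ ¬ G.Adj v x)
    (b₁ : B₁.card < 2 * J) (b₂ : B₂.card < 2 * J)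
    (d₁ : LL J t ≤ (D₁.card : ℝ)) (e₁ : LL J t ≤ (E₁.card : ℝ))
    (d₂ : ff J t < ((nb G k ∩ D₂).card : ℝ)) (e₂ : ff J t < ((nb G k ∩ E₂).card : ℝ)) :
    False := by
  obtain ⟨hL, -, hJ, ht⟩ := edgeS_LL P
  have b₁' : (insert k B₁).card ≤ 2 * J := (card_insert_le _ _).trans b₁
  have f0 : ff J t = 8 * t + 8 * J := rfl
  refine edgeS_contra h2 P hb hv hkv hv₁ hv₂ (D₁ \ insert k B₁) ((nb G k ∩ D₂) \ B₂)
    (E₁ \ insert k B₁) ((nb G k ∩ E₂) \ B₂) ?_ ?_ ?_ ?_ ?_ ?_ ?_ ?_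
  · intro y hy
    obtain ⟨hy1, hy2⟩ := mem_sdiff.1 hy
    have hyk : y ≠ k := fun h => hy2 (mem_insert.2 (Or.inl h))
    have hyB : y ∉ B₁ := fun h => hy2 (mem_insert.2 (Or.inr h))
    exact ⟨(hD₁ y hy1).1, (hD₁ y hy1).2 hyB, P.cl₁ k hk y (hD₁ y hy1).1 hyk.symm⟩
  · intro y hy
    obtain ⟨hy1, hy2⟩ := mem_sdiff.1 hy
    obtain ⟨hy3, hy4⟩ := mem_inter.1 hy1
    exact ⟨(hD₂ y hy4).1, (hD₂ y hy4).2 hy2, edgeS_mem_nb.1 hy3⟩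
  · intro y hy
    obtain ⟨hy1, hy2⟩ := mem_sdiff.1 hy
    have hyk : y ≠ k := fun h => hy2 (mem_insert.2 (Or.inl h))
    have hyB : y ∉ B₁ := fun h => hy2 (mem_insert.2 (Or.inr h))
    exact ⟨(hE₁ y hy1).1, (hE₁ y hy1).2.1 hyB, P.cl₁ k hk y (hE₁ y hy1).1 hyk.symm,
      (hE₁ y hy1).2.2⟩
  · intro y hy
    obtain ⟨hy1, hy2⟩ := mem_sdiff.1 hy
    obtain ⟨hy3, hy4⟩ := mem_inter.1 hy1
    exact ⟨(hE₂ y hy4).1, (hE₂ y hy4).2.1 hy2, edgeS_mem_nb.1 hy3, (hE₂ y hy4).2.2⟩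
  · have := edgeS_sdiff b₁' d₁
    linarith
  · have := edgeS_sdiff b₂.le d₂.le
    linarith
  · have := edgeS_sdiff b₁' e₁
    linarith
  · have := edgeS_sdiff b₂.le e₂.le
    linarith

/-- few vertices of the first clique have few neighbours in one of two large parts of the
second -/
theorem edgeS_bad (h1 : L1) {G : SimpleGraph V} {J : ℕ} {t : ℝ} {K₁ K₂ : Finset V}
    (P : Pair G J t K₁ K₂) {D E : Finset V} (hD : D ⊆ K₂) (hE : E ⊆ K₂)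
    (lD : LL J t ≤ (D.card : ℝ)) (lE : LL J t ≤ (E.card : ℝ)) :
    ∃ B : Finset V, B.card < 2 * J ∧ ∀ k ∈ K₁, k ∉ B →
      ff J t < ((nb G k ∩ D).card : ℝ) ∧ ff J t < ((nb G k ∩ E).card : ℝ) := by
  classical
  obtain ⟨-, hL, hJ, ht⟩ := edgeS_LL P
  have f0 : (0 : ℝ) ≤ ff J t := by unfold ff; linarith
  have hB : ∀ F : Finset V, F ⊆ K₂ → LL J t ≤ (F.card : ℝ) →
      (K₁.filter fun k => ((nb G k ∩ F).card : ℝ) ≤ ff J t).card < J := by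
    intro F hF lF
    refine h1 V G J t (ff J t) K₁ F P.typ₁ P.one_le f0 ?_ (hL.trans lF) _ (filter_subset _ _) ?_
    · exact disjoint_of_subset_left hF P.disj.symm
    · intro q hq
      exact (mem_filter.1 hq).2
  refine ⟨(K₁.filter fun k => ((nb G k ∩ D).card : ℝ) ≤ ff J t) ∪
    (K₁.filter fun k => ((nb G k ∩ E).card : ℝ) ≤ ff J t), ?_, ?_⟩
  · have a := hB D hD lD
    have b := hB E hE lE
    have c := card_union_le (K₁.filter fun k => ((nb G k ∩ D).card : ℝ) ≤ ff J t)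
      (K₁.filter fun k => ((nb G k ∩ E).card : ℝ) ≤ ff J t)
    omega
  · intro k hk hkB
    constructor
    · by_contra h
      exact hkB (mem_union.2 (Or.inl (mem_filter.2 ⟨hk, not_lt.1 h⟩)))
    · by_contra h
      exact hkB (mem_union.2 (Or.inr (mem_filter.2 ⟨hk, not_lt.1 h⟩)))

end edgeS

theorem l5 (h1 : L1) (h2 : L2) : L5 := by
  classical
  intro V _ _ G J t K₁ K₂ hG P s hs s' hs' hne l₁ l₁' l₂ l₂' hadj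
  obtain ⟨hL, -, hJ, ht⟩ := edgeS_LL P
  have hs1 : s ∉ K₁ := fun h => (mem_sdiff.1 hs).2 (mem_union.2 (Or.inl h))
  have hs2 : s ∉ K₂ := fun h => (mem_sdiff.1 hs).2 (mem_union.2 (Or.inr h))
  have hs1' : s' ∉ K₁ := fun h => (mem_sdiff.1 hs').2 (mem_union.2 (Or.inl h))
  have hs2' : s' ∉ K₂ := fun h => (mem_sdiff.1 hs').2 (mem_union.2 (Or.inr h))
  have m : ∀ {K : Finset V} {a b x : V}, x ∈ (K ∩ nb G a) \ nb G b →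
      x ∈ K ∧ G.Adj a x ∧ ¬ G.Adj b x := by
    intro K a b x hx
    obtain ⟨h, h'⟩ := mem_sdiff.1 hx
    obtain ⟨h3, h4⟩ := mem_inter.1 h
    exact ⟨h3, edgeS_mem_nb.1 h4, fun h5 => h' (edgeS_mem_nb.2 h5)⟩
  have sub : ∀ {K : Finset V} {a b : V}, (K ∩ nb G a) \ nb G b ⊆ K := by
    intro K a b x hx
    exact (m hx).1
  obtain ⟨B₁, b₁, g₁⟩ := edgeS_bad h1 P (sub (K := K₂) (a := s) (b := s'))
    (sub (K := K₂) (a := s') (b := s)) l₂ l₂'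
  obtain ⟨B₂, b₂, g₂⟩ := edgeS_bad h1 (edgeS_symm P) (sub (K := K₁) (a := s) (b := s'))
    (sub (K := K₁) (a := s') (b := s)) l₁ l₁'
  let X : Finset V := univ.filter fun x => (x = s ∨ x = s') ∨
    (x ∈ K₁ ∧ (G.Adj s x ∨ G.Adj s' x) ∧ x ∉ B₁) ∨ (x ∈ K₂ ∧ (G.Adj s x ∨ G.Adj s' x) ∧ x ∉ B₂)
  have hX : ∀ x, x ∈ X ↔ (x = s ∨ x = s') ∨
    (x ∈ K₁ ∧ (G.Adj s x ∨ G.Adj s' x) ∧ x ∉ B₁) ∨
      (x ∈ K₂ ∧ (G.Adj s x ∨ G.Adj s' x) ∧ x ∉ B₂) := by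
    intro x
    simp [X]
  have sX : s ∈ X := (hX s).2 (Or.inl (Or.inl rfl))
  have sX' : s' ∈ X := (hX s').2 (Or.inl (Or.inr rfl))
  -- membership in `X`
  have x₁ : ∀ x ∈ (K₁ ∩ nb G s) \ nb G s', x ∈ K₁ ∧ (x ∉ B₁ → x ∈ X) := fun x hx =>
    ⟨(m hx).1, fun h => (hX x).2 (Or.inr (Or.inl ⟨(m hx).1, Or.inl (m hx).2.1, h⟩))⟩
  have x₁' : ∀ x ∈ (K₁ ∩ nb G s') \ nb G s, x ∈ K₁ ∧ (x ∉ B₁ → x ∈ X) := fun x hx =>
    ⟨(m hx).1, fun h => (hX x).2 (Or.inr (Or.inl ⟨(m hx).1, Or.inr (m hx).2.1, h⟩))⟩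
  have x₂ : ∀ x ∈ (K₂ ∩ nb G s) \ nb G s', x ∈ K₂ ∧ (x ∉ B₂ → x ∈ X) := fun x hx =>
    ⟨(m hx).1, fun h => (hX x).2 (Or.inr (Or.inr ⟨(m hx).1, Or.inl (m hx).2.1, h⟩))⟩
  have x₂' : ∀ x ∈ (K₂ ∩ nb G s') \ nb G s, x ∈ K₂ ∧ (x ∉ B₂ → x ∈ X) := fun x hx =>
    ⟨(m hx).1, fun h => (hX x).2 (Or.inr (Or.inr ⟨(m hx).1, Or.inr (m hx).2.1, h⟩))⟩
  obtain ⟨u, huX, hb⟩ := hG X ⟨s, sX⟩
  rcases (hX u).1 huX with (rfl | rfl) | ⟨hu, hus, huB⟩ | ⟨hu, hus, huB⟩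
  · -- `u = s`
    refine edgeS_contra h2 P hb sX' hadj hs1' hs2' (((K₁ ∩ nb G u) \ nb G s') \ B₁)
      (((K₂ ∩ nb G u) \ nb G s') \ B₂) (((K₁ ∩ nb G u) \ nb G s') \ B₁)
      (((K₂ ∩ nb G u) \ nb G s') \ B₂) ?_ ?_ ?_ ?_ ?_ ?_ ?_ ?_
    · intro y hy
      obtain ⟨h, h'⟩ := mem_sdiff.1 hy
      exact ⟨(m h).1, (x₁ y h).2 h', (m h).2.1⟩
    · intro y hy
      obtain ⟨h, h'⟩ := mem_sdiff.1 hy
      exact ⟨(m h).1, (x₂ y h).2 h', (m h).2.1⟩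
    · intro y hy
      obtain ⟨h, h'⟩ := mem_sdiff.1 hy
      exact ⟨(m h).1, (x₁ y h).2 h', (m h).2.1, (m h).2.2⟩
    · intro y hy
      obtain ⟨h, h'⟩ := mem_sdiff.1 hy
      exact ⟨(m h).1, (x₂ y h).2 h', (m h).2.1, (m h).2.2⟩
    · have := edgeS_sdiff b₁.le l₁
      linarith
    · have := edgeS_sdiff b₂.le l₂
      linarith
    · have := edgeS_sdiff b₁.le l₁
      linarith
    · have := edgeS_sdiff b₂.le l₂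
      linarith
  · -- `u = s'`
    refine edgeS_contra h2 P hb sX hadj.symm hs1 hs2 (((K₁ ∩ nb G u) \ nb G s) \ B₁)
      (((K₂ ∩ nb G u) \ nb G s) \ B₂) (((K₁ ∩ nb G u) \ nb G s) \ B₁)
      (((K₂ ∩ nb G u) \ nb G s) \ B₂) ?_ ?_ ?_ ?_ ?_ ?_ ?_ ?_
    · intro y hy
      obtain ⟨h, h'⟩ := mem_sdiff.1 hy
      exact ⟨(m h).1, (x₁' y h).2 h', (m h).2.1⟩
    · intro y hy
      obtain ⟨h, h'⟩ := mem_sdiff.1 hy
      exact ⟨(m h).1, (x₂' y h).2 h', (m h).2.1⟩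
    · intro y hy
      obtain ⟨h, h'⟩ := mem_sdiff.1 hy
      exact ⟨(m h).1, (x₁' y h).2 h', (m h).2.1, (m h).2.2⟩
    · intro y hy
      obtain ⟨h, h'⟩ := mem_sdiff.1 hy
      exact ⟨(m h).1, (x₂' y h).2 h', (m h).2.1, (m h).2.2⟩
    · have := edgeS_sdiff b₁.le l₁'
      linarith
    · have := edgeS_sdiff b₂.le l₂'
      linarith
    · have := edgeS_sdiff b₁.le l₁'
      linarith
    · have := edgeS_sdiff b₂.le l₂'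
      linarith
  · -- `u` in the first clique
    obtain ⟨q, q'⟩ := g₁ u hu huB
    rcases hus with h | h
    · exact edgeS_k h2 P hb hu sX hs1 hs2 h.symm x₁ x₂
        (fun x hx => ⟨(x₁' x hx).1, (x₁' x hx).2, (m hx).2.2⟩)
        (fun x hx => ⟨(x₂' x hx).1, (x₂' x hx).2, (m hx).2.2⟩) b₁ b₂ l₁ l₁' q q'
    · exact edgeS_k h2 P hb hu sX' hs1' hs2' h.symm x₁' x₂'
        (fun x hx => ⟨(x₁ x hx).1, (x₁ x hx).2, (m hx).2.2⟩)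
        (fun x hx => ⟨(x₂ x hx).1, (x₂ x hx).2, (m hx).2.2⟩) b₁ b₂ l₁' l₁ q' q
  · -- `u` in the second clique
    obtain ⟨q, q'⟩ := g₂ u hu huB
    rcases hus with h | h
    · exact edgeS_k h2 (edgeS_symm P) hb hu sX hs2 hs1 h.symm x₂ x₁
        (fun x hx => ⟨(x₂' x hx).1, (x₂' x hx).2, (m hx).2.2⟩)
        (fun x hx => ⟨(x₁' x hx).1, (x₁' x hx).2, (m hx).2.2⟩) b₂ b₁ l₂ l₂' q q'
    · exact edgeS_k h2 (edgeS_symm P) hb hu sX' hs2' hs1' h.symm x₂' x₁'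
        (fun x hx => ⟨(x₂ x hx).1, (x₂ x hx).2, (m hx).2.2⟩)
        (fun x hx => ⟨(x₁ x hx).1, (x₁ x hx).2, (m hx).2.2⟩) b₂ b₁ l₂' l₂ q' q

end Pool.Agent.Lib.MP_534936_co.AQ
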