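import Mathlib
import Pool.Agent.Lib.MP_534936_co.AQ.Defs

/-!
# The engine: counting graphs by removing a set of vertices

The general counting lemmas are the ones of the library for labelled posets.
-/

namespace Pool.Agent.Lib.MP_534936_co.AQ

open Finset

/-! ### Restrictions -/

/-- the class is hereditary -/
theorem GQ.comap {V U : Type*} [Fintype V] [DecidableEq V] [Fintype U] [DecidableEq U]
    {G : SimpleGraph V} (h : GQ G) (f : U ↪ V) : GQ (G.comap f) := by
  classical
  intro X hX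
  obtain ⟨u, hu, A, B, hA, hB, hAB⟩ := h (X.map f) (by simpa using hX)
  rw [Finset.mem_map] at hu
  obtain ⟨u', hu', rfl⟩ := hu
  refine ⟨u', hu', Finset.univ.filter (fun v => f v ∈ A), Finset.univ.filter (fun v => f v ∈ B),
    ?_, ?_, ?_⟩
  · intro a ha b hb hab
    simp only [Finset.mem_filter, Finset.mem_univ, true_and] at ha hb
    exact hA _ ha _ hb (fun h => hab (f.injective h))
  · intro a ha b hb hab
    simp only [Finset.mem_filter, Finset.mem_univ, true_and] at ha hb
    exact hB _ ha _ hb (fun h => hab (f.injective h))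
  · intro v
    simp only [Finset.mem_filter, Finset.mem_univ, true_and]
    rw [hAB (f v), Finset.mem_map' f]
    simp

/-- the restriction to the complement of `S` -/
def res {V : Type*} (S : Finset V) (G : SimpleGraph V) : SimpleGraph V where
  Adj x y := x ∉ S ∧ y ∉ S ∧ G.Adj x y
  symm := ⟨fun _ _ h => ⟨h.2.1, h.1, h.2.2.symm⟩⟩
  loopless := ⟨fun x h => G.loopless.irrefl x h.2.2⟩

theorem res_adj {V : Type*} {S : Finset V} {G : SimpleGraph V} {x y : V} :
    (res S G).Adj x y ↔ x ∉ S ∧ y ∉ S ∧ G.Adj x y := Iff.rfl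

theorem res_iff {V : Type*} {S : Finset V} {G G' : SimpleGraph V} (h : res S G = res S G')
    {x y : V} (hx : x ∉ S) (hy : y ∉ S) : G.Adj x y ↔ G'.Adj x y := by
  have h1 : (res S G).Adj x y ↔ (res S G').Adj x y := by rw [h]
  simp only [res_adj] at h1
  constructor
  · intro h2
    exact (h1.mp ⟨hx, hy, h2⟩).2.2
  · intro h2
    exact (h1.mpr ⟨hx, hy, h2⟩).2.2

theorem mem_nb {V : Type*} [Fintype V] [DecidableEq V] {G : SimpleGraph V} {x v : V} :
    v ∈ nb G x ↔ G.Adj x v := by
  simp [nb]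

/-- A graph is determined by the restriction and the neighbourhoods of the removed vertices. -/
theorem eq_of_res {V : Type*} [Fintype V] [DecidableEq V] {S : Finset V} {G G' : SimpleGraph V}
    (h : res S G = res S G') (h2 : ∀ s ∈ S, nb G s = nb G' s) : G = G' := by
  ext x y
  by_cases hx : x ∈ S
  · rw [← mem_nb, ← mem_nb, h2 x hx]
  by_cases hy : y ∈ S
  · rw [G.adj_comm, G'.adj_comm, ← mem_nb, ← mem_nb, h2 y hy]
  exact res_iff h hx hy

open Classical in
/-- the set counted by `num` -/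
noncomputable def numSet (n : ℕ) (P : SimpleGraph (Fin n) → Prop) :
    Finset (SimpleGraph (Fin n)) :=
  Finset.univ.filter fun G : SimpleGraph (Fin n) => GQ G ∧ P G

theorem num_eq (n : ℕ) (P : SimpleGraph (Fin n) → Prop) : num n P = (numSet n P).card := rfl

theorem mem_numSet {n : ℕ} {P : SimpleGraph (Fin n) → Prop} {G : SimpleGraph (Fin n)} :
    G ∈ numSet n P ↔ GQ G ∧ P G := by
  simp [numSet]

open Classical in
/-- The number of restrictions. -/
theorem card_image_res {n k : ℕ} (S : Finset (Fin n)) (hS : S.card = k) :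
    ((Finset.univ.filter fun G : SimpleGraph (Fin n) => GQ G).image (res S)).card ≤
      gg (n - k) := by
  have hcard : Fintype.card {x // x ∉ S} = n - k := by
    rw [Fintype.card_subtype_compl, Fintype.card_fin, Fintype.card_coe, hS]
  let e : {x // x ∉ S} ≃ Fin (n - k) := Fintype.equivFinOfCardEq hcard
  let f : Fin (n - k) ↪ Fin n := e.symm.toEmbedding.trans (Function.Embedding.subtype _)
  rw [gg, num_eq]
  apply Finset.card_le_card_of_injOn (fun ρ : SimpleGraph (Fin n) => ρ.comap f)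
  · intro ρ hρ
    rw [Finset.mem_coe, Finset.mem_image] at hρ
    obtain ⟨G, hG, rfl⟩ := hρ
    rw [Finset.mem_filter] at hG
    rw [Finset.mem_coe, mem_numSet]
    refine ⟨?_, trivial⟩
    show GQ ((res S G).comap f)
    have h1 : (res S G).comap f = G.comap f := by
      ext i j
      simp only [SimpleGraph.comap_adj, res_adj]
      exact ⟨fun h => h.2.2, fun h => ⟨(e.symm i).2, (e.symm j).2, h⟩⟩
    rw [h1]
    exact hG.2.comap f
  · intro ρ hρ ρ' hρ' heq
    rw [Finset.mem_coe, Finset.mem_image] at hρ hρ'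
    obtain ⟨G, -, rfl⟩ := hρ
    obtain ⟨G', -, rfl⟩ := hρ'
    ext x y
    by_cases hx : x ∈ S
    · exact iff_of_false (fun h => h.1 hx) (fun h => h.1 hx)
    by_cases hy : y ∈ S
    · exact iff_of_false (fun h => h.2.1 hy) (fun h => h.2.1 hy)
    have h1 : ((res S G).comap f).Adj (e ⟨x, hx⟩) (e ⟨y, hy⟩) ↔
        ((res S G').comap f).Adj (e ⟨x, hx⟩) (e ⟨y, hy⟩) := by
      have h2 : (res S G).comap f = (res S G').comap f := heq
      rw [h2]
    have hfx : f (e ⟨x, hx⟩) = x := by simp [f]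
    have hfy : f (e ⟨y, hy⟩) = y := by simp [f]
    simp only [SimpleGraph.comap_adj, hfx, hfy] at h1
    exact h1

open Classical in
/-- The engine. -/
theorem engine {n k : ℕ} {D : Type} [Fintype D] (P : SimpleGraph (Fin n) → Prop)
    (P' : Finset (Fin n) → D → SimpleGraph (Fin n) → Prop) (M : ℝ) (hM : 0 ≤ M)
    (h1 : ∀ G, GQ G → P G → ∃ S : Finset (Fin n), S.card = k ∧ ∃ d, P' S d G)
    (h2 : ∀ S : Finset (Fin n), S.card = k → ∀ d ρ,
      ((Finset.univ.filter fun G : SimpleGraph (Fin n) =>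
        GQ G ∧ P' S d G ∧ res S G = ρ).card : ℝ) ≤ M) :
    (num n P : ℝ) ≤ (n : ℝ) ^ k * Fintype.card D * M * gg (n - k) := by
  have hfib : ∀ S : Finset (Fin n), S.card = k → ∀ d,
      ((Finset.univ.filter fun G : SimpleGraph (Fin n) => GQ G ∧ P' S d G).card : ℝ) ≤
        M * gg (n - k) := by
    intro S hS d
    have h3 : (Finset.univ.filter fun G : SimpleGraph (Fin n) => GQ G ∧ P' S d G).card =
        ∑ ρ ∈ (Finset.univ.filter fun G : SimpleGraph (Fin n) => GQ G).image (res S),
          ((Finset.univ.filter fun G : SimpleGraph (Fin n) => GQ G ∧ P' S d G).filter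
            fun G => res S G = ρ).card := by
      apply Finset.card_eq_sum_card_fiberwise
      intro G hG
      rw [Finset.mem_coe, Finset.mem_filter] at hG
      rw [Finset.mem_coe]
      exact Finset.mem_image_of_mem _ (Finset.mem_filter.mpr ⟨Finset.mem_univ _, hG.2.1⟩)
    rw [h3]
    push_cast
    calc _ ≤ ∑ ρ ∈ (Finset.univ.filter fun G : SimpleGraph (Fin n) => GQ G).image (res S), M := by
          apply Finset.sum_le_sum
          intro ρ _
          have h4 := h2 S hS d ρ
          rw [Finset.filter_filter]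
          refine le_trans (le_of_eq ?_) h4
          congr 2
          ext G
          simp only [Finset.mem_filter, Finset.mem_univ, true_and, and_assoc]
      _ = (((Finset.univ.filter fun G : SimpleGraph (Fin n) => GQ G).image
            (res S)).card : ℝ) * M := by
          rw [Finset.sum_const, nsmul_eq_mul]
      _ ≤ (gg (n - k) : ℝ) * M := by
          apply mul_le_mul_of_nonneg_right _ hM
          exact_mod_cast card_image_res S hS
      _ = M * gg (n - k) := mul_comm _ _
  have hsub : (Finset.univ.filter fun G : SimpleGraph (Fin n) => GQ G ∧ P G) ⊆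
      ((Finset.powersetCard k (Finset.univ : Finset (Fin n))) ×ˢ
        (Finset.univ : Finset D)).biUnion
        (fun p => Finset.univ.filter fun G : SimpleGraph (Fin n) => GQ G ∧ P' p.1 p.2 G) := by
    intro G hG
    rw [Finset.mem_filter] at hG
    obtain ⟨S, hS, d, hd⟩ := h1 G hG.2.1 hG.2.2
    rw [Finset.mem_biUnion]
    refine ⟨(S, d), ?_, Finset.mem_filter.mpr ⟨Finset.mem_univ _, hG.2.1, hd⟩⟩
    rw [Finset.mem_product, Finset.mem_powersetCard]
    exact ⟨⟨Finset.subset_univ _, hS⟩, Finset.mem_univ _⟩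
  have h5 : (num n P : ℝ) ≤ ∑ p ∈ (Finset.powersetCard k (Finset.univ : Finset (Fin n))) ×ˢ
        (Finset.univ : Finset D), M * gg (n - k) := by
    have h6 : num n P ≤ ∑ p ∈ (Finset.powersetCard k (Finset.univ : Finset (Fin n))) ×ˢ
        (Finset.univ : Finset D),
        (Finset.univ.filter fun G : SimpleGraph (Fin n) => GQ G ∧ P' p.1 p.2 G).card :=
      (Finset.card_le_card hsub).trans Finset.card_biUnion_le
    calc (num n P : ℝ) ≤ ((∑ p ∈ (Finset.powersetCard k (Finset.univ : Finset (Fin n))) ×ˢ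
        (Finset.univ : Finset D),
        (Finset.univ.filter fun G : SimpleGraph (Fin n) =>
          GQ G ∧ P' p.1 p.2 G).card : ℕ) : ℝ) := by exact_mod_cast h6
      _ ≤ _ := by
        push_cast
        apply Finset.sum_le_sum
        intro p hp
        rw [Finset.mem_product, Finset.mem_powersetCard] at hp
        exact hfib p.1 hp.1.2 p.2
  refine h5.trans ?_
  rw [Finset.sum_const, nsmul_eq_mul, Finset.card_product, Finset.card_powersetCard,
    Finset.card_univ, Finset.card_univ, Fintype.card_fin]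
  have h7 : ((n.choose k : ℕ) : ℝ) ≤ (n : ℝ) ^ k := by
    exact_mod_cast Nat.choose_le_pow n k
  push_cast
  have h8 : (0 : ℝ) ≤ Fintype.card D * (M * gg (n - k)) := by positivity
  calc ((n.choose k : ℕ) : ℝ) * Fintype.card D * (M * gg (n - k))
      = ((n.choose k : ℕ) : ℝ) * (Fintype.card D * (M * gg (n - k))) := by ring
    _ ≤ (n : ℝ) ^ k * (Fintype.card D * (M * gg (n - k))) :=
        mul_le_mul_of_nonneg_right h7 h8
    _ = _ := by ring

/-! ### Sets of graphs -/

theorem num_mono {n : ℕ} {P P' : SimpleGraph (Fin n) → Prop}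
    (h : ∀ G, GQ G → P G → P' G) : num n P ≤ num n P' := by
  rw [num_eq, num_eq]
  apply Finset.card_le_card
  intro G hG
  rw [mem_numSet] at hG ⊢
  exact ⟨hG.1, h G hG.1 hG.2⟩

theorem num_or_le {n : ℕ} (P P' : SimpleGraph (Fin n) → Prop) :
    num n (fun G => P G ∨ P' G) ≤ num n P + num n P' := by
  classical
  rw [num_eq, num_eq, num_eq]
  refine le_trans (Finset.card_le_card ?_) (Finset.card_union_le _ _)
  intro G hG
  rw [mem_numSet] at hG
  rw [Finset.mem_union, mem_numSet, mem_numSet]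
  rcases hG.2 with h | h
  · exact Or.inl ⟨hG.1, h⟩
  · exact Or.inr ⟨hG.1, h⟩

theorem num_le_gg (n : ℕ) (P : SimpleGraph (Fin n) → Prop) : num n P ≤ gg n :=
  num_mono fun _ _ _ => trivial

/-! ### Analysis -/

/-- Powers are smaller than exponentials. -/
theorem absorb (A : ℝ) (j : ℕ) (a b : ℝ) (hab : a < b) :
    ∃ N : ℕ, ∀ n ≥ N, A * (n : ℝ) ^ j * (2 : ℝ) ^ (a * n) ≤ (2 : ℝ) ^ (b * n) := by
  have h1 : (1 : ℝ) < (2 : ℝ) ^ (b - a) :=
    Real.one_lt_rpow (by norm_num) (by linarith)
  have h2 := tendsto_pow_const_div_const_pow_of_one_lt j h1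
  have h3 : ∀ᶠ n : ℕ in Filter.atTop,
      (n : ℝ) ^ j / ((2 : ℝ) ^ (b - a)) ^ n < 1 / (|A| + 1) :=
    h2.eventually_lt_const (by positivity)
  obtain ⟨N, hN⟩ := Filter.eventually_atTop.mp h3
  refine ⟨N, fun n hn => ?_⟩
  have h4 := hN n hn
  have h5 : (0 : ℝ) < ((2 : ℝ) ^ (b - a)) ^ n := by positivity
  rw [div_lt_iff₀ h5] at h4
  have h6 : ((2 : ℝ) ^ (b - a)) ^ n * (2 : ℝ) ^ (a * n) = (2 : ℝ) ^ (b * n) := by
    rw [← Real.rpow_natCast, ← Real.rpow_mul (by norm_num), ← Real.rpow_add (by norm_num)]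
    congr 1
    ring
  have h7 : (0 : ℝ) < (2 : ℝ) ^ (a * n) := by positivity
  have h8 : A * (n : ℝ) ^ j ≤ ((2 : ℝ) ^ (b - a)) ^ n := by
    have h9 : (0 : ℝ) ≤ (n : ℝ) ^ j := by positivity
    have h10 : A * (n : ℝ) ^ j ≤ (|A| + 1) * (n : ℝ) ^ j := by
      apply mul_le_mul_of_nonneg_right _ h9
      linarith [le_abs_self A]
    have h11 : (0 : ℝ) < |A| + 1 := by positivity
    have h12 : (|A| + 1) * (n : ℝ) ^ j ≤
        (|A| + 1) * (1 / (|A| + 1) * ((2 : ℝ) ^ (b - a)) ^ n) :=
      mul_le_mul_of_nonneg_left h4.le h11.le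
    refine h10.trans (h12.trans (le_of_eq ?_))
    field_simp
  calc A * (n : ℝ) ^ j * (2 : ℝ) ^ (a * n)
      ≤ ((2 : ℝ) ^ (b - a)) ^ n * (2 : ℝ) ^ (a * n) :=
        mul_le_mul_of_nonneg_right h8 h7.le
    _ = _ := h6

/-- The form in which the classes are shown to be rare. -/
theorem rare_of {P : ∀ n : ℕ, SimpleGraph (Fin n) → Prop} {k j : ℕ} {a A : ℝ} (hk : 0 < k)
    (ha : a < 2 * (k : ℝ) / 3) (N : ℕ)
    (h : ∀ n ≥ N, k ≤ n → (num n (P n) : ℝ) ≤
      A * (n : ℝ) ^ j * (2 : ℝ) ^ (a * n) * gg (n - k)) : Rare P := by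
  obtain ⟨N', hN'⟩ := absorb A j a (2 * (k : ℝ) / 3 - (2 * (k : ℝ) / 3 - a) / 2) (by linarith)
  refine ⟨(2 * (k : ℝ) / 3 - a) / 2, k, max N N', by linarith, hk, fun n hn hkn => ?_⟩
  refine (h n (le_trans (le_max_left _ _) hn) hkn).trans ?_
  exact mul_le_mul_of_nonneg_right (hN' n (le_trans (le_max_right _ _) hn)) (Nat.cast_nonneg _)

/-! ### Counting -/

/-- Injections into products. -/
theorem card_le_prod {α V β : Type*} [Fintype V] [DecidableEq V] [DecidableEq β]
    (F : Finset α) (A : V → Finset β) (c : α → V → β) (hinj : Set.InjOn c (F : Set α))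
    (hA : ∀ a ∈ F, ∀ v, c a v ∈ A v) : F.card ≤ ∏ v, (A v).card := by
  rw [← Fintype.card_piFinset]
  apply Finset.card_le_card_of_injOn c _ hinj
  intro a ha
  rw [Finset.mem_coe, Fintype.mem_piFinset]
  exact hA a ha

/-- Injections into the subsets of `T`. -/
theorem card_le_two_pow {α V : Type*} [DecidableEq V] (F : Finset α) (T : Finset V)
    (c : α → Finset V) (hinj : Set.InjOn c (F : Set α)) (hT : ∀ a ∈ F, c a ⊆ T) :
    F.card ≤ 2 ^ T.card := by
  rw [← Finset.card_powerset]
  apply Finset.card_le_card_of_injOn c _ hinj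
  intro a ha
  rw [Finset.mem_coe, Finset.mem_powerset]
  exact hT a ha

theorem two_pow_card_le {V : Type*} (T : Finset V) {x : ℝ} (h : (T.card : ℝ) ≤ x) :
    ((2 ^ T.card : ℕ) : ℝ) ≤ (2 : ℝ) ^ x := by
  push_cast
  rw [← Real.rpow_natCast]
  exact Real.rpow_le_rpow_of_exponent_le (by norm_num) h

/-! ### Small sets -/

/-- the constant: `x + t log (1/x) ≤ η log 2` -/
theorem exists_entropy_const {η : ℝ} (hη : 0 < η) : ∃ t₀ : ℝ, 0 < t₀ ∧ ∃ x : ℝ, 0 < x ∧ x ≤ 1 ∧
    ∀ t : ℝ, t ≤ t₀ → x + t * (-Real.log x) ≤ η * Real.log 2 := by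
  have hl2 : 0 < Real.log 2 := Real.log_pos (by norm_num)
  set x : ℝ := min 1 (η * Real.log 2 / 2) with hx
  have hx0 : 0 < x := lt_min one_pos (by positivity)
  have hx1 : x ≤ 1 := min_le_left _ _
  have hx2 : x ≤ η * Real.log 2 / 2 := min_le_right _ _
  have hL : 0 ≤ -Real.log x := by
    have := Real.log_nonpos hx0.le hx1
    linarith
  refine ⟨η * Real.log 2 / 2 / (1 + -Real.log x), by positivity, x, hx0, hx1, fun t ht => ?_⟩
  have h1 : t * (-Real.log x) ≤ η * Real.log 2 / 2 := by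
    calc t * (-Real.log x) ≤ (η * Real.log 2 / 2 / (1 + -Real.log x)) * (-Real.log x) :=
          mul_le_mul_of_nonneg_right ht hL
      _ = (η * Real.log 2 / 2) * ((-Real.log x) / (1 + -Real.log x)) := by ring
      _ ≤ (η * Real.log 2 / 2) * 1 := by
          apply mul_le_mul_of_nonneg_left _ (by positivity)
          rw [div_le_one (by positivity)]
          linarith
      _ = η * Real.log 2 / 2 := mul_one _
  linarith

universe u

/-- The number of subsets of `A` of size at most `t m` is at most `2 ^ (η m)` if `#A ≤ m`. -/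
theorem card_small_powerset {η : ℝ} (hη : 0 < η) : ∃ t₀ : ℝ, 0 < t₀ ∧ ∀ t : ℝ, t ≤ t₀ →
    ∀ (U : Type u) (A : Finset U) (m : ℝ), (A.card : ℝ) ≤ m →
      ((A.powerset.filter fun S : Finset U => (S.card : ℝ) ≤ t * m).card : ℝ) ≤
        (2 : ℝ) ^ (η * m) := by
  obtain ⟨t₀, ht₀, x, hx0, hx1, hx⟩ := exists_entropy_const hη
  refine ⟨t₀, ht₀, fun t ht U A m hA => ?_⟩
  have hm : 0 ≤ m := le_trans (Nat.cast_nonneg _) hA
  have h1 : ∑ S ∈ A.powerset, x ^ S.card = (x + 1) ^ A.card := by
    have := Finset.sum_pow_mul_eq_add_pow x 1 A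
    simpa using this
  have h2 : ((A.powerset.filter fun S : Finset U => (S.card : ℝ) ≤ t * m).card : ℝ) *
      x ^ (t * m) ≤ (x + 1) ^ A.card := by
    rw [← h1]
    calc ((A.powerset.filter fun S : Finset U => (S.card : ℝ) ≤ t * m).card : ℝ) * x ^ (t * m)
        = ∑ S ∈ A.powerset.filter fun S : Finset U => (S.card : ℝ) ≤ t * m, x ^ (t * m) := by
          rw [Finset.sum_const, nsmul_eq_mul]
      _ ≤ ∑ S ∈ A.powerset.filter fun S : Finset U => (S.card : ℝ) ≤ t * m, x ^ S.card := by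
          apply Finset.sum_le_sum
          intro S hS
          rw [Finset.mem_filter] at hS
          rw [← Real.rpow_natCast x S.card]
          exact Real.rpow_le_rpow_of_exponent_ge hx0 hx1 hS.2
      _ ≤ ∑ S ∈ A.powerset, x ^ S.card := by
          apply Finset.sum_le_sum_of_subset_of_nonneg (Finset.filter_subset _ _)
          intro S _ _
          positivity
  have h3 : (x + 1) ^ A.card ≤ Real.exp (x * m) := by
    calc (x + 1) ^ A.card ≤ (Real.exp x) ^ A.card :=
          pow_le_pow_left₀ (by positivity) (Real.add_one_le_exp x) _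
      _ = Real.exp (x * A.card) := by rw [← Real.exp_nat_mul]; ring_nf
      _ ≤ Real.exp (x * m) := by
          apply Real.exp_le_exp.mpr
          exact mul_le_mul_of_nonneg_left hA hx0.le
  have h4 : x ^ (t * m) = Real.exp (Real.log x * (t * m)) := Real.rpow_def_of_pos hx0 _
  have h5 : (2 : ℝ) ^ (η * m) = Real.exp (Real.log 2 * (η * m)) :=
    Real.rpow_def_of_pos (by norm_num) _
  have hpos : 0 < x ^ (t * m) := Real.rpow_pos_of_pos hx0 _
  have h6 : ((A.powerset.filter fun S : Finset U => (S.card : ℝ) ≤ t * m).card : ℝ) ≤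
      Real.exp (x * m) / x ^ (t * m) := by
    rw [le_div_iff₀ hpos]
    exact h2.trans h3
  refine h6.trans ?_
  rw [h4, h5, ← Real.exp_sub]
  apply Real.exp_le_exp.mpr
  have := mul_le_mul_of_nonneg_right (hx t ht) hm
  nlinarith

/-- the subsets of `Fin n` with at most `t n` elements -/
def Small (t : ℝ) (n : ℕ) : Type := {Z : Finset (Fin n) // (Z.card : ℝ) ≤ t * n}

noncomputable instance (t : ℝ) (n : ℕ) : Fintype (Small t n) := by
  classical
  unfold Small
  infer_instance

theorem card_Small {η : ℝ} (hη : 0 < η) : ∃ t₀ : ℝ, 0 < t₀ ∧ ∀ t : ℝ, t ≤ t₀ → ∀ n : ℕ,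
    (Fintype.card (Small t n) : ℝ) ≤ (2 : ℝ) ^ (η * n) := by
  classical
  obtain ⟨t₀, ht₀, h⟩ := card_small_powerset.{0} hη
  refine ⟨t₀, ht₀, fun t ht n => ?_⟩
  have h1 := h t ht (Fin n) Finset.univ n (by simp)
  refine le_trans (le_of_eq ?_) h1
  have h2 : Fintype.card (Small t n) =
      Fintype.card {Z : Finset (Fin n) // (Z.card : ℝ) ≤ t * n} :=
    Fintype.card_congr (Equiv.refl _)
  rw [h2, Fintype.card_subtype, Finset.powerset_univ]

/-- the number of small subsets of a set -/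
theorem card_small_sub {η : ℝ} (hη : 0 < η) : ∃ t₀ : ℝ, 0 < t₀ ∧ ∀ t : ℝ, t ≤ t₀ → ∀ n : ℕ,
    ∀ (T : Finset (Finset (Fin n))), (∀ S ∈ T, (S.card : ℝ) ≤ t * n) →
      (T.card : ℝ) ≤ (2 : ℝ) ^ (η * n) := by
  classical
  obtain ⟨t₀, ht₀, h⟩ := card_small_powerset.{0} hη
  refine ⟨t₀, ht₀, fun t ht n T hT => le_trans ?_ (h t ht (Fin n) Finset.univ n (by simp))⟩
  have : T ⊆ (Finset.univ : Finset (Fin n)).powerset.filter
      fun S : Finset (Fin n) => (S.card : ℝ) ≤ t * n := by
    intro S hS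
    rw [Finset.mem_filter]
    exact ⟨by simp, hT S hS⟩
  exact_mod_cast Finset.card_le_card this

end Pool.Agent.Lib.MP_534936_co.AQ
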