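import Mathlib
import Pool.Agent.Lib.MP_534936_co.AQ.Engine

/-!
# A large clique is known from a part of it, few exceptions and the rest of the graph
-/

namespace Pool.Agent.Lib.MP_534936_co.AQ

open Finset

theorem mem_Cm {V : Type*} [Fintype V] [DecidableEq V] {G : SimpleGraph V} {Q : Finset V} {v : V} :
    v ∈ Cm G Q ↔ v ∉ Q ∧ ∀ q ∈ Q, G.Adj q v := by
  simp [Cm]

theorem mem_Dm {V : Type*} [Fintype V] [DecidableEq V] {G : SimpleGraph V} {Q : Finset V} {v : V} :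
    v ∈ Dm G Q ↔ v ∉ Q ∧ ∀ q ∈ Q, ¬ G.Adj q v := by
  simp [Dm]

theorem mem_W {V : Type*} [Fintype V] [DecidableEq V] {K₁ K₂ : Finset V} {v : V} :
    v ∈ W K₁ K₂ ↔ v ∉ K₁ ∧ v ∉ K₂ := by
  simp [W]

theorem W_comm {V : Type*} [Fintype V] [DecidableEq V] (K₁ K₂ : Finset V) :
    W K₁ K₂ = W K₂ K₁ := by
  ext v
  rw [mem_W, mem_W]
  exact and_comm

theorem Cl.mono {V : Type*} [Fintype V] [DecidableEq V] {G : SimpleGraph V} {A B : Finset V}
    (h : Cl G B) (hAB : A ⊆ B) : Cl G A :=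
  fun a ha b hb hab => h a (hAB ha) b (hAB hb) hab

theorem GP.symm {ε : ℝ} {n : ℕ} {G : SimpleGraph (Fin n)} {K₁ K₂ : Finset (Fin n)}
    (h : GP ε n G K₁ K₂) : GP ε n G K₂ K₁ :=
  ⟨h.2.1, h.1, h.2.2.1.symm, h.2.2.2.2, h.2.2.2.1⟩

/-- `K` elements of a clique: few common neighbours -/
theorem Cm_lt {ε : ℝ} {K n : ℕ} {G : SimpleGraph (Fin n)} (h : ¬ R1 ε K n G)
    {Q : Finset (Fin n)} (hQ : Cl G Q) (hK : Q.card = K) :
    ((Cm G Q).card : ℝ) < (1 / 3 + ε) * n := by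
  by_contra hc
  exact h ⟨Q, hQ, hK, not_lt.mp hc⟩

/-- a clique is not too large -/
theorem clique_card_lt {ε : ℝ} {K n : ℕ} {G : SimpleGraph (Fin n)} (h : ¬ R1 ε K n G)
    {C : Finset (Fin n)} (hC : Cl G C) :
    (C.card : ℝ) < (1 / 3 + ε) * n + K ∨ (C.card : ℝ) < K := by
  by_cases hc : C.card < K
  · exact Or.inr (by exact_mod_cast hc)
  · obtain ⟨P, hP, hPK⟩ := Finset.exists_subset_card_eq (not_lt.mp hc)
    left
    have h1 := Cm_lt h (hC.mono hP) hPK
    have h2 : C \ P ⊆ Cm G P := by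
      intro v hv
      rw [Finset.mem_sdiff] at hv
      rw [mem_Cm]
      refine ⟨hv.2, fun q hq => hC q (hP hq) v hv.1 ?_⟩
      rintro rfl
      exact hv.2 hq
    have h3 : (C \ P).card = C.card - K := by
      rw [Finset.card_sdiff_of_subset hP, hPK]
    have h4 := Finset.card_le_card h2
    rw [h3] at h4
    have h5 : (C.card : ℝ) ≤ (Cm G P).card + K := by
      have : C.card ≤ (Cm G P).card + K := by omega
      exact_mod_cast this
    linarith

/-- common neighbours in the restriction -/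
theorem Cm_res {V : Type*} [Fintype V] [DecidableEq V] {G : SimpleGraph V} {S P : Finset V}
    (hP : P.Nonempty) (hPS : Disjoint P S) : Cm (res S G) P = Cm G P \ S := by
  ext v
  rw [mem_Cm, Finset.mem_sdiff, mem_Cm]
  constructor
  · rintro ⟨h1, h2⟩
    obtain ⟨q, hq⟩ := hP
    exact ⟨⟨h1, fun q hq => (h2 q hq).2.2⟩, (h2 q hq).2.1⟩
  · rintro ⟨⟨h1, h2⟩, h3⟩
    exact ⟨h1, fun q hq => ⟨Finset.disjoint_left.mp hPS hq, h3, h2 q hq⟩⟩

/-- The encoding. -/
theorem encode {ε : ℝ} (hε : 0 < ε) (hε1 : ε ≤ 1 / 1000) (K k : ℕ) (hK : 1 ≤ K) :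
    ∃ N : ℕ, ∀ n ≥ N, ∀ G : SimpleGraph (Fin n), ¬ R1 ε K n G → ∀ C : Finset (Fin n), Cl G C →
      (1 / 3 - 20 * ε) * n ≤ (C.card : ℝ) → ∀ S : Finset (Fin n), S.card ≤ k →
      ∃ P Z : Finset (Fin n), (P.card : ℝ) ≤ 22 * ε * n ∧ (Z.card : ℝ) ≤ 22 * ε * n ∧
        C \ S = P ∪ (Cm (res S G) P \ Z) := by
  refine ⟨⌈((K : ℝ) + k) / ε⌉₊, fun n hn G hG C hC hCn S hS => ?_⟩
  have hn1 : ((K : ℝ) + k) / ε ≤ n := le_trans (Nat.le_ceil _) (by exact_mod_cast hn)
  have hn2 : (K : ℝ) + k ≤ ε * n := by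
    rw [div_le_iff₀ hε] at hn1
    linarith
  have hn0 : (0 : ℝ) ≤ n := Nat.cast_nonneg n
  have hcard : (K : ℝ) ≤ (C \ S).card := by
    have h1 : C.card ≤ (C \ S).card + S.card := by
      have := Finset.le_card_sdiff S C
      omega
    have h2 : (C.card : ℝ) ≤ (C \ S).card + S.card := by exact_mod_cast h1
    have h3 : (S.card : ℝ) ≤ k := by exact_mod_cast hS
    nlinarith
  have hcard' : K ≤ (C \ S).card := by exact_mod_cast hcard
  obtain ⟨P, hP, hPK⟩ := Finset.exists_subset_card_eq hcard'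
  have hPne : P.Nonempty := by
    rw [← Finset.card_pos, hPK]
    omega
  have hPS : Disjoint P S := Finset.disjoint_left.mpr fun v hv =>
    (Finset.mem_sdiff.mp (hP hv)).2
  have hPC : P ⊆ C := fun v hv => (Finset.mem_sdiff.mp (hP hv)).1
  have hsub : (C \ S) \ P ⊆ Cm (res S G) P := by
    intro v hv
    rw [Finset.mem_sdiff, Finset.mem_sdiff] at hv
    rw [Cm_res hPne hPS, Finset.mem_sdiff, mem_Cm]
    refine ⟨⟨hv.2, fun q hq => hC q (hPC hq) v hv.1.1 ?_⟩, hv.1.2⟩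
    rintro rfl
    exact hv.2 hq
  refine ⟨P, Cm (res S G) P \ C, ?_, ?_, ?_⟩
  · rw [hPK]
    have : (0 : ℝ) ≤ k := Nat.cast_nonneg k
    nlinarith
  · have h1 := Cm_lt hG (hC.mono hPC) hPK
    have h2 : Cm (res S G) P \ C ⊆ Cm (res S G) P \ ((C \ S) \ P) := by
      intro v hv
      rw [Finset.mem_sdiff] at hv ⊢
      exact ⟨hv.1, fun h => hv.2 (Finset.mem_sdiff.mp (Finset.mem_sdiff.mp h).1).1⟩
    have h3 := Finset.card_le_card h2
    rw [Finset.card_sdiff_of_subset hsub] at h3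
    have h4 : (Cm (res S G) P).card ≤ (Cm G P).card := by
      rw [Cm_res hPne hPS]
      exact Finset.card_le_card Finset.sdiff_subset
    have h5 : C.card ≤ ((C \ S) \ P).card + K + k := by
      have e1 := Finset.le_card_sdiff S C
      have e2 := Finset.le_card_sdiff P (C \ S)
      omega
    have h6 := Finset.card_le_card hsub
    have h7 : ((Cm (res S G) P \ C).card : ℝ) + C.card ≤ (Cm G P).card + K + k := by
      have : (Cm (res S G) P \ C).card + C.card ≤ (Cm G P).card + K + k := by omega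
      exact_mod_cast this
    nlinarith
  · ext v
    rw [Finset.mem_union, Finset.mem_sdiff]
    constructor
    · intro hv
      by_cases hvP : v ∈ P
      · exact Or.inl hvP
      · right
        rw [Finset.mem_sdiff]
        refine ⟨hsub (Finset.mem_sdiff.mpr ⟨Finset.mem_sdiff.mpr hv, hvP⟩), fun h => ?_⟩
        exact (Finset.mem_sdiff.mp h).2 hv.1
    · rintro (hv | hv)
      · exact Finset.mem_sdiff.mp (hP hv)
      · rw [Finset.mem_sdiff, Finset.mem_sdiff] at hv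
        have h1 : v ∈ C := by
          by_contra hc
          exact hv.2 ⟨hv.1, hc⟩
        refine ⟨h1, ?_⟩
        have := hv.1
        rw [Cm_res hPne hPS, Finset.mem_sdiff] at this
        exact this.2

/-- bounds for the parts -/
theorem parts {ε : ℝ} (hε : 0 < ε) (K : ℕ) : ∃ N : ℕ, ∀ n ≥ N,
    ∀ G : SimpleGraph (Fin n), ¬ R1 ε K n G → ∀ K₁ K₂ : Finset (Fin n), GP ε n G K₁ K₂ →
      (K₁.card : ℝ) ≤ (1 / 3 + 2 * ε) * n ∧ (K₂.card : ℝ) ≤ (1 / 3 + 2 * ε) * n ∧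
      ((W K₁ K₂).card : ℝ) ≤ (1 / 3 + 40 * ε) * n ∧
      ((Finset.univ \ K₁).card : ℝ) ≤ (2 / 3 + 20 * ε) * n ∧
      ((Finset.univ \ K₂).card : ℝ) ≤ (2 / 3 + 20 * ε) * n := by
  refine ⟨⌈(K : ℝ) / ε⌉₊, fun n hn G hG K₁ K₂ hGP => ?_⟩
  have hn1 : (K : ℝ) / ε ≤ n := le_trans (Nat.le_ceil _) (by exact_mod_cast hn)
  have hn2 : (K : ℝ) ≤ ε * n := by
    rw [div_le_iff₀ hε] at hn1
    linarith
  have hn0 : (0 : ℝ) ≤ n := Nat.cast_nonneg n
  have hle : ∀ C : Finset (Fin n), Cl G C → (C.card : ℝ) ≤ (1 / 3 + 2 * ε) * n := by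
    intro C hC
    rcases clique_card_lt hG hC with h | h
    · nlinarith
    · nlinarith
  have hco : ∀ C : Finset (Fin n), ((Finset.univ \ C).card : ℝ) = n - C.card := by
    intro C
    have h1 : (Finset.univ \ C).card = n - C.card := by
      rw [Finset.card_sdiff_of_subset (Finset.subset_univ _), Finset.card_univ, Fintype.card_fin]
    have h2 : C.card ≤ n := by
      have := Finset.card_le_univ C
      rwa [Fintype.card_fin] at this
    rw [h1, Nat.cast_sub h2]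
  obtain ⟨c1, c2, c3, c4, c5⟩ := hGP
  refine ⟨hle _ c1, hle _ c2, ?_, ?_, ?_⟩
  · have h1 : ((K₁ ∪ K₂).card : ℝ) = K₁.card + K₂.card := by
      rw [Finset.card_union_of_disjoint c3]
      push_cast
      ring
    have h2 := hco (K₁ ∪ K₂)
    rw [W, h2, h1]
    linarith
  · rw [hco]
    linarith
  · rw [hco]
    linarith

end Pool.Agent.Lib.MP_534936_co.AQ
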