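import Pool.Agent.Lib.MP_534936_co.AQ.Defs

/-!
# A stable set and two cliques around typical cliques: Hadwiger's conjecture holds (L8)
-/

namespace Pool.Agent.Lib.MP_534936_co.AQ

open Finset

section hadwiger

variable {V : Type} [Fintype V] [DecidableEq V]

/-- the mirror image -/
theorem had_swap {G : SimpleGraph V} {J : ℕ} {t m t₀ : ℝ} {K₁ K₂ S A B : Finset V}
    (h : Fin3 G J t m t₀ K₁ K₂ S A B) : Fin3 G J t m t₀ K₂ K₁ S B A where
  cover v := by
    rcases h.cover v with h | h | h
    · exact Or.inl h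
    · exact Or.inr (Or.inr h)
    · exact Or.inr (Or.inl h)
  st := h.st
  clA := h.clB
  clB := h.clA
  disj := h.disj.symm
  sub₁ := h.sub₂
  sub₂ := h.sub₁
  few₁ := h.few₂
  few₂ := h.few₁
  a₁ := h.a₂
  a₂ := h.a₁
  typ₁ := h.typ₂
  typ₂ := h.typ₁

omit [DecidableEq V] in
theorem had_mem_nb {G : SimpleGraph V} {x v : V} : v ∈ nb G x ↔ G.Adj x v := by
  classical
  simp [nb]

open Classical in
/-- Hall's condition -/
theorem had_hall {G : SimpleGraph V} {J : ℕ} {t m t₀ : ℝ} {K₁ K₂ S A B : Finset V}
    (h : Fin3 G J t m t₀ K₁ K₂ S A B) (ht : 0 < t) (ht₀ : 0 < t₀)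
    (hm : (J : ℝ) + 2 * t₀ + t ≤ m) (hAB : B.card ≤ A.card)
    (s : Finset {b // b ∈ B}) :
    s.card ≤ (s.biUnion fun b => A.filter fun a => ¬ G.Adj b.1 a).card := by
  by_contra hcon
  push Not at hcon
  set N : Finset V := s.biUnion fun b => A.filter fun a => ¬ G.Adj b.1 a with hN
  have hNA : N ⊆ A := by
    intro a ha
    rw [hN, mem_biUnion] at ha
    obtain ⟨b, -, hb⟩ := ha
    exact (mem_filter.mp hb).1
  have hs : s.Nonempty := by
    rw [← card_pos]; omega
  obtain ⟨b0, hb0⟩ := hs
  have hm0 : m ≤ (N.card : ℝ) := by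
    have h1 := (h.a₂ b0.1 b0.2).1
    have h2 : K₁ \ nb G b0.1 ⊆ N := by
      intro a ha
      rw [mem_sdiff, had_mem_nb] at ha
      rw [hN, mem_biUnion]
      exact ⟨b0, hb0, mem_filter.mpr ⟨h.sub₁ ha.1, ha.2⟩⟩
    have h3 : ((K₁ \ nb G b0.1).card : ℝ) ≤ (N.card : ℝ) := by exact_mod_cast card_le_card h2
    linarith
  set A' : Finset V := s.image Subtype.val with hA'
  have hA'c : A'.card = s.card := card_image_of_injective _ Subtype.val_injective
  have hA'B : A' ⊆ B := by
    intro b hb
    rw [hA', mem_image] at hb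
    obtain ⟨c, -, rfl⟩ := hb
    exact c.2
  have hA'le : A'.card ≤ B.card := card_le_card hA'B
  set R : Finset V := A \ N with hR
  have hRc : R.card + N.card = A.card := by
    rw [hR]; exact card_sdiff_add_card_eq_card hNA
  have hadj : ∀ u ∈ R, ∀ b ∈ A', G.Adj u b := by
    intro u hu b hb
    rw [hA', mem_image] at hb
    obtain ⟨c, hc, rfl⟩ := hb
    rw [hR, mem_sdiff] at hu
    by_contra hn
    exact hu.2 (by
      rw [hN, mem_biUnion]
      exact ⟨c, hc, mem_filter.mpr ⟨hu.1, fun hadj => hn hadj.symm⟩⟩)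
  have hRne : R.Nonempty := by
    rw [← card_pos]; omega
  obtain ⟨u, hu⟩ := hRne
  have huA : u ∈ A := (mem_sdiff.mp hu).1
  have hm1 : m + (A'.card : ℝ) ≤ (B.card : ℝ) := by
    have h1 := (h.a₁ u huA).1
    have h2 : (K₂ \ nb G u) ⊆ B \ A' := by
      intro b hb
      rw [mem_sdiff, had_mem_nb] at hb
      rw [mem_sdiff]
      exact ⟨h.sub₂ hb.1, fun hbA => hb.2 (hadj u hu b hbA)⟩
    have h3 : (K₂ \ nb G u).card + A'.card ≤ B.card := by
      have := card_le_card h2
      have h4 : (B \ A').card + A'.card = B.card := card_sdiff_add_card_eq_card hA'B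
      omega
    have h5 : ((K₂ \ nb G u).card : ℝ) + (A'.card : ℝ) ≤ (B.card : ℝ) := by exact_mod_cast h3
    linarith
  have hRm : m < (R.card : ℝ) := by
    have h1 : (R.card : ℝ) + (N.card : ℝ) = (A.card : ℝ) := by exact_mod_cast hRc
    have h2 : (N.card : ℝ) < (A'.card : ℝ) := by rw [hA'c]; exact_mod_cast hcon
    have h3 : (B.card : ℝ) ≤ (A.card : ℝ) := by exact_mod_cast hAB
    linarith
  have hRK : J ≤ (R ∩ K₁).card := by
    have h1 : R.card ≤ (R ∩ K₁).card + (A \ K₁).card := by
      rw [← card_sdiff_add_card_inter R K₁]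
      have : (R \ K₁).card ≤ (A \ K₁).card :=
        card_le_card (sdiff_subset_sdiff (by rw [hR]; exact sdiff_subset) le_rfl)
      omega
    have h2 : (R.card : ℝ) ≤ ((R ∩ K₁).card : ℝ) + ((A \ K₁).card : ℝ) := by exact_mod_cast h1
    have h3 := h.few₁
    have h4 : (J : ℝ) ≤ ((R ∩ K₁).card : ℝ) := by linarith
    exact_mod_cast h4
  obtain ⟨Q, hQ, hQc⟩ := exists_subset_card_eq hRK
  have hQK : Q ⊆ K₁ := hQ.trans inter_subset_right
  have hT := (h.typ₁ Q hQK hQc).1
  have hsub : A' ⊆ Cm G Q \ K₁ := by
    intro b hb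
    have hbB := hA'B hb
    have hbA : b ∉ A := fun hbA => (disjoint_left.mp h.disj hbA) hbB
    rw [mem_sdiff]
    refine ⟨?_, fun hbK => hbA (h.sub₁ hbK)⟩
    simp only [Cm, mem_filter, mem_univ, true_and]
    refine ⟨fun hbQ => hbA (h.sub₁ (hQK hbQ)), fun q hq => ?_⟩
    exact hadj q (mem_inter.mp (hQ hq)).1 b hb
  have h1 : (A'.card : ℝ) ≤ ((Cm G Q \ K₁).card : ℝ) := by exact_mod_cast card_le_card hsub
  have h2 : (N.card : ℝ) < (A'.card : ℝ) := by rw [hA'c]; exact_mod_cast hcon
  have hJ : (0 : ℝ) ≤ (J : ℝ) := Nat.cast_nonneg J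
  linarith

open Classical in
/-- colouring: the stable set and one colour for each vertex of the larger clique -/
theorem had_color {G : SimpleGraph V} {J : ℕ} {t m t₀ : ℝ} {K₁ K₂ S A B : Finset V}
    (h : Fin3 G J t m t₀ K₁ K₂ S A B) (ht : 0 < t) (ht₀ : 0 < t₀)
    (hm : (J : ℝ) + 2 * t₀ + t ≤ m) (hAB : B.card ≤ A.card) : G.Colorable (A.card + 1) := by
  obtain ⟨φ, hφi, hφ⟩ := (Finset.all_card_le_biUnion_card_iff_exists_injective
    (fun b : {b // b ∈ B} => A.filter fun a => ¬ G.Adj b.1 a)).mp
    (had_hall h ht ht₀ hm hAB)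
  have hφA : ∀ b, φ b ∈ A := fun b => (mem_filter.mp (hφ b)).1
  have hφn : ∀ b, ¬ G.Adj b.1 (φ b) := fun b => (mem_filter.mp (hφ b)).2
  let c : V → Option {a // a ∈ A} := fun v =>
    if hA : v ∈ A then some ⟨v, hA⟩
    else if hB : v ∈ B then some ⟨φ ⟨v, hB⟩, hφA _⟩ else none
  have hcA : ∀ v (hA : v ∈ A), c v = some ⟨v, hA⟩ := fun v hA => by simp [c, hA]
  have hcB : ∀ v (_ : v ∉ A) (hB : v ∈ B), c v = some ⟨φ ⟨v, hB⟩, hφA _⟩ := fun v hA hB => by
    simp [c, hA, hB]
  have hcS : ∀ v, v ∉ A → v ∉ B → c v = none := fun v hA hB => by simp [c, hA, hB]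
  have hc : ∀ v w, G.Adj v w → c v ≠ c w := by
    intro v w hvw heq
    by_cases hvA : v ∈ A
    · by_cases hwA : w ∈ A
      · rw [hcA v hvA, hcA w hwA] at heq
        simp only [Option.some.injEq, Subtype.mk.injEq] at heq
        exact hvw.ne heq
      · by_cases hwB : w ∈ B
        · rw [hcA v hvA, hcB w hwA hwB] at heq
          simp only [Option.some.injEq, Subtype.mk.injEq] at heq
          have := hφn ⟨w, hwB⟩
          rw [← heq] at this
          exact this hvw.symm
        · rw [hcA v hvA, hcS w hwA hwB] at heq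
          exact absurd heq (by simp)
    · by_cases hvB : v ∈ B
      · by_cases hwA : w ∈ A
        · rw [hcB v hvA hvB, hcA w hwA] at heq
          simp only [Option.some.injEq, Subtype.mk.injEq] at heq
          have := hφn ⟨v, hvB⟩
          rw [heq] at this
          exact this hvw
        · by_cases hwB : w ∈ B
          · rw [hcB v hvA hvB, hcB w hwA hwB] at heq
            simp only [Option.some.injEq, Subtype.mk.injEq] at heq
            have := hφi heq
            simp only [Subtype.mk.injEq] at this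
            exact hvw.ne this
          · rw [hcB v hvA hvB, hcS w hwA hwB] at heq
            exact absurd heq (by simp)
      · by_cases hwA : w ∈ A
        · rw [hcS v hvA hvB, hcA w hwA] at heq
          exact absurd heq (by simp)
        · by_cases hwB : w ∈ B
          · rw [hcS v hvA hvB, hcB w hwA hwB] at heq
            exact absurd heq (by simp)
          · have hvS : v ∈ S := by
              rcases h.cover v with h | h | h
              · exact h
              · exact absurd h hvA
              · exact absurd h hvB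
            have hwS : w ∈ S := by
              rcases h.cover w with h | h | h
              · exact h
              · exact absurd h hwA
              · exact absurd h hwB
            exact h.st v hvS w hwS hvw
  have hcol : G.Colorable (Fintype.card (Option {a // a ∈ A})) :=
    (SimpleGraph.Coloring.mk c (fun {v w} hvw => hc v w hvw)).colorable
  have hcard : Fintype.card (Option {a // a ∈ A}) = A.card + 1 := by simp
  rwa [hcard] at hcol

omit [Fintype V] in
/-- a nonempty clique is connected -/
theorem had_conn {G : SimpleGraph V} {C : Finset V} (hC : Cl G C) (hne : C.Nonempty) :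
    (G.induce (C : Set V)).Connected := by
  obtain ⟨c, hc⟩ := hne
  have : Nonempty (C : Set V) := ⟨⟨c, hc⟩⟩
  refine ⟨fun x y => ?_⟩
  by_cases hxy : x = y
  · subst hxy; exact SimpleGraph.Reachable.refl _
  · refine SimpleGraph.Adj.reachable ?_
    have hne : x.1 ≠ y.1 := fun h => hxy (Subtype.ext h)
    simpa using hC x.1 (by simp) y.1 (by simp) hne

/-- one side -/
theorem had_side {G : SimpleGraph V} {J : ℕ} {t m t₀ : ℝ} {K₁ K₂ S A B : Finset V}
    (h : Fin3 G J t m t₀ K₁ K₂ S A B) (hJ : 1 ≤ J) (ht : 0 < t) (ht₀ : 0 < t₀)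
    (hm : (J : ℝ) + 2 * t₀ + t ≤ m) (hAB : B.card ≤ A.card) : Had G := by
  classical
  intro k hk
  have hcol := had_color h ht ht₀ hm hAB
  have hkle : k ≤ A.card + 1 := by
    have h1 := hcol.chromaticNumber_le
    rw [hk] at h1
    exact_mod_cast h1
  have hJr : (1 : ℝ) ≤ (J : ℝ) := by exact_mod_cast hJ
  have hm0 : 0 < m := by linarith
  by_cases hAe : A.Nonempty
  · obtain ⟨a0, ha0⟩ := hAe
    have hBne : B.Nonempty := by
      have h1 := (h.a₁ a0 ha0).1
      have h2 : 0 < ((K₂ \ nb G a0).card : ℝ) := by linarith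
      have h3 : 0 < (K₂ \ nb G a0).card := by exact_mod_cast h2
      obtain ⟨b, hb⟩ := card_pos.mp h3
      exact ⟨b, h.sub₂ (mem_sdiff.mp hb).1⟩
    have hcard : Fintype.card (Fin k) ≤ Fintype.card (Option {a // a ∈ A}) := by
      simpa using hkle
    obtain ⟨e⟩ := Function.Embedding.nonempty_of_card_le hcard
    let F : Option {a // a ∈ A} → Finset V := fun o =>
      match o with
      | none => B
      | some a => {a.1}
    have hFne : ∀ o, (F o).Nonempty := by
      intro o
      cases o with
      | none => exact hBne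
      | some a => exact ⟨a.1, by simp [F]⟩
    have hFcl : ∀ o, Cl G (F o) := by
      intro o
      cases o with
      | none => exact h.clB
      | some a =>
        intro x hx y hy hxy
        simp only [F, mem_singleton] at hx hy
        exact absurd (hx.trans hy.symm) hxy
    have hBa : ∀ a : {a // a ∈ A}, ∃ b ∈ B, G.Adj a.1 b := by
      intro a
      have h1 := (h.a₁ a.1 a.2).2
      have h2 : 0 < ((K₂ ∩ nb G a.1).card : ℝ) := by linarith
      have h3 : 0 < (K₂ ∩ nb G a.1).card := by exact_mod_cast h2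
      obtain ⟨b, hb⟩ := card_pos.mp h3
      rw [mem_inter, had_mem_nb] at hb
      exact ⟨b, h.sub₂ hb.1, hb.2⟩
    have hFd : ∀ o o', o ≠ o' → Disjoint (F o) (F o') ∧ ∃ x ∈ F o, ∃ y ∈ F o', G.Adj x y := by
      intro o o' hoo
      cases o with
      | none =>
        cases o' with
        | none => exact absurd rfl hoo
        | some a =>
          refine ⟨?_, ?_⟩
          · simp only [F, disjoint_singleton_right]
            exact fun hb => (disjoint_left.mp h.disj a.2) hb
          · obtain ⟨b, hb, hab⟩ := hBa a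
            exact ⟨b, hb, a.1, by simp [F], hab.symm⟩
      | some a =>
        cases o' with
        | none =>
          refine ⟨?_, ?_⟩
          · simp only [F, disjoint_singleton_left]
            exact fun hb => (disjoint_left.mp h.disj a.2) hb
          · obtain ⟨b, hb, hab⟩ := hBa a
            exact ⟨a.1, by simp [F], b, hb, hab⟩
        | some a' =>
          have hne : a.1 ≠ a'.1 := fun hh => hoo (by rw [Subtype.ext hh])
          refine ⟨?_, ?_⟩
          · simp only [F, disjoint_singleton_left, mem_singleton]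
            exact hne
          · exact ⟨a.1, by simp [F], a'.1, by simp [F], h.clA a.1 a.2 a'.1 a'.2 hne⟩
    refine ⟨fun i => (F (e i) : Set V), fun i => had_conn (hFcl _) (hFne _), fun i j hij => ?_⟩
    have h1 := hFd (e i) (e j) (fun hh => hij (e.injective hh))
    refine ⟨Finset.disjoint_coe.mpr h1.1, ?_⟩
    obtain ⟨x, hx, y, hy, hxy⟩ := h1.2
    exact ⟨x, by exact_mod_cast hx, y, by exact_mod_cast hy, hxy⟩
  · have hA0 : A.card = 0 := by
      rw [not_nonempty_iff_eq_empty] at hAe
      simp [hAe]
    have hk1 : k ≤ 1 := by omega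
    rcases Nat.lt_or_ge k 1 with hk0 | hk0
    · have : k = 0 := by omega
      subst this
      exact ⟨fun i => i.elim0, fun i => i.elim0, fun i => i.elim0⟩
    · have : k = 1 := by omega
      subst this
      have hV : Nonempty V := by
        by_contra hV
        rw [not_nonempty_iff] at hV
        have hcol0 : G.Colorable 0 :=
          ⟨SimpleGraph.Coloring.mk (fun v => (hV.false v).elim) (fun {v w} _ => (hV.false v).elim)⟩
        have h0 : G.chromaticNumber ≤ ((0 : ℕ) : ℕ∞) := hcol0.chromaticNumber_le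
        rw [hk] at h0
        exact absurd h0 (by norm_num)
      obtain ⟨v⟩ := hV
      refine ⟨fun _ => (({v} : Finset V) : Set V), fun i => had_conn ?_ ⟨v, by simp⟩,
        fun i j hij => absurd (Subsingleton.elim i j) hij⟩
      intro x hx y hy hxy
      simp only [mem_singleton] at hx hy
      exact absurd (hx.trans hy.symm) hxy

end hadwiger

/-- L8 -/
theorem l8 : L8 := by
  intro V _ _ G J t m t₀ K₁ K₂ S A B h hJ ht ht₀ hm
  rcases le_total B.card A.card with hAB | hAB
  · exact had_side h hJ ht ht₀ hm hAB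
  · exact had_side (had_swap h) hJ ht ht₀ hm hAB

end Pool.Agent.Lib.MP_534936_co.AQ
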