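import Pool.Agent.Lib.MP_534936_co.AQ.Defs

/-!
# L4: the key lemma
-/

namespace Pool.Agent.Lib.MP_534936_co.AQ

open Finset

section

variable {V : Type} [Fintype V] [DecidableEq V]

theorem key_mem_nb {G : SimpleGraph V} {x v : V} : v ∈ nb G x ↔ G.Adj x v := by
  classical
  simp [nb]

theorem key_mem_W {K₁ K₂ : Finset V} {v : V} : v ∈ W K₁ K₂ ↔ v ∉ K₁ ∧ v ∉ K₂ := by
  simp [W]

theorem key_symm {G : SimpleGraph V} {J : ℕ} {t : ℝ} {K₁ K₂ : Finset V}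
    (h : Pair G J t K₁ K₂) : Pair G J t K₂ K₁ :=
  ⟨h.cl₂, h.cl₁, h.disj.symm, h.typ₂, h.typ₁, h.one_le, h.t_pos, h.large₂, h.large₁⟩

theorem key_sub (A B : Finset V) : (A.card : ℝ) ≤ ((A \ B).card : ℝ) + (B.card : ℝ) := by
  exact_mod_cast Finset.card_le_card_sdiff_add_card

theorem key_mono {A B : Finset V} (h : A ⊆ B) : (A.card : ℝ) ≤ (B.card : ℝ) := by
  exact_mod_cast Finset.card_le_card h

theorem key_union (A B : Finset V) :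
    ((A ∪ B).card : ℝ) ≤ (A.card : ℝ) + (B.card : ℝ) := by
  exact_mod_cast Finset.card_union_le A B

theorem key_J {G : SimpleGraph V} {J : ℕ} {t : ℝ} {K₁ K₂ : Finset V}
    (hP : Pair G J t K₁ K₂) : (1 : ℝ) ≤ J := by
  exact_mod_cast hP.one_le

/-- the numerical facts -/
theorem key_num {J t : ℝ} (hJ : 1 ≤ J) (ht : 0 < t) :
    J * (8 * t + 8 * J) + t ≤ 40 * J * (t + J) ∧
    2 * J * (8 * t + 8 * J) + J ≤ 40 * J * (t + J) ∧
    4 * t + 4 * J + 1 ≤ 40 * J * (t + J) := by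
  have h1 : t ≤ J * t := by nlinarith
  have h2 : J ≤ J * J := by nlinarith
  have h3 : 1 ≤ J * J := by nlinarith
  refine ⟨?_, ?_, ?_⟩ <;> nlinarith

/-- three large parts are impossible -/
theorem key_three (h2 : L2) {G : SimpleGraph V} {J : ℕ} {t : ℝ} {K₁ K₂ : Finset V}
    (hP : Pair G J t K₁ K₂) {Y A B : Finset V} (hA : Cl G A) (hB : Cl G B)
    (hY : ∀ v, v ∈ Y ↔ v ∈ A ∨ v ∈ B) (h₁ : 2 * t + 2 * J ≤ ((Y ∩ K₁).card : ℝ))
    (h₂ : 2 * t + 2 * J ≤ ((Y ∩ K₂).card : ℝ)) :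
    ((Y ∩ W K₁ K₂).card : ℝ) < 2 * t := by
  have key : ∀ A B : Finset V, (∀ v, v ∈ Y ↔ v ∈ A ∨ v ∈ B) → Good2 G t K₁ K₂ A B →
      ((Y ∩ W K₁ K₂).card : ℝ) < 2 * t := by
    intro A B hY hg
    have hs : Y ∩ W K₁ K₂ ⊆ (A \ K₁) ∪ (B \ K₂) := by
      intro v hv
      rw [mem_inter, key_mem_W] at hv
      rw [mem_union, mem_sdiff, mem_sdiff]
      rcases (hY v).1 hv.1 with h | h
      · exact Or.inl ⟨h, hv.2.1⟩
      · exact Or.inr ⟨h, hv.2.2⟩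
    have e1 := key_mono hs
    have e2 := key_union (A \ K₁) (B \ K₂)
    have e3 := hg.2.2.1
    have e4 := hg.2.2.2
    linarith
  rcases h2 V G J t K₁ K₂ Y A B hP hA hB hY h₁ h₂ with hg | hg
  · exact key A B hY hg
  · exact key B A (fun v => (hY v).trans or_comm) hg

/-- a vertex of `Y` outside the two cliques has a neighbour in `Y ∩ K₁` or in `Y ∩ K₂` -/
theorem key_apex (h2 : L2) {G : SimpleGraph V} {J : ℕ} {t : ℝ} {K₁ K₂ : Finset V}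
    (hP : Pair G J t K₁ K₂) {Y A B : Finset V} (hA : Cl G A) (hB : Cl G B)
    (hY : ∀ v, v ∈ Y ↔ v ∈ A ∨ v ∈ B) (h₁ : 2 * t + 2 * J ≤ ((Y ∩ K₁).card : ℝ))
    (h₂ : 2 * t + 2 * J ≤ ((Y ∩ K₂).card : ℝ)) {w : V} (hw : w ∈ Y) (hw₁ : w ∉ K₁)
    (hw₂ : w ∉ K₂) (n₁ : ∀ v ∈ Y ∩ K₁, ¬ G.Adj w v) (n₂ : ∀ v ∈ Y ∩ K₂, ¬ G.Adj w v) :
    False := by
  have hJ := key_J hP
  have ht := hP.t_pos
  have key : ∀ A B : Finset V, (∀ v, v ∈ Y ↔ v ∈ A ∨ v ∈ B) → Good2 G t K₁ K₂ A B →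
      False := by
    intro A B hY hg
    rcases (hY w).1 hw with h | h
    · have hs : Y ∩ K₁ ⊆ B \ K₂ := by
        intro v hv
        have hv' := mem_inter.1 hv
        have hvw : w ≠ v := fun e => hw₁ (e ▸ hv'.2)
        rcases (hY v).1 hv'.1 with h' | h'
        · exact absurd (hg.1 w h v h' hvw) (n₁ v hv)
        · exact mem_sdiff.2 ⟨h', fun h'' => (disjoint_left.1 hP.disj) hv'.2 h''⟩
      have e1 := key_mono hs
      have e2 := hg.2.2.2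
      linarith
    · have hs : Y ∩ K₂ ⊆ A \ K₁ := by
        intro v hv
        have hv' := mem_inter.1 hv
        have hvw : w ≠ v := fun e => hw₂ (e ▸ hv'.2)
        rcases (hY v).1 hv'.1 with h' | h'
        · exact mem_sdiff.2 ⟨h', fun h'' => (disjoint_left.1 hP.disj) h'' hv'.2⟩
        · exact absurd (hg.2.1 w h v h' hvw) (n₂ v hv)
      have e1 := key_mono hs
      have e2 := hg.2.2.1
      linarith
  rcases h2 V G J t K₁ K₂ Y A B hP hA hB hY h₁ h₂ with hg | hg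
  · exact key A B hY hg
  · exact key B A (fun v => (hY v).trans or_comm) hg

open Classical in
/-- few vertices of `K` have few neighbours in `X` or in `X'` -/
theorem key_bad1 (h1 : L1) {G : SimpleGraph V} {J : ℕ} {t f : ℝ} {K : Finset V}
    (hT : Typ G J t K) (hJ : 1 ≤ J) (hf : 0 ≤ f) {X X' : Finset V} (hX : Disjoint X K)
    (hX' : Disjoint X' K) (hc : J * f + t ≤ (X.card : ℝ)) (hc' : J * f + t ≤ (X'.card : ℝ)) :
    (((K.filter fun q => ((nb G q ∩ X).card : ℝ) ≤ f ∨ ((nb G q ∩ X').card : ℝ) ≤ f)).card : ℝ)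
      ≤ 2 * J := by
  have e1 : (K.filter fun q => ((nb G q ∩ X).card : ℝ) ≤ f).card < J :=
    h1 V G J t f K X hT hJ hf hX hc _ (filter_subset _ _) fun q hq => (mem_filter.1 hq).2
  have e2 : (K.filter fun q => ((nb G q ∩ X').card : ℝ) ≤ f).card < J :=
    h1 V G J t f K X' hT hJ hf hX' hc' _ (filter_subset _ _) fun q hq => (mem_filter.1 hq).2
  rw [filter_or]
  have e3 := card_union_le (K.filter fun q => ((nb G q ∩ X).card : ℝ) ≤ f)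
    (K.filter fun q => ((nb G q ∩ X').card : ℝ) ≤ f)
  have e4 : ((K.filter fun q => ((nb G q ∩ X).card : ℝ) ≤ f) ∪
    (K.filter fun q => ((nb G q ∩ X').card : ℝ) ≤ f)).card ≤ 2 * J := by omega
  exact_mod_cast e4

open Classical in
/-- few vertices outside have few neighbours in `X₁` or in `X₂` -/
theorem key_bad0 (h0 : L0a) {G : SimpleGraph V} {J : ℕ} {t f : ℝ} {K₁ K₂ : Finset V}
    (hT₁ : Typ G J t K₁) (hT₂ : Typ G J t K₂) (hJ : 1 ≤ J) (ht : 0 < t) (hf : 0 ≤ f)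
    {X₁ X₂ : Finset V} (hX₁ : X₁ ⊆ K₁) (hX₂ : X₂ ⊆ K₂)
    (hc₁ : 2 * J * f + J ≤ (X₁.card : ℝ)) (hc₂ : 2 * J * f + J ≤ (X₂.card : ℝ))
    {S : Finset V} (hS₁ : Disjoint S K₁) (hS₂ : Disjoint S K₂) :
    (((S.filter fun q => ((nb G q ∩ X₁).card : ℝ) ≤ f ∨ ((nb G q ∩ X₂).card : ℝ) ≤ f)).card : ℝ)
      ≤ 4 * t := by
  have e1 : ((S.filter fun q => ((nb G q ∩ X₁).card : ℝ) ≤ f).card : ℝ) < 2 * t :=
    h0 V G J t f K₁ X₁ hT₁ hJ ht hf hX₁ hc₁ _ (hS₁.mono_left (filter_subset _ _))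
      fun q hq => (mem_filter.1 hq).2
  have e2 : ((S.filter fun q => ((nb G q ∩ X₂).card : ℝ) ≤ f).card : ℝ) < 2 * t :=
    h0 V G J t f K₂ X₂ hT₂ hJ ht hf hX₂ hc₂ _ (hS₂.mono_left (filter_subset _ _))
      fun q hq => (mem_filter.1 hq).2
  rw [filter_or]
  have e3 := key_union (S.filter fun q => ((nb G q ∩ X₁).card : ℝ) ≤ f)
    (S.filter fun q => ((nb G q ∩ X₂).card : ℝ) ≤ f)
  linarith

/-- a vertex of `K₁` in the middle of the three sets is not bisimplicial -/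
theorem key_mid (h2 : L2) {G : SimpleGraph V} {J : ℕ} {t : ℝ} {K₁ K₂ : Finset V}
    (hP : Pair G J t K₁ K₂) {X U₁ U₂ W' B₁ B₂ BW : Finset V}
    (hU₁ : U₁ ⊆ K₁) (hU₂ : U₂ ⊆ K₂) (hW' : W' ⊆ W K₁ K₂)
    (hX₁ : U₁ \ B₁ ⊆ X) (hX₂ : U₂ \ B₂ ⊆ X) (hXW : W' \ BW ⊆ X)
    (hb₁ : (B₁.card : ℝ) ≤ 2 * J) (hb₂ : (B₂.card : ℝ) ≤ 2 * J) (hbW : (BW.card : ℝ) ≤ 4 * t)
    (hc : LL J t ≤ (U₁.card : ℝ)) {u : V} (hu : u ∈ U₁)
    (hf₂ : 8 * t + 8 * J < ((nb G u ∩ U₂).card : ℝ))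
    (hfW : 8 * t + 8 * J < ((nb G u ∩ W').card : ℝ)) : ¬ Bis G X u := by
  rintro ⟨A, B, hA, hB, hAB⟩
  have hJ := key_J hP
  have ht := hP.t_pos
  have hn := key_num hJ ht
  unfold LL at hc
  -- the neighbours of `u` in `X`
  have hY : ∀ v, v ∈ X ∩ nb G u ↔ v ∈ A ∨ v ∈ B := by
    intro v
    rw [hAB v, mem_inter, key_mem_nb]
  have c₁ : 2 * t + 2 * J ≤ (((X ∩ nb G u) ∩ K₁).card : ℝ) := by
    have hs : (U₁ \ B₁) \ {u} ⊆ (X ∩ nb G u) ∩ K₁ := by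
      intro v hv
      rw [mem_sdiff, mem_singleton] at hv
      have hv1 := (mem_sdiff.1 hv.1).1
      rw [mem_inter, mem_inter, key_mem_nb]
      exact ⟨⟨hX₁ hv.1, hP.cl₁ u (hU₁ hu) v (hU₁ hv1) (Ne.symm hv.2)⟩, hU₁ hv1⟩
    have e1 := key_mono hs
    have e2 := key_sub (U₁ \ B₁) {u}
    have e3 := key_sub U₁ B₁
    rw [card_singleton, Nat.cast_one] at e2
    linarith [hn.2.2]
  have c₂ : 2 * t + 2 * J ≤ (((X ∩ nb G u) ∩ K₂).card : ℝ) := by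
    have hs : (nb G u ∩ U₂) \ B₂ ⊆ (X ∩ nb G u) ∩ K₂ := by
      intro v hv
      rw [mem_sdiff, mem_inter] at hv
      rw [mem_inter, mem_inter]
      exact ⟨⟨hX₂ (mem_sdiff.2 ⟨hv.1.2, hv.2⟩), hv.1.1⟩, hU₂ hv.1.2⟩
    have e1 := key_mono hs
    have e2 := key_sub (nb G u ∩ U₂) B₂
    linarith
  have c₃ : 2 * t ≤ (((X ∩ nb G u) ∩ W K₁ K₂).card : ℝ) := by
    have hs : (nb G u ∩ W') \ BW ⊆ (X ∩ nb G u) ∩ W K₁ K₂ := by
      intro v hv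
      rw [mem_sdiff, mem_inter] at hv
      rw [mem_inter, mem_inter]
      exact ⟨⟨hXW (mem_sdiff.2 ⟨hv.1.2, hv.2⟩), hv.1.1⟩, hW' hv.1.2⟩
    have e1 := key_mono hs
    have e2 := key_sub (nb G u ∩ W') BW
    linarith
  have := key_three h2 hP hA hB hY c₁ c₂
  linarith

end

/-- L4 -/
theorem l4 (h0 : L0a) (h1 : L1) (h2 : L2) (h3 : L3) : L4 := by
  classical
  intro V _ _ G J t K₁ K₂ hG hP w hw hc₁ hc₂
  by_contra hW
  rw [not_lt] at hW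
  have hJ := key_J hP
  have ht := hP.t_pos
  have hn := key_num hJ ht
  have hw' := key_mem_W.1 hw
  obtain ⟨f, hf⟩ : ∃ f : ℝ, f = 8 * t + 8 * J := ⟨_, rfl⟩
  have hf0 : 0 ≤ f := by rw [hf]; linarith
  obtain ⟨U₁, hU₁⟩ : ∃ U, U = K₁ \ nb G w := ⟨_, rfl⟩
  obtain ⟨U₂, hU₂⟩ : ∃ U, U = K₂ \ nb G w := ⟨_, rfl⟩
  obtain ⟨W', hW'⟩ : ∃ U, U = nb G w ∩ W K₁ K₂ := ⟨_, rfl⟩
  rw [← hU₁] at hc₁
  rw [← hU₂] at hc₂
  rw [← hW'] at hW
  have sU₁ : U₁ ⊆ K₁ := hU₁ ▸ sdiff_subset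
  have sU₂ : U₂ ⊆ K₂ := hU₂ ▸ sdiff_subset
  have sW' : W' ⊆ W K₁ K₂ := hW' ▸ inter_subset_right
  have nU₁ : ∀ v ∈ U₁, ¬ G.Adj w v := by
    intro v hv hvw
    rw [hU₁, mem_sdiff, key_mem_nb] at hv
    exact hv.2 hvw
  have nU₂ : ∀ v ∈ U₂, ¬ G.Adj w v := by
    intro v hv hvw
    rw [hU₂, mem_sdiff, key_mem_nb] at hv
    exact hv.2 hvw
  have aW' : ∀ v ∈ W', G.Adj w v := by
    intro v hv
    rw [hW', mem_inter, key_mem_nb] at hv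
    exact hv.1
  have dW₁ : Disjoint W' K₁ := by
    rw [disjoint_left]
    intro v hv hv1
    exact (key_mem_W.1 (sW' hv)).1 hv1
  have dW₂ : Disjoint W' K₂ := by
    rw [disjoint_left]
    intro v hv hv1
    exact (key_mem_W.1 (sW' hv)).2 hv1
  have dU₂₁ : Disjoint U₂ K₁ := hP.disj.symm.mono_left sU₂
  have dU₁₂ : Disjoint U₁ K₂ := hP.disj.mono_left sU₁
  have hcL₁ := hc₁
  have hcL₂ := hc₂
  have hWL := hW
  unfold LL at hc₁ hc₂ hW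
  have hL : (0 : ℝ) ≤ 40 * J * (t + J) := by positivity
  -- the bad sets
  obtain ⟨B₁, hB₁⟩ : ∃ B, B = K₁.filter fun q =>
    ((nb G q ∩ U₂).card : ℝ) ≤ f ∨ ((nb G q ∩ W').card : ℝ) ≤ f := ⟨_, rfl⟩
  obtain ⟨B₂, hB₂⟩ : ∃ B, B = K₂.filter fun q =>
    ((nb G q ∩ U₁).card : ℝ) ≤ f ∨ ((nb G q ∩ W').card : ℝ) ≤ f := ⟨_, rfl⟩
  obtain ⟨BW, hBW⟩ : ∃ B, B = W'.filter fun q =>
    ((nb G q ∩ U₁).card : ℝ) ≤ f ∨ ((nb G q ∩ U₂).card : ℝ) ≤ f := ⟨_, rfl⟩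
  have b₁ : (B₁.card : ℝ) ≤ 2 * J := by
    rw [hB₁]
    exact key_bad1 h1 hP.typ₁ hP.one_le hf0 dU₂₁ dW₁ (by rw [hf]; linarith [hn.1])
      (by rw [hf]; linarith [hn.1])
  have b₂ : (B₂.card : ℝ) ≤ 2 * J := by
    rw [hB₂]
    exact key_bad1 h1 hP.typ₂ hP.one_le hf0 dU₁₂ dW₂ (by rw [hf]; linarith [hn.1])
      (by rw [hf]; linarith [hn.1])
  have bW : (BW.card : ℝ) ≤ 4 * t := by
    rw [hBW]
    exact key_bad0 h0 hP.typ₁ hP.typ₂ hP.one_le ht hf0 sU₁ sU₂ (by rw [hf]; linarith [hn.2.1])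
      (by rw [hf]; linarith [hn.2.1]) dW₁ dW₂
  -- the set
  obtain ⟨X, hX⟩ : ∃ X, X = {w} ∪ (U₁ \ B₁) ∪ (U₂ \ B₂) ∪ (W' \ BW) := ⟨_, rfl⟩
  have sX₁ : U₁ \ B₁ ⊆ X := by
    intro v hv
    rw [hX, mem_union, mem_union, mem_union]
    exact Or.inl (Or.inl (Or.inr hv))
  have sX₂ : U₂ \ B₂ ⊆ X := by
    intro v hv
    rw [hX, mem_union, mem_union, mem_union]
    exact Or.inl (Or.inr hv)
  have sXW : W' \ BW ⊆ X := by
    intro v hv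
    rw [hX, mem_union, mem_union, mem_union]
    exact Or.inr hv
  have wX : w ∈ X := by
    rw [hX, mem_union, mem_union, mem_union, mem_singleton]
    exact Or.inl (Or.inl (Or.inl rfl))
  obtain ⟨u, hu, hbis⟩ := hG X ⟨w, wX⟩
  have hu' := hu
  rw [hX, mem_union, mem_union, mem_union, mem_singleton] at hu'
  rcases hu' with ((hu' | hu') | hu') | hu'
  · -- `u = w`
    subst hu'
    obtain ⟨A, B, hA, hB, hAB⟩ := hbis
    have hsub : ∀ v, v ∈ X → G.Adj u v → v ∈ W' := by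
      intro v hv huv
      rw [hX, mem_union, mem_union, mem_union, mem_singleton] at hv
      rcases hv with ((hv | hv) | hv) | hv
      · exact absurd (hv ▸ huv) (G.loopless.irrefl u)
      · exact absurd huv (nU₁ v (mem_sdiff.1 hv).1)
      · exact absurd huv (nU₂ v (mem_sdiff.1 hv).1)
      · exact (mem_sdiff.1 hv).1
    have hA' : A ⊆ W K₁ K₂ := fun v hv =>
      sW' (hsub v ((hAB v).1 (Or.inl hv)).1 ((hAB v).1 (Or.inl hv)).2)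
    have hB' : B ⊆ W K₁ K₂ := fun v hv =>
      sW' (hsub v ((hAB v).1 (Or.inr hv)).1 ((hAB v).1 (Or.inr hv)).2)
    have hs : W' \ BW ⊆ A ∪ B := by
      intro v hv
      rw [mem_union]
      exact (hAB v).2 ⟨sXW hv, aW' v (mem_sdiff.1 hv).1⟩
    have e1 := key_mono hs
    have e2 := key_union A B
    have e3 := key_sub W' BW
    have e4 := h3 V G J t K₁ K₂ hG hP A hA' hA
    have e5 := h3 V G J t K₁ K₂ hG hP B hB' hB
    unfold LL at e4 e5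
    linarith [hn.2.2]
  · -- `u` in `U₁`
    have h' := mem_sdiff.1 hu'
    have hnb : ¬ (((nb G u ∩ U₂).card : ℝ) ≤ f ∨ ((nb G u ∩ W').card : ℝ) ≤ f) := by
      intro h
      exact h'.2 (hB₁ ▸ mem_filter.2 ⟨sU₁ h'.1, h⟩)
    rw [not_or, not_le, not_le, hf] at hnb
    exact key_mid h2 hP sU₁ sU₂ sW' sX₁ sX₂ sXW b₁ b₂ bW hcL₁ h'.1 hnb.1 hnb.2 hbis
  · -- `u` in `U₂`
    have h' := mem_sdiff.1 hu'
    have hnb : ¬ (((nb G u ∩ U₁).card : ℝ) ≤ f ∨ ((nb G u ∩ W').card : ℝ) ≤ f) := by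
      intro h
      exact h'.2 (hB₂ ▸ mem_filter.2 ⟨sU₂ h'.1, h⟩)
    rw [not_or, not_le, not_le, hf] at hnb
    have sW'' : W' ⊆ W K₂ K₁ := by
      intro v hv
      exact key_mem_W.2 (key_mem_W.1 (sW' hv)).symm
    exact key_mid h2 (key_symm hP) sU₂ sU₁ sW'' sX₂ sX₁ sXW b₂ b₁ bW hcL₂ h'.1 hnb.1 hnb.2 hbis
  · -- `u` in `W'`
    have h' := mem_sdiff.1 hu'
    have hnb : ¬ (((nb G u ∩ U₁).card : ℝ) ≤ f ∨ ((nb G u ∩ U₂).card : ℝ) ≤ f) := by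
      intro h
      exact h'.2 (hBW ▸ mem_filter.2 ⟨h'.1, h⟩)
    rw [not_or, not_le, not_le, hf] at hnb
    obtain ⟨A, B, hA, hB, hAB⟩ := hbis
    have hY : ∀ v, v ∈ X ∩ nb G u ↔ v ∈ A ∨ v ∈ B := by
      intro v
      rw [hAB v, mem_inter, key_mem_nb]
    have c₁ : 2 * t + 2 * J ≤ (((X ∩ nb G u) ∩ K₁).card : ℝ) := by
      have hs : (nb G u ∩ U₁) \ B₁ ⊆ (X ∩ nb G u) ∩ K₁ := by
        intro v hv
        rw [mem_sdiff, mem_inter] at hv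
        rw [mem_inter, mem_inter]
        exact ⟨⟨sX₁ (mem_sdiff.2 ⟨hv.1.2, hv.2⟩), hv.1.1⟩, sU₁ hv.1.2⟩
      have e1 := key_mono hs
      have e2 := key_sub (nb G u ∩ U₁) B₁
      linarith [hnb.1]
    have c₂ : 2 * t + 2 * J ≤ (((X ∩ nb G u) ∩ K₂).card : ℝ) := by
      have hs : (nb G u ∩ U₂) \ B₂ ⊆ (X ∩ nb G u) ∩ K₂ := by
        intro v hv
        rw [mem_sdiff, mem_inter] at hv
        rw [mem_inter, mem_inter]
        exact ⟨⟨sX₂ (mem_sdiff.2 ⟨hv.1.2, hv.2⟩), hv.1.1⟩, sU₂ hv.1.2⟩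
      have e1 := key_mono hs
      have e2 := key_sub (nb G u ∩ U₂) B₂
      linarith [hnb.2]
    have wY : w ∈ X ∩ nb G u := by
      rw [mem_inter, key_mem_nb]
      exact ⟨wX, (aW' u h'.1).symm⟩
    have hXK₁ : ∀ v ∈ X, v ∈ K₁ → v ∈ U₁ := by
      intro v hv hv1
      rw [hX, mem_union, mem_union, mem_union, mem_singleton] at hv
      rcases hv with ((hv | hv) | hv) | hv
      · exact absurd (hv ▸ hv1) hw'.1
      · exact (mem_sdiff.1 hv).1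
      · exact absurd hv1 (disjoint_left.1 dU₂₁ (mem_sdiff.1 hv).1)
      · exact absurd hv1 (disjoint_left.1 dW₁ (mem_sdiff.1 hv).1)
    have hXK₂ : ∀ v ∈ X, v ∈ K₂ → v ∈ U₂ := by
      intro v hv hv1
      rw [hX, mem_union, mem_union, mem_union, mem_singleton] at hv
      rcases hv with ((hv | hv) | hv) | hv
      · exact absurd (hv ▸ hv1) hw'.2
      · exact absurd hv1 (disjoint_left.1 dU₁₂ (mem_sdiff.1 hv).1)
      · exact (mem_sdiff.1 hv).1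
      · exact absurd hv1 (disjoint_left.1 dW₂ (mem_sdiff.1 hv).1)
    refine key_apex h2 hP hA hB hY c₁ c₂ wY hw'.1 hw'.2 ?_ ?_
    · intro v hv
      rw [mem_inter, mem_inter] at hv
      exact nU₁ v (hXK₁ v hv.1.1 hv.2)
    · intro v hv
      rw [mem_inter, mem_inter] at hv
      exact nU₂ v (hXK₂ v hv.1.1 hv.2)

end Pool.Agent.Lib.MP_534936_co.AQ
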