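import Pool.Agent.Lib.MP_534936_co.AQ.Defs

/-!
# Local lemmas L0a, L0b, L1, L2
-/

namespace Pool.Agent.Lib.MP_534936_co.AQ

open Finset

section blocks

variable {V : Type*} [DecidableEq V]

/-- disjoint blocks of size `J` inside `X` -/
theorem loc_exists_blocks (J : ℕ) : ∀ (m : ℕ) (X : Finset V), m * J ≤ X.card →
    ∃ Q : ℕ → Finset V, (∀ i < m, Q i ⊆ X ∧ (Q i).card = J) ∧
      ∀ i < m, ∀ j < m, i ≠ j → Disjoint (Q i) (Q j) := by
  intro m
  induction m with
  | zero => intro X _; exact ⟨fun _ => ∅, by simp, by simp⟩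
  | succ m ih =>
    intro X hX
    have h1 : J ≤ X.card := by nlinarith [Nat.zero_le (m * J)]
    obtain ⟨P, hP, hPc⟩ := Finset.exists_subset_card_eq h1
    have h2 : m * J ≤ (X \ P).card := by
      rw [Finset.card_sdiff_of_subset hP, hPc]
      have : (m + 1) * J = m * J + J := by ring
      omega
    obtain ⟨Q, hQ, hd⟩ := ih (X \ P) h2
    refine ⟨fun i => if i < m then Q i else P, ?_, ?_⟩
    · intro i hi
      by_cases h : i < m
      · simp only [h, if_true]
        exact ⟨(hQ i h).1.trans Finset.sdiff_subset, (hQ i h).2⟩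
      · simp only [h, if_false]
        exact ⟨hP, hPc⟩
    · intro i hi j hj hij
      by_cases h : i < m <;> by_cases h' : j < m
      · simp only [h, h', if_true]; exact hd i h j h' hij
      · simp only [h, h', if_true, if_false]
        exact (Finset.disjoint_of_subset_left (hQ i h).1 Finset.sdiff_disjoint)
      · simp only [h, h', if_true, if_false]
        exact (Finset.disjoint_of_subset_left (hQ j h').1 Finset.sdiff_disjoint).symm
      · omega

/-- some `J`-set of `X` avoids the bad set of at least half of the elements of `B` -/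
theorem loc_exists_half (J : ℕ) (f : ℝ) (X B : Finset V) (bad : V → Finset V) (hJ : 1 ≤ J)
    (hf : 0 ≤ f) (hX : 2 * J * f + J ≤ (X.card : ℝ))
    (hb : ∀ v ∈ B, ((bad v ∩ X).card : ℝ) ≤ f) :
    ∃ Q ⊆ X, Q.card = J ∧ (B.card : ℝ) ≤ 2 * ((B.filter fun v => Disjoint (bad v) Q).card : ℝ) := by
  have hJ' : (1 : ℝ) ≤ J := by exact_mod_cast hJ
  set m := X.card / J with hm
  have hmJ : m * J ≤ X.card := Nat.div_mul_le_self _ _
  have hm1 : 2 * f < (m : ℝ) := by
    have h1 : X.card < (m + 1) * J := by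
      have := Nat.lt_div_mul_add (a := X.card) (b := J) (by omega)
      rw [← hm] at this
      linarith [this]
    have h2 : (X.card : ℝ) < ((m : ℝ) + 1) * J := by exact_mod_cast h1
    have h3 : (2 * f + 1) * J < ((m : ℝ) + 1) * J := by nlinarith
    have h4 : 2 * f + 1 < (m : ℝ) + 1 := lt_of_mul_lt_mul_right h3 (by positivity)
    linarith
  have hmpos : 0 < m := by
    have : (0 : ℝ) < m := by linarith
    exact_mod_cast this
  obtain ⟨Q, hQ, hd⟩ := loc_exists_blocks J m X hmJ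
  -- count
  by_contra hcon
  push Not at hcon
  have hlt : ∀ i ∈ range m, 2 * ((B.filter fun v => Disjoint (bad v) (Q i)).card : ℝ) <
      (B.card : ℝ) := by
    intro i hi
    exact hcon (Q i) (hQ i (mem_range.1 hi)).1 (hQ i (mem_range.1 hi)).2
  have hsum : (∑ i ∈ range m, 2 * ((B.filter fun v => Disjoint (bad v) (Q i)).card : ℝ)) <
      ∑ _i ∈ range m, (B.card : ℝ) :=
    Finset.sum_lt_sum_of_nonempty ⟨0, mem_range.2 hmpos⟩ hlt
  rw [Finset.sum_const, card_range, nsmul_eq_mul] at hsum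
  -- lower bound
  have hswap : (∑ i ∈ range m, ((B.filter fun v => Disjoint (bad v) (Q i)).card : ℝ)) =
      ∑ v ∈ B, (((range m).filter fun i => Disjoint (bad v) (Q i)).card : ℝ) := by
    have : (∑ i ∈ range m, (B.filter fun v => Disjoint (bad v) (Q i)).card) =
        ∑ v ∈ B, ((range m).filter fun i => Disjoint (bad v) (Q i)).card :=
      Finset.sum_card_bipartiteAbove_eq_sum_card_bipartiteBelow
        (s := range m) (t := B) (fun i v => Disjoint (bad v) (Q i))
    exact_mod_cast this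
  have hlow : ∀ v ∈ B, (m : ℝ) - f ≤
      (((range m).filter fun i => Disjoint (bad v) (Q i)).card : ℝ) := by
    intro v hv
    have h1 : ((range m).filter fun i => Disjoint (bad v) (Q i)).card +
        ((range m).filter fun i => ¬ Disjoint (bad v) (Q i)).card = m := by
      rw [Finset.card_filter_add_card_filter_not, card_range]
    have h2 : ((range m).filter fun i => ¬ Disjoint (bad v) (Q i)).card ≤ (bad v ∩ X).card := by
      have hex : ∀ i ∈ (range m).filter fun i => ¬ Disjoint (bad v) (Q i),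
          ∃ x, x ∈ bad v ∧ x ∈ Q i := by
        intro i hi
        have := (mem_filter.1 hi).2
        rw [Finset.not_disjoint_iff] at this
        exact this
      have : Nonempty V := ⟨v⟩
      choose! g hg using hex
      apply Finset.card_le_card_of_injOn g
      · intro i hi
        have hi' := Finset.mem_coe.1 hi
        have := hg i hi'
        exact mem_coe.2 (mem_inter.2 ⟨this.1, (hQ i (mem_range.1 (mem_filter.1 hi').1)).1 this.2⟩)
      · intro i hi j hj hij
        have hi' := Finset.mem_coe.1 hi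
        have hj' := Finset.mem_coe.1 hj
        by_contra hne
        have := hd i (mem_range.1 (mem_filter.1 hi').1) j (mem_range.1 (mem_filter.1 hj').1) hne
        have h1 := (hg i hi').2
        have h2 := (hg j hj').2
        rw [← hij] at h2
        exact Finset.disjoint_left.1 this h1 h2
    have h3 := hb v hv
    have h4 : (((range m).filter fun i => Disjoint (bad v) (Q i)).card : ℝ) +
        (((range m).filter fun i => ¬ Disjoint (bad v) (Q i)).card : ℝ) = m := by
      exact_mod_cast h1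
    have h5 : (((range m).filter fun i => ¬ Disjoint (bad v) (Q i)).card : ℝ) ≤
        ((bad v ∩ X).card : ℝ) := by exact_mod_cast h2
    linarith
  have hlow2 : (B.card : ℝ) * (m - f) ≤
      ∑ v ∈ B, (((range m).filter fun i => Disjoint (bad v) (Q i)).card : ℝ) := by
    rw [← nsmul_eq_mul, ← Finset.sum_const]
    exact Finset.sum_le_sum hlow
  rw [← Finset.mul_sum, hswap] at hsum
  have hBn : (0 : ℝ) ≤ B.card := by positivity
  nlinarith

end blocks

section

variable {V : Type*} [Fintype V] [DecidableEq V]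

omit [DecidableEq V] in
theorem loc_mem_nb {G : SimpleGraph V} {x v : V} : v ∈ nb G x ↔ G.Adj x v := by
  simp [nb]

theorem loc_mem_Cm {G : SimpleGraph V} {Q : Finset V} {v : V} :
    v ∈ Cm G Q ↔ v ∉ Q ∧ ∀ q ∈ Q, G.Adj q v := by
  simp [Cm]

theorem loc_mem_Dm {G : SimpleGraph V} {Q : Finset V} {v : V} :
    v ∈ Dm G Q ↔ v ∉ Q ∧ ∀ q ∈ Q, ¬ G.Adj q v := by
  simp [Dm]

end

theorem l0a : L0a := by
  intro V _ _ G J t f K X hT hJ ht hf hXK hX B hBK hb
  obtain ⟨Q, hQX, hQc, hQ⟩ := loc_exists_half J f X B (fun v => nb G v) hJ hf hX hb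
  have h1 := (hT Q (hQX.trans hXK) hQc).2
  have h2 : (B.filter fun v => Disjoint (nb G v) Q) ⊆ Dm G Q \ K := by
    intro v hv
    obtain ⟨hvB, hvd⟩ := mem_filter.1 hv
    have hvK : v ∉ K := Finset.disjoint_left.1 hBK hvB
    refine mem_sdiff.2 ⟨loc_mem_Dm.2 ⟨fun h => hvK (hXK (hQX h)), ?_⟩, hvK⟩
    intro q hq hadj
    exact Finset.disjoint_left.1 hvd (loc_mem_nb.2 hadj.symm) hq
  have h3 : ((B.filter fun v => Disjoint (nb G v) Q).card : ℝ) ≤ ((Dm G Q \ K).card : ℝ) := by
    exact_mod_cast Finset.card_le_card h2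
  linarith

theorem l0b : L0b := by
  intro V _ _ G J t f K X hT hJ ht hf hXK hX B hBK hb
  obtain ⟨Q, hQX, hQc, hQ⟩ := loc_exists_half J f X B (fun v => (nb G v)ᶜ) hJ hf hX (by
    intro v hv
    have h := hb v hv
    have h' : (nb G v)ᶜ ∩ X = X \ nb G v := by
      ext x; simp [and_comm]
    rw [h']; exact h)
  have h1 := (hT Q (hQX.trans hXK) hQc).1
  have h2 : (B.filter fun v => Disjoint ((nb G v)ᶜ) Q) ⊆ Cm G Q \ K := by
    intro v hv
    obtain ⟨hvB, hvd⟩ := mem_filter.1 hv
    have hvK : v ∉ K := Finset.disjoint_left.1 hBK hvB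
    refine mem_sdiff.2 ⟨loc_mem_Cm.2 ⟨fun h => hvK (hXK (hQX h)), ?_⟩, hvK⟩
    intro q hq
    by_contra hadj
    exact Finset.disjoint_left.1 hvd (mem_compl.2 fun h => hadj (loc_mem_nb.1 h).symm) hq
  have h3 : ((B.filter fun v => Disjoint ((nb G v)ᶜ) Q).card : ℝ) ≤ ((Cm G Q \ K).card : ℝ) := by
    exact_mod_cast Finset.card_le_card h2
  linarith

theorem l1 : L1 := by
  intro V _ _ G J t f K X hT hJ hf hXK hX B hBK hb
  by_contra hcon
  push Not at hcon
  obtain ⟨Q, hQB, hQc⟩ := Finset.exists_subset_card_eq hcon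
  have h1 := (hT Q (hQB.trans hBK) hQc).2
  have h2 : X \ Q.biUnion (fun q => nb G q ∩ X) ⊆ Dm G Q \ K := by
    intro v hv
    obtain ⟨hvX, hvn⟩ := mem_sdiff.1 hv
    have hvK : v ∉ K := Finset.disjoint_left.1 hXK hvX
    refine mem_sdiff.2 ⟨loc_mem_Dm.2 ⟨fun h => hvK (hBK (hQB h)), ?_⟩, hvK⟩
    intro q hq hadj
    exact hvn (mem_biUnion.2 ⟨q, hq, mem_inter.2 ⟨loc_mem_nb.2 hadj, hvX⟩⟩)
  have h3 : ((Q.biUnion (fun q => nb G q ∩ X)).card : ℝ) ≤ J * f := by
    calc ((Q.biUnion (fun q => nb G q ∩ X)).card : ℝ) ≤ ∑ q ∈ Q, ((nb G q ∩ X).card : ℝ) := by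
          exact_mod_cast Finset.card_biUnion_le
      _ ≤ ∑ _q ∈ Q, f := Finset.sum_le_sum fun q hq => hb q (hQB hq)
      _ = J * f := by rw [Finset.sum_const, hQc, nsmul_eq_mul]
  have h4 : (X.card : ℝ) ≤ ((X \ Q.biUnion (fun q => nb G q ∩ X)).card : ℝ) +
      ((Q.biUnion (fun q => nb G q ∩ X)).card : ℝ) := by
    exact_mod_cast (Finset.card_le_card_sdiff_add_card
      (s := X) (t := Q.biUnion (fun q => nb G q ∩ X)))
  have h5 : ((X \ Q.biUnion (fun q => nb G q ∩ X)).card : ℝ) ≤ ((Dm G Q \ K).card : ℝ) := by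
    exact_mod_cast Finset.card_le_card h2
  linarith

/-- a clique with `J` elements in a typical set `K` has few elements outside `K` -/
theorem loc_few_outside {V : Type*} [Fintype V] [DecidableEq V] {G : SimpleGraph V} {J : ℕ} {t : ℝ}
    {K A : Finset V} (hT : Typ G J t K) (hA : Cl G A) (h : J ≤ (A ∩ K).card) :
    ((A \ K).card : ℝ) < t := by
  obtain ⟨Q, hQ, hQc⟩ := Finset.exists_subset_card_eq h
  have h1 := (hT Q (hQ.trans Finset.inter_subset_right) hQc).1
  have h2 : A \ K ⊆ Cm G Q \ K := by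
    intro v hv
    obtain ⟨hvA, hvK⟩ := mem_sdiff.1 hv
    have hvQ : v ∉ Q := fun h => hvK (mem_inter.1 (hQ h)).2
    refine mem_sdiff.2 ⟨loc_mem_Cm.2 ⟨hvQ, ?_⟩, hvK⟩
    intro q hq
    exact hA q (mem_inter.1 (hQ hq)).1 v hvA fun h => hvQ (h ▸ hq)
  have h3 : ((A \ K).card : ℝ) ≤ ((Cm G Q \ K).card : ℝ) := by
    exact_mod_cast Finset.card_le_card h2
  linarith

theorem loc_good2_aux {V : Type} [Fintype V] [DecidableEq V] {G : SimpleGraph V} {J : ℕ} {t : ℝ}
    {K₁ K₂ Y A B : Finset V} (hP : Pair G J t K₁ K₂) (hA : Cl G A) (hB : Cl G B)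
    (hY : ∀ v, v ∈ Y ↔ v ∈ A ∨ v ∈ B) (h2 : 2 * t + 2 * J ≤ ((Y ∩ K₂).card : ℝ))
    (h : J ≤ (A ∩ K₁).card) : Good2 G t K₁ K₂ A B := by
  have h1 := loc_few_outside hP.typ₁ hA h
  have hJ : (0 : ℝ) ≤ J := by positivity
  have ht := hP.t_pos
  refine ⟨hA, hB, h1, loc_few_outside hP.typ₂ hB ?_⟩
  have h3 : (Y ∩ K₂).card ≤ (A \ K₁).card + (B ∩ K₂).card := by
    refine (Finset.card_le_card ?_).trans (Finset.card_union_le _ _)
    intro v hv
    obtain ⟨hvY, hvK⟩ := mem_inter.1 hv
    rcases (hY v).1 hvY with h | h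
    · exact mem_union_left _ (mem_sdiff.2 ⟨h, Finset.disjoint_right.1 hP.disj hvK⟩)
    · exact mem_union_right _ (mem_inter.2 ⟨h, hvK⟩)
  have h4 : ((Y ∩ K₂).card : ℝ) ≤ ((A \ K₁).card : ℝ) + ((B ∩ K₂).card : ℝ) := by
    exact_mod_cast h3
  have h5 : (J : ℝ) ≤ ((B ∩ K₂).card : ℝ) := by linarith
  exact_mod_cast h5

theorem l2 : L2 := by
  intro V _ _ G J t K₁ K₂ Y A B hP hA hB hY h1 h2
  by_cases h : J ≤ (A ∩ K₁).card
  · exact Or.inl (loc_good2_aux hP hA hB hY h2 h)
  · right
    refine loc_good2_aux hP hB hA (fun v => (hY v).trans or_comm) h2 ?_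
    by_contra h'
    push Not at h h'
    have h3 : (Y ∩ K₁).card ≤ (A ∩ K₁).card + (B ∩ K₁).card := by
      refine (Finset.card_le_card ?_).trans (Finset.card_union_le _ _)
      intro v hv
      obtain ⟨hvY, hvK⟩ := mem_inter.1 hv
      rcases (hY v).1 hvY with h | h
      · exact mem_union_left _ (mem_inter.2 ⟨h, hvK⟩)
      · exact mem_union_right _ (mem_inter.2 ⟨h, hvK⟩)
    have h4 : (Y ∩ K₁).card < J + J := by omega
    have h5 : ((Y ∩ K₁).card : ℝ) < J + J := by exact_mod_cast h4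
    have ht := hP.t_pos
    linarith

end Pool.Agent.Lib.MP_534936_co.AQ
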