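import Mathlib
import Pool.Agent.Lib.MP_534936_co.AQ.Encode

/-!
# Graphs with a clique with too many common neighbours are rare
-/

namespace Pool.Agent.Lib.MP_534936_co.AQ

open Finset

open Classical in
/-- The fibres: a clique `S` and its common neighbours `d` are given. -/
theorem R1_fibre {ε : ℝ} {K n : ℕ} (S : Finset (Fin n)) (hS : S.card = K)
    (d : Finset (Fin n)) (ρ : SimpleGraph (Fin n)) :
    ((Finset.univ.filter fun G : SimpleGraph (Fin n) =>
      GQ G ∧ (Cl G S ∧ Cm G S = d ∧ (1 / 3 + ε) * n ≤ (d.card : ℝ)) ∧ res S G = ρ).card : ℝ) ≤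
      (2 : ℝ) ^ ((K * (2 / 3 - ε)) * (n : ℝ)) := by
  set F : Finset (SimpleGraph (Fin n)) := Finset.univ.filter fun G : SimpleGraph (Fin n) =>
      GQ G ∧ (Cl G S ∧ Cm G S = d ∧ (1 / 3 + ε) * n ≤ (d.card : ℝ)) ∧ res S G = ρ with hF
  have hmem : ∀ G ∈ F, Cl G S ∧ Cm G S = d ∧ (1 / 3 + ε) * n ≤ (d.card : ℝ) ∧ res S G = ρ := by
    intro G hG
    rw [hF, Finset.mem_filter] at hG
    exact ⟨hG.2.2.1.1, hG.2.2.1.2.1, hG.2.2.1.2.2, hG.2.2.2⟩
  rcases F.eq_empty_or_nonempty with h0 | ⟨G₀, hG₀⟩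
  · rw [h0]
    simp only [Finset.card_empty, Nat.cast_zero]
    positivity
  have hd : (1 / 3 + ε) * n ≤ (d.card : ℝ) := (hmem G₀ hG₀).2.2.1
  set T : Finset (Fin n) := Finset.univ \ (S ∪ d) with hT
  have h1 : F.card ≤ ∏ s : S, (T.powerset).card := by
    apply card_le_prod F (fun _ => T.powerset) (fun G (s : S) => nb G s.1 \ (S ∪ d))
    · intro G hG G' hG' heq
      have hG1 := hmem G hG
      have hG2 := hmem G' hG'
      apply eq_of_res (S := S)
      · rw [hG1.2.2.2, hG2.2.2.2]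
      · intro s hs
        ext v
        rw [mem_nb, mem_nb]
        by_cases hv : v ∈ S
        · by_cases hsv : s = v
          · subst hsv
            exact iff_of_false (G.loopless.irrefl s) (G'.loopless.irrefl s)
          · exact iff_of_true (hG1.1 s hs v hv hsv) (hG2.1 s hs v hv hsv)
        by_cases hvd : v ∈ d
        · have h2 : v ∈ Cm G S := by rw [hG1.2.1]; exact hvd
          have h3 : v ∈ Cm G' S := by rw [hG2.2.1]; exact hvd
          exact iff_of_true ((mem_Cm.mp h2).2 s hs) ((mem_Cm.mp h3).2 s hs)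
        · have h4 : nb G s \ (S ∪ d) = nb G' s \ (S ∪ d) := congrFun heq ⟨s, hs⟩
          have h5 : v ∈ nb G s \ (S ∪ d) ↔ v ∈ nb G' s \ (S ∪ d) := by rw [h4]
          simp only [Finset.mem_sdiff, Finset.mem_union, mem_nb, hv, hvd, or_self,
            not_false_eq_true, and_true] at h5
          exact h5
    · intro G _ s
      rw [Finset.mem_powerset]
      intro v hv
      rw [Finset.mem_sdiff] at hv
      rw [hT, Finset.mem_sdiff]
      exact ⟨Finset.mem_univ _, hv.2⟩
  have h2 : ∏ s : S, (T.powerset).card = 2 ^ (K * T.card) := by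
    rw [Finset.prod_const, Finset.card_powerset, Finset.card_univ, Fintype.card_coe, hS,
      ← pow_mul, mul_comm]
  rw [h2] at h1
  have h3 : (T.card : ℝ) ≤ (2 / 3 - ε) * n := by
    have h4 : T ⊆ Finset.univ \ d := by
      intro v hv
      rw [hT, Finset.mem_sdiff, Finset.mem_union] at hv
      rw [Finset.mem_sdiff]
      exact ⟨hv.1, fun h => hv.2 (Or.inr h)⟩
    have h5 := Finset.card_le_card h4
    have h5' : (Finset.univ \ d).card = n - d.card := by
      rw [Finset.card_sdiff_of_subset (Finset.subset_univ _), Finset.card_univ, Fintype.card_fin]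
    rw [h5'] at h5
    have h6 : d.card ≤ n := by
      have := Finset.card_le_univ d
      rwa [Fintype.card_fin] at this
    have h7 : (T.card : ℝ) + d.card ≤ n := by
      have : T.card + d.card ≤ n := by omega
      exact_mod_cast this
    linarith
  calc (F.card : ℝ) ≤ ((2 ^ (K * T.card) : ℕ) : ℝ) := by exact_mod_cast h1
    _ = (2 : ℝ) ^ ((K : ℝ) * (T.card : ℝ)) := by
        push_cast
        rw [← Real.rpow_natCast]
        push_cast
        rfl
    _ ≤ (2 : ℝ) ^ ((K * (2 / 3 - ε)) * (n : ℝ)) := by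
        apply Real.rpow_le_rpow_of_exponent_le (by norm_num)
        calc (K : ℝ) * T.card ≤ (K : ℝ) * ((2 / 3 - ε) * n) :=
              mul_le_mul_of_nonneg_left h3 (Nat.cast_nonneg _)
          _ = _ := by ring

theorem bR1 : BR1 := by
  classical
  intro ε K hε hK
  have hK0 : 0 < K := by
    rcases Nat.eq_zero_or_pos K with h | h
    · rw [h] at hK
      norm_num at hK
    · exact h
  apply rare_of (k := K) (j := K) (a := 1 + K * (2 / 3 - ε)) (A := 1) hK0 (by linarith) 0
  intro n _ hn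
  have h1 := engine (n := n) (k := K) (D := Finset (Fin n)) (R1 ε K n)
    (fun S d G => Cl G S ∧ Cm G S = d ∧ (1 / 3 + ε) * n ≤ (d.card : ℝ))
    ((2 : ℝ) ^ ((K * (2 / 3 - ε)) * (n : ℝ))) (by positivity)
    (by
      rintro G _ ⟨Q, hQ, hQK, hQC⟩
      exact ⟨Q, hQK, Cm G Q, hQ, rfl, hQC⟩)
    (by
      intro S hS d ρ
      convert R1_fibre S hS d ρ)
  refine h1.trans (le_of_eq ?_)
  rw [Fintype.card_finset, Fintype.card_fin]
  have h2 : (2 : ℝ) ^ ((1 + K * (2 / 3 - ε)) * (n : ℝ)) =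
      (2 : ℝ) ^ n * (2 : ℝ) ^ ((K * (2 / 3 - ε)) * (n : ℝ)) := by
    rw [← Real.rpow_natCast, ← Real.rpow_add (by norm_num)]
    congr 1
    ring
  rw [h2]
  push_cast
  ring

end Pool.Agent.Lib.MP_534936_co.AQ
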