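import Pool.Agent.Lib.MP_534936_co.AQ.Engine

set_option autoImplicit false

/-!
# A bisimplicial vertex with few choices is rare
-/

namespace Pool.Agent.Lib.MP_534936_co.AQ

open Finset

open Classical in
/-- the set coded by a partial word -/
noncomputable def rtwoSt {K n : ℕ} (w : Fin K → Option (Fin n)) : Finset (Fin n) :=
  Finset.univ.filter fun v => ∃ i, w i = some v

theorem mem_rtwoSt {K n : ℕ} {w : Fin K → Option (Fin n)} {v : Fin n} :
    v ∈ rtwoSt w ↔ ∃ i, w i = some v := by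
  simp [rtwoSt]

theorem rtwoSt_card {K n : ℕ} (w : Fin K → Option (Fin n)) : (rtwoSt w).card ≤ K := by
  classical
  have h : (rtwoSt w).map ⟨some, Option.some_injective _⟩ ⊆ Finset.univ.image w := by
    intro o ho
    rw [Finset.mem_map] at ho
    obtain ⟨v, hv, rfl⟩ := ho
    obtain ⟨i, hi⟩ := mem_rtwoSt.mp hv
    exact Finset.mem_image.mpr ⟨i, Finset.mem_univ _, hi⟩
  have h2 := Finset.card_le_card h
  rw [Finset.card_map] at h2
  exact h2.trans (Finset.card_image_le.trans (by simp))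

theorem exists_rtwoSt {K n : ℕ} (Q : Finset (Fin n)) (hQ : Q.card ≤ K) :
    ∃ w : Fin K → Option (Fin n), rtwoSt w = Q := by
  refine ⟨fun i => Q.toList[i.1]?, ?_⟩
  ext v
  rw [mem_rtwoSt, ← Finset.mem_toList, List.mem_iff_getElem?]
  constructor
  · rintro ⟨i, hi⟩
    exact ⟨i.1, hi⟩
  · rintro ⟨i, hi⟩
    have h1 : i < Q.toList.length := by
      by_contra hc
      rw [List.getElem?_eq_none (not_lt.mp hc)] at hi
      cases hi
    rw [Finset.length_toList] at h1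
    exact ⟨⟨i, by omega⟩, hi⟩

open Classical in
/-- the common neighbours of a set of size `K` other than `x` -/
noncomputable def rtwoU {n : ℕ} (K : ℕ) (G : SimpleGraph (Fin n)) (x : Fin n)
    (Q : Finset (Fin n)) : Finset (Fin n) :=
  if Q.card = K then (Cm G Q).erase x else ∅

theorem rtwoCm_congr {n : ℕ} {G G' : SimpleGraph (Fin n)} {x : Fin n}
    (h : res {x} G = res {x} G') {Q : Finset (Fin n)} (hx : x ∉ Q) :
    (Cm G Q).erase x = (Cm G' Q).erase x := by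
  ext v
  simp only [Cm, Finset.mem_erase, Finset.mem_filter, Finset.mem_univ, true_and]
  refine and_congr_right fun hv => and_congr_right fun _ => ?_
  refine forall₂_congr fun q hq => ?_
  refine res_iff h ?_ ?_
  · rw [Finset.mem_singleton]
    rintro rfl
    exact hx hq
  · rwa [Finset.mem_singleton]

theorem rtwoU_congr {n K : ℕ} {G G' : SimpleGraph (Fin n)} {x : Fin n}
    (h : res {x} G = res {x} G') {Q : Finset (Fin n)} (hx : x ∉ Q) :
    rtwoU K G x Q = rtwoU K G' x Q := by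
  unfold rtwoU
  rw [rtwoCm_congr h hx]

theorem rtwoCl_congr {n : ℕ} {G G' : SimpleGraph (Fin n)} {x : Fin n}
    (h : res {x} G = res {x} G') {A : Finset (Fin n)} (hx : x ∉ A) : Cl G A ↔ Cl G' A := by
  unfold Cl
  refine forall₂_congr fun a ha => forall₂_congr fun b hb => ?_
  refine imp_congr_right fun _ => ?_
  refine res_iff h ?_ ?_
  · rw [Finset.mem_singleton]
    rintro rfl
    exact hx ha
  · rw [Finset.mem_singleton]
    rintro rfl
    exact hx hb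

/-- a graph and the neighbourhood of the removed vertex -/
theorem rtwo_inj {n : ℕ} (x : Fin n) (ρ : SimpleGraph (Fin n)) (F : Finset (SimpleGraph (Fin n)))
    (hF : ∀ G ∈ F, res {x} G = ρ) :
    Set.InjOn (fun G : SimpleGraph (Fin n) => nb G x) (F : Set (SimpleGraph (Fin n))) := by
  intro G hG G' hG' heq
  refine eq_of_res (S := {x}) ((hF G hG).trans (hF G' hG').symm) ?_
  intro s hs
  rw [Finset.mem_singleton] at hs
  subst hs
  exact heq

/-- the coded property -/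
def rtwoP (ε : ℝ) (K n : ℕ) (S : Finset (Fin n))
    (d : (Fin K → Option (Fin n)) × (Fin K → Option (Fin n)) × Bool)
    (G : SimpleGraph (Fin n)) : Prop :=
  ∃ x, S = {x} ∧ x ∉ rtwoSt d.1 ∧ x ∉ rtwoSt d.2.1 ∧
    ((d.2.2 = false ∧
        nb G x ⊆ (rtwoSt d.1 ∪ rtwoSt d.2.1) ∪
          (rtwoU K G x (rtwoSt d.1) ∪ rtwoU K G x (rtwoSt d.2.1)) ∧
        ((rtwoU K G x (rtwoSt d.1) ∪ rtwoU K G x (rtwoSt d.2.1)).card : ℝ) ≤
          (2 / 3 - ε) * n) ∨
      (d.2.2 = true ∧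
        (∃ C₁ ⊆ (Cm G (rtwoSt d.1)).erase x, ∃ C₂ ⊆ (Cm G (rtwoSt d.2.1)).erase x,
          Cl G C₁ ∧ Cl G C₂ ∧ nb G x = (rtwoSt d.1 ∪ rtwoSt d.2.1) ∪ (C₁ ∪ C₂)) ∧
        (ncl G ((Cm G (rtwoSt d.1)).erase x) : ℝ) *
            ncl G ((Cm G (rtwoSt d.2.1)).erase x) ≤
          (2 : ℝ) ^ ((2 / 3 - ε) * (n : ℝ))))

/-- the fibres are small -/
theorem rtwo_fibre (ε : ℝ) (K n : ℕ) (S : Finset (Fin n))
    (d : (Fin K → Option (Fin n)) × (Fin K → Option (Fin n)) × Bool)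
    (ρ : SimpleGraph (Fin n)) (F : Finset (SimpleGraph (Fin n)))
    (hF : ∀ G ∈ F, rtwoP ε K n S d G ∧ res S G = ρ) :
    (F.card : ℝ) ≤ (2 : ℝ) ^ (2 * (K : ℝ) + (2 / 3 - ε) * n) := by
  classical
  rcases F.eq_empty_or_nonempty with hE | ⟨G₀, hG₀⟩
  · rw [hE, Finset.card_empty, Nat.cast_zero]
    positivity
  obtain ⟨x, hS, hx1, hx2, h0⟩ := (hF G₀ hG₀).1
  subst hS
  have hres : ∀ G ∈ F, res {x} G = res {x} G₀ := fun G hG =>
    (hF G hG).2.trans (hF G₀ hG₀).2.symm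
  have hinj := rtwo_inj x ρ F fun G hG => (hF G hG).2
  have hp : ∀ G ∈ F, ∀ y, ({x} : Finset (Fin n)) = {y} → y = x := fun G _ y hy =>
    (Finset.singleton_injective hy).symm
  rcases h0 with ⟨hd, -, hc⟩ | ⟨hd, -, hc⟩
  · -- the neighbourhood is a subset of a known set
    have h1 : F.card ≤ 2 ^ ((rtwoSt d.1 ∪ rtwoSt d.2.1) ∪
        (rtwoU K G₀ x (rtwoSt d.1) ∪ rtwoU K G₀ x (rtwoSt d.2.1))).card := by
      refine card_le_two_pow F _ (fun G => nb G x) hinj ?_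
      intro G hG
      obtain ⟨y, hy, -, -, h⟩ := (hF G hG).1
      obtain rfl := hp G hG y hy
      rcases h with ⟨-, h2, -⟩ | ⟨h2, -⟩
      · rw [rtwoU_congr (hres G hG) hx1, rtwoU_congr (hres G hG) hx2] at h2
        exact h2
      · rw [hd] at h2
        cases h2
    have h2 : (((rtwoSt d.1 ∪ rtwoSt d.2.1) ∪
        (rtwoU K G₀ x (rtwoSt d.1) ∪ rtwoU K G₀ x (rtwoSt d.2.1))).card : ℝ) ≤
        2 * (K : ℝ) + (2 / 3 - ε) * n := by
      have h3 := Finset.card_union_le (rtwoSt d.1 ∪ rtwoSt d.2.1)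
        (rtwoU K G₀ x (rtwoSt d.1) ∪ rtwoU K G₀ x (rtwoSt d.2.1))
      have h4 := Finset.card_union_le (rtwoSt d.1) (rtwoSt d.2.1)
      have h5 := rtwoSt_card d.1
      have h6 := rtwoSt_card d.2.1
      have h7 : ((rtwoSt d.1 ∪ rtwoSt d.2.1) ∪
        (rtwoU K G₀ x (rtwoSt d.1) ∪ rtwoU K G₀ x (rtwoSt d.2.1))).card ≤
        2 * K + (rtwoU K G₀ x (rtwoSt d.1) ∪ rtwoU K G₀ x (rtwoSt d.2.1)).card := by omega
      have h8 : (((rtwoSt d.1 ∪ rtwoSt d.2.1) ∪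
        (rtwoU K G₀ x (rtwoSt d.1) ∪ rtwoU K G₀ x (rtwoSt d.2.1))).card : ℝ) ≤
        2 * K + ((rtwoU K G₀ x (rtwoSt d.1) ∪ rtwoU K G₀ x (rtwoSt d.2.1)).card : ℝ) := by
        exact_mod_cast h7
      linarith
    calc (F.card : ℝ) ≤ ((2 ^ ((rtwoSt d.1 ∪ rtwoSt d.2.1) ∪
        (rtwoU K G₀ x (rtwoSt d.1) ∪ rtwoU K G₀ x (rtwoSt d.2.1))).card : ℕ) : ℝ) := by
          exact_mod_cast h1
      _ ≤ _ := two_pow_card_le _ h2
  · -- the neighbourhood is given by two cliques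
    have h1 : F.card ≤ ncl G₀ ((Cm G₀ (rtwoSt d.1)).erase x) *
        ncl G₀ ((Cm G₀ (rtwoSt d.2.1)).erase x) := by
      rw [← Finset.card_image_of_injOn hinj, ncl, ncl, ← Finset.card_product]
      refine le_trans (Finset.card_le_card (t := ((((Cm G₀ (rtwoSt d.1)).erase x).powerset.filter
        fun A => Cl G₀ A) ×ˢ (((Cm G₀ (rtwoSt d.2.1)).erase x).powerset.filter
        fun A => Cl G₀ A)).image fun p => (rtwoSt d.1 ∪ rtwoSt d.2.1) ∪ (p.1 ∪ p.2)) ?_)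
        Finset.card_image_le
      intro N hN
      rw [Finset.mem_image] at hN
      obtain ⟨G, hG, rfl⟩ := hN
      obtain ⟨y, hy, -, -, h⟩ := (hF G hG).1
      obtain rfl := hp G hG y hy
      rcases h with ⟨h2, -⟩ | ⟨-, ⟨C₁, hC₁, C₂, hC₂, hc₁, hc₂, hN⟩, -⟩
      · rw [hd] at h2
        cases h2
      rw [rtwoCm_congr (hres G hG) hx1] at hC₁
      rw [rtwoCm_congr (hres G hG) hx2] at hC₂
      have hy1 : y ∉ C₁ := fun h => (Finset.mem_erase.mp (hC₁ h)).1 rfl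
      have hy2 : y ∉ C₂ := fun h => (Finset.mem_erase.mp (hC₂ h)).1 rfl
      rw [rtwoCl_congr (hres G hG) hy1] at hc₁
      rw [rtwoCl_congr (hres G hG) hy2] at hc₂
      rw [Finset.mem_image]
      refine ⟨(C₁, C₂), ?_, hN.symm⟩
      rw [Finset.mem_product, Finset.mem_filter, Finset.mem_filter, Finset.mem_powerset,
        Finset.mem_powerset]
      exact ⟨⟨hC₁, hc₁⟩, ⟨hC₂, hc₂⟩⟩
    calc (F.card : ℝ) ≤ ((ncl G₀ ((Cm G₀ (rtwoSt d.1)).erase x) *
        ncl G₀ ((Cm G₀ (rtwoSt d.2.1)).erase x) : ℕ) : ℝ) := by exact_mod_cast h1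
      _ ≤ (2 : ℝ) ^ ((2 / 3 - ε) * (n : ℝ)) := by
          push_cast
          exact hc
      _ ≤ _ := by
          apply Real.rpow_le_rpow_of_exponent_le (by norm_num)
          have : (0 : ℝ) ≤ K := Nat.cast_nonneg _
          linarith

/-- a part of a clique next to `x` -/
theorem rtwo_part {n : ℕ} {G : SimpleGraph (Fin n)} {x : Fin n} {A Q : Finset (Fin n)}
    (hA : Cl G A) (hAx : ∀ v ∈ A, G.Adj x v) (hQ : Q ⊆ A) :
    A \ Q ⊆ (Cm G Q).erase x := by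
  intro v hv
  rw [Finset.mem_sdiff] at hv
  rw [Finset.mem_erase]
  refine ⟨?_, ?_⟩
  · rintro rfl
    exact G.loopless.irrefl _ (hAx _ hv.1)
  · simp only [Cm, Finset.mem_filter, Finset.mem_univ, true_and]
    refine ⟨hv.2, fun q hq => hA q (hQ hq) v hv.1 ?_⟩
    rintro rfl
    exact hv.2 hq

/-- every member has a code -/
theorem rtwo_code (ε : ℝ) (K n : ℕ) (h0 : 0 < ε) (h1 : ε ≤ 1 / 1000)
    (G : SimpleGraph (Fin n)) (h : R2 ε K n G) :
    ∃ S : Finset (Fin n), S.card = 1 ∧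
      ∃ d : (Fin K → Option (Fin n)) × (Fin K → Option (Fin n)) × Bool, rtwoP ε K n S d G := by
  classical
  obtain ⟨hR1, x, A, B, hA, hB, hAB, hcase⟩ := h
  have hAx : ∀ v ∈ A, G.Adj x v := fun v hv => (hAB v).mp (Or.inl hv)
  have hBx : ∀ v ∈ B, G.Adj x v := fun v hv => (hAB v).mp (Or.inr hv)
  have hxA : x ∉ A := fun h => G.loopless.irrefl _ (hAx x h)
  have hxB : x ∉ B := fun h => G.loopless.irrefl _ (hBx x h)
  have hn : (0 : ℝ) ≤ n := Nat.cast_nonneg _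
  -- a set of size `K` or the whole clique
  have key : ∀ C : Finset (Fin n), Cl G C → (∀ v ∈ C, G.Adj x v) → ∃ Q ⊆ C, Q.card ≤ K ∧
      C ⊆ Q ∪ rtwoU K G x Q ∧ ((rtwoU K G x Q).card : ℝ) ≤ (1 / 3 + ε) * n ∧
      (C.card < K → rtwoU K G x Q = ∅) := by
    intro C hC hCx
    rcases lt_or_ge C.card K with hlt | hge
    · have hU : rtwoU K G x C = ∅ := by
        unfold rtwoU
        rw [if_neg (by omega)]
      refine ⟨C, Finset.Subset.refl _, hlt.le, Finset.subset_union_left, ?_, fun _ => hU⟩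
      rw [hU, Finset.card_empty, Nat.cast_zero]
      positivity
    · obtain ⟨Q, hQC, hQ⟩ := Finset.exists_subset_card_eq hge
      have hU : rtwoU K G x Q = (Cm G Q).erase x := by
        unfold rtwoU
        rw [if_pos hQ]
      refine ⟨Q, hQC, hQ.le, ?_, ?_, fun h => by omega⟩
      · intro v hv
        rw [Finset.mem_union, hU]
        by_cases hvQ : v ∈ Q
        · exact Or.inl hvQ
        · exact Or.inr (rtwo_part hC hCx hQC (Finset.mem_sdiff.mpr ⟨hv, hvQ⟩))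
      · rw [hU]
        by_contra hlt
        rw [not_le] at hlt
        apply hR1
        refine ⟨Q, fun a ha b hb => hC a (hQC ha) b (hQC hb), hQ, ?_⟩
        have := Finset.card_le_card (Finset.erase_subset x (Cm G Q))
        have h2 : (((Cm G Q).erase x).card : ℝ) ≤ ((Cm G Q).card : ℝ) := by exact_mod_cast this
        linarith
  -- subset type
  have sub : ∀ Q₁ ⊆ A, ∀ Q₂ ⊆ B, Q₁.card ≤ K → Q₂.card ≤ K → A ⊆ Q₁ ∪ rtwoU K G x Q₁ →
      B ⊆ Q₂ ∪ rtwoU K G x Q₂ →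
      ((rtwoU K G x Q₁ ∪ rtwoU K G x Q₂).card : ℝ) ≤ (2 / 3 - ε) * n →
      ∃ S : Finset (Fin n), S.card = 1 ∧
      ∃ d : (Fin K → Option (Fin n)) × (Fin K → Option (Fin n)) × Bool, rtwoP ε K n S d G := by
    intro Q₁ hQ₁ Q₂ hQ₂ hc₁ hc₂ hA' hB' hU
    obtain ⟨w₁, rfl⟩ := exists_rtwoSt Q₁ hc₁
    obtain ⟨w₂, rfl⟩ := exists_rtwoSt Q₂ hc₂
    refine ⟨{x}, Finset.card_singleton x, (w₁, w₂, false), x, rfl, fun h => hxA (hQ₁ h),
      fun h => hxB (hQ₂ h), Or.inl ⟨rfl, ?_, hU⟩⟩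
    intro v hv
    rw [mem_nb, ← hAB] at hv
    rcases hv with hv | hv
    · have := hA' hv
      simp only [Finset.mem_union] at this ⊢
      tauto
    · have := hB' hv
      simp only [Finset.mem_union] at this ⊢
      tauto
  rcases hcase with hlt | hlt | ⟨Q₁, hQ₁, Q₂, hQ₂, hk₁, hk₂, hcase⟩
  · obtain ⟨Q₁, hQ₁, hc₁, hA', -, hz⟩ := key A hA hAx
    obtain ⟨Q₂, hQ₂, hc₂, hB', hu, -⟩ := key B hB hBx
    refine sub Q₁ hQ₁ Q₂ hQ₂ hc₁ hc₂ hA' hB' ?_
    rw [hz hlt, Finset.empty_union]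
    nlinarith
  · obtain ⟨Q₁, hQ₁, hc₁, hA', hu, -⟩ := key A hA hAx
    obtain ⟨Q₂, hQ₂, hc₂, hB', -, hz⟩ := key B hB hBx
    refine sub Q₁ hQ₁ Q₂ hQ₂ hc₁ hc₂ hA' hB' ?_
    rw [hz hlt, Finset.union_empty]
    nlinarith
  · rcases hcase with hcase | hcase
    · obtain ⟨w₁, rfl⟩ := exists_rtwoSt Q₁ hk₁.le
      obtain ⟨w₂, rfl⟩ := exists_rtwoSt Q₂ hk₂.le
      refine ⟨{x}, Finset.card_singleton x, (w₁, w₂, true), x, rfl, fun h => hxA (hQ₁ h),
        fun h => hxB (hQ₂ h), Or.inr ⟨rfl, ⟨A \ rtwoSt w₁, rtwo_part hA hAx hQ₁,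
          B \ rtwoSt w₂, rtwo_part hB hBx hQ₂, ?_, ?_, ?_⟩, hcase⟩⟩
      · exact fun a ha b hb => hA a (Finset.mem_sdiff.mp ha).1 b (Finset.mem_sdiff.mp hb).1
      · exact fun a ha b hb => hB a (Finset.mem_sdiff.mp ha).1 b (Finset.mem_sdiff.mp hb).1
      · ext v
        rw [mem_nb, ← hAB]
        simp only [Finset.mem_union, Finset.mem_sdiff]
        constructor
        · rintro (hv | hv)
          · by_cases h : v ∈ rtwoSt w₁
            · exact Or.inl (Or.inl h)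
            · exact Or.inr (Or.inl ⟨hv, h⟩)
          · by_cases h : v ∈ rtwoSt w₂
            · exact Or.inl (Or.inr h)
            · exact Or.inr (Or.inr ⟨hv, h⟩)
        · rintro ((hv | hv) | (hv | hv))
          · exact Or.inl (hQ₁ hv)
          · exact Or.inr (hQ₂ hv)
          · exact Or.inl hv.1
          · exact Or.inr hv.1
    · have e₁ : rtwoU K G x Q₁ = (Cm G Q₁).erase x := by
        unfold rtwoU
        rw [if_pos hk₁]
      have e₂ : rtwoU K G x Q₂ = (Cm G Q₂).erase x := by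
        unfold rtwoU
        rw [if_pos hk₂]
      refine sub Q₁ hQ₁ Q₂ hQ₂ hk₁.le hk₂.le ?_ ?_ ?_
      · intro v hv
        rw [Finset.mem_union, e₁]
        by_cases hvQ : v ∈ Q₁
        · exact Or.inl hvQ
        · exact Or.inr (rtwo_part hA hAx hQ₁ (Finset.mem_sdiff.mpr ⟨hv, hvQ⟩))
      · intro v hv
        rw [Finset.mem_union, e₂]
        by_cases hvQ : v ∈ Q₂
        · exact Or.inl hvQ
        · exact Or.inr (rtwo_part hB hBx hQ₂ (Finset.mem_sdiff.mpr ⟨hv, hvQ⟩))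
      · rw [e₁, e₂]
        exact hcase

theorem bR2 : BR2 := by
  classical
  intro ε K h0 h1 _
  refine rare_of (k := 1) (j := 2 * K + 1) (a := 2 / 3 - ε)
    (A := 2 * (2 : ℝ) ^ (2 * (K : ℝ)) * 2 ^ (2 * K)) one_pos (by push_cast; linarith) 1 ?_
  intro n hn _
  have h2 := engine (n := n) (k := 1)
    (D := (Fin K → Option (Fin n)) × (Fin K → Option (Fin n)) × Bool) (R2 ε K n)
    (rtwoP ε K n) ((2 : ℝ) ^ (2 * (K : ℝ) + (2 / 3 - ε) * n)) (by positivity)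
    (fun G _ hG => rtwo_code ε K n h0 h1 G hG)
    (fun S _ d ρ => rtwo_fibre ε K n S d ρ _ (fun G hG => by
      rw [Finset.mem_filter] at hG
      exact ⟨hG.2.2.1, hG.2.2.2⟩))
  refine h2.trans ?_
  apply mul_le_mul_of_nonneg_right _ (Nat.cast_nonneg _)
  have hn' : (1 : ℝ) ≤ n := by exact_mod_cast hn
  have hcard : (Fintype.card ((Fin K → Option (Fin n)) × (Fin K → Option (Fin n)) × Bool) : ℝ) ≤
      2 * 2 ^ (2 * K) * (n : ℝ) ^ (2 * K) := by
    simp only [Fintype.card_prod, Fintype.card_fun, Fintype.card_option, Fintype.card_fin,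
      Fintype.card_bool]
    push_cast
    have h3 : ((n : ℝ) + 1) ^ K ≤ (2 * n) ^ K := pow_le_pow_left₀ (by positivity) (by linarith) _
    have h4 : (0 : ℝ) ≤ ((n : ℝ) + 1) ^ K := by positivity
    calc ((n : ℝ) + 1) ^ K * (((n : ℝ) + 1) ^ K * 2)
        ≤ (2 * n) ^ K * ((2 * n) ^ K * 2) := by gcongr
      _ = _ := by ring
  rw [Real.rpow_add (by norm_num)]
  have h5 : (0 : ℝ) ≤ (n : ℝ) := by linarith
  have h6 : (0 : ℝ) ≤ (2 : ℝ) ^ (2 * (K : ℝ)) * (2 : ℝ) ^ ((2 / 3 - ε) * (n : ℝ)) := by positivity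
  calc (n : ℝ) ^ 1 * (Fintype.card
        ((Fin K → Option (Fin n)) × (Fin K → Option (Fin n)) × Bool) : ℝ) *
        ((2 : ℝ) ^ (2 * (K : ℝ)) * (2 : ℝ) ^ ((2 / 3 - ε) * (n : ℝ)))
      ≤ (n : ℝ) ^ 1 * (2 * 2 ^ (2 * K) * (n : ℝ) ^ (2 * K)) *
        ((2 : ℝ) ^ (2 * (K : ℝ)) * (2 : ℝ) ^ ((2 / 3 - ε) * (n : ℝ))) := by gcongr
    _ = _ := by
        rw [pow_succ (n : ℝ) (2 * K)]
        ring

end Pool.Agent.Lib.MP_534936_co.AQ
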