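import Mathlib
import Pool.Agent.Lib.MP_534936_co.AQ.Encode

/-!
# R3 is rare: `J` elements of a large clique with many common neighbours or non-neighbours
-/

namespace Pool.Agent.Lib.MP_534936_co.AQ

open Finset

/-- the data: the clique is known from the restriction, the set `d.2.1` is completely joined or
completely not joined to `S` -/
def R3P (ε τ : ℝ) (n : ℕ) (S : Finset (Fin n))
    (d : (Small (22 * ε) n × Small (22 * ε) n) × (Small (2 * τ) n × Bool))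
    (G : SimpleGraph (Fin n)) : Prop :=
  ∃ C : Finset (Fin n), S ⊆ C ∧ Cl G C ∧
    C \ S = d.1.1.1 ∪ (Cm (res S G) d.1.1.1 \ d.1.2.1) ∧
    Disjoint d.2.1.1 C ∧ ((Finset.univ \ C).card : ℝ) ≤ (2 / 3 + 20 * ε) * n ∧
    τ * n ≤ (d.2.1.1.card : ℝ) ∧
    ∀ q ∈ S, ∀ v ∈ d.2.1.1, (G.Adj q v ↔ d.2.2 = true)

open Classical in
theorem r3_fibre {ε τ : ℝ} {n J : ℕ} (S : Finset (Fin n)) (hS : S.card = J)
    (d : (Small (22 * ε) n × Small (22 * ε) n) × (Small (2 * τ) n × Bool))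
    (ρ : SimpleGraph (Fin n)) :
    ((Finset.univ.filter fun G : SimpleGraph (Fin n) =>
      GQ G ∧ R3P ε τ n S d G ∧ res S G = ρ).card : ℝ) ≤
      ((2 : ℝ) ^ ((2 / 3 + 20 * ε - τ) * n)) ^ J := by
  obtain ⟨F, hF⟩ : ∃ F, F = (Finset.univ.filter fun G : SimpleGraph (Fin n) =>
      GQ G ∧ R3P ε τ n S d G ∧ res S G = ρ) := ⟨_, rfl⟩
  rw [← hF]
  have hmem : ∀ G, G ∈ F → GQ G ∧ R3P ε τ n S d G ∧ res S G = ρ := by
    intro G hG
    rw [hF, Finset.mem_filter] at hG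
    exact hG.2
  rcases F.eq_empty_or_nonempty with h | ⟨G₀, hG₀⟩
  · rw [h, Finset.card_empty, Nat.cast_zero]
    positivity
  -- the clique
  obtain ⟨C₀, hC₀⟩ : ∃ C₀, C₀ = S ∪ (d.1.1.1 ∪ (Cm ρ d.1.1.1 \ d.1.2.1)) := ⟨_, rfl⟩
  have hC : ∀ G, G ∈ F → Cl G C₀ ∧ Disjoint d.2.1.1 C₀ ∧
      ((Finset.univ \ C₀).card : ℝ) ≤ (2 / 3 + 20 * ε) * n ∧ τ * n ≤ (d.2.1.1.card : ℝ) ∧
      ∀ q ∈ S, ∀ v ∈ d.2.1.1, (G.Adj q v ↔ d.2.2 = true) := by
    intro G hG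
    obtain ⟨-, ⟨C, h1, h2, h3, h4, h5, h6, h7⟩, h8⟩ := hmem G hG
    have h9 : C = C₀ := by
      rw [hC₀, ← h8, ← h3, Finset.union_sdiff_of_subset h1]
    subst h9
    exact ⟨h2, h4, h5, h6, h7⟩
  obtain ⟨-, hd, hc, ht, -⟩ := hC G₀ hG₀
  obtain ⟨T, hT⟩ : ∃ T, T = (Finset.univ \ C₀) \ d.2.1.1 := ⟨_, rfl⟩
  have hTc : (T.card : ℝ) ≤ (2 / 3 + 20 * ε - τ) * n := by
    have h1 : d.2.1.1 ⊆ Finset.univ \ C₀ := by
      intro v hv
      rw [Finset.mem_sdiff]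
      exact ⟨Finset.mem_univ _, Finset.disjoint_left.mp hd hv⟩
    have h2 : T.card + d.2.1.1.card = (Finset.univ \ C₀).card := by
      rw [hT, Finset.card_sdiff_add_card_eq_card h1]
    have h3 : (T.card : ℝ) + d.2.1.1.card = (Finset.univ \ C₀).card := by exact_mod_cast h2
    linarith
  have hcard : F.card ≤ ∏ q : {x // x ∈ S}, (T.powerset).card := by
    apply card_le_prod F (fun _ => T.powerset)
      (fun G (q : {x // x ∈ S}) => nb G q.1 ∩ T)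
    · intro G hG G' hG' heq
      have hG1 := hmem G hG
      have hG1' := hmem G' hG'
      have hG2 := hC G hG
      have hG2' := hC G' hG'
      apply eq_of_res (S := S) (hG1.2.2.trans hG1'.2.2.symm)
      intro q hq
      have hqe : nb G q ∩ T = nb G' q ∩ T := congrFun heq ⟨q, hq⟩
      have hqC : q ∈ C₀ := by
        rw [hC₀]
        exact Finset.mem_union_left _ hq
      ext v
      rw [mem_nb, mem_nb]
      by_cases hv : v ∈ C₀
      · by_cases hqv : q = v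
        · subst hqv
          exact iff_of_false (G.loopless.irrefl q) (G'.loopless.irrefl q)
        · exact iff_of_true (hG2.1 q hqC v hv hqv) (hG2'.1 q hqC v hv hqv)
      · by_cases hv' : v ∈ d.2.1.1
        · exact (hG2.2.2.2.2 q hq v hv').trans (hG2'.2.2.2.2 q hq v hv').symm
        · have hvT : v ∈ T := by
            rw [hT, Finset.mem_sdiff, Finset.mem_sdiff]
            exact ⟨⟨Finset.mem_univ _, hv⟩, hv'⟩
          have h1 : v ∈ nb G q ∩ T ↔ v ∈ nb G' q ∩ T := by rw [hqe]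
          rw [Finset.mem_inter, Finset.mem_inter, mem_nb, mem_nb] at h1
          exact ⟨fun h => (h1.mp ⟨h, hvT⟩).1, fun h => (h1.mpr ⟨h, hvT⟩).1⟩
    · intro G _ q
      rw [Finset.mem_powerset]
      exact Finset.inter_subset_right
  rw [Finset.prod_const, Finset.card_powerset, Finset.card_univ, Fintype.card_coe, hS] at hcard
  have h1 : (F.card : ℝ) ≤ (((2 ^ T.card : ℕ) : ℝ)) ^ J := by exact_mod_cast hcard
  refine h1.trans ?_
  exact pow_le_pow_left₀ (Nat.cast_nonneg _) (two_pow_card_le T hTc) J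

/-- an untypical set gives data -/
theorem r3_data {ε τ : ℝ} (hε : 0 < ε) (hε1 : ε ≤ 1 / 1000) (hτ : 0 < τ) (K J : ℕ) (hK : 1 ≤ K) :
    ∃ N : ℕ, ∀ n ≥ N, ∀ G : SimpleGraph (Fin n), R3 ε τ K J n G →
      ∃ S : Finset (Fin n), S.card = J ∧ ∃ d, R3P ε τ n S d G := by
  obtain ⟨N₁, hN₁⟩ := encode hε hε1 K J hK
  obtain ⟨N₂, hN₂⟩ := parts hε K
  refine ⟨max (max N₁ N₂) ⌈1 / τ⌉₊, fun n hn G hG => ?_⟩
  have hn1 : N₁ ≤ n := le_trans (le_trans (le_max_left _ _) (le_max_left _ _)) hn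
  have hn2 : N₂ ≤ n := le_trans (le_trans (le_max_right _ _) (le_max_left _ _)) hn
  have hn3 : 1 / τ ≤ n :=
    le_trans (Nat.le_ceil _) (by exact_mod_cast le_trans (le_max_right _ _) hn)
  have hn4 : 1 ≤ τ * n := by
    rw [div_le_iff₀ hτ] at hn3
    linarith
  obtain ⟨hR, K₁, K₂, hGP, hT⟩ := hG
  have hp := hN₂ n hn2 G hR K₁ K₂ hGP
  unfold Typ at hT
  push Not at hT
  obtain ⟨Q, hQ, hQJ, hQ2⟩ := hT
  obtain ⟨P, Z, hP, hZ, hPZ⟩ := hN₁ n hn1 G hR K₁ hGP.1 hGP.2.2.2.1 Q hQJ.le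
  -- a subset of the right size
  have hsub : ∀ E : Finset (Fin n), τ * n ≤ (E.card : ℝ) → ∃ E' ⊆ E,
      (E'.card : ℝ) ≤ 2 * τ * n ∧ τ * n ≤ (E'.card : ℝ) := by
    intro E hE
    have h1 : ⌈τ * n⌉₊ ≤ E.card := Nat.ceil_le.mpr hE
    obtain ⟨E', hE', hc⟩ := Finset.exists_subset_card_eq h1
    refine ⟨E', hE', ?_, ?_⟩
    · rw [hc]
      have h2 : (⌈τ * n⌉₊ : ℝ) < τ * n + 1 := Nat.ceil_lt_add_one (by linarith)
      linarith
    · rw [hc]
      exact Nat.le_ceil _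
  by_cases h : ((Cm G Q \ K₁).card : ℝ) < τ * n
  · have h' := hQ2 h
    obtain ⟨E, hE, hE1, hE2⟩ := hsub _ h'
    refine ⟨Q, hQJ, ((⟨P, hP⟩, ⟨Z, hZ⟩), (⟨E, hE1⟩, false)), K₁, hQ, hGP.1, hPZ, ?_, hp.2.2.2.1,
      hE2, ?_⟩
    · rw [Finset.disjoint_left]
      intro v hv
      exact (Finset.mem_sdiff.mp (hE hv)).2
    · intro q hq v hv
      have h1 := mem_Dm.mp (Finset.mem_sdiff.mp (hE hv)).1
      exact iff_of_false (h1.2 q hq) (by simp)
  · obtain ⟨E, hE, hE1, hE2⟩ := hsub _ (not_lt.mp h)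
    refine ⟨Q, hQJ, ((⟨P, hP⟩, ⟨Z, hZ⟩), (⟨E, hE1⟩, true)), K₁, hQ, hGP.1, hPZ, ?_, hp.2.2.2.1,
      hE2, ?_⟩
    · rw [Finset.disjoint_left]
      intro v hv
      exact (Finset.mem_sdiff.mp (hE hv)).2
    · intro q hq v hv
      have h1 := mem_Cm.mp (Finset.mem_sdiff.mp (hE hv)).1
      exact iff_of_true (h1.2 q hq) rfl

/-- R3 is rare -/
theorem bR3 : BR3 := by
  classical
  intro η hη τ₁ hτ₁
  obtain ⟨t₀, ht₀, hs⟩ := card_Small (η := η / 4) (by linarith)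
  obtain ⟨t₁, ht₁, hs'⟩ := card_Small (η := η / 16) (by linarith)
  obtain ⟨τ, hτ⟩ : ∃ τ : ℝ, τ = min (min τ₁ (t₀ / 2)) (η / 4) := ⟨_, rfl⟩
  have hτ0 : 0 < τ := by
    rw [hτ]
    exact lt_min (lt_min hτ₁ (by linarith)) (by linarith)
  have hτa : τ ≤ τ₁ := by
    rw [hτ]
    exact le_trans (min_le_left _ _) (min_le_left _ _)
  have hτb : 2 * τ ≤ t₀ := by
    have : τ ≤ t₀ / 2 := by
      rw [hτ]
      exact le_trans (min_le_left _ _) (min_le_right _ _)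
    linarith
  have hτc : τ ≤ η / 4 := by
    rw [hτ]
    exact min_le_right _ _
  obtain ⟨J, hJ⟩ : ∃ J : ℕ, J = ⌈η / 2 / τ⌉₊ := ⟨_, rfl⟩
  have hJ1 : η / 2 ≤ J * τ := by
    have h1 : η / 2 / τ ≤ (J : ℝ) := by
      rw [hJ]
      exact Nat.le_ceil _
    rwa [div_le_iff₀ hτ0] at h1
  have hJ2 : (J : ℝ) * τ ≤ η / 2 + τ := by
    have h1 : (J : ℝ) < η / 2 / τ + 1 := by
      rw [hJ]
      exact Nat.ceil_lt_add_one (by positivity)
    have h2 : (J : ℝ) * τ ≤ (η / 2 / τ + 1) * τ :=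
      mul_le_mul_of_nonneg_right h1.le hτ0.le
    have h3 : (η / 2 / τ + 1) * τ = η / 2 + τ := by
      field_simp
    linarith
  have hJ0 : 1 ≤ J := by
    rw [Nat.one_le_iff_ne_zero]
    intro h0
    rw [h0, Nat.cast_zero, zero_mul] at hJ1
    linarith
  have hJr : (1 : ℝ) ≤ J := by exact_mod_cast hJ0
  refine ⟨τ, J, hτ0, hτa, hJ0, by linarith, ?_⟩
  obtain ⟨ε₀, hε₀⟩ : ∃ ε₀ : ℝ, ε₀ = min (min (1 / 1000) (t₁ / 22)) (η / (320 * J)) := ⟨_, rfl⟩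
  have hε₀0 : 0 < ε₀ := by
    rw [hε₀]
    refine lt_min (lt_min (by norm_num) (by linarith)) ?_
    have : (0 : ℝ) < 320 * J := by linarith
    exact div_pos hη this
  refine ⟨ε₀, hε₀0, fun ε hε hεε K hK => ?_⟩
  have hεa : ε ≤ 1 / 1000 := by
    refine hεε.trans ?_
    rw [hε₀]
    exact le_trans (min_le_left _ _) (min_le_left _ _)
  have hεb : 22 * ε ≤ t₁ := by
    have : ε ≤ t₁ / 22 := by
      refine hεε.trans ?_
      rw [hε₀]
      exact le_trans (min_le_left _ _) (min_le_right _ _)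
    linarith
  have hεc : 20 * J * ε ≤ η / 16 := by
    have h1 : ε ≤ η / (320 * J) := by
      refine hεε.trans ?_
      rw [hε₀]
      exact min_le_right _ _
    have h2 : (0 : ℝ) < 320 * J := by linarith
    rw [le_div_iff₀ h2] at h1
    linarith
  obtain ⟨N, hN⟩ := r3_data hε hεa hτ0 K J hK
  refine rare_of (k := J) (j := J) (A := 2)
    (a := η / 16 + η / 16 + η / 4 + J * (2 / 3 + 20 * ε - τ)) (by omega) ?_ N ?_
  · have h1 : (J : ℝ) * (2 / 3 + 20 * ε - τ) = 2 * (J : ℝ) / 3 + 20 * J * ε - J * τ := by ring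
    rw [h1]
    linarith
  intro n hn hJn
  have h1 := engine (n := n) (k := J)
    (D := (Small (22 * ε) n × Small (22 * ε) n) × (Small (2 * τ) n × Bool))
    (R3 ε τ K J n) (R3P ε τ n) (((2 : ℝ) ^ ((2 / 3 + 20 * ε - τ) * n)) ^ J) (by positivity)
    (fun G _ hG => hN n hn G hG) (fun S hS d ρ => r3_fibre S hS d ρ)
  refine h1.trans ?_
  have e1 := hs' (22 * ε) hεb n
  have e2 := hs (2 * τ) hτb n
  have e3 : (Fintype.card ((Small (22 * ε) n × Small (22 * ε) n) × (Small (2 * τ) n × Bool)) : ℝ)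
      ≤ (2 : ℝ) ^ (η / 16 * n) * (2 : ℝ) ^ (η / 16 * n) * ((2 : ℝ) ^ (η / 4 * n) * 2) := by
    rw [Fintype.card_prod, Fintype.card_prod, Fintype.card_prod, Fintype.card_bool]
    push_cast
    gcongr
  have e4 : ((2 : ℝ) ^ ((2 / 3 + 20 * ε - τ) * n)) ^ J =
      (2 : ℝ) ^ ((J : ℝ) * (2 / 3 + 20 * ε - τ) * n) := by
    rw [← Real.rpow_natCast, ← Real.rpow_mul (by norm_num)]
    congr 1
    ring
  have e5 : (2 : ℝ) ^ (η / 16 * n) * (2 : ℝ) ^ (η / 16 * n) * ((2 : ℝ) ^ (η / 4 * n) * 2) *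
      (2 : ℝ) ^ ((J : ℝ) * (2 / 3 + 20 * ε - τ) * n) =
      2 * (2 : ℝ) ^ ((η / 16 + η / 16 + η / 4 + J * (2 / 3 + 20 * ε - τ)) * n) := by
    have : (η / 16 + η / 16 + η / 4 + J * (2 / 3 + 20 * ε - τ)) * n =
        η / 16 * n + η / 16 * n + η / 4 * n + (J : ℝ) * (2 / 3 + 20 * ε - τ) * n := by ring
    rw [this, Real.rpow_add (by norm_num), Real.rpow_add (by norm_num),
      Real.rpow_add (by norm_num)]
    ring
  have hpos : (0 : ℝ) ≤ (2 : ℝ) ^ ((J : ℝ) * (2 / 3 + 20 * ε - τ) * n) := by positivity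
  have e6 := mul_le_mul_of_nonneg_right e3 hpos
  rw [e5] at e6
  rw [e4]
  have hg : (0 : ℝ) ≤ (n : ℝ) ^ J * gg (n - J) := by positivity
  calc (n : ℝ) ^ J *
        (Fintype.card ((Small (22 * ε) n × Small (22 * ε) n) × (Small (2 * τ) n × Bool)) : ℝ) *
        (2 : ℝ) ^ ((J : ℝ) * (2 / 3 + 20 * ε - τ) * n) * gg (n - J)
      = ((Fintype.card ((Small (22 * ε) n × Small (22 * ε) n) × (Small (2 * τ) n × Bool)) : ℝ) *
        (2 : ℝ) ^ ((J : ℝ) * (2 / 3 + 20 * ε - τ) * n)) * ((n : ℝ) ^ J * gg (n - J)) := by ring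
    _ ≤ (2 * (2 : ℝ) ^ ((η / 16 + η / 16 + η / 4 + J * (2 / 3 + 20 * ε - τ)) * n)) *
        ((n : ℝ) ^ J * gg (n - J)) := mul_le_mul_of_nonneg_right e6 hg
    _ = _ := by ring

end Pool.Agent.Lib.MP_534936_co.AQ
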