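import Mathlib
import Pool.Agent.Lib.MP_534936_co.AQ.Engine

/-!
# Pairs of subsets with a small difference or a small intersection
-/

namespace Pool.Agent.Lib.MP_534936_co.AQ

open Finset

/-- There are about `3 ^ #U` pairs of subsets of `U` with a small difference. -/
theorem card_pairs_sdiff {η : ℝ} (hη : 0 < η) : ∃ t₀ : ℝ, 0 < t₀ ∧ ∀ t : ℝ, t ≤ t₀ → ∀ n : ℕ,
    ∀ (U : Finset (Fin n)) (F : Finset (Finset (Fin n) × Finset (Fin n))),
      (∀ p ∈ F, p.1 ⊆ U ∧ p.2 ⊆ U ∧ ((p.1 \ p.2).card : ℝ) ≤ t * n) →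
      (F.card : ℝ) ≤ (3 : ℝ) ^ U.card * (2 : ℝ) ^ (η * n) := by
  classical
  obtain ⟨t₀, ht₀, h⟩ := card_small_sub hη
  refine ⟨t₀, ht₀, fun t ht n U F hF => ?_⟩
  set A : Fin n → Finset (Bool × Bool) := fun v =>
    if v ∈ U then {(true, true), (false, true), (false, false)} else {(false, false)} with hA
  set T : Finset (Finset (Fin n)) :=
    Finset.univ.filter fun S : Finset (Fin n) => (S.card : ℝ) ≤ t * n with hT
  have hTc : (T.card : ℝ) ≤ (2 : ℝ) ^ (η * n) :=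
    h t ht n T fun S hS => (Finset.mem_filter.mp hS).2
  have hprod : ∏ v, (A v).card = 3 ^ U.card := by
    have h1 : ∀ v, (A v).card = if v ∈ U then 3 else 1 := by
      intro v
      by_cases hv : v ∈ U
      · simp only [hA, hv, if_true]
        decide
      · simp only [hA, hv, if_false]
        decide
    rw [Finset.prod_congr rfl fun v _ => h1 v]
    rw [Finset.prod_ite_mem]
    simp
  have hcard : F.card ≤ ((Fintype.piFinset A) ×ˢ T).card := by
    apply Finset.card_le_card_of_injOn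
      (fun p : Finset (Fin n) × Finset (Fin n) =>
        ((fun v => (decide (v ∈ p.1 ∧ v ∈ p.2), decide (v ∈ p.2))), p.1 \ p.2))
    · intro p hp
      rw [Finset.mem_coe] at hp
      obtain ⟨h1, h2, h3⟩ := hF p hp
      rw [Finset.mem_coe, Finset.mem_product]
      refine ⟨?_, ?_⟩
      · rw [Fintype.mem_piFinset]
        intro v
        by_cases hv : v ∈ U
        · by_cases hv1 : v ∈ p.1 <;> by_cases hv2 : v ∈ p.2 <;> simp [hA, hv, hv1, hv2]
        · have hv2 : v ∉ p.2 := fun h => hv (h2 h)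
          simp [hA, hv, hv2]
      · simp only [hT, Finset.mem_filter, Finset.mem_univ, true_and]
        exact h3
    · intro p _ q _ hpq
      simp only [Prod.mk.injEq] at hpq
      obtain ⟨h1, h2⟩ := hpq
      have h3 : p.2 = q.2 := by
        ext v
        have := congrFun h1 v
        simp only [Prod.mk.injEq, decide_eq_decide] at this
        exact this.2
      have h4 : p.1 = q.1 := by
        ext v
        have e1 := congrFun h1 v
        simp only [Prod.mk.injEq, decide_eq_decide] at e1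
        have e2 : v ∈ p.1 \ p.2 ↔ v ∈ q.1 \ q.2 := by rw [h2]
        rw [Finset.mem_sdiff, Finset.mem_sdiff] at e2
        tauto
      exact Prod.ext h4 h3
  rw [Finset.card_product, Fintype.card_piFinset, hprod] at hcard
  calc (F.card : ℝ) ≤ ((3 ^ U.card * T.card : ℕ) : ℝ) := by exact_mod_cast hcard
    _ = (3 : ℝ) ^ U.card * T.card := by push_cast; ring
    _ ≤ _ := mul_le_mul_of_nonneg_left hTc (by positivity)

/-- There are about `3 ^ #U` pairs of subsets of `U` with a small intersection. -/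
theorem card_pairs_inter {η : ℝ} (hη : 0 < η) : ∃ t₀ : ℝ, 0 < t₀ ∧ ∀ t : ℝ, t ≤ t₀ → ∀ n : ℕ,
    ∀ (U : Finset (Fin n)) (F : Finset (Finset (Fin n) × Finset (Fin n))),
      (∀ p ∈ F, p.1 ⊆ U ∧ p.2 ⊆ U ∧ ((p.1 ∩ p.2).card : ℝ) ≤ t * n) →
      (F.card : ℝ) ≤ (3 : ℝ) ^ U.card * (2 : ℝ) ^ (η * n) := by
  classical
  obtain ⟨t₀, ht₀, h⟩ := card_pairs_sdiff hη
  refine ⟨t₀, ht₀, fun t ht n U F hF => ?_⟩
  have h1 := h t ht n U (F.image fun p => (p.1, U \ p.2)) (by
    intro p hp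
    rw [Finset.mem_image] at hp
    obtain ⟨q, hq, rfl⟩ := hp
    obtain ⟨h1, h2, h3⟩ := hF q hq
    refine ⟨h1, Finset.sdiff_subset, le_trans ?_ h3⟩
    have : q.1 \ (U \ q.2) = q.1 ∩ q.2 := by
      ext v
      simp only [Finset.mem_sdiff, Finset.mem_inter, not_and, not_not]
      exact ⟨fun h => ⟨h.1, h.2 (h1 h.1)⟩, fun h => ⟨h.1, fun _ => h.2⟩⟩
    rw [this])
  rw [Finset.card_image_of_injOn] at h1
  · exact h1
  · intro p hp q hq hpq
    rw [Finset.mem_coe] at hp hq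
    simp only [Prod.mk.injEq] at hpq
    have h2 : p.2 = q.2 := by
      have e1 : U \ (U \ p.2) = p.2 := Finset.sdiff_sdiff_eq_self (hF p hp).2.1
      have e2 : U \ (U \ q.2) = q.2 := Finset.sdiff_sdiff_eq_self (hF q hq).2.1
      rw [← e1, ← e2, hpq.2]
    exact Prod.ext hpq.1 h2

/-- The number `log₂ 3`. -/
theorem three_le_two_rpow : (3 : ℝ) ≤ (2 : ℝ) ^ (8 / 5 : ℝ) := by
  have h1 : (3 : ℝ) ^ (5 : ℕ) ≤ (2 : ℝ) ^ (8 : ℕ) := by norm_num
  have h2 : ((3 : ℝ) ^ (5 : ℕ)) ^ (1 / 5 : ℝ) ≤ ((2 : ℝ) ^ (8 : ℕ)) ^ (1 / 5 : ℝ) :=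
    Real.rpow_le_rpow (by positivity) h1 (by norm_num)
  rw [← Real.rpow_natCast, ← Real.rpow_mul (by norm_num), ← Real.rpow_natCast,
    ← Real.rpow_mul (by norm_num)] at h2
  norm_num at h2
  exact h2

/-- Powers of three in base two. -/
theorem three_pow_le {a : ℕ} {x : ℝ} (h : (a : ℝ) ≤ x) : (3 : ℝ) ^ a ≤ (2 : ℝ) ^ (8 / 5 * x) := by
  calc (3 : ℝ) ^ a ≤ ((2 : ℝ) ^ (8 / 5 : ℝ)) ^ a :=
        pow_le_pow_left₀ (by norm_num) three_le_two_rpow a
    _ = (2 : ℝ) ^ (8 / 5 * (a : ℝ)) := by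
        rw [← Real.rpow_natCast, ← Real.rpow_mul (by norm_num)]
    _ ≤ _ := Real.rpow_le_rpow_of_exponent_le (by norm_num) (by linarith)

end Pool.Agent.Lib.MP_534936_co.AQ
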