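import Mathlib
import Pool.Agent.Lib.MP_534936_co.AQ.Encode
import Pool.Agent.Lib.MP_534936_co.AQ.ThreePow

/-!
# Untypical pairs of type 0 are rare
-/

namespace Pool.Agent.Lib.MP_534936_co.AQ

open Finset

/-- a set is known from its parts -/
theorem r4b_split {V : Type} [Fintype V] [DecidableEq V] {K₁ K₂ A B : Finset V}
    (h0 : A ∩ W K₁ K₂ = B ∩ W K₁ K₂) (h1 : A ∩ K₁ = B ∩ K₁) (h2 : A ∩ K₂ = B ∩ K₂) : A = B := by
  ext v
  by_cases hv1 : v ∈ K₁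
  · have e : v ∈ A ∩ K₁ ↔ v ∈ B ∩ K₁ := by rw [h1]
    simpa [hv1] using e
  by_cases hv2 : v ∈ K₂
  · have e : v ∈ A ∩ K₂ ↔ v ∈ B ∩ K₂ := by rw [h2]
    simpa [hv2] using e
  · have e : v ∈ A ∩ W K₁ K₂ ↔ v ∈ B ∩ W K₁ K₂ := by rw [h0]
    simpa [mem_W, hv1, hv2] using e

/-- the data of the encoding -/
abbrev R4bD (ε : ℝ) (n : ℕ) : Type :=
  (Fin n × Fin n) × ((Small (22 * ε) n × Small (22 * ε) n) ×
    (Small (22 * ε) n × Small (22 * ε) n))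

/-- the clique given by the data -/
noncomputable def r4bK {n : ℕ} (ρ : SimpleGraph (Fin n)) (P Z : Finset (Fin n)) :
    Finset (Fin n) := P ∪ (Cm ρ P \ Z)

/-- the property of the encoded graphs -/
def R4bP (ε κ θ : ℝ) (n : ℕ) (S : Finset (Fin n)) (d : R4bD ε n) (G : SimpleGraph (Fin n)) :
    Prop :=
  S = {d.1.1, d.1.2} ∧ ∃ K₁ K₂ : Finset (Fin n),
    K₁ = r4bK (res S G) d.2.1.1.1 d.2.1.2.1 ∧ K₂ = r4bK (res S G) d.2.2.1.1 d.2.2.2.1 ∧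
    (K₁.card : ℝ) ≤ (1 / 3 + 2 * ε) * n ∧ (K₂.card : ℝ) ≤ (1 / 3 + 2 * ε) * n ∧
    ((nb G d.1.1 ∩ W K₁ K₂).card : ℝ) ≤ θ * n ∧ ((nb G d.1.2 ∩ W K₁ K₂).card : ℝ) ≤ θ * n ∧
    (((nb G d.1.1 ∩ K₁) \ (nb G d.1.2 ∩ K₁)).card : ℝ) ≤ κ * n

/-- the number of graphs in one fibre -/
theorem r4b_fibre {ε κ θ x : ℝ} {n : ℕ}
    (h2 : ∀ (T : Finset (Finset (Fin n))), (∀ S ∈ T, (S.card : ℝ) ≤ θ * n) →
      (T.card : ℝ) ≤ x)
    (h3 : ∀ (U : Finset (Fin n)) (F : Finset (Finset (Fin n) × Finset (Fin n))),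
      (∀ p ∈ F, p.1 ⊆ U ∧ p.2 ⊆ U ∧ ((p.1 \ p.2).card : ℝ) ≤ κ * n) →
      (F.card : ℝ) ≤ (3 : ℝ) ^ U.card * x)
    (hx : 0 ≤ x) (S : Finset (Fin n)) (d : R4bD ε n) (ρ : SimpleGraph (Fin n))
    (F : Finset (SimpleGraph (Fin n)))
    (hF : ∀ G ∈ F, R4bP ε κ θ n S d G ∧ res S G = ρ) :
    (F.card : ℝ) ≤ x * x * ((2 : ℝ) ^ (8 / 5 * ((1 / 3 + 2 * ε) * n)) * x) *
      ((2 : ℝ) ^ ((1 / 3 + 2 * ε) * n) * (2 : ℝ) ^ ((1 / 3 + 2 * ε) * n)) := by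
  classical
  have hM : 0 ≤ x * x * ((2 : ℝ) ^ (8 / 5 * ((1 / 3 + 2 * ε) * n)) * x) *
      ((2 : ℝ) ^ ((1 / 3 + 2 * ε) * n) * (2 : ℝ) ^ ((1 / 3 + 2 * ε) * n)) := by positivity
  rcases F.eq_empty_or_nonempty with he | ⟨G₀, hG₀⟩
  · rw [he]
    simpa using hM
  set K₁ : Finset (Fin n) := r4bK ρ d.2.1.1.1 d.2.1.2.1 with hK1
  set K₂ : Finset (Fin n) := r4bK ρ d.2.2.1.1 d.2.2.2.1 with hK2
  have key : ∀ G ∈ F, S = {d.1.1, d.1.2} ∧ (K₁.card : ℝ) ≤ (1 / 3 + 2 * ε) * n ∧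
      (K₂.card : ℝ) ≤ (1 / 3 + 2 * ε) * n ∧
      ((nb G d.1.1 ∩ W K₁ K₂).card : ℝ) ≤ θ * n ∧ ((nb G d.1.2 ∩ W K₁ K₂).card : ℝ) ≤ θ * n ∧
      (((nb G d.1.1 ∩ K₁) \ (nb G d.1.2 ∩ K₁)).card : ℝ) ≤ κ * n := by
    intro G hG
    obtain ⟨⟨a0, C₁, C₂, a1, a2, a3⟩, a4⟩ := hF G hG
    rw [a4] at a1 a2
    rw [← hK1] at a1
    rw [← hK2] at a2
    subst a1
    subst a2
    exact ⟨a0, a3⟩
  obtain ⟨b0, b1, b2, -⟩ := key G₀ hG₀
  set T : Finset (Finset (Fin n)) := Finset.univ.filter fun A => (A.card : ℝ) ≤ θ * n with hT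
  set Q : Finset (Finset (Fin n) × Finset (Fin n)) := Finset.univ.filter fun p =>
    p.1 ⊆ K₁ ∧ p.2 ⊆ K₁ ∧ ((p.1 \ p.2).card : ℝ) ≤ κ * n with hQ
  have hTc : (T.card : ℝ) ≤ x := h2 T fun A hA => (Finset.mem_filter.mp hA).2
  have hQc : (Q.card : ℝ) ≤ (3 : ℝ) ^ K₁.card * x :=
    h3 K₁ Q fun p hp => (Finset.mem_filter.mp hp).2
  have hcard : F.card ≤ (((T ×ˢ T) ×ˢ Q) ×ˢ (K₂.powerset ×ˢ K₂.powerset)).card := by
    apply Finset.card_le_card_of_injOn (fun G : SimpleGraph (Fin n) =>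
      (((nb G d.1.1 ∩ W K₁ K₂, nb G d.1.2 ∩ W K₁ K₂), (nb G d.1.1 ∩ K₁, nb G d.1.2 ∩ K₁)),
        (nb G d.1.1 ∩ K₂, nb G d.1.2 ∩ K₂)))
    · intro G hG
      obtain ⟨-, -, -, c1, c2, c3⟩ := key G (Finset.mem_coe.mp hG)
      rw [Finset.mem_coe]
      simp only [Finset.mem_product, Finset.mem_powerset, hT, hQ, Finset.mem_filter,
        Finset.mem_univ, true_and]
      exact ⟨⟨⟨c1, c2⟩, Finset.inter_subset_right, Finset.inter_subset_right, c3⟩,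
        Finset.inter_subset_right, Finset.inter_subset_right⟩
    · intro G hG G' hG' heq
      rw [Finset.mem_coe] at hG hG'
      simp only [Prod.mk.injEq] at heq
      obtain ⟨⟨⟨e1, e2⟩, e3, e4⟩, e5, e6⟩ := heq
      have f1 : nb G d.1.1 = nb G' d.1.1 := r4b_split e1 e3 e5
      have f2 : nb G d.1.2 = nb G' d.1.2 := r4b_split e2 e4 e6
      apply eq_of_res (S := S)
      · rw [(hF G hG).2, (hF G' hG').2]
      · intro s hs
        rw [b0, Finset.mem_insert, Finset.mem_singleton] at hs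
        rcases hs with rfl | rfl
        · exact f1
        · exact f2
  rw [Finset.card_product, Finset.card_product, Finset.card_product, Finset.card_product,
    Finset.card_powerset] at hcard
  have h5 : ((2 ^ K₂.card : ℕ) : ℝ) ≤ (2 : ℝ) ^ ((1 / 3 + 2 * ε) * n) := two_pow_card_le K₂ b2
  have h6 : (3 : ℝ) ^ K₁.card ≤ (2 : ℝ) ^ (8 / 5 * ((1 / 3 + 2 * ε) * n)) := three_pow_le b1
  have h7 : (Q.card : ℝ) ≤ (2 : ℝ) ^ (8 / 5 * ((1 / 3 + 2 * ε) * n)) * x :=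
    hQc.trans (mul_le_mul_of_nonneg_right h6 hx)
  calc (F.card : ℝ) ≤ ((T.card * T.card * Q.card * (2 ^ K₂.card * 2 ^ K₂.card) : ℕ) : ℝ) := by
        exact_mod_cast hcard
    _ = (T.card : ℝ) * T.card * Q.card * (((2 ^ K₂.card : ℕ) : ℝ) * ((2 ^ K₂.card : ℕ) : ℝ)) := by
        push_cast
        ring
    _ ≤ _ := by
        apply mul_le_mul
        · apply mul_le_mul
          · exact mul_le_mul hTc hTc (Nat.cast_nonneg _) hx
          · exact h7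
          · exact Nat.cast_nonneg _
          · positivity
        · exact mul_le_mul h5 h5 (Nat.cast_nonneg _) (by positivity)
        · positivity
        · positivity

/-- R4b is rare -/
theorem bR4b : BR4b := by
  classical
  obtain ⟨t1, ht1, h1⟩ := card_Small (η := 1 / 100) (by norm_num)
  obtain ⟨t2, ht2, h2⟩ := card_small_sub (η := 1 / 100) (by norm_num)
  obtain ⟨t3, ht3, h3⟩ := card_pairs_sdiff (η := 1 / 100) (by norm_num)
  refine ⟨min (min (t1 / 22) t2) (min t3 (1 / 1000)), by positivity, ?_⟩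
  intro κ θ ε hκ hκ0 hθ hθ0 hε hε0 K hK
  have g1 : 22 * ε ≤ t1 := by
    have := hε0.trans ((min_le_left _ _).trans (min_le_left _ _))
    linarith
  have g2 : θ ≤ t2 := hθ0.trans ((min_le_left _ _).trans (min_le_right _ _))
  have g3 : κ ≤ t3 := hκ0.trans ((min_le_right _ _).trans (min_le_left _ _))
  have g4 : ε ≤ 1 / 1000 := hε0.trans ((min_le_right _ _).trans (min_le_right _ _))
  obtain ⟨N1, hN1⟩ := encode hε g4 K 2 hK
  obtain ⟨N2, hN2⟩ := parts hε K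
  apply rare_of (k := 2) (j := 4) (a := 7 / 100 + 18 / 5 * (1 / 3 + 2 * ε)) (A := 1)
    (by norm_num) (by push_cast; linarith) (max N1 N2)
  intro n hn _
  have hn1 : N1 ≤ n := (le_max_left _ _).trans hn
  have hn2 : N2 ≤ n := (le_max_right _ _).trans hn
  have hx : (0 : ℝ) ≤ (2 : ℝ) ^ (1 / 100 * (n : ℝ)) := by positivity
  have key := engine (k := 2) (D := R4bD ε n) (R4b ε κ θ K n) (R4bP ε κ θ n)
    ((2 : ℝ) ^ (1 / 100 * (n : ℝ)) * (2 : ℝ) ^ (1 / 100 * (n : ℝ)) *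
      ((2 : ℝ) ^ (8 / 5 * ((1 / 3 + 2 * ε) * n)) * (2 : ℝ) ^ (1 / 100 * (n : ℝ))) *
      ((2 : ℝ) ^ ((1 / 3 + 2 * ε) * n) * (2 : ℝ) ^ ((1 / 3 + 2 * ε) * n)))
    (by positivity) ?_ ?_
  · refine key.trans (le_of_le_of_eq (mul_le_mul_of_nonneg_right ?_ (Nat.cast_nonneg _)) rfl)
    have hD : (Fintype.card (R4bD ε n) : ℝ) ≤ (n : ℝ) ^ 2 *
        ((2 : ℝ) ^ (1 / 100 * (n : ℝ))) ^ 4 := by
      rw [Fintype.card_prod, Fintype.card_prod, Fintype.card_prod, Fintype.card_prod,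
        Fintype.card_fin]
      push_cast
      have h4 := h1 (22 * ε) g1 n
      have h5 : (0 : ℝ) ≤ Fintype.card (Small (22 * ε) n) := Nat.cast_nonneg _
      calc (n : ℝ) * n * ((Fintype.card (Small (22 * ε) n) : ℝ) *
            Fintype.card (Small (22 * ε) n) * ((Fintype.card (Small (22 * ε) n) : ℝ) *
            Fintype.card (Small (22 * ε) n)))
          = (n : ℝ) ^ 2 * (Fintype.card (Small (22 * ε) n) : ℝ) ^ 4 := by ring
        _ ≤ _ := by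
          apply mul_le_mul_of_nonneg_left _ (by positivity)
          exact pow_le_pow_left₀ h5 h4 4
    have hpow : ∀ a b : ℝ, (2 : ℝ) ^ (a * n) * (2 : ℝ) ^ (b * n) = (2 : ℝ) ^ ((a + b) * n) := by
      intro a b
      rw [← Real.rpow_add (by norm_num)]
      congr 1
      ring
    have hx4 : ((2 : ℝ) ^ (1 / 100 * (n : ℝ))) ^ 4 = (2 : ℝ) ^ (4 / 100 * (n : ℝ)) := by
      rw [← Real.rpow_natCast, ← Real.rpow_mul (by norm_num)]
      congr 1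
      push_cast
      ring
    have h85 : (2 : ℝ) ^ (8 / 5 * ((1 / 3 + 2 * ε) * n)) =
        (2 : ℝ) ^ (8 / 5 * (1 / 3 + 2 * ε) * n) := by
      congr 1
      ring
    rw [h85, hpow, hpow, hpow, hpow, hpow]
    set E : ℝ := (2 : ℝ) ^ ((1 / 100 + 1 / 100 + (8 / 5 * (1 / 3 + 2 * ε) + 1 / 100) +
      (1 / 3 + 2 * ε + (1 / 3 + 2 * ε))) * (n : ℝ)) with hE
    have hE0 : 0 ≤ E := by positivity
    rw [hx4] at hD
    calc (n : ℝ) ^ 2 * (Fintype.card (R4bD ε n) : ℝ) * E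
        ≤ (n : ℝ) ^ 2 * ((n : ℝ) ^ 2 * (2 : ℝ) ^ (4 / 100 * (n : ℝ))) * E := by
          apply mul_le_mul_of_nonneg_right _ hE0
          exact mul_le_mul_of_nonneg_left hD (by positivity)
      _ = (n : ℝ) ^ 4 * ((2 : ℝ) ^ (4 / 100 * (n : ℝ)) * E) := by ring
      _ = _ := by
          rw [hE, hpow, one_mul]
          congr 3
          ring
  · intro G _ hG
    obtain ⟨hR, K₁, K₂, hGP, s, s', hss, hs, hs', c1, c2, c3⟩ := hG
    have hS : ({s, s'} : Finset (Fin n)).card = 2 := Finset.card_pair hss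
    obtain ⟨P1, Z1, p1, z1, q1⟩ := hN1 n hn1 G hR K₁ hGP.1 hGP.2.2.2.1 {s, s'} hS.le
    obtain ⟨P2, Z2, p2, z2, q2⟩ := hN1 n hn1 G hR K₂ hGP.2.1 hGP.2.2.2.2 {s, s'} hS.le
    obtain ⟨r1, r2, -⟩ := hN2 n hn2 G hR K₁ K₂ hGP
    rw [mem_W] at hs hs'
    have e1 : K₁ \ {s, s'} = K₁ := by
      rw [Finset.sdiff_eq_self_iff_disjoint, Finset.disjoint_right]
      intro v hv
      rw [Finset.mem_insert, Finset.mem_singleton] at hv
      rcases hv with rfl | rfl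
      · exact hs.1
      · exact hs'.1
    have e2 : K₂ \ {s, s'} = K₂ := by
      rw [Finset.sdiff_eq_self_iff_disjoint, Finset.disjoint_right]
      intro v hv
      rw [Finset.mem_insert, Finset.mem_singleton] at hv
      rcases hv with rfl | rfl
      · exact hs.2
      · exact hs'.2
    rw [e1] at q1
    rw [e2] at q2
    refine ⟨{s, s'}, hS, ((s, s'), ((⟨P1, p1⟩, ⟨Z1, z1⟩), (⟨P2, p2⟩, ⟨Z2, z2⟩))), rfl, K₁, K₂,
      q1, q2, r1, r2, c1, c2, ?_⟩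
    refine le_trans ?_ c3.le
    have : (nb G s ∩ K₁) \ (nb G s' ∩ K₁) ⊆ (K₁ ∩ nb G s) \ nb G s' := by
      intro v hv
      simp only [Finset.mem_sdiff, Finset.mem_inter, not_and] at hv ⊢
      exact ⟨⟨hv.1.2, hv.1.1⟩, fun h => hv.2 h hv.1.2⟩
    exact_mod_cast Finset.card_le_card this
  · intro S _ d ρ
    apply r4b_fibre (fun T hT => h2 θ g2 n T hT) (fun U F hF => h3 κ g3 n U F hF) hx S d ρ
    intro G hG
    rw [Finset.mem_filter] at hG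
    exact hG.2.2

end Pool.Agent.Lib.MP_534936_co.AQ
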