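import Mathlib
import Pool.Agent.Lib.MP_534936_co.AQ.Encode

/-!
# R4e: untypical pairs of type 1 are rare
-/

namespace Pool.Agent.Lib.MP_534936_co.AQ

open Finset

theorem re_three_le : (3 : ℝ) ≤ (2 : ℝ) ^ ((8 : ℝ) / 5) := by
  have h1 : ((2 : ℝ) ^ ((8 : ℝ) / 5)) ^ 5 = 256 := by
    rw [← Real.rpow_natCast, ← Real.rpow_mul (by norm_num)]
    norm_num
  by_contra hc
  rw [not_le] at hc
  have h2 : ((2 : ℝ) ^ ((8 : ℝ) / 5)) ^ 5 < 3 ^ 5 :=
    pow_lt_pow_left₀ hc (by positivity) (by norm_num)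
  rw [h1] at h2
  norm_num at h2

/-- the code of a graph: the neighbourhoods of the two vertices -/
structure RE {n : ℕ} (a b : ℝ) (S P₁ Z₁ P₂ Z₂ E E' I : Finset (Fin n)) (t : Bool)
    (w w' : Fin n) (G : SimpleGraph (Fin n)) (K₁ K₂ : Finset (Fin n)) : Prop where
  hS : S = {w, w'}
  c₁ : K₁ \ S = P₁ ∪ (Cm (res S G) P₁ \ Z₁)
  c₂ : K₂ \ S = P₂ ∪ (Cm (res S G) P₂ \ Z₂)
  e : E = K₁ \ nb G w
  e' : E' = K₁ \ nb G w'
  i : I = (nb G w ∩ nb G w') ∩ W K₁ K₂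
  t : t = true ↔ G.Adj w w'
  le₂ : (K₂.card : ℝ) ≤ a
  leW : ((W K₁ K₂).card : ℝ) ≤ b

open Classical in
/-- the code of a graph -/
noncomputable def re_code {n : ℕ} (w w' : Fin n) (G : SimpleGraph (Fin n)) :
    Fin n → Bool × Bool :=
  fun v => (decide (G.Adj w v), decide (G.Adj w' v))

open Classical in
/-- the possible values of the code -/
noncomputable def re_A {n : ℕ} (S C₁ C₂ E E' I : Finset (Fin n)) (w w' : Fin n)
    (G₀ : SimpleGraph (Fin n)) (v : Fin n) : Finset (Bool × Bool) :=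
  if v ∈ S then {re_code w w' G₀ v} else
    if v ∈ C₁ then {(decide (v ∉ E), decide (v ∉ E'))} else
      if v ∈ C₂ then Finset.univ else
        if v ∈ I then {(true, true)} else Finset.univ.erase (true, true)

theorem re_A_card {n : ℕ} (S C₁ C₂ E E' I : Finset (Fin n)) (w w' : Fin n)
    (G₀ : SimpleGraph (Fin n)) (v : Fin n) :
    (re_A S C₁ C₂ E E' I w w' G₀ v).card ≤
      (if v ∈ C₂ then 4 else 1) * (if v ∈ Finset.univ \ (C₁ ∪ C₂ ∪ S) then 3 else 1) := by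
  classical
  have h4 : 1 ≤ (if v ∈ C₂ then 4 else 1) := by split_ifs <;> norm_num
  have h3 : 1 ≤ (if v ∈ Finset.univ \ (C₁ ∪ C₂ ∪ S) then 3 else 1) := by split_ifs <;> norm_num
  have h1 : 1 ≤ (if v ∈ C₂ then 4 else 1) *
      (if v ∈ Finset.univ \ (C₁ ∪ C₂ ∪ S) then 3 else 1) := Nat.mul_le_mul h4 h3
  unfold re_A
  by_cases hS : v ∈ S
  · rw [if_pos hS, card_singleton]
    exact h1
  rw [if_neg hS]
  by_cases h₁ : v ∈ C₁
  · rw [if_pos h₁, card_singleton]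
    exact h1
  rw [if_neg h₁]
  by_cases h₂ : v ∈ C₂
  · rw [if_pos h₂]
    have h5 : (Finset.univ : Finset (Bool × Bool)).card = 4 := by decide
    rw [h5, if_pos h₂]
    exact Nat.le_mul_of_pos_right 4 h3
  rw [if_neg h₂]
  have h6 : v ∈ Finset.univ \ (C₁ ∪ C₂ ∪ S) := by
    simp [hS, h₁, h₂]
  by_cases hI : v ∈ I
  · rw [if_pos hI, card_singleton]
    exact h1
  · rw [if_neg hI, if_neg h₂, if_pos h6]
    have h7 : ((Finset.univ : Finset (Bool × Bool)).erase (true, true)).card = 3 := by decide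
    rw [h7]

theorem re_prod_ite {n : ℕ} (C : Finset (Fin n)) (a : ℕ) :
    ∏ v : Fin n, (if v ∈ C then a else 1) = a ^ C.card := by
  classical
  rw [Finset.prod_ite, Finset.prod_const, Finset.prod_const_one, mul_one]
  congr 2
  ext v
  simp

open Classical in
/-- The fibres. -/
theorem re_fibre {n : ℕ} (a b : ℝ) (S P₁ Z₁ P₂ Z₂ E E' I : Finset (Fin n)) (t : Bool)
    (w w' : Fin n) (ρ : SimpleGraph (Fin n)) :
    ((Finset.univ.filter fun G : SimpleGraph (Fin n) =>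
        GQ G ∧ (∃ K₁ K₂, RE a b S P₁ Z₁ P₂ Z₂ E E' I t w w' G K₁ K₂) ∧ res S G = ρ).card : ℝ) ≤
      (2 : ℝ) ^ (2 * a + 8 / 5 * b) := by
  set F := Finset.univ.filter fun G : SimpleGraph (Fin n) =>
        GQ G ∧ (∃ K₁ K₂, RE a b S P₁ Z₁ P₂ Z₂ E E' I t w w' G K₁ K₂) ∧ res S G = ρ with hF
  rcases F.eq_empty_or_nonempty with h0 | ⟨G₀, hG₀⟩
  · rw [h0, card_empty, Nat.cast_zero]
    positivity
  have hmem : ∀ G ∈ F, (∃ K₁ K₂, RE a b S P₁ Z₁ P₂ Z₂ E E' I t w w' G K₁ K₂) ∧ res S G = ρ := by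
    intro G hG
    rw [hF, mem_filter] at hG
    exact hG.2.2
  obtain ⟨⟨L₁, L₂, hL⟩, hres₀⟩ := hmem G₀ hG₀
  set C₁ := P₁ ∪ (Cm ρ P₁ \ Z₁) with hC₁
  set C₂ := P₂ ∪ (Cm ρ P₂ \ Z₂) with hC₂
  have hle : F.card ≤ ∏ v, (re_A S C₁ C₂ E E' I w w' G₀ v).card := by
    apply card_le_prod F (re_A S C₁ C₂ E E' I w w' G₀) (re_code w w')
    · intro G hG G' hG' heq
      obtain ⟨⟨K₁, K₂, hK⟩, hres⟩ := hmem G hG
      obtain ⟨⟨K₁', K₂', hK'⟩, hres'⟩ := hmem G' hG'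
      refine eq_of_res (hres.trans hres'.symm) ?_
      have h1 : ∀ v, (G.Adj w v ↔ G'.Adj w v) ∧ (G.Adj w' v ↔ G'.Adj w' v) := by
        intro v
        have h2 := congrFun heq v
        simp only [re_code, Prod.mk.injEq, decide_eq_decide] at h2
        exact h2
      intro s hs
      rw [hK.hS, mem_insert, mem_singleton] at hs
      ext v
      rw [mem_nb, mem_nb]
      rcases hs with rfl | rfl
      · exact (h1 v).1
      · exact (h1 v).2
    · intro G hG v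
      obtain ⟨⟨K₁, K₂, hK⟩, hres⟩ := hmem G hG
      have hc₁ : K₁ \ S = C₁ := by rw [hK.c₁, hres]
      have hc₂ : K₂ \ S = C₂ := by rw [hK.c₂, hres]
      unfold re_A
      by_cases hS : v ∈ S
      · rw [if_pos hS, mem_singleton]
        have hww : G.Adj w w' ↔ G₀.Adj w w' := hK.t.symm.trans hL.t
        rw [hK.hS, mem_insert, mem_singleton] at hS
        simp only [re_code, Prod.mk.injEq, decide_eq_decide]
        rcases hS with rfl | rfl
        · refine ⟨?_, ?_⟩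
          · exact iff_of_false (G.loopless.irrefl _) (G₀.loopless.irrefl _)
          · rw [G.adj_comm, G₀.adj_comm]
            exact hww
        · refine ⟨hww, ?_⟩
          exact iff_of_false (G.loopless.irrefl _) (G₀.loopless.irrefl _)
      rw [if_neg hS]
      by_cases h₁ : v ∈ C₁
      · rw [if_pos h₁, mem_singleton]
        have h2 : v ∈ K₁ := by
          rw [← hc₁, mem_sdiff] at h₁
          exact h₁.1
        simp only [re_code, Prod.mk.injEq, decide_eq_decide]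
        rw [hK.e, hK.e', mem_sdiff, mem_sdiff, mem_nb, mem_nb]
        constructor
        · tauto
        · tauto
      rw [if_neg h₁]
      by_cases h₂ : v ∈ C₂
      · rw [if_pos h₂]
        exact mem_univ _
      rw [if_neg h₂]
      have hW : v ∈ W K₁ K₂ := by
        rw [mem_W]
        constructor
        · intro h
          exact h₁ (hc₁ ▸ mem_sdiff.mpr ⟨h, hS⟩)
        · intro h
          exact h₂ (hc₂ ▸ mem_sdiff.mpr ⟨h, hS⟩)
      by_cases hI : v ∈ I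
      · rw [if_pos hI, mem_singleton]
        rw [hK.i, mem_inter, mem_inter, mem_nb, mem_nb] at hI
        simp only [re_code, hI.1.1, hI.1.2, decide_true]
      · rw [if_neg hI, mem_erase]
        refine ⟨fun h => hI ?_, mem_univ _⟩
        simp only [re_code, Prod.mk.injEq, decide_eq_true_eq] at h
        rw [hK.i, mem_inter, mem_inter, mem_nb, mem_nb]
        exact ⟨h, hW⟩
  have hle2 : F.card ≤ 4 ^ C₂.card * 3 ^ (Finset.univ \ (C₁ ∪ C₂ ∪ S)).card := by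
    refine hle.trans ?_
    rw [← re_prod_ite C₂ 4, ← re_prod_ite (Finset.univ \ (C₁ ∪ C₂ ∪ S)) 3,
      ← Finset.prod_mul_distrib]
    exact Finset.prod_le_prod' fun v _ => re_A_card S C₁ C₂ E E' I w w' G₀ v
  have hc₁ : L₁ \ S = C₁ := by rw [hL.c₁, hres₀]
  have hc₂ : L₂ \ S = C₂ := by rw [hL.c₂, hres₀]
  have hb₂ : (C₂.card : ℝ) ≤ a := by
    refine le_trans ?_ hL.le₂
    rw [← hc₂]
    exact_mod_cast card_le_card sdiff_subset
  have hbW : ((Finset.univ \ (C₁ ∪ C₂ ∪ S)).card : ℝ) ≤ b := by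
    refine le_trans ?_ hL.leW
    have : (Finset.univ \ (C₁ ∪ C₂ ∪ S)) ⊆ W L₁ L₂ := by
      intro v hv
      simp only [mem_sdiff, mem_univ, true_and, mem_union, not_or] at hv
      obtain ⟨⟨h1, h2⟩, h3⟩ := hv
      rw [mem_W]
      exact ⟨fun h => h1 (hc₁ ▸ mem_sdiff.mpr ⟨h, h3⟩),
        fun h => h2 (hc₂ ▸ mem_sdiff.mpr ⟨h, h3⟩)⟩
    exact_mod_cast card_le_card this
  calc (F.card : ℝ) ≤ ((4 ^ C₂.card * 3 ^ (Finset.univ \ (C₁ ∪ C₂ ∪ S)).card : ℕ) : ℝ) := by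
        exact_mod_cast hle2
    _ = (4 : ℝ) ^ C₂.card * (3 : ℝ) ^ (Finset.univ \ (C₁ ∪ C₂ ∪ S)).card := by push_cast; rfl
    _ ≤ (2 : ℝ) ^ (2 * a) * (2 : ℝ) ^ (8 / 5 * b) := by
        apply mul_le_mul _ _ (by positivity) (by positivity)
        · have h4 : (4 : ℝ) = (2 : ℝ) ^ (2 : ℝ) := by norm_num
          rw [h4, ← Real.rpow_natCast, ← Real.rpow_mul (by norm_num)]
          apply Real.rpow_le_rpow_of_exponent_le (by norm_num)
          linarith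
        · calc (3 : ℝ) ^ (Finset.univ \ (C₁ ∪ C₂ ∪ S)).card ≤
                ((2 : ℝ) ^ ((8 : ℝ) / 5)) ^ (Finset.univ \ (C₁ ∪ C₂ ∪ S)).card :=
                pow_le_pow_left₀ (by norm_num) re_three_le _
            _ = (2 : ℝ) ^ ((8 : ℝ) / 5 * (Finset.univ \ (C₁ ∪ C₂ ∪ S)).card) := by
                rw [← Real.rpow_natCast, ← Real.rpow_mul (by norm_num)]
            _ ≤ _ := by
                apply Real.rpow_le_rpow_of_exponent_le (by norm_num)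
                linarith
    _ = _ := by rw [← Real.rpow_add (by norm_num)]

/-- the data -/
abbrev re_D (ε κ θ : ℝ) (n : ℕ) : Type :=
  (Small (22 * ε) n × Small (22 * ε) n) × (Small (22 * ε) n × Small (22 * ε) n) ×
    (Small θ n × Small θ n) × Small κ n × Bool × Fin n × Fin n

/-- R4e is rare -/
theorem bR4e : BR4e := by
  classical
  obtain ⟨t₀, ht₀, hsmall⟩ := card_Small (η := 1 / 100) (by norm_num)
  refine ⟨min (t₀ / 22) (1 / 2000), lt_min (by positivity) (by norm_num), ?_⟩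
  intro κ θ ε hκ hκ₀ hθ hθ₀ hε hε₀ K hK
  have hκ1 : κ ≤ t₀ := by
    have := hκ₀.trans (min_le_left _ _)
    linarith
  have hθ1 : θ ≤ t₀ := by
    have := hθ₀.trans (min_le_left _ _)
    linarith
  have hε1 : 22 * ε ≤ t₀ := by
    have := hε₀.trans (min_le_left _ _)
    linarith
  have hε2 : ε ≤ 1 / 2000 := hε₀.trans (min_le_right _ _)
  obtain ⟨N₁, hN₁⟩ := encode hε (by linarith) K 2 hK
  obtain ⟨N₂, hN₂⟩ := parts hε K
  apply rare_of (k := 2) (j := 4)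
    (a := 7 / 100 + (2 * (1 / 3 + 2 * ε) + 8 / 5 * (1 / 3 + 40 * ε))) (A := 2) (by norm_num)
    (by push_cast; linarith) (max N₁ N₂)
  intro n hn _
  have h := engine (n := n) (k := 2) (D := re_D ε κ θ n) (R4e ε κ θ K n)
    (fun S d G => ∃ K₁ K₂, RE ((1 / 3 + 2 * ε) * n) ((1 / 3 + 40 * ε) * n) S
      d.1.1.1 d.1.2.1 d.2.1.1.1 d.2.1.2.1 d.2.2.1.1.1 d.2.2.1.2.1 d.2.2.2.1.1
      d.2.2.2.2.1 d.2.2.2.2.2.1 d.2.2.2.2.2.2 G K₁ K₂)
    ((2 : ℝ) ^ (2 * ((1 / 3 + 2 * ε) * n) + 8 / 5 * ((1 / 3 + 40 * ε) * n))) (by positivity)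
    (by
      rintro G - ⟨hR1, K₁, K₂, hGP, w, w', hww, hw, hw', he, he', hi⟩
      have hScard : ({w, w'} : Finset (Fin n)).card = 2 := card_pair hww
      obtain ⟨P₁, Z₁, hP₁, hZ₁, hc₁⟩ := hN₁ n (le_trans (le_max_left _ _) hn) G hR1 K₁ hGP.1
        hGP.2.2.2.1 {w, w'} hScard.le
      obtain ⟨P₂, Z₂, hP₂, hZ₂, hc₂⟩ := hN₁ n (le_trans (le_max_left _ _) hn) G hR1 K₂ hGP.2.1
        hGP.2.2.2.2 {w, w'} hScard.le
      obtain ⟨-, hb₂, hbW, -, -⟩ := hN₂ n (le_trans (le_max_right _ _) hn) G hR1 K₁ K₂ hGP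
      refine ⟨{w, w'}, hScard, ((⟨P₁, hP₁⟩, ⟨Z₁, hZ₁⟩), (⟨P₂, hP₂⟩, ⟨Z₂, hZ₂⟩),
        (⟨K₁ \ nb G w, he⟩, ⟨K₁ \ nb G w', he'⟩),
        ⟨(nb G w ∩ nb G w') ∩ W K₁ K₂, hi.le⟩, decide (G.Adj w w'), w, w'), K₁, K₂, ?_⟩
      exact ⟨rfl, hc₁, hc₂, rfl, rfl, rfl, by simp, hb₂, hbW⟩)
    (by
      intro S _ d ρ
      convert re_fibre ((1 / 3 + 2 * ε) * n) ((1 / 3 + 40 * ε) * n) S
        d.1.1.1 d.1.2.1 d.2.1.1.1 d.2.1.2.1 d.2.2.1.1.1 d.2.2.1.2.1 d.2.2.2.1.1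
        d.2.2.2.2.1 d.2.2.2.2.2.1 d.2.2.2.2.2.2 ρ)
  have hD : (Fintype.card (re_D ε κ θ n) : ℝ) ≤ 2 * (n : ℝ) ^ 2 * (2 : ℝ) ^ (7 / 100 * (n : ℝ)) := by
    have s1 := hsmall (22 * ε) hε1 n
    have s2 := hsmall θ hθ1 n
    have s3 := hsmall κ hκ1 n
    have hcard : (Fintype.card (re_D ε κ θ n) : ℝ) =
        ((Fintype.card (Small (22 * ε) n) : ℝ) * Fintype.card (Small (22 * ε) n)) *
        (((Fintype.card (Small (22 * ε) n) : ℝ) * Fintype.card (Small (22 * ε) n)) *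
        (((Fintype.card (Small θ n) : ℝ) * Fintype.card (Small θ n)) *
        ((Fintype.card (Small κ n) : ℝ) * (2 * ((n : ℝ) * n))))) := by
      simp only [re_D, Fintype.card_prod, Fintype.card_bool, Fintype.card_fin]
      push_cast
      ring
    rw [hcard]
    set x := (2 : ℝ) ^ (1 / 100 * (n : ℝ)) with hx
    have hx0 : 0 ≤ x := by positivity
    have hx7 : (2 : ℝ) ^ (7 / 100 * (n : ℝ)) = x ^ 7 := by
      rw [hx, ← Real.rpow_natCast, ← Real.rpow_mul (by norm_num)]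
      congr 1
      push_cast
      ring
    rw [hx7]
    have hn0 : (0 : ℝ) ≤ n := Nat.cast_nonneg n
    calc _ ≤ (x * x) * ((x * x) * ((x * x) * (x * (2 * ((n : ℝ) * n))))) := by
          gcongr
      _ = _ := by ring
  refine h.trans ?_
  have hg0 : (0 : ℝ) ≤ gg (n - 2) := Nat.cast_nonneg _
  calc (n : ℝ) ^ 2 * Fintype.card (re_D ε κ θ n) *
        (2 : ℝ) ^ (2 * ((1 / 3 + 2 * ε) * n) + 8 / 5 * ((1 / 3 + 40 * ε) * n)) * gg (n - 2)
      ≤ (n : ℝ) ^ 2 * (2 * (n : ℝ) ^ 2 * (2 : ℝ) ^ (7 / 100 * (n : ℝ))) *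
        (2 : ℝ) ^ (2 * ((1 / 3 + 2 * ε) * n) + 8 / 5 * ((1 / 3 + 40 * ε) * n)) *
          gg (n - 2) := by
        gcongr
    _ = 2 * (n : ℝ) ^ 4 * ((2 : ℝ) ^ (7 / 100 * (n : ℝ)) *
        (2 : ℝ) ^ (2 * ((1 / 3 + 2 * ε) * n) + 8 / 5 * ((1 / 3 + 40 * ε) * n))) *
          gg (n - 2) := by ring
    _ = _ := by
        rw [← Real.rpow_add (by norm_num)]
        congr 3
        ring

end Pool.Agent.Lib.MP_534936_co.AQ
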