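import Pool.Agent.Lib.MP_534936_co.AQ.Defs

/-!
# Templates are generalized quasi-line graphs; the growth rate of the number of templates
-/

namespace Pool.Agent.Lib.MP_534936_co.AQ

open Finset

theorem temGQ : TemGQ := by
  classical
  intro V _ _ G hT X hX
  obtain ⟨S, A, B, hc, hS, hA, hB⟩ := hT
  have key : ∀ u ∈ X, (∀ v ∈ X, G.Adj u v → v ∉ S) → Bis G X u := by
    intro u _ hu
    refine ⟨X.filter fun v => v ∈ A ∧ G.Adj u v, X.filter fun v => v ∈ B ∧ G.Adj u v, ?_, ?_, ?_⟩
    · intro a ha b hb hab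
      simp only [mem_filter] at ha hb
      exact hA a ha.2.1 b hb.2.1 hab
    · intro a ha b hb hab
      simp only [mem_filter] at ha hb
      exact hB a ha.2.1 b hb.2.1 hab
    · intro v
      simp only [mem_filter]
      constructor
      · rintro (⟨h1, _, h3⟩ | ⟨h1, _, h3⟩)
        · exact ⟨h1, h3⟩
        · exact ⟨h1, h3⟩
      · rintro ⟨h1, h3⟩
        rcases hc v with h | h | h
        · exact absurd h (hu v h1 h3)
        · exact Or.inl ⟨h1, h, h3⟩
        · exact Or.inr ⟨h1, h, h3⟩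
  by_cases hXS : ∃ u ∈ X, u ∈ S
  · obtain ⟨u, huX, huS⟩ := hXS
    exact ⟨u, huX, key u huX fun v _ hadj hvS => hS u huS v hvS hadj⟩
  · obtain ⟨u, huX⟩ := hX
    exact ⟨u, huX, key u huX fun v hvX _ hvS => hXS ⟨v, hvX, hvS⟩⟩

/-- add a new last vertex with neighbourhood `N` -/
def ratioExt {n : ℕ} (G : SimpleGraph (Fin n)) (N : Finset (Fin n)) :
    SimpleGraph (Fin (n + 1)) where
  Adj x y := (∃ a b, x = Fin.castSucc a ∧ y = Fin.castSucc b ∧ G.Adj a b) ∨
    ∃ a ∈ N, (x = Fin.castSucc a ∧ y = Fin.last n) ∨ (x = Fin.last n ∧ y = Fin.castSucc a)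
  symm := ⟨by
    intro x y h
    rcases h with ⟨a, b, h1, h2, h3⟩ | ⟨a, ha, h | h⟩
    · exact Or.inl ⟨b, a, h2, h1, h3.symm⟩
    · exact Or.inr ⟨a, ha, Or.inr ⟨h.2, h.1⟩⟩
    · exact Or.inr ⟨a, ha, Or.inl ⟨h.2, h.1⟩⟩⟩
  loopless := ⟨by
    intro x h
    rcases h with ⟨a, b, h1, h2, h3⟩ | ⟨a, ha, h | h⟩
    · have : a = b := Fin.castSucc_injective n (h1.symm.trans h2)
      exact G.loopless.irrefl a (this ▸ h3)
    · exact Fin.castSucc_ne_last a (h.1.symm.trans h.2)
    · exact Fin.castSucc_ne_last a (h.2.symm.trans h.1)⟩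

theorem ratio_cc {n : ℕ} (G : SimpleGraph (Fin n)) (N : Finset (Fin n)) (a b : Fin n) :
    (ratioExt G N).Adj (Fin.castSucc a) (Fin.castSucc b) ↔ G.Adj a b := by
  constructor
  · rintro (⟨a', b', h1, h2, h3⟩ | ⟨a', ha, h | h⟩)
    · have e1 := Fin.castSucc_injective n h1
      have e2 := Fin.castSucc_injective n h2
      rw [e1, e2]; exact h3
    · exact absurd h.2 (Fin.castSucc_ne_last b)
    · exact absurd h.1 (Fin.castSucc_ne_last a)
  · intro h
    exact Or.inl ⟨a, b, rfl, rfl, h⟩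

theorem ratio_cl {n : ℕ} (G : SimpleGraph (Fin n)) (N : Finset (Fin n)) (a : Fin n) :
    (ratioExt G N).Adj (Fin.castSucc a) (Fin.last n) ↔ a ∈ N := by
  constructor
  · rintro (⟨a', b', h1, h2, h3⟩ | ⟨a', ha, h | h⟩)
    · exact absurd h2.symm (Fin.castSucc_ne_last b')
    · have e1 := Fin.castSucc_injective n h.1
      rw [e1]; exact ha
    · exact absurd h.1 (Fin.castSucc_ne_last a)
  · intro h
    exact Or.inr ⟨a, h, Or.inl ⟨rfl, rfl⟩⟩

theorem ratio_inj {n : ℕ} {G G' : SimpleGraph (Fin n)} {N N' : Finset (Fin n)}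
    (h : ratioExt G N = ratioExt G' N') : G = G' ∧ N = N' := by
  constructor
  · ext a b
    rw [← ratio_cc G N, ← ratio_cc G' N', h]
  · ext a
    rw [← ratio_cl G N, ← ratio_cl G' N', h]

/-- the image of a set of old vertices -/
def ratioUp {n : ℕ} (S : Finset (Fin n)) : Finset (Fin (n + 1)) :=
  S.map Fin.castSuccEmb

theorem ratio_mem_up {n : ℕ} {S : Finset (Fin n)} {x : Fin (n + 1)} :
    x ∈ ratioUp S ↔ ∃ a ∈ S, Fin.castSucc a = x := by
  simp [ratioUp]

theorem ratio_st_up {n : ℕ} {G : SimpleGraph (Fin n)} {S N : Finset (Fin n)} (h : St G S) :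
    St (ratioExt G N) (ratioUp S) := by
  intro x hx y hy
  obtain ⟨a, ha, rfl⟩ := ratio_mem_up.1 hx
  obtain ⟨b, hb, rfl⟩ := ratio_mem_up.1 hy
  rw [ratio_cc]
  exact h a ha b hb

theorem ratio_cl_up {n : ℕ} {G : SimpleGraph (Fin n)} {S N : Finset (Fin n)} (h : Cl G S) :
    Cl (ratioExt G N) (ratioUp S) := by
  intro x hx y hy hxy
  obtain ⟨a, ha, rfl⟩ := ratio_mem_up.1 hx
  obtain ⟨b, hb, rfl⟩ := ratio_mem_up.1 hy
  rw [ratio_cc]
  exact h a ha b hb fun e => hxy (by rw [e])

theorem ratio_st_ins {n : ℕ} {G : SimpleGraph (Fin n)} {S N : Finset (Fin n)} (h : St G S)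
    (hN : Disjoint N S) : St (ratioExt G N) (insert (Fin.last n) (ratioUp S)) := by
  intro x hx y hy
  rcases mem_insert.1 hx with rfl | hx
  · rcases mem_insert.1 hy with rfl | hy
    · exact SimpleGraph.irrefl _
    · obtain ⟨b, hb, rfl⟩ := ratio_mem_up.1 hy
      intro hadj
      exact disjoint_left.1 hN ((ratio_cl G N b).1 hadj.symm) hb
  · rcases mem_insert.1 hy with rfl | hy
    · obtain ⟨a, ha, rfl⟩ := ratio_mem_up.1 hx
      intro hadj
      exact disjoint_left.1 hN ((ratio_cl G N a).1 hadj) ha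
    · exact ratio_st_up h x hx y hy

theorem ratio_cl_ins {n : ℕ} {G : SimpleGraph (Fin n)} {S N : Finset (Fin n)} (h : Cl G S)
    (hN : S ⊆ N) : Cl (ratioExt G N) (insert (Fin.last n) (ratioUp S)) := by
  intro x hx y hy hxy
  rcases mem_insert.1 hx with rfl | hx
  · rcases mem_insert.1 hy with rfl | hy
    · exact absurd rfl hxy
    · obtain ⟨b, hb, rfl⟩ := ratio_mem_up.1 hy
      exact ((ratio_cl G N b).2 (hN hb)).symm
  · rcases mem_insert.1 hy with rfl | hy
    · obtain ⟨a, ha, rfl⟩ := ratio_mem_up.1 hx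
      exact (ratio_cl G N a).2 (hN ha)
    · exact ratio_cl_up h x hx y hy hxy

/-- a small part `P` and the neighbours `D` of the new vertex inside `P` -/
theorem ratio_choice {n : ℕ} (G : SimpleGraph (Fin n)) (hT : Tem G) :
    ∃ P D : Finset (Fin n), 3 * P.card ≤ n ∧ D ⊆ P ∧
      ∀ T : Finset (Fin n), Disjoint T P → Tem (ratioExt G (T ∪ D)) := by
  classical
  obtain ⟨S, A, B, hc, hS, hA, hB⟩ := hT
  set A' := A \ S with hA'
  set B' := B \ (S ∪ A) with hB'
  have hA1 : Cl G A' := fun a ha b hb => hA a (mem_sdiff.1 ha).1 b (mem_sdiff.1 hb).1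
  have hB1 : Cl G B' := fun a ha b hb => hB a (mem_sdiff.1 ha).1 b (mem_sdiff.1 hb).1
  have hc1 : ∀ v, v ∈ S ∨ v ∈ A' ∨ v ∈ B' := by
    intro v
    by_cases h1 : v ∈ S
    · exact Or.inl h1
    · by_cases h2 : v ∈ A
      · exact Or.inr (Or.inl (mem_sdiff.2 ⟨h2, h1⟩))
      · have h3 : v ∈ B := by
          rcases hc v with h | h | h
          · exact absurd h h1
          · exact absurd h h2
          · exact h
        refine Or.inr (Or.inr (mem_sdiff.2 ⟨h3, ?_⟩))
        simp [h1, h2]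
  have hcard : S.card + A'.card + B'.card ≤ n := by
    have d1 : Disjoint S A' := disjoint_sdiff
    have d2 : Disjoint (S ∪ A') B' := by
      rw [disjoint_left]
      intro x hx hxB
      have := (mem_sdiff.1 hxB).2
      rcases mem_union.1 hx with h | h
      · exact this (mem_union_left _ h)
      · exact this (mem_union_right _ (mem_sdiff.1 h).1)
    have e := card_le_univ ((S ∪ A') ∪ B')
    rw [card_union_of_disjoint d2, card_union_of_disjoint d1, Fintype.card_fin] at e
    exact e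
  have cover : ∀ (X Y Z : Finset (Fin n)), (∀ v, v ∈ X ∨ v ∈ Y ∨ v ∈ Z) →
      ∀ v : Fin (n + 1), v ∈ insert (Fin.last n) (ratioUp X) ∨ v ∈ ratioUp Y ∨ v ∈ ratioUp Z := by
    intro X Y Z h v
    refine Fin.lastCases ?_ (fun a => ?_) v
    · exact Or.inl (mem_insert_self _ _)
    · rcases h a with h | h | h
      · exact Or.inl (mem_insert_of_mem (ratio_mem_up.2 ⟨a, h, rfl⟩))
      · exact Or.inr (Or.inl (ratio_mem_up.2 ⟨a, h, rfl⟩))
      · exact Or.inr (Or.inr (ratio_mem_up.2 ⟨a, h, rfl⟩))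
  by_cases c1 : 3 * S.card ≤ n
  · refine ⟨S, ∅, c1, empty_subset _, fun T hT => ?_⟩
    rw [union_empty]
    exact ⟨insert (Fin.last n) (ratioUp S), ratioUp A', ratioUp B', cover _ _ _ hc1,
      ratio_st_ins hS hT, ratio_cl_up hA1, ratio_cl_up hB1⟩
  by_cases c2 : 3 * A'.card ≤ n
  · refine ⟨A', A', c2, Subset.refl _, fun T hT => ?_⟩
    refine ⟨ratioUp S, insert (Fin.last n) (ratioUp A'), ratioUp B', ?_,
      ratio_st_up hS, ratio_cl_ins hA1 subset_union_right, ratio_cl_up hB1⟩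
    intro v
    have := cover A' S B' (fun v => by
      rcases hc1 v with h | h | h
      · exact Or.inr (Or.inl h)
      · exact Or.inl h
      · exact Or.inr (Or.inr h)) v
    rcases this with h | h | h
    · exact Or.inr (Or.inl h)
    · exact Or.inl h
    · exact Or.inr (Or.inr h)
  · have c3 : 3 * B'.card ≤ n := by omega
    refine ⟨B', B', c3, Subset.refl _, fun T hT => ?_⟩
    refine ⟨ratioUp S, ratioUp A', insert (Fin.last n) (ratioUp B'), ?_,
      ratio_st_up hS, ratio_cl_up hA1, ratio_cl_ins hB1 subset_union_right⟩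
    intro v
    have := cover B' S A' (fun v => by
      rcases hc1 v with h | h | h
      · exact Or.inr (Or.inl h)
      · exact Or.inr (Or.inr h)
      · exact Or.inl h) v
    rcases this with h | h | h
    · exact Or.inr (Or.inr h)
    · exact Or.inl h
    · exact Or.inr (Or.inl h)

theorem ratio : Ratio := by
  classical
  intro n
  choose! P D hP hD hTem using fun G : SimpleGraph (Fin n) => ratio_choice G
  set F : Finset (SimpleGraph (Fin n)) :=
    univ.filter fun G : SimpleGraph (Fin n) => GQ G ∧ Tem G with hF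
  set E : Finset (SimpleGraph (Fin (n + 1))) :=
    univ.filter fun G : SimpleGraph (Fin (n + 1)) => GQ G ∧ Tem G with hE
  have e1 : num n Tem = F.card := by
    rw [num, hF]
  have e2 : num (n + 1) Tem = E.card := by
    rw [num, hE]
  have hcount : (F.sigma fun G => (univ \ P G).powerset).card ≤ E.card := by
    refine card_le_card_of_injOn (fun x => ratioExt x.1 (x.2 ∪ D x.1)) ?_ ?_
    · rintro ⟨G, T⟩ hx
      have hx' := mem_sigma.1 (mem_coe.1 hx)
      have h1 : GQ G ∧ Tem G := (mem_filter.1 hx'.1).2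
      have h2 : Disjoint T (P G) := by
        rw [disjoint_left]
        intro a ha
        exact (mem_sdiff.1 (mem_powerset.1 hx'.2 ha)).2
      have h3 := hTem G h1.2 T h2
      exact mem_coe.2 (mem_filter.2 ⟨mem_univ _, temGQ _ _ h3, h3⟩)
    · rintro ⟨G, T⟩ hx ⟨G', T'⟩ hx' h
      obtain ⟨hG, hN⟩ := ratio_inj h
      simp only at hG
      subst hG
      have hy := mem_sigma.1 (mem_coe.1 hx)
      have hy' := mem_sigma.1 (mem_coe.1 hx')
      have h1 : GQ G ∧ Tem G := (mem_filter.1 hy.1).2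
      have hsub := hD G h1.2
      have : T = T' := by
        have h2 : ∀ U ∈ (univ \ P G).powerset, (U ∪ D G) \ P G = U := by
          intro U hU
          ext a
          simp only [mem_sdiff, mem_union]
          constructor
          · rintro ⟨h3 | h3, h4⟩
            · exact h3
            · exact absurd (hsub h3) h4
          · intro h3
            exact ⟨Or.inl h3, (mem_sdiff.1 (mem_powerset.1 hU h3)).2⟩
        rw [← h2 T hy.2, ← h2 T' hy'.2, hN]
      rw [this]
  rw [card_sigma] at hcount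
  have hterm : ∀ G ∈ F, (2 : ℝ) ^ (2 * (n : ℝ) / 3) ≤ (((univ \ P G).powerset.card : ℕ) : ℝ) := by
    intro G hG
    have h1 : GQ G ∧ Tem G := (mem_filter.1 hG).2
    have h2 := hP G h1.2
    rw [card_powerset, card_sdiff_of_subset (subset_univ _), card_univ, Fintype.card_fin]
    push_cast
    rw [← Real.rpow_natCast]
    apply Real.rpow_le_rpow_of_exponent_le (by norm_num)
    have h3 : (P G).card ≤ n := by omega
    rw [Nat.cast_sub h3]
    have h4 : (3 : ℝ) * (P G).card ≤ n := by exact_mod_cast h2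
    linarith
  rw [e1, e2]
  calc (2 : ℝ) ^ (2 * (n : ℝ) / 3) * (F.card : ℝ)
      = ∑ _G ∈ F, (2 : ℝ) ^ (2 * (n : ℝ) / 3) := by rw [sum_const, nsmul_eq_mul, mul_comm]
    _ ≤ ∑ G ∈ F, (((univ \ P G).powerset.card : ℕ) : ℝ) := sum_le_sum hterm
    _ = ((∑ G ∈ F, (univ \ P G).powerset.card : ℕ) : ℝ) := by push_cast; rfl
    _ ≤ (E.card : ℝ) := by exact_mod_cast hcount

end Pool.Agent.Lib.MP_534936_co.AQ
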