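import Pool.Agent.Lib.MP_534936_co.AQ.Defs

/-!
# L7: a generic graph is a stable set and two cliques
-/

namespace Pool.Agent.Lib.MP_534936_co.AQ

open Finset

theorem structure_mem_nb {V : Type} [Fintype V] [DecidableEq V] (G : SimpleGraph V) (x v : V) :
    v ∈ nb G x ↔ G.Adj x v := by
  classical
  simp [nb]

theorem structure_swap {V : Type} [Fintype V] [DecidableEq V] {G : SimpleGraph V} {J : ℕ} {t : ℝ}
    {K₁ K₂ : Finset V} (hp : Pair G J t K₁ K₂) : Pair G J t K₂ K₁ :=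
  ⟨hp.cl₂, hp.cl₁, hp.disj.symm, hp.typ₂, hp.typ₁, hp.one_le, hp.t_pos, hp.large₂, hp.large₁⟩

theorem structure_W {V : Type} [Fintype V] [DecidableEq V] (K₁ K₂ : Finset V) :
    W K₂ K₁ = W K₁ K₂ := by
  unfold W
  rw [union_comm]

theorem structure_card {V : Type} [DecidableEq V] {P Q D : Finset V} (h : P ⊆ Q ∪ D) :
    (P.card : ℝ) ≤ Q.card + D.card := by
  have h1 := (card_le_card h).trans (card_union_le Q D)
  exact_mod_cast h1

/-- a large typical clique is almost complete to each of its vertices -/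
theorem structure_self {V : Type} [Fintype V] [DecidableEq V] (G : SimpleGraph V)
    (K : Finset V) (hK : Cl G K) (k : V) (hk : k ∈ K) : ((K \ nb G k).card : ℝ) ≤ 1 := by
  have hsub : K \ nb G k ⊆ {k} := by
    intro v hv
    rw [mem_sdiff] at hv
    rw [mem_singleton]
    by_contra hne
    exact hv.2 ((structure_mem_nb G k v).mpr (hK k hk v hv.1 (Ne.symm hne)))
  have := card_le_card hsub
  rw [card_singleton] at this
  exact_mod_cast this

/-- vertices of type 1 form a clique -/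
theorem structure_clique (h6 : L6) {V : Type} [Fintype V] [DecidableEq V] (G : SimpleGraph V)
    (J : ℕ) (t m t₀ : ℝ) (K₁ K₂ A B S : Finset V) (hG : GQ G) (hp : Pair G J t K₁ K₂)
    (ht₀ : 0 < t₀) (hm : 4 * t₀ + LL J t + 2 * t ≤ m)
    (hA : ∀ w ∈ A, w ∉ K₂ ∧ m ≤ ((K₂ \ nb G w).card : ℝ))
    (fewA : ((A \ K₁).card : ℝ) < 2 * t₀) (fewB : ((B \ K₂).card : ℝ) < 2 * t₀)
    (cov : ∀ v, v ∈ S ∨ v ∈ A ∨ v ∈ B) (hS : St G S)
    (he : ∀ w ∈ A, ∀ w' ∈ A, w ≠ w' → m ≤ (((nb G w ∩ nb G w') ∩ W K₁ K₂).card : ℝ)) :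
    Cl G A := by
  intro w hw w' hw' hne
  have ht := hp.t_pos
  set N := (nb G w ∩ nb G w') ∩ W K₁ K₂ with hN
  have hNm := he w hw w' hw' hne
  have hsub : N ⊆ (N \ (A ∪ B)) ∪ ((A \ K₁) ∪ (B \ K₂)) := by
    intro v hv
    have hvW : v ∈ W K₁ K₂ := (mem_inter.mp hv).2
    simp only [W, mem_sdiff, mem_univ, true_and, mem_union, not_or] at hvW
    by_cases h1 : v ∈ A
    · exact mem_union_right _ (mem_union_left _ (mem_sdiff.mpr ⟨h1, hvW.1⟩))
    by_cases h2 : v ∈ B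
    · exact mem_union_right _ (mem_union_right _ (mem_sdiff.mpr ⟨h2, hvW.2⟩))
    refine mem_union_left _ (mem_sdiff.mpr ⟨hv, ?_⟩)
    rw [mem_union, not_or]
    exact ⟨h1, h2⟩
  have e1 := structure_card hsub
  have e2 := structure_card (Subset.refl ((A \ K₁) ∪ (B \ K₂)))
  have hPS : ∀ v ∈ N \ (A ∪ B), v ∈ S := by
    intro v hv
    have h' := (mem_sdiff.mp hv).2
    rw [mem_union, not_or] at h'
    rcases cov v with h | h | h
    · exact h
    · exact absurd h h'.1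
    · exact absurd h h'.2
  refine h6 V G J t K₁ K₂ hG hp w w' hne (hA w hw).1 (hA w' hw').1 (N \ (A ∪ B)) ?_ ?_ ?_ ?_ ?_
    ?_ ?_
  · exact sdiff_subset.trans inter_subset_right
  · intro a ha b hb
    exact hS a (hPS a ha) b (hPS b hb)
  · linarith
  · intro v hv
    exact (mem_inter.mp (mem_inter.mp (mem_sdiff.mp hv).1).1).1
  · intro v hv
    exact (mem_inter.mp (mem_inter.mp (mem_sdiff.mp hv).1).1).2
  · linarith [(hA w hw).2]
  · linarith [(hA w' hw').2]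

theorem l7 (h0 : L0b) (h4 : L4) (h5 : L5) (h6 : L6) : L7 := by
  classical
  intro V _ _ G J J₀ t t₀ m K₁ K₂ hG hp ty1 ty2 hJ₀ ht₀ hK1 hK2 hm hgen
  have hd := hp.disj
  have ht := hp.t_pos
  have hJr : (1 : ℝ) ≤ J := by exact_mod_cast hp.one_le
  have hLL : LL J t = 40 * (J * t) + 40 * (J * J) := by unfold LL; ring
  have hL1 : 1 < LL J t := by rw [hLL]; nlinarith
  have hJt : t ≤ (J : ℝ) * t := by nlinarith
  set l := LL J t with hl
  have hml : l ≤ m := by linarith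
  have hsw := structure_swap hp
  have hW := structure_W K₁ K₂
  set A : Finset V := univ.filter (fun w => T1 G l K₁ K₂ w) with hA
  set B : Finset V := univ.filter (fun w => T1 G l K₂ K₁ w) with hB
  set S : Finset V := univ.filter (fun w => T0 G l K₁ K₂ w) \ (A ∪ B) with hS
  have mA : ∀ w, w ∈ A ↔ T1 G l K₁ K₂ w := by intro w; rw [hA, mem_filter]; simp
  have mB : ∀ w, w ∈ B ↔ T1 G l K₂ K₁ w := by intro w; rw [hB, mem_filter]; simp
  have sub1 : K₁ ⊆ A := by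
    intro k hk
    rw [mA]
    refine ⟨fun h => disjoint_left.mp hd hk h, ?_⟩
    have := structure_self G K₁ hp.cl₁ k hk
    linarith
  have sub2 : K₂ ⊆ B := by
    intro k hk
    rw [mB]
    refine ⟨fun h => disjoint_left.mp hd h hk, ?_⟩
    have := structure_self G K₂ hp.cl₂ k hk
    linarith
  have cov : ∀ v, v ∈ S ∨ v ∈ A ∨ v ∈ B := by
    intro v
    by_cases h1 : v ∈ A
    · exact Or.inr (Or.inl h1)
    by_cases h2 : v ∈ B
    · exact Or.inr (Or.inr h2)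
    left
    have n1 : v ∉ K₁ := fun h => h1 (sub1 h)
    have n2 : v ∉ K₂ := fun h => h2 (sub2 h)
    have m1 : l ≤ ((K₁ \ nb G v).card : ℝ) := by
      by_contra h
      exact h1 ((mA v).mpr ⟨n2, not_le.mp h⟩)
    have m2 : l ≤ ((K₂ \ nb G v).card : ℝ) := by
      by_contra h
      exact h2 ((mB v).mpr ⟨n1, not_le.mp h⟩)
    have hvW : v ∈ W K₁ K₂ := by
      unfold W
      rw [mem_sdiff, mem_union, not_or]
      exact ⟨mem_univ _, n1, n2⟩
    have h3 := h4 V G J t K₁ K₂ hG hp v hvW m1 m2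
    rw [hS, mem_sdiff, mem_filter, mem_union, not_or]
    exact ⟨⟨mem_univ _, n1, n2, h3⟩, h1, h2⟩
  have stS : St G S := by
    intro s hs s' hs' hadj
    have hne : s ≠ s' := fun e => G.loopless.irrefl s (by rw [← e] at hadj; exact hadj)
    have t1 : T0 G l K₁ K₂ s := (mem_filter.mp (mem_sdiff.mp hs).1).2
    have t2 : T0 G l K₁ K₂ s' := (mem_filter.mp (mem_sdiff.mp hs').1).2
    have w1 : s ∈ W K₁ K₂ := by
      unfold W
      rw [mem_sdiff, mem_union, not_or]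
      exact ⟨mem_univ _, t1.1, t1.2.1⟩
    have w2 : s' ∈ W K₁ K₂ := by
      unfold W
      rw [mem_sdiff, mem_union, not_or]
      exact ⟨mem_univ _, t2.1, t2.2.1⟩
    exact h5 V G J t K₁ K₂ hG hp s w1 s' w2 hne
      (hml.trans (hgen.b₁ s s' hne t1 t2)) (hml.trans (hgen.b₁ s' s hne.symm t2 t1))
      (hml.trans (hgen.b₂ s s' hne t1 t2)) (hml.trans (hgen.b₂ s' s hne.symm t2 t1)) hadj
  have few1 : ((A \ K₁).card : ℝ) < 2 * t₀ := by
    refine h0 V G J₀ t₀ l K₁ K₁ ty1 hJ₀ ht₀ (by linarith) (Subset.refl _) hK1 (A \ K₁)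
      sdiff_disjoint ?_
    intro v hv
    exact ((mA v).mp (mem_sdiff.mp hv).1).2.le
  have few2 : ((B \ K₂).card : ℝ) < 2 * t₀ := by
    refine h0 V G J₀ t₀ l K₂ K₂ ty2 hJ₀ ht₀ (by linarith) (Subset.refl _) hK2 (B \ K₂)
      sdiff_disjoint ?_
    intro v hv
    exact ((mB v).mp (mem_sdiff.mp hv).1).2.le
  have a1 : ∀ w ∈ A, m ≤ ((K₂ \ nb G w).card : ℝ) ∧ m ≤ ((K₂ ∩ nb G w).card : ℝ) :=
    fun w hw => hgen.a₁ w ((mA w).mp hw)
  have a2 : ∀ w ∈ B, m ≤ ((K₁ \ nb G w).card : ℝ) ∧ m ≤ ((K₁ ∩ nb G w).card : ℝ) :=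
    fun w hw => hgen.a₂ w ((mB w).mp hw)
  refine ⟨S, A, B, ?_⟩
  refine ⟨cov, stS, ?_, ?_, ?_, sub1, sub2, few1, few2, a1, a2, hp.typ₁, hp.typ₂⟩
  · refine structure_clique h6 G J t m t₀ K₁ K₂ A B S hG hp ht₀ hm ?_ few1 few2 cov stS ?_
    · intro w hw
      exact ⟨((mA w).mp hw).1, (a1 w hw).1⟩
    · intro w hw w' hw' hne
      exact hgen.e₁ w w' hne ((mA w).mp hw) ((mA w').mp hw')
  · refine structure_clique h6 G J t m t₀ K₂ K₁ B A S hG hsw ht₀ hm ?_ few2 few1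
      (fun v => (cov v).imp_right Or.symm) stS ?_
    · intro w hw
      exact ⟨((mB w).mp hw).1, (a2 w hw).1⟩
    · intro w hw w' hw' hne
      rw [hW]
      exact hgen.e₂ w w' hne ((mB w).mp hw) ((mB w').mp hw')
  · rw [disjoint_left]
    intro w hw hw'
    have e1 := (a1 w hw).1
    have e2 := ((mB w).mp hw').2
    linarith

end Pool.Agent.Lib.MP_534936_co.AQ
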