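import Pool.Agent.Lib.MP_534936_co.AQ.Defs

/-!
# A stable set and two cliques: Hadwiger's conjecture, deterministic

Every graph whose vertex set is the union of a stable set and two cliques satisfies
Hadwiger's conjecture; all branch sets but one can be taken to be single vertices.
-/

set_option autoImplicit false

namespace Pool.Agent.Lib.MP_534936_co.AQ

open Finset

section th

variable {V : Type} [Fintype V] [DecidableEq V]

/-- `X` has a proper colouring with colours in `P` -/
def ThCol (G : SimpleGraph V) (X P : Finset V) : Prop :=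
  ∃ φ : V → V, (∀ v ∈ X, φ v ∈ P) ∧ ∀ a ∈ X, ∀ b ∈ X, G.Adj a b → φ a ≠ φ b

/-- every cut of `B` has an edge -/
def ThConn (G : SimpleGraph V) (B : Finset V) : Prop :=
  B.Nonempty ∧ ∀ T ⊆ B, T.Nonempty → T ≠ B → ∃ a ∈ T, ∃ b ∈ B, b ∉ T ∧ G.Adj a b

/-- a clique with `w` vertices and one more connected set adjacent to all of them -/
def ThOut (G : SimpleGraph V) (X : Finset V) (w : ℕ) : Prop :=
  ∃ Q B : Finset V, Q ⊆ X ∧ B ⊆ X ∧ Cl G Q ∧ Q.card = w ∧ Disjoint Q B ∧ ThConn G B ∧
    ∀ q ∈ Q, ∃ b ∈ B, G.Adj q b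

theorem thOut_mono {G : SimpleGraph V} {X Y : Finset V} {w : ℕ} (h : ThOut G X w) (hXY : X ⊆ Y) :
    ThOut G Y w := by
  obtain ⟨Q, B, h1, h2, h3⟩ := h
  exact ⟨Q, B, h1.trans hXY, h2.trans hXY, h3⟩

theorem thCol_transfer {G : SimpleGraph V} {X P P' : Finset V} (h : ThCol G X P)
    (hc : P.card ≤ P'.card) : ThCol G X P' := by
  classical
  obtain ⟨φ, h1, h2⟩ := h
  have hc' : Fintype.card {x // x ∈ P} ≤ Fintype.card {x // x ∈ P'} := by
    rw [Fintype.card_coe, Fintype.card_coe]
    exact hc
  obtain ⟨g⟩ := Function.Embedding.nonempty_of_card_le hc'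
  refine ⟨fun v => if hv : φ v ∈ P then (g ⟨φ v, hv⟩ : V) else v, ?_, ?_⟩
  · intro v hv
    have hP := h1 v hv
    simp only [hP, dif_pos]
    exact (g ⟨φ v, hP⟩).2
  · intro a ha b hb hab hcon
    have hPa := h1 a ha
    have hPb := h1 b hb
    simp only [hPa, hPb, dif_pos] at hcon
    have h3 := g.injective (Subtype.ext hcon)
    exact h2 a ha b hb hab (congrArg Subtype.val h3)

theorem thConn_singleton (G : SimpleGraph V) (x : V) : ThConn G {x} := by
  refine ⟨Finset.singleton_nonempty x, ?_⟩
  intro T hT hne hneq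
  exfalso
  rcases Finset.subset_singleton_iff.1 hT with h | h
  · rw [h] at hne
    exact Finset.not_nonempty_empty hne
  · exact hneq h

/-- a set whose core is a nonempty clique and in which all other vertices see the core -/
theorem thConn_core {G : SimpleGraph V} {C B : Finset V} (hC : Cl G C) (hne : C.Nonempty)
    (hCB : C ⊆ B) (hB : ∀ b ∈ B, b ∉ C → ∃ c ∈ C, G.Adj b c) : ThConn G B := by
  refine ⟨hne.mono hCB, ?_⟩
  intro T hT hTne hTB
  by_contra hno
  push Not at hno
  -- no edge leaves T
  have hcore : (∀ c ∈ C, c ∈ T) ∨ (∀ c ∈ C, c ∉ T) := by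
    by_contra h
    push Not at h
    obtain ⟨⟨c, hc, hcT⟩, ⟨c', hc', hcT'⟩⟩ := h
    have hne' : c' ≠ c := fun e => hcT (e ▸ hcT')
    exact hno c' hcT' c (hCB hc) hcT (hC c' hc' c hc hne')
  rcases hcore with h | h
  · apply hTB
    apply Finset.Subset.antisymm hT
    intro b hb
    by_contra hbT
    have hbC : b ∉ C := fun hbC => hbT (h b hbC)
    obtain ⟨c, hc, hadj⟩ := hB b hb hbC
    exact hno c (h c hc) b hb hbT hadj.symm
  · obtain ⟨b, hb⟩ := hTne
    have hbC : b ∉ C := fun hbC => h b hbC hb
    obtain ⟨c, hc, hadj⟩ := hB b (hT hb) hbC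
    exact hno b hb c (hCB hc) (h c hc) hadj

/-- two cliques joined by an edge -/
theorem thConn_edge {G : SimpleGraph V} {C D : Finset V} (hC : Cl G C) (hD : Cl G D)
    {c d : V} (hc : c ∈ C) (hd : d ∈ D) (hcd : G.Adj c d) : ThConn G (C ∪ D) := by
  refine ⟨⟨c, Finset.mem_union_left _ hc⟩, ?_⟩
  intro T hT hTne hTB
  by_contra hno
  push Not at hno
  have key : ∀ E : Finset V, Cl G E → E ⊆ C ∪ D → (∀ x ∈ E, x ∈ T) ∨ (∀ x ∈ E, x ∉ T) := by
    intro E hE hEs
    by_contra h
    push Not at h
    obtain ⟨⟨x, hx, hxT⟩, ⟨y, hy, hyT⟩⟩ := h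
    have hne' : y ≠ x := fun e => hxT (e ▸ hyT)
    exact hno y hyT x (hEs hx) hxT (hE y hy x hx hne')
  have hC' := key C hC Finset.subset_union_left
  have hD' := key D hD Finset.subset_union_right
  rcases hC' with h1 | h1
  · rcases hD' with h2 | h2
    · apply hTB
      apply Finset.Subset.antisymm hT
      intro x hx
      rcases Finset.mem_union.1 hx with hx | hx
      · exact h1 x hx
      · exact h2 x hx
    · exact hno c (h1 c hc) d (Finset.mem_union_right _ hd) (h2 d hd) hcd
  · rcases hD' with h2 | h2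
    · exact hno d (h2 d hd) c (Finset.mem_union_left _ hc) (h1 c hc) hcd.symm
    · obtain ⟨x, hx⟩ := hTne
      rcases Finset.mem_union.1 (hT hx) with hx' | hx'
      · exact h1 x hx' hx
      · exact h2 x hx' hx

/-- two cliques joined by a vertex -/
theorem thConn_vertex {G : SimpleGraph V} {C D : Finset V} (hC : Cl G C) (hD : Cl G D)
    {c d s : V} (hc : c ∈ C) (hd : d ∈ D) (hcs : G.Adj s c) (hds : G.Adj s d) :
    ThConn G (insert s (C ∪ D)) := by
  refine ⟨⟨s, Finset.mem_insert_self _ _⟩, ?_⟩
  intro T hT hTne hTB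
  by_contra hno
  push Not at hno
  have hCs : C ⊆ insert s (C ∪ D) :=
    Finset.subset_union_left.trans (Finset.subset_insert _ _)
  have hDs : D ⊆ insert s (C ∪ D) :=
    Finset.subset_union_right.trans (Finset.subset_insert _ _)
  have hs : s ∈ insert s (C ∪ D) := Finset.mem_insert_self _ _
  have key : ∀ E : Finset V, Cl G E → E ⊆ insert s (C ∪ D) →
      (∀ x ∈ E, x ∈ T) ∨ (∀ x ∈ E, x ∉ T) := by
    intro E hE hEs
    by_contra h
    push Not at h
    obtain ⟨⟨x, hx, hxT⟩, ⟨y, hy, hyT⟩⟩ := h
    have hne' : y ≠ x := fun e => hxT (e ▸ hyT)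
    exact hno y hyT x (hEs hx) hxT (hE y hy x hx hne')
  have hC' := key C hC hCs
  have hD' := key D hD hDs
  by_cases hsT : s ∈ T
  · have h1 : ∀ x ∈ C, x ∈ T := by
      rcases hC' with h | h
      · exact h
      · exact absurd hcs (hno s hsT c (hCs hc) (h c hc))
    have h2 : ∀ x ∈ D, x ∈ T := by
      rcases hD' with h | h
      · exact h
      · exact absurd hds (hno s hsT d (hDs hd) (h d hd))
    apply hTB
    apply Finset.Subset.antisymm hT
    intro x hx
    rcases Finset.mem_insert.1 hx with hx | hx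
    · rw [hx]
      exact hsT
    · rcases Finset.mem_union.1 hx with hx | hx
      · exact h1 x hx
      · exact h2 x hx
  · have h1 : ∀ x ∈ C, x ∉ T := by
      rcases hC' with h | h
      · exact absurd hcs.symm (hno c (h c hc) s hs hsT)
      · exact h
    have h2 : ∀ x ∈ D, x ∉ T := by
      rcases hD' with h | h
      · exact absurd hds.symm (hno d (h d hd) s hs hsT)
      · exact h
    obtain ⟨x, hx⟩ := hTne
    rcases Finset.mem_insert.1 (hT hx) with hx' | hx'
    · exact hsT (hx' ▸ hx)
    · rcases Finset.mem_union.1 hx' with hx' | hx'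
      · exact h1 x hx' hx
      · exact h2 x hx' hx

/-- Hall's theorem at a maximum clique: `C` injects into `Q₂` along non-edges -/
theorem th_hall (G : SimpleGraph V) (K₁ K₂ Q : Finset V) (h1 : Cl G K₁) (h2 : Cl G K₂)
    (hd : Disjoint K₁ K₂) (hQ : Cl G Q) (hQs : Q ⊆ K₁ ∪ K₂)
    (hmax : ∀ R ⊆ K₁ ∪ K₂, Cl G R → R.card ≤ Q.card) :
    ∃ f : V → V, (∀ c ∈ K₁ \ Q, f c ∈ Q ∩ K₂ ∧ ¬ G.Adj c (f c)) ∧
      ∀ c ∈ K₁ \ Q, ∀ c' ∈ K₁ \ Q, f c = f c' → c = c' := by
  classical
  have hall := (Finset.all_card_le_biUnion_card_iff_exists_injective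
    (fun c : {x // x ∈ K₁ \ Q} => (Q ∩ K₂).filter fun q => ¬ G.Adj c q)).1 (by
    intro A
    set N := A.biUnion fun c : {x // x ∈ K₁ \ Q} => (Q ∩ K₂).filter fun q => ¬ G.Adj c q with hN
    set A' : Finset V := A.image Subtype.val with hA'
    have hA'c : A'.card = A.card := Finset.card_image_of_injective _ Subtype.val_injective
    have hA's : ∀ a ∈ A', a ∈ K₁ ∧ a ∉ Q := by
      intro a ha
      rw [hA', Finset.mem_image] at ha
      obtain ⟨x, _, hx⟩ := ha
      have := x.2
      rw [Finset.mem_sdiff, hx] at this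
      exact this
    have hNs : N ⊆ Q ∩ K₂ := by
      intro q hq
      rw [hN, Finset.mem_biUnion] at hq
      obtain ⟨c, _, hc⟩ := hq
      exact (Finset.mem_filter.1 hc).1
    have hQ1 : Q = (Q ∩ K₁) ∪ (Q ∩ K₂) := by
      ext x
      constructor
      · intro hx
        rcases Finset.mem_union.1 (hQs hx) with h | h
        · exact Finset.mem_union_left _ (Finset.mem_inter.2 ⟨hx, h⟩)
        · exact Finset.mem_union_right _ (Finset.mem_inter.2 ⟨hx, h⟩)
      · intro hx
        rcases Finset.mem_union.1 hx with h | h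
        · exact (Finset.mem_inter.1 h).1
        · exact (Finset.mem_inter.1 h).1
    have hQd : Disjoint (Q ∩ K₁) (Q ∩ K₂) :=
      hd.mono Finset.inter_subset_right Finset.inter_subset_right
    have hQcard : Q.card = (Q ∩ K₁).card + (Q ∩ K₂).card := by
      rw [← Finset.card_union_of_disjoint hQd, ← hQ1]
    have hR := hmax (((Q ∩ K₁) ∪ A') ∪ ((Q ∩ K₂) \ N)) (by
      intro x hx
      rcases Finset.mem_union.1 hx with h | h
      · rcases Finset.mem_union.1 h with h | h
        · exact Finset.mem_union_left _ (Finset.mem_inter.1 h).2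
        · exact Finset.mem_union_left _ (hA's x h).1
      · exact Finset.mem_union_right _ (Finset.mem_inter.1 (Finset.mem_sdiff.1 h).1).2) (by
      have hL : ∀ x ∈ (Q ∩ K₁) ∪ A', x ∈ K₁ := by
        intro x hx
        rcases Finset.mem_union.1 hx with h | h
        · exact (Finset.mem_inter.1 h).2
        · exact (hA's x h).1
      have hcross : ∀ x ∈ (Q ∩ K₁) ∪ A', ∀ y ∈ (Q ∩ K₂) \ N, G.Adj x y := by
        intro x hx y hy
        rw [Finset.mem_sdiff, Finset.mem_inter] at hy
        have hxy : x ≠ y := by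
          intro e
          exact Finset.disjoint_left.1 hd (hL x hx) (e ▸ hy.1.2)
        rcases Finset.mem_union.1 hx with h | h
        · exact hQ x (Finset.mem_inter.1 h).1 y hy.1.1 hxy
        · by_contra hno
          apply hy.2
          rw [hA', Finset.mem_image] at h
          obtain ⟨c, hc, hcx⟩ := h
          rw [hN, Finset.mem_biUnion]
          refine ⟨c, hc, Finset.mem_filter.2 ⟨Finset.mem_inter.2 hy.1, ?_⟩⟩
          rw [hcx]
          exact hno
      intro a ha b hb hab
      rcases Finset.mem_union.1 ha with ha | ha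
      · rcases Finset.mem_union.1 hb with hb | hb
        · exact h1 a (hL a ha) b (hL b hb) hab
        · exact hcross a ha b hb
      · rcases Finset.mem_union.1 hb with hb | hb
        · exact (hcross b hb a ha).symm
        · exact h2 a (Finset.mem_inter.1 (Finset.mem_sdiff.1 ha).1).2 b
            (Finset.mem_inter.1 (Finset.mem_sdiff.1 hb).1).2 hab)
    have hd1 : Disjoint (Q ∩ K₁) A' := by
      rw [Finset.disjoint_left]
      intro x hx hx'
      exact (hA's x hx').2 (Finset.mem_inter.1 hx).1
    have hd2 : Disjoint ((Q ∩ K₁) ∪ A') ((Q ∩ K₂) \ N) := by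
      rw [Finset.disjoint_left]
      intro x hx hx'
      have hx2 : x ∈ K₂ := (Finset.mem_inter.1 (Finset.mem_sdiff.1 hx').1).2
      rcases Finset.mem_union.1 hx with h | h
      · exact Finset.disjoint_left.1 hd (Finset.mem_inter.1 h).2 hx2
      · exact Finset.disjoint_left.1 hd (hA's x h).1 hx2
    rw [Finset.card_union_of_disjoint hd2, Finset.card_union_of_disjoint hd1, hA'c,
      Finset.card_sdiff_of_subset hNs, hQcard] at hR
    have hle := Finset.card_le_card hNs
    omega)
  obtain ⟨f, hf1, hf2⟩ := hall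
  refine ⟨fun v => if h : v ∈ K₁ \ Q then f ⟨v, h⟩ else v, ?_, ?_⟩
  · intro c hc
    simp only [hc, dif_pos]
    have h3 := Finset.mem_filter.1 (hf2 ⟨c, hc⟩)
    exact ⟨h3.1, h3.2⟩
  · intro c hc c' hc' h
    simp only [hc, hc', dif_pos] at h
    exact congrArg Subtype.val (hf1 h)

/-- two cliques are coloured with the vertices of a maximum clique -/
theorem th_perfect (G : SimpleGraph V) (K₁ K₂ Q : Finset V) (h1 : Cl G K₁) (h2 : Cl G K₂)
    (hd : Disjoint K₁ K₂) (hQ : Cl G Q) (hQs : Q ⊆ K₁ ∪ K₂)
    (hmax : ∀ R ⊆ K₁ ∪ K₂, Cl G R → R.card ≤ Q.card) : ThCol G (K₁ ∪ K₂) Q := by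
  classical
  obtain ⟨f, hf1, hf2⟩ := th_hall G K₁ K₂ Q h1 h2 hd hQ hQs hmax
  obtain ⟨g, hg1, hg2⟩ := th_hall G K₂ K₁ Q h2 h1 hd.symm hQ
    (by rw [Finset.union_comm]; exact hQs) (by rw [Finset.union_comm]; exact hmax)
  have dis : ∀ x, x ∈ K₁ → x ∈ K₂ → False := fun x hx hy => Finset.disjoint_left.1 hd hx hy
  refine ⟨fun v => if v ∈ Q then v else if v ∈ K₁ then f v else g v, ?_, ?_⟩
  · intro v hv
    by_cases hQv : v ∈ Q
    · simp only [hQv, if_true]
    · by_cases hK : v ∈ K₁
      · simp only [hQv, hK, if_true, if_false]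
        exact (Finset.mem_inter.1 (hf1 v (Finset.mem_sdiff.2 ⟨hK, hQv⟩)).1).1
      · simp only [hQv, hK, if_false]
        have hK2 : v ∈ K₂ := (Finset.mem_union.1 hv).resolve_left hK
        exact (Finset.mem_inter.1 (hg1 v (Finset.mem_sdiff.2 ⟨hK2, hQv⟩)).1).1
  · -- symmetric in a, b: prove a one-sided form
    have key : ∀ a ∈ K₁ ∪ K₂, ∀ b ∈ K₁ ∪ K₂, G.Adj a b →
        (if a ∈ Q then a else if a ∈ K₁ then f a else g a) =
          (if b ∈ Q then b else if b ∈ K₁ then f b else g b) → False := by
      intro a ha b hb hab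
      by_cases hQa : a ∈ Q
      · by_cases hQb : b ∈ Q
        · simp only [hQa, hQb, if_true]
          exact fun e => G.ne_of_adj hab e
        · by_cases hKb : b ∈ K₁
          · simp only [hQa, hQb, hKb, if_true, if_false]
            intro e
            have h3 := (hf1 b (Finset.mem_sdiff.2 ⟨hKb, hQb⟩)).2
            rw [← e] at h3
            exact h3 hab.symm
          · simp only [hQa, hQb, hKb, if_true, if_false]
            intro e
            have hK2 : b ∈ K₂ := (Finset.mem_union.1 hb).resolve_left hKb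
            have h3 := (hg1 b (Finset.mem_sdiff.2 ⟨hK2, hQb⟩)).2
            rw [← e] at h3
            exact h3 hab.symm
      · by_cases hKa : a ∈ K₁
        · have hfa := hf1 a (Finset.mem_sdiff.2 ⟨hKa, hQa⟩)
          by_cases hQb : b ∈ Q
          · simp only [hQa, hKa, hQb, if_true, if_false]
            intro e
            have h3 := hfa.2
            rw [e] at h3
            exact h3 hab
          · by_cases hKb : b ∈ K₁
            · simp only [hQa, hKa, hQb, hKb, if_true, if_false]
              intro e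
              exact G.ne_of_adj hab (hf2 a (Finset.mem_sdiff.2 ⟨hKa, hQa⟩) b
                (Finset.mem_sdiff.2 ⟨hKb, hQb⟩) e)
            · simp only [hQa, hKa, hQb, hKb, if_true, if_false]
              intro e
              have hK2 : b ∈ K₂ := (Finset.mem_union.1 hb).resolve_left hKb
              have h3 := (hg1 b (Finset.mem_sdiff.2 ⟨hK2, hQb⟩)).1
              rw [← e] at h3
              exact dis _ (Finset.mem_inter.1 h3).2 (Finset.mem_inter.1 hfa.1).2
        · have hK2 : a ∈ K₂ := (Finset.mem_union.1 ha).resolve_left hKa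
          have hga := hg1 a (Finset.mem_sdiff.2 ⟨hK2, hQa⟩)
          by_cases hQb : b ∈ Q
          · simp only [hQa, hKa, hQb, if_true, if_false]
            intro e
            have h3 := hga.2
            rw [e] at h3
            exact h3 hab
          · by_cases hKb : b ∈ K₁
            · simp only [hQa, hKa, hQb, hKb, if_true, if_false]
              intro e
              have h3 := (hf1 b (Finset.mem_sdiff.2 ⟨hKb, hQb⟩)).1
              rw [← e] at h3
              exact dis _ (Finset.mem_inter.1 hga.1).2 (Finset.mem_inter.1 h3).2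
            · simp only [hQa, hKa, hQb, hKb, if_false]
              intro e
              have hKb2 : b ∈ K₂ := (Finset.mem_union.1 hb).resolve_left hKb
              exact G.ne_of_adj hab (hg2 a (Finset.mem_sdiff.2 ⟨hK2, hQa⟩) b
                (Finset.mem_sdiff.2 ⟨hKb2, hQb⟩) e)
    intro a ha b hb hab e
    exact key a ha b hb hab e

/-- Case A: all vertices of `K₁` are in the maximum clique -/
theorem th_caseA (G : SimpleGraph V) (S K₁ K₂ Q : Finset V) (hS : St G S) (h2 : Cl G K₂)
    (hQ : Cl G Q) (hQs : Q ⊆ K₁ ∪ K₂) (hK₁ : K₁ ⊆ Q) (hC : (K₂ \ Q).Nonempty)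
    (hSQ : Disjoint S Q)
    (hno : ∀ s ∈ S, ∃ q ∈ Q, ¬ G.Adj s q)
    (hcrit : ∀ x ∈ S ∪ K₁ ∪ K₂, ThCol G ((S ∪ K₁ ∪ K₂).erase x) Q) :
    ThCol G (S ∪ K₁ ∪ K₂) Q ∨ ThOut G (S ∪ K₁ ∪ K₂) Q.card := by
  classical
  set C := K₂ \ Q with hCd
  set B := C ∪ S.filter (fun s => ∃ c ∈ C, G.Adj s c) with hB
  have hCc : Cl G C := fun a ha b hb hab =>
    h2 a (Finset.mem_sdiff.1 ha).1 b (Finset.mem_sdiff.1 hb).1 hab
  have hQX : Q ⊆ S ∪ K₁ ∪ K₂ := by
    intro x hx
    rcases Finset.mem_union.1 (hQs hx) with h | h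
    · exact Finset.mem_union_left _ (Finset.mem_union_right _ h)
    · exact Finset.mem_union_right _ h
  by_cases hall : ∀ q ∈ Q, ∃ b ∈ B, G.Adj q b
  · right
    refine ⟨Q, B, hQX, ?_, hQ, rfl, ?_, ?_, hall⟩
    · intro x hx
      rcases Finset.mem_union.1 hx with h | h
      · exact Finset.mem_union_right _ (Finset.mem_sdiff.1 h).1
      · exact Finset.mem_union_left _ (Finset.mem_union_left _ (Finset.mem_filter.1 h).1)
    · rw [Finset.disjoint_left]
      intro x hx hxB
      rcases Finset.mem_union.1 hxB with h | h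
      · exact (Finset.mem_sdiff.1 h).2 hx
      · exact Finset.disjoint_left.1 hSQ (Finset.mem_filter.1 h).1 hx
    · refine thConn_core hCc hC Finset.subset_union_left ?_
      intro b hb hbC
      rcases Finset.mem_union.1 hb with h | h
      · exact absurd h hbC
      · exact (Finset.mem_filter.1 h).2
  · left
    push Not at hall
    obtain ⟨k, hkQ, hk⟩ := hall
    obtain ⟨c₀, hc₀⟩ := hC
    have hkK₂ : k ∉ K₂ := by
      intro hkK
      have hne : k ≠ c₀ := fun e => (Finset.mem_sdiff.1 hc₀).2 (e ▸ hkQ)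
      exact hk c₀ (Finset.mem_union_left _ hc₀) (h2 k hkK c₀ (Finset.mem_sdiff.1 hc₀).1 hne)
    obtain ⟨φ, hφ1, hφ2⟩ := hcrit k (hQX hkQ)
    -- the missing colour
    have hinj : ∀ a ∈ Q.erase k, ∀ b ∈ Q.erase k, φ a = φ b → a = b := by
      intro a ha b hb hab
      by_contra hne
      have ha' := Finset.mem_erase.1 ha
      have hb' := Finset.mem_erase.1 hb
      exact hφ2 a (Finset.mem_erase.2 ⟨ha'.1, hQX ha'.2⟩) b (Finset.mem_erase.2 ⟨hb'.1, hQX hb'.2⟩)
        (hQ a ha'.2 b hb'.2 hne) hab
    have himg : ((Q.erase k).image φ).card < Q.card := by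
      calc ((Q.erase k).image φ).card ≤ (Q.erase k).card := Finset.card_image_le
        _ < Q.card := Finset.card_erase_lt_of_mem hkQ
    have hex : ∃ γ ∈ Q, γ ∉ (Q.erase k).image φ := by
      by_contra hcon
      push Not at hcon
      exact absurd (Finset.card_le_card (fun x hx => hcon x hx)) (not_le.2 himg)
    obtain ⟨γ, hγQ, hγ⟩ := hex
    have hγ' : ∀ q ∈ Q, q ≠ k → φ q ≠ γ := by
      intro q hq hqk e
      exact hγ (Finset.mem_image.2 ⟨q, Finset.mem_erase.2 ⟨hqk, hq⟩, e⟩)
    -- the choice of a non-neighbour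
    have hch : ∀ s : V, ∃ q : V, s ∈ S → q ∈ Q ∧ ¬ G.Adj s q := by
      intro s
      by_cases hs : s ∈ S
      · obtain ⟨q, hq1, hq2⟩ := hno s hs
        exact ⟨q, fun _ => ⟨hq1, hq2⟩⟩
      · exact ⟨s, fun h => absurd h hs⟩
    choose r hr using hch
    -- which vertices change
    have hmod : ∀ v, v ∈ S → φ v = γ → G.Adj v k → r v ∈ Q ∧ ¬ G.Adj v (r v) ∧ r v ≠ k := by
      intro v hvS _ hvk
      obtain ⟨h3, h4⟩ := hr v hvS
      exact ⟨h3, h4, fun e => h4 (e ▸ hvk)⟩
    have hXmem : ∀ v ∈ S ∪ K₁ ∪ K₂, v ∈ S ∨ v ∈ Q ∨ v ∈ C := by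
      intro v hv
      rcases Finset.mem_union.1 hv with h | h
      · rcases Finset.mem_union.1 h with h | h
        · exact Or.inl h
        · exact Or.inr (Or.inl (hK₁ h))
      · by_cases hq : v ∈ Q
        · exact Or.inr (Or.inl hq)
        · exact Or.inr (Or.inr (Finset.mem_sdiff.2 ⟨h, hq⟩))
    refine ⟨fun v => if v = k then γ else if v ∈ S ∧ φ v = γ ∧ G.Adj v k then φ (r v) else φ v,
      ?_, ?_⟩
    · intro v hv
      by_cases hvk : v = k
      · simp only [hvk, if_true]
        exact hγQ
      · by_cases hm : v ∈ S ∧ φ v = γ ∧ G.Adj v k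
        · simp only [hvk, hm, if_true, if_false, and_self]
          obtain ⟨h3, _, h5⟩ := hmod v hm.1 hm.2.1 hm.2.2
          exact hφ1 _ (Finset.mem_erase.2 ⟨h5, hQX h3⟩)
        · simp only [hvk, hm, if_false]
          exact hφ1 v (Finset.mem_erase.2 ⟨hvk, hv⟩)
    · have key1 : ∀ b ∈ S ∪ K₁ ∪ K₂, b ≠ k → G.Adj k b →
          γ = (if b ∈ S ∧ φ b = γ ∧ G.Adj b k then φ (r b) else φ b) → False := by
        intro b hb hbk hadj e
        by_cases hm : b ∈ S ∧ φ b = γ ∧ G.Adj b k
        · rw [if_pos hm] at e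
          obtain ⟨h3, _, h5⟩ := hmod b hm.1 hm.2.1 hm.2.2
          exact hγ' _ h3 h5 e.symm
        · rw [if_neg hm] at e
          rcases hXmem b hb with h | h | h
          · exact hm ⟨h, e.symm, hadj.symm⟩
          · exact hγ' b h hbk e.symm
          · exact hk b (Finset.mem_union_left _ h) hadj
      have key2 : ∀ a ∈ S ∪ K₁ ∪ K₂, ∀ b ∈ S ∪ K₁ ∪ K₂, a ≠ k → b ≠ k → G.Adj a b →
          (a ∈ S ∧ φ a = γ ∧ G.Adj a k) → ¬ (b ∈ S ∧ φ b = γ ∧ G.Adj b k) →
          φ (r a) = φ b → False := by
        intro a ha b hb hak hbk hadj hma hmb e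
        obtain ⟨h3, h4, h5⟩ := hmod a hma.1 hma.2.1 hma.2.2
        rcases hXmem b hb with h | h | h
        · exact hS a hma.1 b h hadj
        · have h6 := hinj _ (Finset.mem_erase.2 ⟨h5, h3⟩) b (Finset.mem_erase.2 ⟨hbk, h⟩) e
          exact h4 (h6 ▸ hadj)
        · have haB : a ∈ B := Finset.mem_union_right _ (Finset.mem_filter.2 ⟨hma.1, b, h, hadj⟩)
          exact hk a haB hma.2.2.symm
      intro a ha b hb hadj e
      by_cases hak : a = k
      · have hbk : b ≠ k := fun e' => G.ne_of_adj hadj (hak.trans e'.symm)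
        simp only [hak, hbk, if_true, if_false] at e
        rw [hak] at hadj
        exact key1 b hb hbk hadj e
      · by_cases hbk : b = k
        · simp only [hak, hbk, if_true, if_false] at e
          rw [hbk] at hadj
          exact key1 a ha hak hadj.symm e.symm
        · simp only [hak, hbk, if_false] at e
          by_cases hma : a ∈ S ∧ φ a = γ ∧ G.Adj a k
          · by_cases hmb : b ∈ S ∧ φ b = γ ∧ G.Adj b k
            · exact hS a hma.1 b hmb.1 hadj
            · rw [if_pos hma, if_neg hmb] at e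
              exact key2 a ha b hb hak hbk hadj hma hmb e
          · by_cases hmb : b ∈ S ∧ φ b = γ ∧ G.Adj b k
            · rw [if_neg hma, if_pos hmb] at e
              exact key2 b hb a ha hbk hak hadj.symm hmb hma e.symm
            · rw [if_neg hma, if_neg hmb] at e
              exact hφ2 a (Finset.mem_erase.2 ⟨hak, ha⟩) b (Finset.mem_erase.2 ⟨hbk, hb⟩) hadj e

/-- Case B: two colourings are put together -/
theorem th_glue (G : SimpleGraph V) (S C₁ C₂ Q₁ Q₂ S₁ S₂ : Finset V) (hS : St G S)
    (hS₁ : S₁ ⊆ S) (hS₂ : S₂ ⊆ S)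
    (hQ : Cl G (Q₁ ∪ Q₂)) (hQd : Disjoint Q₁ Q₂)
    (hrest : ∀ s ∈ S, s ∉ S₁ → s ∉ S₂ →
      (∃ q ∈ Q₁, ¬ G.Adj s q ∧ ∀ c ∈ C₂, ¬ G.Adj s c) ∨
      (∃ q ∈ Q₂, ¬ G.Adj s q ∧ ∀ c ∈ C₁, ¬ G.Adj s c))
    (hc1 : ThCol G (S₁ ∪ C₁ ∪ Q₂) Q₂) (hc2 : ThCol G (S₂ ∪ C₂ ∪ Q₁) Q₁) :
    ThCol G (S ∪ (Q₁ ∪ C₁) ∪ (Q₂ ∪ C₂)) (Q₁ ∪ Q₂) := by
  classical
  obtain ⟨φ, hφ1, hφ2⟩ := hc1
  obtain ⟨ψ, hψ1, hψ2⟩ := hc2
  have hdis : ∀ x, x ∈ Q₁ → x ∈ Q₂ → False := fun x hx hy => Finset.disjoint_left.1 hQd hx hy
  -- the colour of a remaining vertex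
  have hch : ∀ s : V, ∃ c : V, s ∈ S → s ∉ S₁ → s ∉ S₂ →
      (c ∈ Q₁ ∧ ∀ b ∈ C₂ ∪ Q₁, G.Adj s b → ψ b ≠ c) ∨
      (c ∈ Q₂ ∧ ∀ b ∈ C₁ ∪ Q₂, G.Adj s b → φ b ≠ c) := by
    intro s
    by_cases hs : s ∈ S ∧ s ∉ S₁ ∧ s ∉ S₂
    · rcases hrest s hs.1 hs.2.1 hs.2.2 with ⟨q, hq, hqa, hC⟩ | ⟨q, hq, hqa, hC⟩
      · refine ⟨ψ q, fun _ _ _ => Or.inl ⟨hψ1 q (Finset.mem_union_right _ hq), ?_⟩⟩
        intro b hb hadj
        rcases Finset.mem_union.1 hb with h | h
        · exact absurd hadj (hC b h)
        · have hne : b ≠ q := fun e => hqa (e ▸ hadj)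
          exact hψ2 b (Finset.mem_union_right _ h) q (Finset.mem_union_right _ hq)
            (hQ b (Finset.mem_union_left _ h) q (Finset.mem_union_left _ hq) hne)
      · refine ⟨φ q, fun _ _ _ => Or.inr ⟨hφ1 q (Finset.mem_union_right _ hq), ?_⟩⟩
        intro b hb hadj
        rcases Finset.mem_union.1 hb with h | h
        · exact absurd hadj (hC b h)
        · have hne : b ≠ q := fun e => hqa (e ▸ hadj)
          exact hφ2 b (Finset.mem_union_right _ h) q (Finset.mem_union_right _ hq)
            (hQ b (Finset.mem_union_right _ h) q (Finset.mem_union_right _ hq) hne)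
    · exact ⟨s, fun h1 h2 h3 => absurd ⟨h1, h2, h3⟩ hs⟩
  choose r hr using hch
  have hcases : ∀ v ∈ S ∪ (Q₁ ∪ C₁) ∪ (Q₂ ∪ C₂),
      (v ∈ S₁ ∪ C₁ ∪ Q₂) ∨ (v ∉ S₁ ∪ C₁ ∪ Q₂ ∧ v ∈ S₂ ∪ C₂ ∪ Q₁) ∨
      (v ∉ S₁ ∪ C₁ ∪ Q₂ ∧ v ∉ S₂ ∪ C₂ ∪ Q₁ ∧ v ∈ S ∧ v ∉ S₁ ∧ v ∉ S₂) := by
    intro v hv
    by_cases h1 : v ∈ S₁ ∪ C₁ ∪ Q₂
    · exact Or.inl h1
    · by_cases h2 : v ∈ S₂ ∪ C₂ ∪ Q₁
      · exact Or.inr (Or.inl ⟨h1, h2⟩)
      · refine Or.inr (Or.inr ⟨h1, h2, ?_, ?_, ?_⟩)
        · rcases Finset.mem_union.1 hv with h | h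
          · rcases Finset.mem_union.1 h with h | h
            · exact h
            · rcases Finset.mem_union.1 h with h | h
              · exact absurd (Finset.mem_union_right _ h) h2
              · exact absurd (Finset.mem_union_left _ (Finset.mem_union_right _ h)) h1
          · rcases Finset.mem_union.1 h with h | h
            · exact absurd (Finset.mem_union_right _ h) h1
            · exact absurd (Finset.mem_union_left _ (Finset.mem_union_right _ h)) h2
        · exact fun h => h1 (Finset.mem_union_left _ (Finset.mem_union_left _ h))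
        · exact fun h => h2 (Finset.mem_union_left _ (Finset.mem_union_left _ h))
  -- values
  set θ : V → V := fun v => if v ∈ S₁ ∪ C₁ ∪ Q₂ then φ v else if v ∈ S₂ ∪ C₂ ∪ Q₁ then ψ v else r v
    with hθ
  have e1 : ∀ v, v ∈ S₁ ∪ C₁ ∪ Q₂ → θ v = φ v := fun v h => by rw [hθ]; exact if_pos h
  have e2 : ∀ v, v ∉ S₁ ∪ C₁ ∪ Q₂ → v ∈ S₂ ∪ C₂ ∪ Q₁ → θ v = ψ v := fun v h h' => by
    rw [hθ]
    simp only [h, h', if_true, if_false]
  have e3 : ∀ v, v ∉ S₁ ∪ C₁ ∪ Q₂ → v ∉ S₂ ∪ C₂ ∪ Q₁ → θ v = r v := fun v h h' => by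
    rw [hθ]
    simp only [h, h', if_false]
  refine ⟨θ, ?_, ?_⟩
  · intro v hv
    rcases hcases v hv with h | ⟨h, h'⟩ | ⟨h, h', hs, hs1, hs2⟩
    · rw [e1 v h]
      exact Finset.mem_union_right _ (hφ1 v h)
    · rw [e2 v h h']
      exact Finset.mem_union_left _ (hψ1 v h')
    · rw [e3 v h h']
      rcases hr v hs hs1 hs2 with h3 | h3
      · exact Finset.mem_union_left _ h3.1
      · exact Finset.mem_union_right _ h3.1
  · -- a remaining vertex against any other vertex
    have keyR : ∀ a, a ∈ S → a ∉ S₁ → a ∉ S₂ →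
        ∀ b ∈ S ∪ (Q₁ ∪ C₁) ∪ (Q₂ ∪ C₂), G.Adj a b → θ b ≠ r a := by
      intro a ha ha1 ha2 b hb hadj
      have hbS : b ∉ S := fun h => hS a ha b h hadj
      rcases hcases b hb with h | ⟨h, h'⟩ | ⟨_, _, hs, _, _⟩
      · rw [e1 b h]
        have hb' : b ∈ C₁ ∪ Q₂ := by
          rcases Finset.mem_union.1 h with h | h
          · rcases Finset.mem_union.1 h with h | h
            · exact absurd (hS₁ h) hbS
            · exact Finset.mem_union_left _ h
          · exact Finset.mem_union_right _ h
        rcases hr a ha ha1 ha2 with h3 | h3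
        · intro e
          exact hdis _ h3.1 (e ▸ hφ1 b h)
        · exact h3.2 b hb' hadj
      · rw [e2 b h h']
        have hb' : b ∈ C₂ ∪ Q₁ := by
          rcases Finset.mem_union.1 h' with h | h
          · rcases Finset.mem_union.1 h with h | h
            · exact absurd (hS₂ h) hbS
            · exact Finset.mem_union_left _ h
          · exact Finset.mem_union_right _ h
        rcases hr a ha ha1 ha2 with h3 | h3
        · exact h3.2 b hb' hadj
        · intro e
          exact hdis _ (e ▸ hψ1 b h') h3.1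
      · exact absurd hs hbS
    intro a ha b hb hadj
    rcases hcases a ha with h | ⟨h, h'⟩ | ⟨h, h', hs, hs1, hs2⟩
    · rcases hcases b hb with g | ⟨g, g'⟩ | ⟨g, g', gs, gs1, gs2⟩
      · rw [e1 a h, e1 b g]
        exact hφ2 a h b g hadj
      · rw [e1 a h, e2 b g g']
        intro e
        exact hdis _ (hψ1 b g') (e ▸ hφ1 a h)
      · rw [e3 b g g']
        exact keyR b gs gs1 gs2 a ha hadj.symm
    · rcases hcases b hb with g | ⟨g, g'⟩ | ⟨g, g', gs, gs1, gs2⟩
      · rw [e2 a h h', e1 b g]
        intro e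
        exact hdis _ (hψ1 a h') (e ▸ hφ1 b g)
      · rw [e2 a h h', e2 b g g']
        exact hψ2 a h' b g' hadj
      · rw [e3 b g g']
        exact keyR b gs gs1 gs2 a ha hadj.symm
    · rw [e3 a h h']
      exact (keyR a hs hs1 hs2 b hb hadj).symm

/-- the parts of a maximum clique -/
theorem th_split (K₁ K₂ Q : Finset V) (hQs : Q ⊆ K₁ ∪ K₂) : (Q ∩ K₁) ∪ (Q ∩ K₂) = Q := by
  ext x
  constructor
  · intro hx
    rcases Finset.mem_union.1 hx with h | h
    · exact (Finset.mem_inter.1 h).1
    · exact (Finset.mem_inter.1 h).1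
  · intro hx
    rcases Finset.mem_union.1 (hQs hx) with h | h
    · exact Finset.mem_union_left _ (Finset.mem_inter.2 ⟨hx, h⟩)
    · exact Finset.mem_union_right _ (Finset.mem_inter.2 ⟨hx, h⟩)

theorem th_split' (K Q : Finset V) : (Q ∩ K) ∪ (K \ Q) = K := by
  ext x
  constructor
  · intro hx
    rcases Finset.mem_union.1 hx with h | h
    · exact (Finset.mem_inter.1 h).2
    · exact (Finset.mem_sdiff.1 h).1
  · intro hx
    by_cases h : x ∈ Q
    · exact Finset.mem_union_left _ (Finset.mem_inter.2 ⟨h, hx⟩)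
    · exact Finset.mem_union_right _ (Finset.mem_sdiff.2 ⟨hx, h⟩)

/-- a minor of one side together with the complete part of the clique -/
theorem th_join (G : SimpleGraph V) (S₁ C₁ Q₁ Q₂ X : Finset V)
    (hX1 : S₁ ∪ C₁ ∪ Q₂ ⊆ X) (hX2 : Q₁ ⊆ X) (hQ₁ : Cl G Q₁)
    (hfull : ∀ q ∈ Q₁, ∀ x ∈ S₁ ∪ C₁ ∪ Q₂, G.Adj q x)
    (hout : ThOut G (S₁ ∪ C₁ ∪ Q₂) Q₂.card) : ThOut G X (Q₁.card + Q₂.card) := by
  obtain ⟨R, B, h1, h2, h3, h4, h5, h6, h7⟩ := hout
  have hdis : ∀ q ∈ Q₁, q ∉ S₁ ∪ C₁ ∪ Q₂ := fun q hq hx => G.loopless.irrefl q (hfull q hq q hx)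
  refine ⟨Q₁ ∪ R, B, Finset.union_subset hX2 (h1.trans hX1), h2.trans hX1, ?_, ?_, ?_, h6, ?_⟩
  · intro a ha b hb hab
    rcases Finset.mem_union.1 ha with ha | ha
    · rcases Finset.mem_union.1 hb with hb | hb
      · exact hQ₁ a ha b hb hab
      · exact hfull a ha b (h1 hb)
    · rcases Finset.mem_union.1 hb with hb | hb
      · exact (hfull b hb a (h1 ha)).symm
      · exact h3 a ha b hb hab
  · rw [Finset.card_union_of_disjoint, h4]
    rw [Finset.disjoint_left]
    intro x hx hx'
    exact hdis x hx (h1 hx')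
  · rw [Finset.disjoint_left]
    intro x hx hx'
    rcases Finset.mem_union.1 hx with h | h
    · exact hdis x h (h2 hx')
    · exact Finset.disjoint_left.1 h5 h hx'
  · intro q hq
    rcases Finset.mem_union.1 hq with h | h
    · obtain ⟨b, hb⟩ := h6.1
      exact ⟨b, hb, hfull q h b (h2 hb)⟩
    · exact h7 q h

theorem th_main (G : SimpleGraph V) : ∀ (n : ℕ) (S K₁ K₂ P : Finset V),
    S.card + K₁.card + K₂.card ≤ n → Disjoint S K₁ → Disjoint S K₂ → Disjoint K₁ K₂ →
    St G S → Cl G K₁ → Cl G K₂ → ¬ ThCol G (S ∪ K₁ ∪ K₂) P →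
    ThOut G (S ∪ K₁ ∪ K₂) P.card := by
  classical
  intro n
  induction n with
  | zero =>
    intro S K₁ K₂ P hn _ _ _ _ _ _ hcol
    exfalso
    apply hcol
    have h1 : S = ∅ := Finset.card_eq_zero.1 (by omega)
    have h2 : K₁ = ∅ := Finset.card_eq_zero.1 (by omega)
    have h3 : K₂ = ∅ := Finset.card_eq_zero.1 (by omega)
    subst h1 h2 h3
    refine ⟨id, ?_, ?_⟩
    · intro v hv
      exact absurd hv (by rw [Finset.empty_union, Finset.empty_union]; exact Finset.notMem_empty v)
    · intro v hv
      exact absurd hv (by rw [Finset.empty_union, Finset.empty_union]; exact Finset.notMem_empty v)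
  | succ n ih =>
    intro S K₁ K₂ P hn hd1 hd2 hd hS hc1 hc2 hcol
    -- a maximum clique
    obtain ⟨Q, hQm, hQmax⟩ := Finset.exists_max_image
      ((K₁ ∪ K₂).powerset.filter fun R => Cl G R) Finset.card
      ⟨∅, Finset.mem_filter.2 ⟨Finset.empty_mem_powerset _, fun a ha =>
        absurd ha (Finset.notMem_empty a)⟩⟩
    have hQs : Q ⊆ K₁ ∪ K₂ := Finset.mem_powerset.1 (Finset.mem_filter.1 hQm).1
    have hQ : Cl G Q := (Finset.mem_filter.1 hQm).2
    have hmax : ∀ R ⊆ K₁ ∪ K₂, Cl G R → R.card ≤ Q.card := fun R hR hRc =>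
      hQmax R (Finset.mem_filter.2 ⟨Finset.mem_powerset.2 hR, hRc⟩)
    have hQX : Q ⊆ S ∪ K₁ ∪ K₂ := by
      intro x hx
      rcases Finset.mem_union.1 (hQs hx) with h | h
      · exact Finset.mem_union_left _ (Finset.mem_union_right _ h)
      · exact Finset.mem_union_right _ h
    have hSQ : Disjoint S Q := by
      rw [Finset.disjoint_left]
      intro x hx hx'
      rcases Finset.mem_union.1 (hQs hx') with h | h
      · exact Finset.disjoint_left.1 hd1 hx h
      · exact Finset.disjoint_left.1 hd2 hx h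
    have hperf := th_perfect G K₁ K₂ Q hc1 hc2 hd hQ hQs hmax
    -- the number of colours is at most the clique number
    have hPQ : P.card ≤ Q.card := by
      by_contra hlt
      push Not at hlt
      apply hcol
      rcases S.eq_empty_or_nonempty with hSe | ⟨s₀, hs₀⟩
      · rw [hSe, Finset.empty_union]
        exact thCol_transfer hperf hlt.le
      · obtain ⟨φ, h1, h2⟩ := hperf
        have hs₀Q : s₀ ∉ Q := Finset.disjoint_left.1 hSQ hs₀
        refine thCol_transfer (P := insert s₀ Q) ⟨fun v => if v ∈ S then s₀ else φ v, ?_, ?_⟩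
          (by rw [Finset.card_insert_of_notMem hs₀Q]; exact hlt)
        · intro v hv
          by_cases hvS : v ∈ S
          · simp only [hvS, if_true]
            exact Finset.mem_insert_self _ _
          · simp only [hvS, if_false]
            refine Finset.mem_insert_of_mem (h1 v ?_)
            rw [Finset.union_assoc] at hv
            exact (Finset.mem_union.1 hv).resolve_left hvS
        · intro a ha b hb hab e
          have hin : ∀ v ∈ S ∪ K₁ ∪ K₂, v ∉ S → v ∈ K₁ ∪ K₂ := by
            intro v hv hvS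
            rw [Finset.union_assoc] at hv
            exact (Finset.mem_union.1 hv).resolve_left hvS
          by_cases haS : a ∈ S
          · by_cases hbS : b ∈ S
            · exact hS a haS b hbS hab
            · simp only [haS, hbS, if_true, if_false] at e
              exact hs₀Q (e ▸ h1 b (hin b hb hbS))
          · by_cases hbS : b ∈ S
            · simp only [haS, hbS, if_true, if_false] at e
              exact hs₀Q (e ▸ h1 a (hin a ha haS))
            · simp only [haS, hbS, if_false] at e
              exact h2 a (hin a ha haS) b (hin b hb hbS) hab e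
    rcases Nat.lt_or_ge P.card Q.card with hlt | hge
    · -- a clique is enough
      obtain ⟨R, hRQ, hRc⟩ := Finset.exists_subset_card_eq (show P.card ≤ Q.card from hlt.le)
      have hne : (Q \ R).Nonempty := by
        rw [← Finset.card_pos, Finset.card_sdiff_of_subset hRQ]
        omega
      obtain ⟨b, hb⟩ := hne
      rw [Finset.mem_sdiff] at hb
      refine ⟨R, {b}, hRQ.trans hQX, Finset.singleton_subset_iff.2 (hQX hb.1), ?_, hRc, ?_,
        thConn_singleton G b, ?_⟩
      · exact fun x hx y hy hxy => hQ x (hRQ hx) y (hRQ hy) hxy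
      · rw [Finset.disjoint_singleton_right]
        exact hb.2
      · intro q hq
        exact ⟨b, Finset.mem_singleton_self b, hQ q (hRQ hq) b hb.1 (fun e => hb.2 (e ▸ hq))⟩
    · have hPQ' : P.card = Q.card := le_antisymm hPQ hge
      rw [hPQ']
      have hcolQ : ¬ ThCol G (S ∪ K₁ ∪ K₂) Q := fun h => hcol (thCol_transfer h hge)
      -- critical
      by_cases hcrit : ∀ x ∈ S ∪ K₁ ∪ K₂, ThCol G ((S ∪ K₁ ∪ K₂).erase x) Q
      swap
      · push Not at hcrit
        obtain ⟨x, hx, hxc⟩ := hcrit
        have hsub : S.erase x ∪ K₁.erase x ∪ K₂.erase x = (S ∪ K₁ ∪ K₂).erase x := by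
          rw [Finset.erase_union_distrib, Finset.erase_union_distrib]
        rw [← hsub] at hxc
        have hcard : (S.erase x).card + (K₁.erase x).card + (K₂.erase x).card ≤ n := by
          have h1 := Finset.card_erase_le (s := S) (a := x)
          have h2 := Finset.card_erase_le (s := K₁) (a := x)
          have h3 := Finset.card_erase_le (s := K₂) (a := x)
          rcases Finset.mem_union.1 hx with h | h
          · rcases Finset.mem_union.1 h with h | h
            · have := Finset.card_erase_lt_of_mem h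
              omega
            · have := Finset.card_erase_lt_of_mem h
              omega
          · have := Finset.card_erase_lt_of_mem h
            omega
        have hres := ih (S.erase x) (K₁.erase x) (K₂.erase x) Q hcard
          (hd1.mono (Finset.erase_subset _ _) (Finset.erase_subset _ _))
          (hd2.mono (Finset.erase_subset _ _) (Finset.erase_subset _ _))
          (hd.mono (Finset.erase_subset _ _) (Finset.erase_subset _ _))
          (fun a ha b hb => hS a (Finset.mem_of_mem_erase ha) b (Finset.mem_of_mem_erase hb))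
          (fun a ha b hb => hc1 a (Finset.mem_of_mem_erase ha) b (Finset.mem_of_mem_erase hb))
          (fun a ha b hb => hc2 a (Finset.mem_of_mem_erase ha) b (Finset.mem_of_mem_erase hb))
          hxc
        rw [hsub] at hres
        exact thOut_mono hres (Finset.erase_subset _ _)
      -- no stable vertex is complete to Q
      by_cases hno : ∀ s ∈ S, ∃ q ∈ Q, ¬ G.Adj s q
      swap
      · push Not at hno
        obtain ⟨s, hs, hsq⟩ := hno
        refine ⟨Q, {s}, hQX, ?_, hQ, rfl, ?_, thConn_singleton G s, ?_⟩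
        · exact Finset.singleton_subset_iff.2
            (Finset.mem_union_left _ (Finset.mem_union_left _ hs))
        · rw [Finset.disjoint_singleton_right]
          exact Finset.disjoint_left.1 hSQ hs
        · intro q hq
          exact ⟨s, Finset.mem_singleton_self s, (hsq q hq).symm⟩
      by_cases hC1 : K₁ ⊆ Q
      · by_cases hC2 : K₂ ⊆ Q
        · -- everything outside S is in Q
          exfalso
          apply hcolQ
          have hch : ∀ s : V, ∃ q : V, s ∈ S → q ∈ Q ∧ ¬ G.Adj s q := by
            intro s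
            by_cases hs : s ∈ S
            · obtain ⟨q, hq1, hq2⟩ := hno s hs
              exact ⟨q, fun _ => ⟨hq1, hq2⟩⟩
            · exact ⟨s, fun h => absurd h hs⟩
          choose r hr using hch
          have hin : ∀ v ∈ S ∪ K₁ ∪ K₂, v ∉ S → v ∈ Q := by
            intro v hv hvS
            rcases Finset.mem_union.1 hv with h | h
            · rcases Finset.mem_union.1 h with h | h
              · exact absurd h hvS
              · exact hC1 h
            · exact hC2 h
          refine ⟨fun v => if v ∈ S then r v else v, ?_, ?_⟩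
          · intro v hv
            by_cases hvS : v ∈ S
            · simp only [hvS, if_true]
              exact (hr v hvS).1
            · simp only [hvS, if_false]
              exact hin v hv hvS
          · intro a ha b hb hab e
            by_cases haS : a ∈ S
            · by_cases hbS : b ∈ S
              · exact hS a haS b hbS hab
              · simp only [haS, hbS, if_true, if_false] at e
                exact (hr a haS).2 (e ▸ hab)
            · by_cases hbS : b ∈ S
              · simp only [haS, hbS, if_true, if_false] at e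
                exact (hr b hbS).2 (e ▸ hab.symm)
              · simp only [haS, hbS, if_false] at e
                exact G.ne_of_adj hab e
        · -- case A
          have hC2' : (K₂ \ Q).Nonempty := by
            rw [Finset.sdiff_nonempty]
            exact hC2
          rcases th_caseA G S K₁ K₂ Q hS hc2 hQ hQs hC1 hC2' hSQ hno hcrit with h | h
          · exact absurd h hcolQ
          · exact h
      · have hC1' : (K₁ \ Q).Nonempty := by
          rw [Finset.sdiff_nonempty]
          exact hC1
        have hXc : S ∪ K₂ ∪ K₁ = S ∪ K₁ ∪ K₂ := by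
          rw [Finset.union_assoc, Finset.union_comm K₂ K₁, ← Finset.union_assoc]
        by_cases hC2 : K₂ ⊆ Q
        · rcases th_caseA G S K₂ K₁ Q hS hc1 hQ (by rw [Finset.union_comm]; exact hQs) hC2 hC1'
            hSQ hno (by rw [hXc]; exact hcrit) with h | h
          · rw [hXc] at h
            exact absurd h hcolQ
          · rw [hXc] at h
            exact h
        · -- case B
          have hC2' : (K₂ \ Q).Nonempty := by
            rw [Finset.sdiff_nonempty]
            exact hC2
          set C₁ := K₁ \ Q with hC₁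
          set C₂ := K₂ \ Q with hC₂
          have hC₁c : Cl G C₁ := fun a ha b hb hab =>
            hc1 a (Finset.mem_sdiff.1 ha).1 b (Finset.mem_sdiff.1 hb).1 hab
          have hC₂c : Cl G C₂ := fun a ha b hb hab =>
            hc2 a (Finset.mem_sdiff.1 ha).1 b (Finset.mem_sdiff.1 hb).1 hab
          have hC₁X : C₁ ⊆ S ∪ K₁ ∪ K₂ := fun x hx =>
            Finset.mem_union_left _ (Finset.mem_union_right _ (Finset.mem_sdiff.1 hx).1)
          have hC₂X : C₂ ⊆ S ∪ K₁ ∪ K₂ := fun x hx =>
            Finset.mem_union_right _ (Finset.mem_sdiff.1 hx).1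
          -- every vertex of Q sees C₁ or C₂
          have hsee : ∀ B : Finset V, C₁ ∪ C₂ ⊆ B → ∀ q ∈ Q, ∃ b ∈ B, G.Adj q b := by
            intro B hB q hq
            rcases Finset.mem_union.1 (hQs hq) with h | h
            · obtain ⟨c, hc⟩ := hC1'
              exact ⟨c, hB (Finset.mem_union_left _ hc), hc1 q h c (Finset.mem_sdiff.1 hc).1
                (fun e => (Finset.mem_sdiff.1 hc).2 (e ▸ hq))⟩
            · obtain ⟨c, hc⟩ := hC2'
              exact ⟨c, hB (Finset.mem_union_right _ hc), hc2 q h c (Finset.mem_sdiff.1 hc).1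
                (fun e => (Finset.mem_sdiff.1 hc).2 (e ▸ hq))⟩
          by_cases hB1 : ∃ c ∈ C₁, ∃ d ∈ C₂, G.Adj c d
          · obtain ⟨c, hc, d, hdd, hcd⟩ := hB1
            refine ⟨Q, C₁ ∪ C₂, hQX, Finset.union_subset hC₁X hC₂X, hQ, rfl, ?_,
              thConn_edge hC₁c hC₂c hc hdd hcd, hsee _ (Finset.Subset.refl _)⟩
            rw [Finset.disjoint_left]
            intro x hx hx'
            rcases Finset.mem_union.1 hx' with h | h
            · exact (Finset.mem_sdiff.1 h).2 hx
            · exact (Finset.mem_sdiff.1 h).2 hx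
          by_cases hB2 : ∃ s ∈ S, ∃ c ∈ C₁, ∃ d ∈ C₂, G.Adj s c ∧ G.Adj s d
          · obtain ⟨s, hs, c, hc, d, hdd, hsc, hsd⟩ := hB2
            refine ⟨Q, insert s (C₁ ∪ C₂), hQX, ?_, hQ, rfl, ?_,
              thConn_vertex hC₁c hC₂c hc hdd hsc hsd, hsee _ (Finset.subset_insert _ _)⟩
            · rw [Finset.insert_subset_iff]
              exact ⟨Finset.mem_union_left _ (Finset.mem_union_left _ hs),
                Finset.union_subset hC₁X hC₂X⟩
            · rw [Finset.disjoint_left]
              intro x hx hx'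
              rcases Finset.mem_insert.1 hx' with h | h
              · exact Finset.disjoint_left.1 hSQ hs (h ▸ hx)
              · rcases Finset.mem_union.1 h with h | h
                · exact (Finset.mem_sdiff.1 h).2 hx
                · exact (Finset.mem_sdiff.1 h).2 hx
          -- the two sides are independent
          set Q₁ := Q ∩ K₁ with hQ₁
          set Q₂ := Q ∩ K₂ with hQ₂
          have hQ₁₂ : Q₁ ∪ Q₂ = Q := th_split K₁ K₂ Q hQs
          have hQd : Disjoint Q₁ Q₂ := hd.mono Finset.inter_subset_right Finset.inter_subset_right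
          have hQc : Q.card = Q₁.card + Q₂.card := by
            rw [← Finset.card_union_of_disjoint hQd, hQ₁₂]
          set S₁ := S.filter (fun s => (∃ c ∈ C₁, G.Adj s c) ∧ ∀ q ∈ Q₁, G.Adj s q) with hS₁
          set S₂ := S.filter (fun s => (∃ c ∈ C₂, G.Adj s c) ∧ ∀ q ∈ Q₂, G.Adj s q) with hS₂
          have hrest : ∀ s ∈ S, s ∉ S₁ → s ∉ S₂ →
              (∃ q ∈ Q₁, ¬ G.Adj s q ∧ ∀ c ∈ C₂, ¬ G.Adj s c) ∨
              (∃ q ∈ Q₂, ¬ G.Adj s q ∧ ∀ c ∈ C₁, ¬ G.Adj s c) := by
            intro s hs h1 h2
            by_cases hn1 : ∃ c ∈ C₁, G.Adj s c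
            · have hn2 : ∀ c ∈ C₂, ¬ G.Adj s c := by
                intro d hdd hsd
                obtain ⟨c, hc, hsc⟩ := hn1
                exact hB2 ⟨s, hs, c, hc, d, hdd, hsc, hsd⟩
              left
              by_contra hcon
              push Not at hcon
              apply h1
              rw [hS₁, Finset.mem_filter]
              refine ⟨hs, hn1, ?_⟩
              intro q hq
              by_contra hsq
              obtain ⟨c, hc, hsc⟩ := hcon q hq hsq
              exact hn2 c hc hsc
            · by_cases hn2 : ∃ c ∈ C₂, G.Adj s c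
              · have hn1' : ∀ c ∈ C₁, ¬ G.Adj s c := fun c hc hsc => hn1 ⟨c, hc, hsc⟩
                right
                by_contra hcon
                push Not at hcon
                apply h2
                rw [hS₂, Finset.mem_filter]
                refine ⟨hs, hn2, ?_⟩
                intro q hq
                by_contra hsq
                obtain ⟨c, hc, hsc⟩ := hcon q hq hsq
                exact hn1' c hc hsc
              · obtain ⟨q, hq, hsq⟩ := hno s hs
                rw [← hQ₁₂] at hq
                rcases Finset.mem_union.1 hq with h | h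
                · exact Or.inl ⟨q, h, hsq, fun c hc hsc => hn2 ⟨c, hc, hsc⟩⟩
                · exact Or.inr ⟨q, h, hsq, fun c hc hsc => hn1 ⟨c, hc, hsc⟩⟩
          have hQ₁X : Q₁ ⊆ S ∪ K₁ ∪ K₂ := Finset.inter_subset_left.trans hQX
          have hQ₂X : Q₂ ⊆ S ∪ K₁ ∪ K₂ := Finset.inter_subset_left.trans hQX
          have hSX : S ⊆ S ∪ K₁ ∪ K₂ :=
            Finset.subset_union_left.trans Finset.subset_union_left
          by_cases hcol1 : ThCol G (S₁ ∪ C₁ ∪ Q₂) Q₂
          · by_cases hcol2 : ThCol G (S₂ ∪ C₂ ∪ Q₁) Q₁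
            · exfalso
              apply hcolQ
              have hglue := th_glue G S C₁ C₂ Q₁ Q₂ S₁ S₂ hS (Finset.filter_subset _ _)
                (Finset.filter_subset _ _) (by rw [hQ₁₂]; exact hQ) hQd hrest hcol1 hcol2
              rw [hQ₁₂, hQ₁, hQ₂, hC₁, hC₂, th_split', th_split'] at hglue
              exact hglue
            · have hcard : S₂.card + C₂.card + Q₁.card ≤ n := by
                have h1 : S₂.card ≤ S.card := Finset.card_le_card (Finset.filter_subset _ _)
                have h2 : C₂.card ≤ K₂.card := Finset.card_le_card Finset.sdiff_subset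
                have h3 : Q₁.card < K₁.card := by
                  refine Finset.card_lt_card (Finset.ssubset_iff_subset_ne.2
                    ⟨Finset.inter_subset_right, ?_⟩)
                  intro e
                  obtain ⟨c, hc⟩ := hC1'
                  have hcK := (Finset.mem_sdiff.1 hc).1
                  rw [← e] at hcK
                  exact (Finset.mem_sdiff.1 hc).2 (Finset.mem_inter.1 hcK).1
                omega
              have hfull : ∀ q ∈ Q₂, ∀ x ∈ S₂ ∪ C₂ ∪ Q₁, G.Adj q x := by
                intro q hq x hx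
                rcases Finset.mem_union.1 hx with h | h
                · rcases Finset.mem_union.1 h with h | h
                  · rw [hS₂, Finset.mem_filter] at h
                    exact (h.2.2 q hq).symm
                  · exact hc2 q (Finset.mem_inter.1 hq).2 x (Finset.mem_sdiff.1 h).1
                      (fun e => (Finset.mem_sdiff.1 h).2 (e ▸ (Finset.mem_inter.1 hq).1))
                · exact hQ q (Finset.mem_inter.1 hq).1 x (Finset.mem_inter.1 h).1
                    (fun e => Finset.disjoint_left.1 hQd h (e ▸ hq))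
              have hres := ih S₂ C₂ Q₁ Q₁ hcard
                (hd2.mono (Finset.filter_subset _ _) Finset.sdiff_subset)
                (hd1.mono (Finset.filter_subset _ _) Finset.inter_subset_right)
                (hd.symm.mono Finset.sdiff_subset Finset.inter_subset_right)
                (fun a ha b hb => hS a (Finset.filter_subset _ _ ha) b
                  (Finset.filter_subset _ _ hb))
                hC₂c
                (fun a ha b hb hab => hQ a (Finset.mem_inter.1 ha).1 b
                  (Finset.mem_inter.1 hb).1 hab)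
                hcol2
              have hj := th_join G S₂ C₂ Q₂ Q₁ (S ∪ K₁ ∪ K₂)
                (Finset.union_subset (Finset.union_subset
                  ((Finset.filter_subset _ _).trans hSX) hC₂X) hQ₁X) hQ₂X
                (fun a ha b hb hab => hQ a (Finset.mem_inter.1 ha).1 b
                  (Finset.mem_inter.1 hb).1 hab) hfull hres
              rw [hQc, Nat.add_comm]
              exact hj
          · have hcard : S₁.card + C₁.card + Q₂.card ≤ n := by
              have h1 : S₁.card ≤ S.card := Finset.card_le_card (Finset.filter_subset _ _)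
              have h2 : C₁.card ≤ K₁.card := Finset.card_le_card Finset.sdiff_subset
              have h3 : Q₂.card < K₂.card := by
                refine Finset.card_lt_card (Finset.ssubset_iff_subset_ne.2
                  ⟨Finset.inter_subset_right, ?_⟩)
                intro e
                obtain ⟨c, hc⟩ := hC2'
                have hcK := (Finset.mem_sdiff.1 hc).1
                rw [← e] at hcK
                exact (Finset.mem_sdiff.1 hc).2 (Finset.mem_inter.1 hcK).1
              omega
            have hfull : ∀ q ∈ Q₁, ∀ x ∈ S₁ ∪ C₁ ∪ Q₂, G.Adj q x := by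
              intro q hq x hx
              rcases Finset.mem_union.1 hx with h | h
              · rcases Finset.mem_union.1 h with h | h
                · rw [hS₁, Finset.mem_filter] at h
                  exact (h.2.2 q hq).symm
                · exact hc1 q (Finset.mem_inter.1 hq).2 x (Finset.mem_sdiff.1 h).1
                    (fun e => (Finset.mem_sdiff.1 h).2 (e ▸ (Finset.mem_inter.1 hq).1))
              · exact hQ q (Finset.mem_inter.1 hq).1 x (Finset.mem_inter.1 h).1
                  (fun e => Finset.disjoint_left.1 hQd hq (e ▸ h))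
            have hres := ih S₁ C₁ Q₂ Q₂ hcard
              (hd1.mono (Finset.filter_subset _ _) Finset.sdiff_subset)
              (hd2.mono (Finset.filter_subset _ _) Finset.inter_subset_right)
              (hd.mono Finset.sdiff_subset Finset.inter_subset_right)
              (fun a ha b hb => hS a (Finset.filter_subset _ _ ha) b
                (Finset.filter_subset _ _ hb))
              hC₁c
              (fun a ha b hb hab => hQ a (Finset.mem_inter.1 ha).1 b
                (Finset.mem_inter.1 hb).1 hab)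
              hcol1
            have hj := th_join G S₁ C₁ Q₁ Q₂ (S ∪ K₁ ∪ K₂)
              (Finset.union_subset (Finset.union_subset
                ((Finset.filter_subset _ _).trans hSX) hC₁X) hQ₂X) hQ₁X
              (fun a ha b hb hab => hQ a (Finset.mem_inter.1 ha).1 b
                (Finset.mem_inter.1 hb).1 hab) hfull hres
            rw [hQc]
            exact hj

/-- the cut form of connectedness -/
theorem thConn_connected {G : SimpleGraph V} {B : Finset V} (h : ThConn G B) :
    (G.induce (B : Set V)).Connected := by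
  classical
  obtain ⟨⟨b₀, hb₀⟩, hcut⟩ := h
  rw [SimpleGraph.connected_iff_exists_forall_reachable]
  refine ⟨⟨b₀, hb₀⟩, ?_⟩
  by_contra hcon
  push Not at hcon
  obtain ⟨⟨y, hy⟩, hyr⟩ := hcon
  set T : Finset V := B.filter fun v =>
    ∃ hv : v ∈ (B : Set V), (G.induce (B : Set V)).Reachable ⟨b₀, hb₀⟩ ⟨v, hv⟩ with hT
  have hb₀T : b₀ ∈ T := Finset.mem_filter.2 ⟨hb₀, hb₀, SimpleGraph.Reachable.refl _⟩
  have hyT : y ∉ T := by
    intro h
    obtain ⟨_, hv, hr⟩ := Finset.mem_filter.1 h
    exact hyr hr
  obtain ⟨a, ha, b, hb, hbT, hab⟩ := hcut T (Finset.filter_subset _ _) ⟨b₀, hb₀T⟩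
    (fun e => hyT (e ▸ hy))
  obtain ⟨_, hv, hr⟩ := Finset.mem_filter.1 ha
  apply hbT
  refine Finset.mem_filter.2 ⟨hb, hb, hr.trans ?_⟩
  have hadj : (G.induce (B : Set V)).Adj ⟨a, hv⟩ ⟨b, hb⟩ := hab
  exact hadj.reachable

end th

/-- **Hadwiger's conjecture for every graph whose vertex set is the union of a stable set and two
cliques.** -/
theorem temHad (V : Type) [Fintype V] [DecidableEq V] (G : SimpleGraph V) (hT : Tem G) :
    Had G := by
  classical
  obtain ⟨S₀, A₀, B₀, hcov, hS, hA, hB⟩ := hT
  intro k hk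
  rcases k with _ | w
  · exact ⟨fun i => i.elim0, fun i => i.elim0, fun i => i.elim0⟩
  have hncol : ¬ G.Colorable w := by
    intro h
    have h1 := h.chromaticNumber_le
    rw [hk] at h1
    have h2 : (w + 1 : ℕ) ≤ w := by exact_mod_cast h1
    omega
  have hwc : w ≤ Fintype.card V := by
    by_contra hcon
    push Not at hcon
    exact hncol ((SimpleGraph.colorable_of_fintype G).mono hcon.le)
  obtain ⟨P, _, hPc⟩ := Finset.exists_subset_card_eq
    (show w ≤ (Finset.univ : Finset V).card by rw [Finset.card_univ]; exact hwc)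
  set S : Finset V := S₀ \ (A₀ ∪ B₀) with hSd
  set K₂ : Finset V := B₀ \ A₀ with hK₂
  have hX : S ∪ A₀ ∪ K₂ = Finset.univ := by
    ext v
    simp only [Finset.mem_univ, iff_true]
    by_cases h1 : v ∈ A₀
    · exact Finset.mem_union_left _ (Finset.mem_union_right _ h1)
    · by_cases h2 : v ∈ B₀
      · exact Finset.mem_union_right _ (Finset.mem_sdiff.2 ⟨h2, h1⟩)
      · rcases hcov v with h | h | h
        · refine Finset.mem_union_left _ (Finset.mem_union_left _ (Finset.mem_sdiff.2 ⟨h, ?_⟩))
          intro h'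
          rcases Finset.mem_union.1 h' with h' | h'
          · exact h1 h'
          · exact h2 h'
        · exact absurd h h1
        · exact absurd h h2
  have hncol' : ¬ ThCol G (S ∪ A₀ ∪ K₂) P := by
    rintro ⟨φ, h1, h2⟩
    apply hncol
    have hin : ∀ v : V, v ∈ S ∪ A₀ ∪ K₂ := fun v => by
      rw [hX]
      exact Finset.mem_univ v
    have hcl := (SimpleGraph.Coloring.mk (G := G) (fun v => (⟨φ v, h1 v (hin v)⟩ : {x // x ∈ P}))
      (fun {a b} hab e => h2 a (hin a) b (hin b) hab (congrArg Subtype.val e))).colorable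
    rw [Fintype.card_coe, hPc] at hcl
    exact hcl
  have hout := th_main G _ S A₀ K₂ P le_rfl
    (by
      rw [Finset.disjoint_left]
      intro x hx hx'
      exact (Finset.mem_sdiff.1 hx).2 (Finset.mem_union_left _ hx'))
    (by
      rw [Finset.disjoint_left]
      intro x hx hx'
      exact (Finset.mem_sdiff.1 hx).2 (Finset.mem_union_right _ (Finset.mem_sdiff.1 hx').1))
    (by
      rw [Finset.disjoint_left]
      intro x hx hx'
      exact (Finset.mem_sdiff.1 hx').2 hx)
    (fun a ha b hb => hS a (Finset.mem_sdiff.1 ha).1 b (Finset.mem_sdiff.1 hb).1)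
    hA
    (fun a ha b hb hab => hB a (Finset.mem_sdiff.1 ha).1 b (Finset.mem_sdiff.1 hb).1 hab)
    hncol'
  obtain ⟨Q, B, _, _, hQ, hQc, hQB, hBc, hQBadj⟩ := hout
  have hcard : Fintype.card (Option {x // x ∈ Q}) = w + 1 := by
    rw [Fintype.card_option, Fintype.card_coe, hQc, hPc]
  set e := (Fintype.equivFinOfCardEq hcard).symm with he
  have hF1 : ∀ o : Option {x // x ∈ Q},
      (G.induce (o.elim (B : Set V) fun q => ({q.1} : Set V))).Connected := by
    intro o
    rcases o with _ | q
    · exact thConn_connected hBc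
    · have h1 := thConn_connected (thConn_singleton G q.1)
      rw [Finset.coe_singleton] at h1
      exact h1
  have hF2 : ∀ x y : Option {x // x ∈ Q}, x ≠ y →
      Disjoint (x.elim (B : Set V) fun q => ({q.1} : Set V))
        (y.elim (B : Set V) fun q => ({q.1} : Set V)) ∧
      ∃ a ∈ (x.elim (B : Set V) fun q => ({q.1} : Set V)),
        ∃ b ∈ (y.elim (B : Set V) fun q => ({q.1} : Set V)), G.Adj a b := by
    intro x y hxy
    rcases x with _ | q
    · rcases y with _ | r
      · exact absurd rfl hxy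
      · obtain ⟨b, hb, hadj⟩ := hQBadj r.1 r.2
        refine ⟨?_, b, hb, r.1, rfl, hadj.symm⟩
        exact Set.disjoint_singleton_right.2 fun h => Finset.disjoint_left.1 hQB r.2 h
    · rcases y with _ | r
      · obtain ⟨b, hb, hadj⟩ := hQBadj q.1 q.2
        refine ⟨?_, q.1, rfl, b, hb, hadj⟩
        exact Set.disjoint_singleton_left.2 fun h => Finset.disjoint_left.1 hQB q.2 h
      · have hne : q.1 ≠ r.1 := by
          intro h
          exact hxy (by rw [Subtype.ext h])
        refine ⟨?_, q.1, rfl, r.1, rfl, hQ q.1 q.2 r.1 r.2 hne⟩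
        exact Set.disjoint_singleton.2 hne
  exact ⟨fun i => (e i).elim (B : Set V) fun q => ({q.1} : Set V), fun i => hF1 (e i),
    fun i j hij => hF2 (e i) (e j) fun h => hij (e.injective h)⟩

end Pool.Agent.Lib.MP_534936_co.AQ
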