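import Pool.Agent.Lib.MP_534936_co.AQ.Defs

/-!
# L3: there is no third large clique
-/

namespace Pool.Agent.Lib.MP_534936_co.AQ

open Finset

section three

variable {V : Type} [Fintype V] [DecidableEq V]

omit [DecidableEq V] in
lemma three_mem_nb {G : SimpleGraph V} {x v : V} : v ∈ nb G x ↔ G.Adj x v := by
  simp [nb]

lemma three_mem_W {K₁ K₂ : Finset V} {v : V} : v ∈ W K₁ K₂ ↔ v ∉ K₁ ∧ v ∉ K₂ := by
  simp [W, not_or]

omit [Fintype V] in
lemma three_sdiff (A B : Finset V) : (A.card : ℝ) - B.card ≤ ((A \ B).card : ℝ) := by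
  have h := Finset.le_card_sdiff B A
  have h' : A.card ≤ (A \ B).card + B.card := by omega
  have h'' : (A.card : ℝ) ≤ (A \ B).card + B.card := by exact_mod_cast h'
  linarith

omit [Fintype V] in
/-- two cliques cannot meet `K₁`, `K₂` and a third set in many vertices -/
lemma three_contra [Fintype V] (h2 : L2) (G : SimpleGraph V) (J : ℕ) (t : ℝ)
    (K₁ K₂ K₃ A B : Finset V) (hP : Pair G J t K₁ K₂) (hA : Cl G A) (hB : Cl G B)
    (hK : ∀ v ∈ K₃, v ∉ K₁ ∧ v ∉ K₂)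
    (y1 : 2 * t + 2 * J ≤ (((A ∪ B) ∩ K₁).card : ℝ))
    (y2 : 2 * t + 2 * J ≤ (((A ∪ B) ∩ K₂).card : ℝ))
    (y3 : 2 * t ≤ (((A ∪ B) ∩ K₃).card : ℝ)) : False := by
  have key : ∀ A' B' : Finset V, A' ∪ B' = A ∪ B → Good2 G t K₁ K₂ A' B' → False := by
    intro A' B' hAB hg
    obtain ⟨-, -, ha, hb⟩ := hg
    have hsub : (A ∪ B) ∩ K₃ ⊆ (A' \ K₁) ∪ (B' \ K₂) := by
      intro v hv
      rw [← hAB] at hv
      rw [mem_inter, mem_union] at hv
      obtain ⟨hv, hv3⟩ := hv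
      have := hK v hv3
      rw [mem_union, mem_sdiff, mem_sdiff]
      tauto
    have hc : (((A ∪ B) ∩ K₃).card : ℝ) ≤ (A' \ K₁).card + (B' \ K₂).card := by
      exact_mod_cast (card_le_card hsub).trans (card_union_le _ _)
    linarith
  rcases h2 V G J t K₁ K₂ (A ∪ B) A B hP hA hB (fun v => mem_union) y1 y2 with h | h
  · exact key A B rfl h
  · exact key B A (union_comm _ _) h

theorem l3 (h0 : L0a) (h1 : L1) (h2 : L2) : L3 := by
  classical
  intro V _ _ G J t K₁ K₂ hG hP K₃ hK₃ hc₃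
  by_contra hlt
  push Not at hlt
  have hJ : (1 : ℝ) ≤ J := by exact_mod_cast hP.one_le
  have ht := hP.t_pos
  have hJt : t ≤ J * t := by nlinarith
  have hJJ : (J : ℝ) ≤ J * J := by nlinarith
  have hL1 := hP.large₁
  have hL2 := hP.large₂
  have hL3 := hlt
  simp only [LL] at hL1 hL2 hL3
  have hK3 : ∀ v ∈ K₃, v ∉ K₁ ∧ v ∉ K₂ := fun v hv => three_mem_W.1 (hK₃ hv)
  have hd31 : Disjoint K₃ K₁ := disjoint_left.2 fun v hv => (hK3 v hv).1
  have hd32 : Disjoint K₃ K₂ := disjoint_left.2 fun v hv => (hK3 v hv).2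
  have hd12 := hP.disj
  set f : ℝ := ff J t with hf
  have hfe : f = 8 * t + 8 * J := rfl
  have hf0 : 0 ≤ f := by rw [hfe]; nlinarith
  have e1 : ∀ c : ℝ, 40 * J * (t + J) ≤ c → J * f + t ≤ c := by
    intro c hc; rw [hfe]; nlinarith
  have e2 : ∀ c : ℝ, 40 * J * (t + J) ≤ c → 2 * J * f + J ≤ c := by
    intro c hc; rw [hfe]; nlinarith
  -- the removed sets
  set B12 := K₁.filter fun k => ((nb G k ∩ K₂).card : ℝ) ≤ f with hB12
  set B13 := K₁.filter fun k => ((nb G k ∩ K₃).card : ℝ) ≤ f with hB13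
  set B21 := K₂.filter fun k => ((nb G k ∩ K₁).card : ℝ) ≤ f with hB21
  set B23 := K₂.filter fun k => ((nb G k ∩ K₃).card : ℝ) ≤ f with hB23
  set B31 := K₃.filter fun k => ((nb G k ∩ K₁).card : ℝ) ≤ f with hB31
  set B32 := K₃.filter fun k => ((nb G k ∩ K₂).card : ℝ) ≤ f with hB32
  have c12 : (B12.card : ℝ) < J := by
    exact_mod_cast h1 V G J t f K₁ K₂ hP.typ₁ hP.one_le hf0 hd12.symm (e1 _ hL2) B12
      (filter_subset _ _) fun q hq => (mem_filter.1 hq).2
  have c13 : (B13.card : ℝ) < J := by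
    exact_mod_cast h1 V G J t f K₁ K₃ hP.typ₁ hP.one_le hf0 hd31 (e1 _ hL3) B13
      (filter_subset _ _) fun q hq => (mem_filter.1 hq).2
  have c21 : (B21.card : ℝ) < J := by
    exact_mod_cast h1 V G J t f K₂ K₁ hP.typ₂ hP.one_le hf0 hd12 (e1 _ hL1) B21
      (filter_subset _ _) fun q hq => (mem_filter.1 hq).2
  have c23 : (B23.card : ℝ) < J := by
    exact_mod_cast h1 V G J t f K₂ K₃ hP.typ₂ hP.one_le hf0 hd32 (e1 _ hL3) B23
      (filter_subset _ _) fun q hq => (mem_filter.1 hq).2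
  have c31 : (B31.card : ℝ) < 2 * t :=
    h0 V G J t f K₁ K₁ hP.typ₁ hP.one_le ht hf0 Subset.rfl (e2 _ hL1) B31
      (hd31.mono_left (filter_subset _ _)) fun q hq => (mem_filter.1 hq).2
  have c32 : (B32.card : ℝ) < 2 * t :=
    h0 V G J t f K₂ K₂ hP.typ₂ hP.one_le ht hf0 Subset.rfl (e2 _ hL2) B32
      (hd32.mono_left (filter_subset _ _)) fun q hq => (mem_filter.1 hq).2
  set R1 := B12 ∪ B13 with hR1
  set R2 := B21 ∪ B23 with hR2
  set R3 := B31 ∪ B32 with hR3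
  have r1 : (R1.card : ℝ) ≤ 2 * J := by
    have : (R1.card : ℝ) ≤ B12.card + B13.card := by exact_mod_cast card_union_le _ _
    linarith
  have r2 : (R2.card : ℝ) ≤ 2 * J := by
    have : (R2.card : ℝ) ≤ B21.card + B23.card := by exact_mod_cast card_union_le _ _
    linarith
  have r3 : (R3.card : ℝ) ≤ 4 * t := by
    have : (R3.card : ℝ) ≤ B31.card + B32.card := by exact_mod_cast card_union_le _ _
    linarith
  set X := (K₁ \ R1) ∪ ((K₂ \ R2) ∪ (K₃ \ R3)) with hX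
  have hX1 : K₁ \ R1 ⊆ X := subset_union_left
  have hX2 : K₂ \ R2 ⊆ X := subset_union_left.trans subset_union_right
  have hX3 : K₃ \ R3 ⊆ X := subset_union_right.trans subset_union_right
  have hne : X.Nonempty := by
    have h := three_sdiff K₁ R1
    have hpos : (0 : ℝ) < ((K₁ \ R1).card : ℝ) := by nlinarith
    have : 0 < (K₁ \ R1).card := by exact_mod_cast hpos
    exact (card_pos.1 this).mono hX1
  obtain ⟨u, hu, A, B, hA, hB, hAB⟩ := hG X hne
  -- the neighbours of `u` in a part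
  have nbr : ∀ P R : Finset V, P \ R ⊆ X →
      (((nb G u ∩ P).card : ℝ) - R.card ≤ (((A ∪ B) ∩ P).card : ℝ)) := by
    intro P R hPR
    have hsub : (nb G u ∩ P) \ R ⊆ (A ∪ B) ∩ P := by
      intro v hv
      rw [mem_sdiff, mem_inter] at hv
      obtain ⟨⟨hv, hvP⟩, hvR⟩ := hv
      rw [mem_inter, mem_union, hAB v]
      exact ⟨⟨hPR (mem_sdiff.2 ⟨hvP, hvR⟩), three_mem_nb.1 hv⟩, hvP⟩
    have h := three_sdiff (nb G u ∩ P) R
    have h' : ((((nb G u ∩ P) \ R).card : ℝ)) ≤ (((A ∪ B) ∩ P).card : ℝ) := by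
      exact_mod_cast card_le_card hsub
    linarith
  -- `u` is adjacent to everything else in its own clique
  have own : ∀ P : Finset V, Cl G P → u ∈ P → (P.card : ℝ) - 1 ≤ ((nb G u ∩ P).card : ℝ) := by
    intro P hP' huP
    have hsub : P.erase u ⊆ nb G u ∩ P := by
      intro v hv
      rw [mem_erase] at hv
      exact mem_inter.2 ⟨three_mem_nb.2 (hP' u huP v hv.2 (Ne.symm hv.1)), hv.2⟩
    have h := card_le_card hsub
    rw [card_erase_of_mem huP] at h
    have h' : P.card ≤ (nb G u ∩ P).card + 1 := by omega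
    have h'' : (P.card : ℝ) ≤ (nb G u ∩ P).card + 1 := by exact_mod_cast h'
    linarith
  have n1 := nbr K₁ R1 hX1
  have n2 := nbr K₂ R2 hX2
  have n3 := nbr K₃ R3 hX3
  have hfin := three_contra h2 G J t K₁ K₂ K₃ A B hP hA hB hK3
  have hu' : (u ∈ K₁ ∧ u ∉ R1) ∨ (u ∈ K₂ ∧ u ∉ R2) ∨ (u ∈ K₃ ∧ u ∉ R3) := by
    rw [hX, mem_union, mem_union, mem_sdiff, mem_sdiff, mem_sdiff] at hu
    exact hu
  rcases hu' with ⟨h, hr⟩ | ⟨h, hr⟩ | ⟨h, hr⟩
  · have o := own K₁ hP.cl₁ h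
    have g2 : f < ((nb G u ∩ K₂).card : ℝ) := by
      by_contra hcon
      exact hr (mem_union_left _ (mem_filter.2 ⟨h, not_lt.1 hcon⟩))
    have g3 : f < ((nb G u ∩ K₃).card : ℝ) := by
      by_contra hcon
      exact hr (mem_union_right _ (mem_filter.2 ⟨h, not_lt.1 hcon⟩))
    exact hfin (by nlinarith) (by nlinarith) (by nlinarith)
  · have o := own K₂ hP.cl₂ h
    have g1 : f < ((nb G u ∩ K₁).card : ℝ) := by
      by_contra hcon
      exact hr (mem_union_left _ (mem_filter.2 ⟨h, not_lt.1 hcon⟩))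
    have g3 : f < ((nb G u ∩ K₃).card : ℝ) := by
      by_contra hcon
      exact hr (mem_union_right _ (mem_filter.2 ⟨h, not_lt.1 hcon⟩))
    exact hfin (by nlinarith) (by nlinarith) (by nlinarith)
  · have o := own K₃ hc₃ h
    have g1 : f < ((nb G u ∩ K₁).card : ℝ) := by
      by_contra hcon
      exact hr (mem_union_left _ (mem_filter.2 ⟨h, not_lt.1 hcon⟩))
    have g2 : f < ((nb G u ∩ K₂).card : ℝ) := by
      by_contra hcon
      exact hr (mem_union_right _ (mem_filter.2 ⟨h, not_lt.1 hcon⟩))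
    exact hfin (by nlinarith) (by nlinarith) (by nlinarith)

end three

end Pool.Agent.Lib.MP_534936_co.AQ
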