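import Pool.Agent.Lib.MP_534936_co.AQ.Local
import Pool.Agent.Lib.MP_534936_co.AQ.Three
import Pool.Agent.Lib.MP_534936_co.AQ.Key
import Pool.Agent.Lib.MP_534936_co.AQ.EdgeS
import Pool.Agent.Lib.MP_534936_co.AQ.EdgeK
import Pool.Agent.Lib.MP_534936_co.AQ.Structure
import Pool.Agent.Lib.MP_534936_co.AQ.Cliques
import Pool.Agent.Lib.MP_534936_co.AQ.R1
import Pool.Agent.Lib.MP_534936_co.AQ.R2
import Pool.Agent.Lib.MP_534936_co.AQ.R3
import Pool.Agent.Lib.MP_534936_co.AQ.R4a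
import Pool.Agent.Lib.MP_534936_co.AQ.R4b
import Pool.Agent.Lib.MP_534936_co.AQ.R4e
import Pool.Agent.Lib.MP_534936_co.AQ.Ratio
import Pool.Agent.Lib.MP_534936_co.AQ.TemHad
import Pool.Agent.Lib.MP_534936_co.AQ.Assembly

/-!
# Almost all generalized quasi-line graphs satisfy Hadwiger's conjecture: main theorem
-/

namespace Pool.Agent.Lib.MP_534936_co.AQ

/-- almost all generalized quasi-line graphs are a stable set and two cliques -/
theorem main_tem :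
    ∃ c : ℝ, 0 < c ∧ ∃ N : ℕ, ∀ n ≥ N,
      (num n (fun G => ¬ Tem G) : ℝ) ≤ (2 : ℝ) ^ (-(c * n)) * gg n := by
  have h3 : L3 := l3 l0a l1 l2
  have h4 : L4 := l4 l0a l1 l2 h3
  have h5 : L5 := l5 l1 l2
  have h6 : L6 := l6 l0a l1 l2
  have h7 : L7 := l7 l0b h4 h5 h6
  exact tem_of bR1 bR2 bR3 bR4a bR4b bR4e l10 h7 temGQ ratio

/-- the strong form -/
theorem main :
    ∃ c : ℝ, 0 < c ∧ ∃ N : ℕ, ∀ n ≥ N,
      (num n (fun G => ¬ (Tem G ∧ Had G)) : ℝ) ≤ (2 : ℝ) ^ (-(c * n)) * gg n := by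
  obtain ⟨c, hc, N, h⟩ := main_tem
  refine ⟨c, hc, N, fun n hn => le_trans ?_ (h n hn)⟩
  exact Nat.cast_le.2 (num_mono fun G _ h1 h2 => h1 ⟨h2, temHad (Fin n) G h2⟩)

end Pool.Agent.Lib.MP_534936_co.AQ
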