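import Mathlib
import Pool.Agent.Lib.MP_534936_co.AQ.Encode

/-!
# Few graphs have an untypical vertex next to a clique
-/

namespace Pool.Agent.Lib.MP_534936_co.AQ

open Finset

/-- a small set -/
def r4a_mk {t : ℝ} {n : ℕ} (Z : Finset (Fin n)) (h : (Z.card : ℝ) ≤ t * n) : Small t n :=
  Subtype.mk Z h

/-- the set -/
def r4a_set {t : ℝ} {n : ℕ} (Z : Small t n) : Finset (Fin n) := Subtype.val Z

theorem r4a_set_mk {t : ℝ} {n : ℕ} (Z : Finset (Fin n)) (h : (Z.card : ℝ) ≤ t * n) :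
    r4a_set (r4a_mk Z h) = Z := rfl

/-- the data: two small sets for each clique, the exceptions in the cliques, one bit -/
abbrev r4a_D (t : ℝ) (n : ℕ) : Type :=
  Small t n × Small t n × Small t n × Small t n × Small t n × Small t n × Bool

/-- the clique known from the rest of the graph and two small sets -/
noncomputable def r4a_kn {n : ℕ} (ρ : SimpleGraph (Fin n)) (P Z : Finset (Fin n)) :
    Finset (Fin n) := P ∪ (Cm ρ P \ Z)

/-- the graphs with given data -/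
def r4a_P (c : ℝ) {t : ℝ} {n : ℕ} (S : Finset (Fin n)) (d : r4a_D t n)
    (G : SimpleGraph (Fin n)) : Prop :=
  ∃ w, S = {w} ∧
    (∀ v ∈ r4a_kn (res S G) (r4a_set d.1) (r4a_set d.2.1),
      (v ∈ nb G w ↔ v ∉ r4a_set d.2.2.2.2.1)) ∧
    (∀ v ∈ r4a_kn (res S G) (r4a_set d.2.2.1) (r4a_set d.2.2.2.1),
      (v ∈ nb G w ↔ (v ∈ r4a_set d.2.2.2.2.2.1 ↔ d.2.2.2.2.2.2 = true))) ∧
    ((Finset.univ \ (r4a_kn (res S G) (r4a_set d.1) (r4a_set d.2.1) ∪
      r4a_kn (res S G) (r4a_set d.2.2.1) (r4a_set d.2.2.2.1))).card : ℝ) ≤ c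

open Classical in
theorem r4a_count (c : ℝ) {t : ℝ} {n : ℕ} (S : Finset (Fin n)) (d : r4a_D t n)
    (ρ : SimpleGraph (Fin n)) :
    ((Finset.univ.filter fun G : SimpleGraph (Fin n) =>
      GQ G ∧ r4a_P c S d G ∧ res S G = ρ).card : ℝ) ≤ (2 : ℝ) ^ c := by
  rcases (Finset.univ.filter fun G : SimpleGraph (Fin n) =>
      GQ G ∧ r4a_P c S d G ∧ res S G = ρ).eq_empty_or_nonempty with h0 | ⟨G₀, hG₀⟩
  · rw [h0, Finset.card_empty, Nat.cast_zero]
    positivity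
  · rw [Finset.mem_filter] at hG₀
    obtain ⟨-, -, ⟨w, hw, -, -, h3⟩, hρ⟩ := hG₀
    rw [hρ] at h3
    have key := card_le_two_pow
      (Finset.univ.filter fun G : SimpleGraph (Fin n) => GQ G ∧ r4a_P c S d G ∧ res S G = ρ)
      (Finset.univ \ (r4a_kn ρ (r4a_set d.1) (r4a_set d.2.1) ∪
        r4a_kn ρ (r4a_set d.2.2.1) (r4a_set d.2.2.2.1)))
      (fun G => nb G w ∩ (Finset.univ \ (r4a_kn ρ (r4a_set d.1) (r4a_set d.2.1) ∪
        r4a_kn ρ (r4a_set d.2.2.1) (r4a_set d.2.2.2.1)))) ?_ ?_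
    · refine le_trans ?_ (two_pow_card_le _ h3)
      exact_mod_cast key
    · intro G hG G' hG' heq
      rw [Finset.mem_coe, Finset.mem_filter] at hG hG'
      obtain ⟨-, -, ⟨w1, hw1, a1, a2, -⟩, hr⟩ := hG
      obtain ⟨-, -, ⟨w2, hw2, b1, b2, -⟩, hr'⟩ := hG'
      have e1 : w1 = w := by
        have h := hw1.symm.trans hw
        exact Finset.singleton_injective h
      have e2 : w2 = w := by
        have h := hw2.symm.trans hw
        exact Finset.singleton_injective h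
      subst e1
      rw [e2] at b1 b2
      rw [hr] at a1 a2
      rw [hr'] at b1 b2
      apply eq_of_res (hr.trans hr'.symm)
      intro s hs
      rw [hw, Finset.mem_singleton] at hs
      subst hs
      ext v
      by_cases hv1 : v ∈ r4a_kn ρ (r4a_set d.1) (r4a_set d.2.1)
      · rw [a1 v hv1, b1 v hv1]
      by_cases hv2 : v ∈ r4a_kn ρ (r4a_set d.2.2.1) (r4a_set d.2.2.2.1)
      · rw [a2 v hv2, b2 v hv2]
      have hT : v ∈ Finset.univ \ (r4a_kn ρ (r4a_set d.1) (r4a_set d.2.1) ∪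
          r4a_kn ρ (r4a_set d.2.2.1) (r4a_set d.2.2.2.1)) := by
        rw [Finset.mem_sdiff, Finset.mem_union]
        exact ⟨Finset.mem_univ _, fun h => h.elim hv1 hv2⟩
      have h5 := Finset.ext_iff.mp heq v
      constructor
      · intro h
        exact (Finset.mem_inter.mp (h5.mp (Finset.mem_inter.mpr ⟨h, hT⟩))).1
      · intro h
        exact (Finset.mem_inter.mp (h5.mpr (Finset.mem_inter.mpr ⟨h, hT⟩))).1
    · intro G _
      exact Finset.inter_subset_right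

/-- the size of the unknown part -/
theorem r4a_rest {ε : ℝ} {n : ℕ} {K₁ K₂ : Finset (Fin n)} (w : Fin n)
    (h : ((W K₁ K₂).card : ℝ) ≤ (1 / 3 + 40 * ε) * n) :
    ((Finset.univ \ ((K₁ \ {w}) ∪ (K₂ \ {w}))).card : ℝ) ≤ (1 / 3 + 40 * ε) * n + 1 := by
  have h1 : Finset.univ \ ((K₁ \ {w}) ∪ (K₂ \ {w})) ⊆ insert w (W K₁ K₂) := by
    intro v hv
    rw [Finset.mem_sdiff, Finset.mem_union, Finset.mem_sdiff, Finset.mem_sdiff,
      Finset.mem_singleton] at hv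
    rw [Finset.mem_insert, mem_W]
    by_cases hvw : v = w
    · exact Or.inl hvw
    · exact Or.inr ⟨fun h1 => hv.2 (Or.inl ⟨h1, hvw⟩), fun h1 => hv.2 (Or.inr ⟨h1, hvw⟩)⟩
  have h2 := (Finset.card_le_card h1).trans (Finset.card_insert_le _ _)
  have h3 : ((Finset.univ \ ((K₁ \ {w}) ∪ (K₂ \ {w}))).card : ℝ) ≤ (W K₁ K₂).card + 1 := by
    exact_mod_cast h2
  linarith

theorem r4a_card {t : ℝ} {n : ℕ}
    (h : (Fintype.card (Small t n) : ℝ) ≤ (2 : ℝ) ^ ((1 / 100 : ℝ) * n)) :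
    (Fintype.card (r4a_D t n) : ℝ) ≤ 2 * (2 : ℝ) ^ ((6 / 100 : ℝ) * n) := by
  have h2 : (Fintype.card (r4a_D t n) : ℝ) = 2 * (Fintype.card (Small t n) : ℝ) ^ 6 := by
    simp only [r4a_D, Fintype.card_prod, Fintype.card_bool]
    push_cast
    ring
  have h3 : (Fintype.card (Small t n) : ℝ) ^ 6 ≤ ((2 : ℝ) ^ ((1 / 100 : ℝ) * n)) ^ 6 :=
    pow_le_pow_left₀ (Nat.cast_nonneg _) h 6
  have h4 : ((2 : ℝ) ^ ((1 / 100 : ℝ) * n)) ^ 6 = (2 : ℝ) ^ ((6 / 100 : ℝ) * n) := by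
    rw [← Real.rpow_natCast, ← Real.rpow_mul (by norm_num)]
    congr 1
    push_cast
    ring
  rw [h4] at h3
  rw [h2]
  linarith

/-- Few graphs have an untypical vertex. -/
theorem bR4a : BR4a := by
  obtain ⟨t₀, ht₀, hS⟩ := card_Small (show (0 : ℝ) < 1 / 100 by norm_num)
  refine ⟨min (t₀ / 22) (1 / 1000), lt_min (by positivity) (by norm_num),
    fun κ θ ε _ hκ₀ _ hθ₀ hε hε₀ K hK => ?_⟩
  have hκ1 : κ ≤ t₀ := (hκ₀.trans (min_le_left _ _)).trans (by linarith)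
  have hθ1 : θ ≤ t₀ := (hθ₀.trans (min_le_left _ _)).trans (by linarith)
  have hε2 : 22 * ε ≤ t₀ := by
    have := hε₀.trans (min_le_left _ _)
    linarith
  have hε1 : ε ≤ 1 / 1000 := hε₀.trans (min_le_right _ _)
  obtain ⟨N₁, hN₁⟩ := encode hε hε1 K 1 hK
  obtain ⟨N₂, hN₂⟩ := parts hε K
  have ha : 1 / 3 + 40 * ε + 6 / 100 < 2 * ((1 : ℕ) : ℝ) / 3 := by
    push_cast
    linarith
  refine rare_of (k := 1) (j := 1) (A := 4) one_pos ha (max N₁ N₂) (fun n hn _ => ?_)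
  have hn1 : n ≥ N₁ := le_trans (le_max_left _ _) hn
  have hn2 : n ≥ N₂ := le_trans (le_max_right _ _) hn
  have hn0 : (0 : ℝ) ≤ n := Nat.cast_nonneg n
  have hu : ∀ s : ℝ, s ≤ t₀ → s * n ≤ t₀ * n := fun s hs => mul_le_mul_of_nonneg_right hs hn0
  have heng := engine (n := n) (k := 1) (D := r4a_D t₀ n) (R4a ε κ θ K n)
    (fun S d G => r4a_P ((1 / 3 + 40 * ε) * n + 1) S d G)
    ((2 : ℝ) ^ ((1 / 3 + 40 * ε) * n + 1)) (by positivity) ?_
    (fun S _ d ρ => r4a_count _ S d ρ)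
  · refine heng.trans ?_
    apply mul_le_mul_of_nonneg_right _ (Nat.cast_nonneg _)
    have hM : (2 : ℝ) ^ ((1 / 3 + 40 * ε) * n + 1) = 2 * (2 : ℝ) ^ ((1 / 3 + 40 * ε) * n) := by
      rw [Real.rpow_add (by norm_num), Real.rpow_one]
      ring
    have hsplit : (2 : ℝ) ^ ((1 / 3 + 40 * ε + 6 / 100) * n) =
        (2 : ℝ) ^ ((1 / 3 + 40 * ε) * n) * (2 : ℝ) ^ ((6 / 100 : ℝ) * n) := by
      rw [← Real.rpow_add (by norm_num)]
      congr 1
      ring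
    have hc := r4a_card (hS t₀ le_rfl n)
    rw [hM, hsplit]
    have hX : (0 : ℝ) ≤ 2 * (2 : ℝ) ^ ((1 / 3 + 40 * ε) * n) := by positivity
    have hnn : (0 : ℝ) ≤ (n : ℝ) ^ 1 := by positivity
    calc (n : ℝ) ^ 1 * (Fintype.card (r4a_D t₀ n) : ℝ) * (2 * (2 : ℝ) ^ ((1 / 3 + 40 * ε) * n))
        ≤ (n : ℝ) ^ 1 * (2 * (2 : ℝ) ^ ((6 / 100 : ℝ) * n)) *
          (2 * (2 : ℝ) ^ ((1 / 3 + 40 * ε) * n)) :=
          mul_le_mul_of_nonneg_right (mul_le_mul_of_nonneg_left hc hnn) hX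
      _ = _ := by ring
  · intro G _ hG
    obtain ⟨hR, K₁, K₂, hGP, w, _, hθw, hor⟩ := hG
    obtain ⟨P1, Z1, hP1, hZ1, e1⟩ := hN₁ n hn1 G hR K₁ hGP.1 hGP.2.2.2.1 {w} (by simp)
    obtain ⟨P2, Z2, hP2, hZ2, e2⟩ := hN₁ n hn1 G hR K₂ hGP.2.1 hGP.2.2.2.2 {w} (by simp)
    have hW := r4a_rest w (hN₂ n hn2 G hR K₁ K₂ hGP).2.2.1
    have hA : ∀ v ∈ r4a_kn (res {w} G) P1 Z1, (v ∈ nb G w ↔ v ∉ K₁ \ nb G w) := by
      intro v hv
      have hv1 : v ∈ K₁ \ {w} := by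
        rw [e1]
        exact hv
      have hv2 := (Finset.mem_sdiff.mp hv1).1
      constructor
      · intro h h2
        exact (Finset.mem_sdiff.mp h2).2 h
      · intro h
        by_contra hc
        exact h (Finset.mem_sdiff.mpr ⟨hv2, hc⟩)
    have hrest : ((Finset.univ \ (r4a_kn (res {w} G) P1 Z1 ∪
        r4a_kn (res {w} G) P2 Z2)).card : ℝ) ≤ (1 / 3 + 40 * ε) * n + 1 := by
      have h1 : r4a_kn (res {w} G) P1 Z1 = K₁ \ {w} := e1.symm
      have h2 : r4a_kn (res {w} G) P2 Z2 = K₂ \ {w} := e2.symm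
      rw [h1, h2]
      exact hW
    have hK2 : ∀ v ∈ r4a_kn (res {w} G) P2 Z2, v ∈ K₂ := by
      intro v hv
      have hv1 : v ∈ K₂ \ {w} := by
        rw [e2]
        exact hv
      exact (Finset.mem_sdiff.mp hv1).1
    rcases hor with hB | hB
    · refine ⟨{w}, Finset.card_singleton w,
        (r4a_mk P1 (hP1.trans (hu _ hε2)), r4a_mk Z1 (hZ1.trans (hu _ hε2)),
          r4a_mk P2 (hP2.trans (hu _ hε2)), r4a_mk Z2 (hZ2.trans (hu _ hε2)),
          r4a_mk (K₁ \ nb G w) (hθw.trans (hu _ hθ1)),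
          r4a_mk (K₂ \ nb G w) (hB.le.trans (hu _ hκ1)), false), w, rfl, hA, ?_, hrest⟩
      intro v hv
      have hv2 := hK2 v hv
      show v ∈ nb G w ↔ (v ∈ K₂ \ nb G w ↔ false = true)
      rw [Finset.mem_sdiff]
      simp only [hv2, true_and, Bool.false_eq_true, iff_false, not_not]
    · refine ⟨{w}, Finset.card_singleton w,
        (r4a_mk P1 (hP1.trans (hu _ hε2)), r4a_mk Z1 (hZ1.trans (hu _ hε2)),
          r4a_mk P2 (hP2.trans (hu _ hε2)), r4a_mk Z2 (hZ2.trans (hu _ hε2)),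
          r4a_mk (K₁ \ nb G w) (hθw.trans (hu _ hθ1)),
          r4a_mk (K₂ ∩ nb G w) (hB.le.trans (hu _ hκ1)), true), w, rfl, hA, ?_, hrest⟩
      intro v hv
      have hv2 := hK2 v hv
      show v ∈ nb G w ↔ (v ∈ K₂ ∩ nb G w ↔ true = true)
      rw [Finset.mem_inter]
      simp only [hv2, true_and, iff_true]

end Pool.Agent.Lib.MP_534936_co.AQ
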